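import Pool.Agent.RHO.Defs3

/-!
# MP_ca8ef3_an, stage 2: existence of the polynomial kernel system — statements of the rows

The goal is `HSKStmt`: `HasK a (2 ^ (c * a ^ 3))`. Everything is elementary. The proof of each row
is its docstring; use other rows as hypotheses. All functions have values in `ZMod 2`, so `a * a = a`
for each function `a`, and a function is `0` or `1` at each point. `pr (τ * a) f = pr τ (a * f)`.
-/

set_option autoImplicit false

namespace Pool.Agent.RHO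

open Finset

/-- `mon B` is a monomial of the least degree on which the functional `τ` does not vanish. -/
def Ord {ι : Type} [Fintype ι] [DecidableEq ι] (τ : Fn ι) (B : Finset ι) : Prop :=
  pr τ (mon B) = 1 ∧ ∀ e < B.card, Van τ e

/-! ## A. Polynomials -/

/-- ROW RMB (basic facts). PROOF. `mon A * mon B = mon (A ∪ B)` (`z i * z i = z i`), bilinearity
(`Submodule.span_induction` twice, or `Submodule.map₂`). `1 = mon ∅`, the coordinate `i` is
`mon {i}`. A linear form is a sum of coordinates with coefficients. `cub B u` is a product of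
`B.card` functions of degree `≤ 1`, `cel π v = ∏ j, (π z j + v j + 1)` a product of `h` such
functions. -/
def RMBStmt : Prop := ∀ (ι : Type) [Fintype ι] [DecidableEq ι],
  (∀ d d' : ℕ, d ≤ d' → RM ι d ≤ RM ι d') ∧
  (∀ (d e : ℕ) (f g : Fn ι), f ∈ RM ι d → g ∈ RM ι e → f * g ∈ RM ι (d + e)) ∧
  (∀ A : Finset ι, mon A ∈ RM ι A.card) ∧
  (1 : Fn ι) ∈ RM ι 0 ∧
  (∀ i : ι, (fun z : Pt ι => z i) ∈ RM ι 1) ∧
  (∀ l : Pt ι →ₗ[ZMod 2] ZMod 2, (fun z : Pt ι => l z) ∈ RM ι 1) ∧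
  (∀ (B : Finset ι) (u : Pt ι), cub B u ∈ RM ι B.card) ∧
  (∀ (h : ℕ) (π : Pt ι →ₗ[ZMod 2] Pt (Fin h)) (v : Pt (Fin h)), cel π v ∈ RM ι h)

/-- ROW RMC (composition with an affine map). PROOF. For `mon A` the composition is a product of
`A.card` functions of degree `≤ 1` (`RMB`); linearity. -/
def RMCStmt : Prop := ∀ (ι : Type) [Fintype ι] [DecidableEq ι] (s : Pt ι → Pt ι),
  (∀ j, (fun z => s z j) ∈ RM ι 1) → ∀ (d : ℕ) (f : Fn ι), f ∈ RM ι d →
  (fun z => f (s z)) ∈ RM ι d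

/-- ROW ORD. PROOF. `τ` does not vanish on some `mon A` with `A.card ≤ d` (the span of these is
`RM ι d`); take such an `A = B` with `B.card` minimal: then `τ` vanishes on `RM ι e` for all
`e < B.card`, and a nonzero element of `ZMod 2` is `1`. -/
def ORDStmt : Prop := ∀ (ι : Type) [Fintype ι] [DecidableEq ι] (τ : Fn ι) (d : ℕ), ¬ Van τ d →
  ∃ B : Finset ι, B.card ≤ d ∧ Ord τ B

/-- ROW TOP. PROOF. `cub B' u = ∏_{i ∈ B'} (z i + (u i + 1))` is the sum over `S ⊆ B'` of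
`(∏_{i ∈ B' \ S} (u i + 1)) * mon S` (`Finset.prod_add`), so the product with `mon (B \ B')` is
`mon B` plus a combination of monomials `mon (S ∪ (B \ B'))` with `S ≠ B'`, of degree `< B.card`,
on which `τ` vanishes. (Or induction on `B'`: multiply by one factor at a time; the statement for
`insert i B'` follows from `(z i + u i + 1) * cub B' u * mon (B \ insert i B')
= cub B' u * mon (B \ B') + (u i + 1) * cub B' u * mon (B \ insert i B')` and the last summand has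
degree `≤ B.card - 1`.) -/
def TOPStmt : Prop := ∀ (ι : Type) [Fintype ι] [DecidableEq ι] (τ : Fn ι) (B B' : Finset ι)
  (u : Pt ι), Ord τ B → B' ⊆ B → pr τ (cub B' u * mon (B \ B')) = 1

/-- ROW DUA (dual distance). PROOF by induction on `k` (for all `τ`). `k = 0`: the sum of the values
of `τ` is `0` (pairing with `1`), so the number of points with `τ z ≠ 0` is even, and it is not `0`:
`≥ 2`. Step: the support has at least two points `z ≠ z'`; let `z i ≠ z' i`. The functions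
`z i * τ` and `(1 + z i) * τ` have disjoint supports, are not `0`, and vanish on `RM ι k`, since the
products of `f ∈ RM ι k` with `z i`, `1 + z i` are in `RM ι (k + 1)`: each support has at least
`2 ^ (k + 1)` points. -/
def DUAStmt : Prop := ∀ (ι : Type) [Fintype ι] [DecidableEq ι] (k : ℕ) (τ : Fn ι), Van τ k →
  τ ≠ 0 → 2 ^ (k + 1) ≤ (univ.filter fun z => τ z ≠ 0).card

/-- ROW SUR (the evaluations at few points are onto). PROOF. Otherwise (linear algebra over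
`ZMod 2`: a proper subspace of `Z → ZMod 2` is annihilated by a nonzero functional, which is given by
a function on `Z`, extended by `0`) there is a nonzero `τ` supported on `Z` with `Van τ k`, against
`DUA`. -/
def SURStmt : Prop := ∀ (ι : Type) [Fintype ι] [DecidableEq ι] (k : ℕ) (Z : Finset (Pt ι)),
  Z.card < 2 ^ (k + 1) → ∀ g : Pt ι → ZMod 2, ∃ f ∈ RM ι k, ∀ z ∈ Z, f z = g z

/-! ## B. The probability `pv` -/

/-- ROW PVE (exact value for few points). PROOF. `Van (ind Z * wp q) k1` holds iff `wp q` vanishes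
on `Z` (`DUA` for `ind Z * wp q`, whose support is in `Z`, `Z.card < 2^(k+1) ≤ 2^(k1+1)`). By `SUR`
the linear map `RM ι k → (Z → ZMod 2)` is onto, so all its fibres have the same number of elements,
and the number of the `q : Fin m → RM ι k` with values `b : Fin m → Z → ZMod 2` does not depend on
`b`. So `pv` is the fraction of the `b` such that for each `z ∈ Z` not all `b j z` are `1`, which is
`((2^m - 1)/2^m)^Z.card` (`Z → (Fin m → ZMod 2)`). -/
def PVEStmt : Prop := ∀ (ι : Type) [Fintype ι] [DecidableEq ι] (m k k1 : ℕ) (Z : Finset (Pt ι)),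
  k ≤ k1 → Z.card < 2 ^ (k + 1) → pv m k k1 (ind Z) = (1 - 1 / 2 ^ m) ^ Z.card

/-- ROW PVB (simple facts). PROOF. `0 ≤ pv ≤ 1` clear. If `τ` and `τ'` define the same functional on
`RM ι (k1 + k * m)` then `pv` is the same, since `wp q * f ∈ RM ι (k1 + k * m)` for `f ∈ RM ι k1`
(`wp q ∈ RM ι (k * m)` by induction on `m`). Recursion: `Fin.consEquiv` / `Fin.insertNthEquiv`,
`wp (Fin.cons p q) = p * wp q`. Product with `a ∈ RM ι h`, `h ≤ k1`: if `τ * wp q` vanishes on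
`RM ι k1` then `τ * a * wp q` vanishes on `RM ι (k1 - h)`. -/
def PVBStmt : Prop := ∀ (ι : Type) [Fintype ι] [DecidableEq ι] (m k k1 : ℕ) (τ : Fn ι),
  0 ≤ pv m k k1 τ ∧ pv m k k1 τ ≤ 1 ∧
  (∀ τ' : Fn ι, Van (τ + τ') (k1 + k * m) → pv m k k1 τ' = pv m k k1 τ) ∧
  pv (m + 1) k k1 τ = (∑ p : RM ι k, pv m k k1 (τ * (p : Fn ι))) / Fintype.card (RM ι k) ∧
  (∀ h ≤ k1, ∀ a ∈ RM ι h, pv m k k1 τ ≤ pv m k (k1 - h) (τ * a))

/-- ROW GBT (good bits). PROOF. `∑_b ∏_j (p j z + b j) = ∏_j (∑_{c : ZMod 2} (p j z + c)) = 1` at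
each point (`Finset.prod_univ_sum` / `Fintype.piFinset`), since `p + (p + 1) = 1`. So
`τ = ∑_b τ * ∏_j (p j + b j)`; if all summands vanished on `RM ι d` then `τ` would. -/
def GBTStmt : Prop := ∀ (ι : Type) [Fintype ι] [DecidableEq ι] (m d : ℕ) (τ : Fn ι)
  (p : Fin m → Fn ι), ¬ Van τ d →
  ∃ b : Fin m → ZMod 2, ¬ Van (fun z => τ z * ∏ j, (p j z + b j)) d

/-- ROW CEL (cell lemma). PROOF. Write `q_j = p_j + ∑_c β j c • a c`: for each
`β : Fin m → C → ZMod 2` the map `p ↦ q` is a bijection of `Fin m → RM ι k` (`a c ∈ RM ι h ≤ RM ι k`)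
so `pv` is the average over `p` of the fraction of the `β` for which
`Van (τ * ∏_j (p_j + ∑_c β j c a_c)) k1`. If this holds then for each `c` the function
`τ * a c * ∏_j (p_j + β j c)` (the supports of the `a c` are disjoint: multiplying by `a c` replaces
the sum by `β j c`) vanishes on `RM ι (k1 - h)`. By `GBT` (for `τ * a c`) for each `c` there is at
least one vector `β · c ∈ (Fin m → ZMod 2)` for which this fails, so for fixed `p` at most
`(2^m - 1)^card C` of the `2^(m card C)` functions `β` remain. -/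
def CELStmt : Prop := ∀ (ι : Type) [Fintype ι] [DecidableEq ι] (C : Type) [Fintype C]
  [DecidableEq C] (m k k1 h : ℕ) (τ : Fn ι) (a : C → Fn ι), h ≤ k → h ≤ k1 →
  (∀ c, a c ∈ RM ι h) → (∀ c c' z, a c z ≠ 0 → a c' z ≠ 0 → c = c') →
  (∀ c, ¬ Van (τ * a c) (k1 - h)) → pv m k k1 τ ≤ (1 - 1 / 2 ^ m) ^ Fintype.card C

/-- ROW HI1 (order between `k` and `k1`). PROOF. Take `B' ⊆ B` with `k` elements and the cells
`a_u = cub B' u` for the `2^k` functions `u : B' → ZMod 2` (extended by `0`; `C = ↥B' → ZMod 2`):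
they are in `RM ι k`, have disjoint supports (`cub B' u z ≠ 0` iff `z = u` on `B'`), and by `TOP`
`pr (τ * a_u) (mon (B \ B')) = 1` with `mon (B \ B') ∈ RM ι (B.card - k) ≤ RM ι (k1 - k)`. Apply
`CEL` with `h = k`. -/
def HI1Stmt : Prop := ∀ (ι : Type) [Fintype ι] [DecidableEq ι] (m k k1 : ℕ) (τ : Fn ι)
  (B : Finset ι), Ord τ B → k ≤ B.card → B.card ≤ k1 →
  pv m k k1 τ ≤ (1 - 1 / 2 ^ m) ^ (2 ^ k)

open Classical in
/-- ROW HI2 (the order drops by exactly `k`, up to a small probability). PROOF. `b = B.card`. Let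
`A₀ ⊆ B` have `k - 1` elements, `I = B \ A₀`, `I.card = b - k + 1`, and `A_i = insert i A₀` for
`i ∈ I`. The linear map `RM ι k → (I → ZMod 2)`, `p ↦ (pr τ (p * mon (B \ A_i)))_i` sends `mon A_j`
to the unit vector of `j`: `A_j ∪ (B \ A_i)` is `B` if `i = j` and does not contain `i` otherwise
(then its degree is `< b` and `τ` vanishes). So it is onto, and the fraction of the `p` in its kernel
is `2^-(b-k+1)`. If `Van (τ * p) (b - k)` then `p` is in the kernel
(`mon (B \ A_i) ∈ RM ι (b - k)`). Second part: for `e < b - k` and `f ∈ RM ι e` the product `p * f`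
is in `RM ι (k + e)`, `k + e < b`. -/
def HI2Stmt : Prop := ∀ (ι : Type) [Fintype ι] [DecidableEq ι] (k : ℕ) (τ : Fn ι)
  (B : Finset ι), Ord τ B → 1 ≤ k → k ≤ B.card →
  ((univ.filter fun p : RM ι k => ∀ f ∈ RM ι (B.card - k), pr (τ * (p : Fn ι)) f = 0).card : ℝ) *
    2 ^ (B.card - k + 1) ≤ Fintype.card (RM ι k) ∧
  ∀ p ∈ RM ι k, ∀ e < B.card - k, Van (τ * p) e

/-- ROW HIG (high order). PROOF by induction on `m` (for all `τ`, `B`), `b = B.card`. If `b ≤ k1`: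
`HI1`. If `b > k1`: then `m ≥ 1` (`b ≤ k1 + k * m`), `m = m' + 1`, and by `PVB` `pv m k k1 τ` is the
average over `p ∈ RM ι k` of `pv m' k k1 (τ * p)`. Except for a fraction `2^-(b-k+1) ≤ 2^-(k1-k)` of
the `p` (where we use `pv ≤ 1`) `τ * p` does not vanish on `RM ι (b - k)` but vanishes on `RM ι e` for
`e < b - k` (`HI2`), so (`ORD`) there is `B''` with `Ord (τ * p) B''` and `B''.card = b - k`, and
`k ≤ b - k` (as `b > k1 ≥ 2 k`), `b - k ≤ k1 + k * m'`. By induction these `p` have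
`pv ≤ m'/2^(k1-k) + (1 - 1/2^m')^(2^k) ≤ m'/2^(k1-k) + (1 - 1/2^m)^(2^k)`. -/
def HIGStmt : Prop := ∀ (ι : Type) [Fintype ι] [DecidableEq ι] (m k k1 : ℕ) (τ : Fn ι)
  (B : Finset ι), Ord τ B → 1 ≤ k → 2 * k ≤ k1 → k ≤ B.card → B.card ≤ k1 + k * m →
  pv m k k1 τ ≤ m / 2 ^ (k1 - k) + (1 - 1 / 2 ^ m) ^ (2 ^ k)

/-! ## C. The inverse theorem -/

/-- ROW LOW. PROOF. GAP. Let `h ≤ k`, `a ∈ RM ι h`, `Van (τ * a) (k - 1)` and suppose that
`τ * a` does not vanish on `RM ι (d - h)`, `d = 4 k + k m`. By `ORD` there is `B` with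
`Ord (τ * a) B`, `B.card ≤ d - h = (4 k - h) + k m`, and `B.card ≥ k` since `Van (τ * a) (k - 1)`
(`pr (τ * a) (mon B) = 1`; `RM` is monotone). By `PVB` and `HIG` (with `k1 = 4 k - h ≥ 3 k`)
`pv m k (4 k) τ ≤ pv m k (4 k - h) (τ * a) ≤ m/2^(3k-h) + (1-1/2^m)^(2^k)
≤ m/2^(2k) + (1-1/2^m)^(2^k) < (1 - 1/2^m)^t`: contradiction. FEW. `CEL` with `C = ↥S`,
`a v = cel π v` (disjoint supports), `k - 1 ≤ 4 k - h`, gives
`(1-1/2^m)^t ≤ pv ≤ (1 - 1/2^m)^S.card`, so `S.card ≤ t` as `0 < 1 - 1/2^m < 1` (`m ≥ 1`; if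
`m = 1` this number is `1/2`). -/
def LOWStmt : Prop := ∀ (ι : Type) [Fintype ι] [DecidableEq ι] (m k t : ℕ) (τ : Fn ι),
  1 ≤ m → 1 ≤ k →
  (m : ℝ) / 2 ^ (2 * k) + (1 - 1 / 2 ^ m) ^ (2 ^ k) < (1 - 1 / 2 ^ m) ^ t →
  (1 - 1 / 2 ^ m) ^ t ≤ pv m k (4 * k) τ → Low k (4 * k + k * m) t τ

/-- ROW PRJ (projection along a vector). PROOF. Let `e j ≠ 0`, so `e j = 1`. Take
`(P v) l = v (j.succAbove l) + v j * e (j.succAbove l)`. If `P v = P w` then `x = v + w` satisfies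
`x l = x j * e l` for all `l` (also for `l = j`): `x = x j • e`, which is `0` or `e`. -/
def PRJStmt : Prop := ∀ (h : ℕ) (e : Pt (Fin (h + 1))), e ≠ 0 →
  ∃ P : Pt (Fin (h + 1)) →ₗ[ZMod 2] Pt (Fin h), P e = 0 ∧
    ∀ v w, P v = P w → v = w ∨ v = w + e

/-- ROW MAX (a map all of whose nonzero cells are not divided by a coordinate). PROOF. Call a cell
`v` of `π` nonzero if `¬ Van (τ * cel π v) (k - 1)`. Among the (finitely many) linear maps
`π : Pt ι → Pt (Fin h)` take one with the largest number `n` of nonzero cells. Suppose that for a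
nonzero cell `u` and a coordinate `i` both `τ * cel π u * z_i` and `τ * cel π u * (1 + z_i)` do not
vanish on `RM ι (k - 1)`. Let `π' = (π, z_i) : Pt ι → Pt (Fin (h + 1))` (`Fin.snoc` or `Fin.cons`):
its cells are `cel π v * z_i`, `cel π v * (1 + z_i)`; each nonzero cell `v` of `π` gives at least
one nonzero cell of `π'` over `v` (the sum of the two is `τ * cel π v`), and `u` gives two: `π'` has
a set `S` of at least `n + 1` nonzero cells, and `S.card ≤ t` by `Low.few` (`h + 1 ≤ k`). There are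
at most `t^2 < 2^h` differences (sums) of two elements of `S`, and `2^(h+1) - 1 ≥ 2^h` nonzero
vectors, so there is `e ≠ 0` which is not the sum of two elements of `S`. Let `P` be as in `PRJ` and
`π'' = P ∘ π'`. For `v ∈ S` the cell `P v` of `π''` is the union of the cells `v` and `v + e` of
`π'` (`cel π'' (P v) = cel π' v + cel π' (v + e)`), and the second one is not nonzero: so `P v` is a
nonzero cell of `π''`. And `P` is injective on `S`. So `π''` has at least `n + 1` nonzero cells: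
contradiction. (Here `S` must be the set of ALL nonzero cells of `π'`.) -/
def MAXStmt : Prop := ∀ (ι : Type) [Fintype ι] [DecidableEq ι] (k d t h : ℕ) (τ : Fn ι),
  Low k d t τ → h + 1 ≤ k → t ^ 2 < 2 ^ h →
  ∃ π : Pt ι →ₗ[ZMod 2] Pt (Fin h), ∀ v, ¬ Van (τ * cel π v) (k - 1) → ∀ i : ι,
    Van (τ * cel π v * fun z => z i) (k - 1) ∨ Van (τ * cel π v * fun z => z i + 1) (k - 1)

/-- ROW PT1 (an undivided functional is an evaluation). PROOF. `U i = fun z => z i + c i`. By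
induction on `A.card ≤ d` one has `pr σ (mon A) = pr σ 1 * mon A c`: for `i ∈ A`,
`mon A = z_i * mon (A.erase i) = (z_i + c i) * mon (A.erase i) + c i * mon (A.erase i)`, and
`pr σ ((z_i + c i) * mon (A.erase i)) = 0` by hypothesis (`(A.erase i).card ≤ d - 1`). So
`pr σ f = pr σ 1 * f c` for all `f ∈ RM ι d` (linearity); `pr σ 1 ≠ 0` because `σ` does not vanish
on `RM ι d`. -/
def PT1Stmt : Prop := ∀ (ι : Type) [Fintype ι] [DecidableEq ι] (d : ℕ) (σ : Fn ι) (c : Pt ι),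
  (∀ i : ι, Van (σ * fun z => z i + c i) (d - 1)) → ¬ Van σ d →
  ∀ f ∈ RM ι d, pr σ f = f c

/-- ROW PTS (points from cells). PROOF. Let `π` be as in `MAX`, `S` the set of its nonzero cells
(`¬ Van (τ * cel π v) (k - 1)`), `S.card ≤ t` (`Low.few`). For `v ∈ S` let `σ_v = τ * cel π v`. For
each `i` there is `c i` with `Van (σ_v * (z_i + c i)) (k - 1)`; since
`cel π v * (z_i + c i) ∈ RM ι (h + 1)` and `h + 1 ≤ k`, `Low.gap` gives
`Van (σ_v * (z_i + c i)) (d - h - 1)`. By `PT1` (with `d - h`; `k - 1 ≤ d - h`) `pr σ_v f = f c_v`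
for all `f ∈ RM ι (d - h)`. With `f = cel π v` (`h ≤ d - h`): `pr σ_v (cel π v) = pr σ_v 1 = 1`, so
`π c_v = v`; the `c_v` are distinct. Let `Z = {c_v}`, `Z.card = S.card ≤ t`. For `v ∉ S`
`Low.gap` gives `Van (τ * cel π v) (d - h)`. Since `τ = ∑_v τ * cel π v`,
`pr τ f = ∑_{v ∈ S} f c_v = pr (ind Z) f` for `f ∈ RM ι (d - h)`. -/
def PTSStmt : Prop := ∀ (ι : Type) [Fintype ι] [DecidableEq ι] (k d t h : ℕ) (τ : Fn ι),
  Low k d t τ → h + 1 ≤ k → 3 * k ≤ d → t ^ 2 < 2 ^ h →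
  ∃ Z : Finset (Pt ι), Z.card ≤ t ∧ Van (τ + ind Z) (d - h)

/-- ROW REM (the remainder). PROOF. Let `τ₀ = τ + ind Z` and suppose it does not vanish on `RM ι d`.
By `ORD` there is `B` with `Ord τ₀ B` and `B.card ≤ d`; as `Van τ₀ (d - h)`, `B.card > d - h ≥ h`.
Let `B' ⊆ B` have `h` elements. The `2^h > t ≥ Z.card` cells `cub B' u` (`u : B' → ZMod 2`, extended
by `0`) have disjoint supports, so one of them contains no point of `Z`: for this `u`
`ind Z * cub B' u = 0` and `τ * cub B' u = τ₀ * cub B' u`. As `cub B' u ∈ RM ι h`,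
`Van (τ₀ * cub B' u) (d - h - h)`, `k - 1 ≤ d - 2 h`, so `Van (τ * cub B' u) (k - 1)` and by
`Low.gap` `Van (τ * cub B' u) (d - h)`. But by `TOP`
`pr (τ₀ * cub B' u) (mon (B \ B')) = 1` and `mon (B \ B') ∈ RM ι (B.card - h) ≤ RM ι (d - h)`:
contradiction. -/
def REMStmt : Prop := ∀ (ι : Type) [Fintype ι] [DecidableEq ι] (k d t h : ℕ) (τ : Fn ι)
  (Z : Finset (Pt ι)), Low k d t τ → h + 1 ≤ k → 3 * k ≤ d → t < 2 ^ h → Z.card ≤ t →
  Van (τ + ind Z) (d - h) → Van (τ + ind Z) d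

/-- ROW INV (inverse theorem). PROOF. `LOW`, `PTS`, `REM` (`t < 2^h` since `t ≤ t^2 < 2^h` or
`t = 0`). -/
def INVStmt : Prop := ∀ (ι : Type) [Fintype ι] [DecidableEq ι] (m k t h : ℕ) (τ : Fn ι),
  1 ≤ m → h + 1 ≤ k → t ^ 2 < 2 ^ h →
  (m : ℝ) / 2 ^ (2 * k) + (1 - 1 / 2 ^ m) ^ (2 ^ k) < (1 - 1 / 2 ^ m) ^ t →
  (1 - 1 / 2 ^ m) ^ t ≤ pv m k (4 * k) τ →
  ∃ Z : Finset (Pt ι), Z.card ≤ t ∧ Van (τ + ind Z) (4 * k + k * m)

/-! ## D. Graphs -/

/-- ROW GCO (small sets of edges whose boundary is two vertices are paths). PROOF. Let `Y` be a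
finite set of edges with at most `T` elements and boundary `v + w`. CONN: for each edge `f ∈ Y` and
each end `x` of `f` there is `Y' ⊆ Y` with boundary `v + x`. Induction on `Y.card`. `Y` is not
empty, so `v ≠ w` (else `Y = ∅` by the hypothesis on `T`) and `bdr Y v = 1 ≠ 0`: there is `e ∈ Y`
with exactly one end `v`, the other end `v₁`. If `x = v` take `∅`, if `x = v₁` take `{e}`. Otherwise
`f ≠ e`, and `Y.erase e` has boundary `v₁ + w`; take `Y''` for it and `Y' = insert e Y''`.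
FIRST PART. Suppose `e ≠ e'`. Let `v₁ ≠ v` be the other end of `e`. `Z.erase e` has boundary
`v₁ + w` and contains `e'`, so by CONN there is `Y' ⊆ Z.erase e` with boundary `v₁ + v`; then
`insert e Y'` has boundary `0`, at most `T` elements, and is not empty: contradiction.
SECOND PART. Suppose `f ∈ Z ∩ Z'`; let `x ≠ v` be an end of `f`. By CONN there are `Y ⊆ Z`,
`Y' ⊆ Z'` with boundary `v + x`; `symmDiff Y Y'` has boundary `0` and at most `T` elements, so
`Y = Y'`. Since `bdr Y v = 1`, some `e₁ ∈ Y` contains `v`; `e₁ = e` by the first part, so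
`e ∈ Y' ⊆ Z'`: contradiction. (`bdr` of a symmetric difference is the sum, in `ZMod 2`.) -/
def GCOStmt : Prop := ∀ (V E : Type) [DecidableEq V] [DecidableEq E] (α β : E → V) (T : ℕ),
  (∀ e, α e ≠ β e) → (∀ Z : Finset E, Z.card ≤ T → (∀ v, bdr α β Z v = 0) → Z = ∅) →
  (∀ (Z : Finset E) (v w : V) (e e' : E), Z.card ≤ T →
    (∀ x, bdr α β Z x = (if x = v then 1 else 0) + (if x = w then 1 else 0)) →
    e ∈ Z → e' ∈ Z → (α e = v ∨ β e = v) → (α e' = v ∨ β e' = v) → e = e') ∧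
  (∀ (Z Z' : Finset E) (v w w' : V) (e : E), Z.card + Z'.card ≤ T →
    (∀ x, bdr α β Z x = (if x = v then 1 else 0) + (if x = w then 1 else 0)) →
    (∀ x, bdr α β Z' x = (if x = v then 1 else 0) + (if x = w' then 1 else 0)) →
    e ∈ Z → (α e = v ∨ β e = v) → e ∉ Z' → Disjoint Z Z')

/-- ROW TRL (a nonempty even set of edges contains a closed trail). PROOF. The edge with the label
`i` at `v` is `lb s v i`; the edges containing `v` are the `lb s v i`, and `lb s (ot s v i) i =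
lb s v i`. CLAIM: if `bdr Y = v + w`, `v ≠ w`, then there is a walk `i :: L` from `v` to `w` with
`L.length + 1 ≤ Y.card`, consecutive labels distinct, and `lb s v i ∈ Y`. Induction on `Y.card`:
`bdr Y v = 1`, so there is `e = lb s v i ∈ Y`; `v₁ = ot s v i`. If `v₁ = w` take `[i]`. Otherwise
`Y.erase e` has boundary `v₁ + w`; let `j :: L` be the walk for it: `lb s v₁ j ∈ Y.erase e`, so
`j ≠ i` (`lb s v₁ i = e`). Now let `(p, i) ∈ Z`: `Z.erase (p, i)` has boundary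
`inl p + inr (s i p)`: take the walk `j :: L` from `inr (s i p)` to `inl p`, `j ≠ i` as before, and
the walk `i :: j :: L`. -/
def TRLStmt : Prop := ∀ (P : Type) [DecidableEq P] (D : ℕ) (s : Fin D → Equiv.Perm P)
  (Z : Finset (P × Fin D)), Z ≠ ∅ → (∀ v, bdr ea (eb s) Z v = 0) →
  ∃ (p : P) (L : List (Fin D)), L ≠ [] ∧ L.length ≤ Z.card ∧ L.IsChain (· ≠ ·) ∧
    Wk s (Sum.inl p) (Sum.inl p) L

/-! ## E. Magnus coefficients -/

/-- ROW MG1. PROOF. CLAIM: if `y` has distinct consecutive letters and `W.length < y.length` then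
`mg b W y = 0`. Induction on `W`: `mgP i m (j :: y) = m (j :: y) + [j = i] m y` with `m = mg false W`,
both are `0`. `mgL i m (j :: y) = m (j :: y) + [j = i] mgL i m y`; if `j = i` then `y = j' :: y'` with
`j' ≠ i` (`y` is not empty), so `mgL i m y = m y = 0` as `W.length < y.length`. Now the value at `W`,
induction: `mgP i m (i :: W) = m (i :: W) + m W = 0 + 1`; `mgL i m (i :: W) = m (i :: W) + mgL i m W`
and `mgL i m W = m W = 1` (`W` is empty or starts with a letter `≠ i`). The value at `[]` is always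
`1`. -/
def MG1Stmt : Prop := ∀ (D : ℕ) (b : Bool) (W : List (Fin D)), W.IsChain (· ≠ ·) →
  mg b W W = 1 ∧ mg b W [] = 1

/-- ROW MG2 (evaluation). PROOF by induction on the walk. `evl` is linear in `u` and additive in
`m`. Let `S(m, z) = ∑_{r ≤ j} evl M m r (j - r) (z r)`. KEY: if `z' = z (1 + y_i)` (`Stp M i z z'`)
then `S(m, z') = S(mgP i m, z)` for every `m`: `evl M m r l ((M (r-1) i).mulVec u)` is
`evl M (y ↦ [y = i :: y'] m y') (r - 1) (l + 1) u`. Case `up`: `z''_j = S(mg false L, z') =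
S(mgP i (mg false L), z)`. Case `dn` (`Stp M i z' z`): `mgP i (mgL i m) = m`, so
`S(mgL i m, z) = S(mgP i (mgL i m), z') = S(m, z')` with `m = mg true L`. -/
def MG2Stmt : Prop := ∀ (A D : ℕ) (M : Mt A D) (b : Bool) (z z' : ℕ → Fin A → ZMod 2)
  (L : List (Fin D)), Wq M b z z' L →
  ∀ j, z' j = ∑ r ∈ range (j + 1), evl M (mg b L) r (j - r) (z r)

/-- ROW MG3 (few bad matrices). PROOF. Induction on `d` (for all `m`), with the decomposition by the
LAST letter: `evl M m 0 (d + 1) u = ∑ i, (M d i).mulVec (evl M (y ↦ m (y ++ [i])) 0 d u)` (prove it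
for all levels `r`: `(M (r + d) i).mulVec (evl M _ r d u)`, induction on `d`). Let
`m (y ++ [i₀]) ≠ 0`, `V = evl (xM M) (y ↦ m (y ++ [i₀])) 0 d u`. The number of `M` with `V = 0` is at
most `d/2^A` of all (induction; for `d = 0`: `V = m [i₀] • u ≠ 0`, none). For `w : Fin A → ZMod 2`
and `V ≠ 0` there is a matrix `N_w(V)` with `N_w(V).mulVec V = w`; adding it to `M d i₀` is an
injective map from the set of the `M` with `V ≠ 0` and value `0` to the set of the `M` with `V ≠ 0`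
and value `w` (`V` does not depend on `M d i₀`, only on the levels `< d`): so there are at most
`1/2^A` of all such `M`. -/
def MG3Stmt : Prop := ∀ (A D t d : ℕ) (m : List (Fin D) → ZMod 2) (u : Fin A → ZMod 2), u ≠ 0 →
  d ≤ t → (∃ y, y.length = d ∧ m y ≠ 0) →
  (univ.filter fun M : Fin t → Fin D → Matrix (Fin A) (Fin A) (ZMod 2) =>
    evl (xM M) m 0 d u = 0).card * 2 ^ A ≤
  d * Fintype.card (Fin t → Fin D → Matrix (Fin A) (Fin A) (ZMod 2))

/-- ROW MG4 (good matrices). PROOF. Union bound over the pairs `(W, d)`: there are at most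
`(D + 1)^t` words of length `≤ t` (inject into `Fin t → Option (Fin D)`) and `t` values `d`, each bad
set has at most `t/2^A` of all `M` (`MG3`). -/
def MG4Stmt : Prop := ∀ (A D t : ℕ) (u : Fin A → ZMod 2), u ≠ 0 → t ^ 2 * (D + 1) ^ t < 2 ^ A →
  ∃ M : Fin t → Fin D → Matrix (Fin A) (Fin A) (ZMod 2), ∀ W : List (Fin D), W.length ≤ t →
    ∀ d, 1 ≤ d → d ≤ t → (∃ y, y.length = d ∧ mg true W y ≠ 0) →
    evl (xM M) (mg true W) 0 d u ≠ 0

/-- ROW SMB (the maps of the graph). PROOF. `Stp (xM M) i (sq z) (sq (sM M i z))` by definition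
(for levels `≥ t` both sides are `0`). Injective: if `sM M i z = sM M i z'` then
`sq z r = sq z' r` for all `r` by induction on `r`; so bijective (finite). Each coordinate of
`sM M i z` is the coordinate of `z` plus a linear form in `z` or a constant (level `0`): in
`RM _ 1`. -/
def SMBStmt : Prop := ∀ (A D t : ℕ) (M : Fin t → Fin D → Matrix (Fin A) (Fin A) (ZMod 2))
  (i : Fin D), (∀ z, Stp (xM M) i (sq z) (sq (sM M i z))) ∧ Function.Bijective (sM M i) ∧
    ∀ j, (fun z => sM M i z j) ∈ RM (Fin t × Fin A) 1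

/-- ROW GRA (the graph). PROOF. `M` as in `MG4` for `u = 1` (`≠ 0` since `A > 0`),
`s i = Equiv.ofBijective (sM M i)` (`SMB`). Suppose that `Z ≠ ∅`, `Z.card ≤ t`, has boundary `0`.
`TRL` gives a closed walk `W` of length between `1` and `t`, with distinct consecutive labels, at
some `inl p`, hence (induction: `Wk` from `inl p` gives `Wq true`, from `inr l` gives `Wq false`)
`Wq (xM M) true (sq p) (sq p) W`. By `MG1` some `mg true W y ≠ 0` with `1 ≤ y.length ≤ t`; let `d`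
be the least such length. `MG2` with `j = d`: the term `r = d` is `mg true W [] • sq p d = sq p d`,
the terms `0 < r < d` are `0` (`evl M m r l u = 0` if `m` vanishes on the words of length `l`;
here `l = d - r < d`), so the term `r = 0`, `evl (xM M) (mg true W) 0 d (sq p 0)`, is `0`:
against `MG4`. -/
def GRAStmt : Prop := ∀ (A D t : ℕ), 0 < A → t ^ 2 * (D + 1) ^ t < 2 ^ A →
  Nonempty (LG (Fin t × Fin A) D t)

/-! ## F. The kernel system -/

/-- ROW KSY. PROOF. `near u x`: there is `Z` with `Z.card ≤ t` and `rep u x Z` (it is unique, as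
`2 t ≤ T`). `side u e x`: `near u x` and `lab (vx u) e ∈ Z`. `dd u x = Z.card` (`0` if not near).
`K_side`: `rep_K`. `K_nb`: `nb u e` and `x` are represented by `symmDiff {lab} Z = Z.erase lab`.
`K_nb'`: if near (`lab ∉ Z`): `Z ∪ {lab}`, so `K (nb u e) x = r^(Z.card+1) = r * K u x`. If not near:
`K u x < r^t` (`K_rep`); if `K (nb u e) x < r^t`, done; otherwise `nb u e`, `x` are represented by
`Z'`, `Z'.card ≤ t`, so `u`, `x` by `symmDiff {lab} Z'`, which has more than `t` elements: `Z'` has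
`t` elements and `K (nb u e) x = r^t ≤ κ`, `0 ≤ r * K u x ≤ κ`. `side_unique`: the two labels give
edges of the same `Z` at `vx u`: `GCO` and `lab_inj`. `side_nb`, `dd_nb`: `rep_nb`, `t ≥ 1`.
`prod`: `Z` for `(u, x)`, `Z.card ≤ g`. If `u`, `y` are near, with `Z'`: `lab ∉ Z'`, so `Z`, `Z'` are
disjoint by `GCO` and `x`, `y` are represented by `Z ∪ Z'` (`symmDiff`): equality. If they are not
near: `K u y < r^t`. If `K x y < r^t`: done (`0 ≤ K u x ≤ 1`). Otherwise `x`, `y` are represented by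
`Z''`, `Z''.card ≤ t`, and `u`, `y` by `symmDiff Z Z''`, which has more than `t` elements, so
`Z''.card > t - g`, `K x y = r^Z''.card ≤ r^(t-g) ≤ κ`, and `0 ≤ K u x * K u y ≤ r^t ≤ κ`. -/
def KSYStmt : Prop := ∀ (X Ω V E : Type) [Fintype Ω] [DecidableEq V] [DecidableEq E]
  (D g t T : ℕ) (r κ : ℝ) (_ : PSys X Ω V E D t T r), 0 < r → r < 1 → 1 ≤ g → g ≤ t →
  2 * t + 2 ≤ T → r ^ (t - g) ≤ κ → Nonempty (KSys X Ω D g r κ)

/-- ROW QDF (functionals). PROOF. `rp` is a representative: `Van (rp T + τ) d` for `T` the class of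
`τ`. (1) `f ∈ RM ι d`. (2) symmetric difference modulo 2 (`ev d p + ev d p = 0`). (3) the class of
`ind Z`. (4) For each label `i` the function `∑_{e ∈ symmDiff Z Z', e.2 = i} Pi.single e.1 1` is in
`Vs ι d` and has fewer than `2^(d+1)` points in its support, so it is `0` (`DUA`), and the set is
empty. (5) at most `2^(number of the monomials of degree ≤ d)` functionals: the map
`T ↦ (pr (rp T) (mon A))_{A.card ≤ d}` is injective, and there are at most
`(card ι + 1)^d` sets `A` with `A.card ≤ d` (a set of at most `d` elements is the range of a map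
`Fin d → Option ι`). -/
def QDFStmt : Prop := ∀ (ι : Type) [Fintype ι] [DecidableEq ι] (d : ℕ),
  (∀ (T T' : Qd ι d) (f : Fn ι), f ∈ RM ι d → pr (rp (T + T')) f = pr (rp T) f + pr (rp T') f) ∧
  (∀ (p : Pt ι) (f : Fn ι), f ∈ RM ι d → pr (rp (ev d p)) f = f p) ∧
  (∀ (τ : Fn ι) (Z : Finset (Pt ι)), Van (τ + ind Z) d →
    (Submodule.Quotient.mk τ : Qd ι d) = ∑ p ∈ Z, ev d p) ∧
  (∀ (T : Qd ι d), T + T = 0) ∧
  (∀ (D : ℕ) (Z Z' : Finset (Pt ι × Fin D)), chn d (symmDiff Z Z') = chn d Z + chn d Z') ∧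
  (∀ (D : ℕ) (Z Z' : Finset (Pt ι × Fin D)), chn d Z = chn d Z' → Z.card + Z'.card < 2 ^ (d + 1) →
    Z = Z') ∧
  Fintype.card (Qd ι d) ≤ 2 ^ ((Fintype.card ι + 1) ^ d)

/-- ROW AVS (the kernel is an average). PROOF. For one label: for fixed `q` the sum over
`p ∈ RM ι k1` of `sg2 (pr (τ * wp q) p)` is `card (RM ι k1)` if `Van (τ * wp q) k1` and `0` otherwise
(`sg2` of a nonzero additive map to `ZMod 2`: add a `p₀` with value `1`). So
`∑_{(p, q)} sg2 (pr τ (p * wp q)) = card * pv m k k1 τ`. The product over the labels: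
`Finset.prod_univ_sum` (`Fintype.sum_prod_type`, sum over functions of a product), with
`sg2 a * sg2 b = sg2 (a + b)` and `pr (rp T + rp T') f = pr (rp (T + T')) f` for
`f = p * wp q ∈ RM ι d`, `d = k1 + k * m` (`QDF`, `RMB`). -/
def AVSStmt : Prop := ∀ (ι : Type) [Fintype ι] [DecidableEq ι] (D m k k1 : ℕ)
  (T T' : Fin D → Qd ι (k1 + k * m)),
  ∑ ω : Smp ι D m k k1, sgT ω T * sgT ω T' =
    Fintype.card (Smp ι D m k k1) * KT m k k1 (T + T')

/-- ROW KEX (exact values). PROOF. `chn d Z i` is the class of `ind Z_i`, `Z_i` the set of the points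
`p` with `(p, i) ∈ Z` (`QDF`), so by `PVB` (third part) and `PVE`
`pv m k k1 (rp (chn d Z i)) = (1 - 1/2^m)^(Z_i.card)`; multiply. -/
def KEXStmt : Prop := ∀ (ι : Type) [Fintype ι] [DecidableEq ι] (D m k k1 : ℕ)
  (Z : Finset (Pt ι × Fin D)), k ≤ k1 → Z.card < 2 ^ (k + 1) →
  KT m k k1 (chn (k1 + k * m) Z) = (1 - 1 / 2 ^ m) ^ Z.card

/-- ROW KIN (inverse theorem for the kernel). PROOF. Each factor is at most `1` and at least `0`, so
each is `≥ (1-1/2^m)^t`, and `INV` gives `Z_i` with `Z_i.card ≤ t`, `T i = ∑_{p ∈ Z_i} ev d p`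
(`QDF`). Let `Z = {(p, i) : p ∈ Z_i}`: `T = chn d Z`. By `PVB`, `PVE` each factor is
`(1-1/2^m)^(Z_i.card)` (`t < 2^(k+1)`), so `(1-1/2^m)^Z.card ≥ (1-1/2^m)^t`, hence
`Z.card ≤ t`. -/
def KINStmt : Prop := ∀ (ι : Type) [Fintype ι] [DecidableEq ι] (D m k t h : ℕ)
  (T : Fin D → Qd ι (4 * k + k * m)), 1 ≤ m → h + 1 ≤ k → t ^ 2 < 2 ^ h →
  (m : ℝ) / 2 ^ (2 * k) + (1 - 1 / 2 ^ m) ^ (2 ^ k) < (1 - 1 / 2 ^ m) ^ t →
  (1 - 1 / 2 ^ m) ^ t ≤ KT m k (4 * k) T →
  ∃ Z : Finset (Pt ι × Fin D), Z.card ≤ t ∧ T = chn (4 * k + k * m) Z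

/-- ROW BDT (boundary test). PROOF. First side: for `f ∈ RM ι d`, `∑_{e ∈ Z} f e.1 =
∑_i (pr (rp (x.2 i)) f + pr (rp (y.2 i)) f) = vP x.1 f + vP y.1 f` (`QDF`, `Con`; `f 0 + f 0 = 0`).
So the function `τ = ∑_{e ∈ Z} Pi.single e.1 1 + (Pi.single v 1 for the vertices v = inl _)`
vanishes on `RM ι d`, its support has at most `Z.card + 2 < 2^(d+1)` points: it is `0` (`DUA`), which
is the statement for `v = inl p`. Second side: the same with `f (s i z)` (in `RM ι d` by `RMC`):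
`∑_{e ∈ Z} f (s e.2 e.1) = vL x.1 f + vL y.1 f`. -/
def BDTStmt : Prop := ∀ (ι : Type) [Fintype ι] [DecidableEq ι] (D d : ℕ)
  (s : Fin D → Equiv.Perm (Pt ι)) (x y : (Pt ι ⊕ Pt ι) × (Fin D → Qd ι d))
  (Z : Finset (Pt ι × Fin D)), (∀ i j, (fun z => s i z j) ∈ RM ι 1) → Con s d x → Con s d y →
  x.2 + y.2 = chn d Z → Z.card + 2 < 2 ^ (d + 1) →
  ∀ v, bdr ea (eb s) Z v = (if v = x.1 then 1 else 0) + (if v = y.1 then 1 else 0)

/-- ROW NBC (neighbours and the base state satisfy the condition). PROOF. `QDF`, `RMC`; in the first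
case (`v = inl p`, edge `(p, i)`) the functional of the label `i` changes by `ev d p`, so the first
sum changes by `f p`, the second one by `f (s i p)`. The case `v = inr l` (edge
`((s i).symm l, i)`) is the same. -/
def NBCStmt : Prop := ∀ (ι : Type) [Fintype ι] [DecidableEq ι] (D d : ℕ)
  (s : Fin D → Equiv.Perm (Pt ι)), (∀ i j, (fun z => s i z j) ∈ RM ι 1) →
  Con s d (Sum.inl 0, 0) ∧
  ∀ (x : (Pt ι ⊕ Pt ι) × (Fin D → Qd ι d)) (i : Fin D), Con s d x →
    Con s d (ot s x.1 i, x.2 + chn d {lb s x.1 i})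

/-- ROW PSE (the data). PROOF. `X = Stt s d`, `d = 4 k + k m`, `Ω = Smp ι D m k (4 k)`,
`V = Pt ι ⊕ Pt ι`, `E = Pt ι × Fin D`, `σ ω x = sgT ω x.1.2`, `K x y = KT m k (4 k) (x.1.2 + y.1.2)`
(`AVS`; `0 ≤ KT` by `PVB`), `α = ea`, `β = eb s`, `lab = lb s`, `vx x = x.1.1`,
`nb x i = (ot s v i, T + chn d {lb s v i})` (`NBC`), `rep x y Z : x.1.2 + y.1.2 = chn d Z`
(`rep_trans`, `rep_uniq`: `QDF`), `rep_K`: `KEX` (`T < 2^(k+1)`), `K_rep`: `KIN`, `rep_bd`: `BDT`
(`T + 2 < 2^(d+1)`, `d ≥ k + 2`), `gir`: the graph. -/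
def PSEStmt : Prop := ∀ (ι : Type) [Fintype ι] [DecidableEq ι] (D m k t h T : ℕ)
  (G : LG ι D T), 1 ≤ m → h + 1 ≤ k → t ^ 2 < 2 ^ h → T < 2 ^ (k + 1) → 2 * t ≤ T →
  (m : ℝ) / 2 ^ (2 * k) + (1 - 1 / 2 ^ m) ^ (2 ^ k) < (1 - 1 / 2 ^ m) ^ t →
  Nonempty (PSys (Stt G.s (4 * k + k * m)) (Smp ι D m k (4 * k)) (Pt ι ⊕ Pt ι) (Pt ι × Fin D)
    D t T (1 - 1 / 2 ^ m))

/-- ROW CRD (number of the states). PROOF. `Stt s d` is a subtype; `QDF` (last part). -/
def CRDStmt : Prop := ∀ (ι : Type) [Fintype ι] [DecidableEq ι] (D d : ℕ)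
  (s : Fin D → Equiv.Perm (Pt ι)),
  ∃ _ : Fintype (Stt s d), Fintype.card (Stt s d) ≤
    2 ^ (1 + Fintype.card ι + D * (Fintype.card ι + 1) ^ d)

/-- ROW NM1 (numbers). PROOF. `1 - 1/2^(a-1) = 1 - 2/2^a`. With `q = 2^a`, `ρ = 1 - 2/q`:
`ρ^(q/2) ≥ 1/4` (`(1 - 1/x)^x ≥ 1/4` for `x = q/2 ≥ 2`: by Bernoulli
`(1 - 1/x)^x ≥ ((1 - 1/x)^2)^(x/2)`..., for `x = 2^b` by induction on `b`: `(1 - 1/(2x))^2 ≥ 1 - 1/x`),
so `ρ^t ≥ 2^(-4 (8a + 26)) = 2^-(32a + 104)` for `t = pt a = q (8a + 26)`. And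
`m/2^(2k) ≤ 2^a/2^(40a+120)`, `ρ^(2^k) ≤ exp(-2^(k+1-a)) ≤ 2^-(2^(19a+61)) ≤ 2^-(32a+106)`
(`exp(-1) ≤ 1/2`). Last: `ρ^q ≤ exp(-2) ≤ 1/4`, `pt a - g = q (7a + 21)` for `g = q (a + 5)`, so
`ρ^(pt a - g) ≤ 4^-(7a+21) = 2^-(14a+42) ≤ 1/2^(42+13a)`. -/
def NM1Stmt : Prop := ∀ a : ℕ, 4 ≤ a →
  (1 - 1 / 2 ^ pm a : ℝ) = rr (2 ^ a) ∧
  (pm a : ℝ) / 2 ^ (2 * pk a) + (1 - 1 / 2 ^ pm a) ^ (2 ^ pk a) < (1 - 1 / 2 ^ pm a : ℝ) ^ pt a ∧
  (1 - 1 / 2 ^ pm a : ℝ) ^ (pt a - 2 ^ a * (a + 5)) ≤ 1 / 2 ^ (42 + 13 * a)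

/-- ROW NM2 (numbers). PROOF. `8a + 26 ≤ 2^(a+2)` for `a ≥ 4` (induction), so `pt a ≤ 2^(2a+2)`,
`(pt a)^2 ≤ 2^(4a+4) < 2^(4a+5)`; `pT a ≤ 2^(2a+4) < 2^(20a+61)`. `D + 1 ≤ 2^(34+10a)`,
`t^2 < 2^t` for `t = pT a ≥ 5`, so `t^2 (D+1)^t < 2^((35+10a) t)`. Last part: `n = t * A =
(35 + 10 a) t^2 `, `t ≤ 2^(2a+4)`, `35 + 10 a ≤ 2^(a+4)`, so `n + 1 ≤ 2^(5a+13) ≤ 2^(9a)`;
`d = pd a = 20 (a+3)^2 ≤ 80 a^2`; `(n+1)^d ≤ 2^(720 a^3)`; `D = 2^(33+10a) ≤ 2^(2a^3)`
(`a ≥ 4`: `33 + 10 a ≤ 128`... at `a = 4`: `73 ≤ 128`, growing); total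
`1 + n + D (n+1)^d ≤ 2^(722 a^3 + 1) ≤ 2^(730 a^3)`. -/
def NM2Stmt : Prop := ∀ a : ℕ, 4 ≤ a →
  1 ≤ pm a ∧ (4 * a + 5) + 1 ≤ pk a ∧ pt a ^ 2 < 2 ^ (4 * a + 5) ∧ pT a < 2 ^ (pk a + 1) ∧
  0 < pA a ∧ pT a ^ 2 * (pD a + 1) ^ pT a < 2 ^ pA a ∧ 2 ^ a * (a + 5) ≤ pt a ∧
  1 + pT a * pA a + pD a * (pT a * pA a + 1) ^ pd a ≤ 2 ^ (730 * a ^ 3)

/-- ROW HSK (existence of the kernel system; FINAL of this file). PROOF. `GRA` with `A = pA a`,
`D = pD a`, `t = pT a` gives the graph on `ι = Fin (pT a) × Fin (pA a)`; `PSE` with `m = pm a`,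
`k = pk a`, `t = pt a`, `h = 4 a + 5`, `T = pT a` and `KSY` with `g = 2^a (a + 5)`,
`κ = 1/2^(42+13a)` give the kernel system, `CRD` the bound; numbers `NM1`, `NM2`
(`pd a = 4 pk a + pk a pm a`, `Fintype.card ι = pT a * pA a`; `Smp` is not empty). -/
def HSKStmt : Prop := ∀ a : ℕ, 4 ≤ a → HasK a (2 ^ (730 * a ^ 3))

end Pool.Agent.RHO
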