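import Pool.Agent.RHO.Stmts3

/-! # MP_ca8ef3_an, stage 2: row DUA (dual distance) -/

set_option autoImplicit false

namespace Pool.Agent.RHO

open Finset

theorem dua (rmb : RMBStmt) : DUAStmt := by
  intro ι _ _ k
  obtain ⟨mono, mulm, -, one, coord, -, -, -⟩ := rmb ι
  have base : ∀ τ : Fn ι, Van τ 0 → τ ≠ 0 → 2 ≤ (univ.filter fun z => τ z ≠ 0).card := by
    intro τ hV h0
    have h1 : pr τ 1 = 0 := hV 1 one
    have h2 : pr τ 1 = ((univ.filter fun z => τ z ≠ 0).card : ZMod 2) := by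
      unfold pr
      rw [Finset.card_filter, Nat.cast_sum]
      refine Finset.sum_congr rfl fun z _ => ?_
      have h : ∀ a : ZMod 2, a * 1 = ((if a ≠ 0 then 1 else 0 : ℕ) : ZMod 2) := by decide
      exact h (τ z)
    rw [h1] at h2
    have h3 : 2 ∣ (univ.filter fun z => τ z ≠ 0).card := (ZMod.natCast_eq_zero_iff _ 2).mp h2.symm
    have h4 : 0 < (univ.filter fun z => τ z ≠ 0).card := by
      rw [Finset.card_pos]
      obtain ⟨z, hz⟩ := Function.ne_iff.mp h0
      exact ⟨z, Finset.mem_filter.mpr ⟨Finset.mem_univ z, hz⟩⟩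
    exact Nat.le_of_dvd h4 h3
  induction k with
  | zero => exact base
  | succ k ih =>
    intro τ hV h0
    have hb := base τ (fun f hf => hV f (mono 0 (k + 1) (Nat.zero_le _) hf)) h0
    obtain ⟨z, hz, z', hz', hne⟩ := Finset.one_lt_card.mp (Nat.lt_of_succ_le hb)
    obtain ⟨i, hi⟩ := Function.ne_iff.mp hne
    have hz1 : τ z ≠ 0 := (Finset.mem_filter.mp hz).2
    have hz2 : τ z' ≠ 0 := (Finset.mem_filter.mp hz').2
    set τ1 : Fn ι := fun z => z i * τ z with h1
    set τ2 : Fn ι := fun z => (z i + 1) * τ z with h2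
    have v1 : Van τ1 k := by
      intro f hf
      have hm : (fun z : Pt ι => z i) * f ∈ RM ι (k + 1) := by
        have := mulm 1 k _ f (coord i) hf
        rwa [add_comm] at this
      have := hV _ hm
      refine Eq.trans ?_ this
      unfold pr
      refine Finset.sum_congr rfl fun z _ => ?_
      simp only [h1, Pi.mul_apply]
      ring
    have v2 : Van τ2 k := by
      intro f hf
      have hm : (fun z : Pt ι => z i) * f ∈ RM ι (k + 1) := by
        have := mulm 1 k _ f (coord i) hf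
        rwa [add_comm] at this
      have hm2 : (fun z : Pt ι => z i) * f + f ∈ RM ι (k + 1) :=
        Submodule.add_mem _ hm (mono k (k + 1) (Nat.le_succ k) hf)
      have := hV _ hm2
      refine Eq.trans ?_ this
      unfold pr
      refine Finset.sum_congr rfl fun z _ => ?_
      simp only [h2, Pi.mul_apply, Pi.add_apply]
      ring
    have two : ∀ a b : ZMod 2, a ≠ b → (a ≠ 0 ∧ b + 1 ≠ 0) ∨ (b ≠ 0 ∧ a + 1 ≠ 0) := by decide
    have n12 : τ1 ≠ 0 ∧ τ2 ≠ 0 := by
      rcases two (z i) (z' i) hi with ⟨ha, hb'⟩ | ⟨ha, hb'⟩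
      · refine ⟨Function.ne_iff.mpr ⟨z, ?_⟩, Function.ne_iff.mpr ⟨z', ?_⟩⟩
        · exact mul_ne_zero ha hz1
        · exact mul_ne_zero hb' hz2
      · refine ⟨Function.ne_iff.mpr ⟨z', ?_⟩, Function.ne_iff.mpr ⟨z, ?_⟩⟩
        · exact mul_ne_zero ha hz2
        · exact mul_ne_zero hb' hz1
    have c1 := ih τ1 v1 n12.1
    have c2 := ih τ2 v2 n12.2
    have hd : Disjoint (univ.filter fun z => τ1 z ≠ 0) (univ.filter fun z => τ2 z ≠ 0) := by
      rw [Finset.disjoint_filter]
      intro y _ hy1 hy2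
      have h : ∀ a b : ZMod 2, a * b ≠ 0 → (a + 1) * b ≠ 0 → False := by decide
      exact h _ _ hy1 hy2
    have hsub : (univ.filter fun z => τ1 z ≠ 0) ∪ (univ.filter fun z => τ2 z ≠ 0) ⊆
        univ.filter fun z => τ z ≠ 0 := by
      intro y hy
      rw [Finset.mem_union, Finset.mem_filter, Finset.mem_filter] at hy
      refine Finset.mem_filter.mpr ⟨Finset.mem_univ y, fun h => ?_⟩
      rcases hy with hy | hy
      · exact hy.2 (by simp only [h1, h, mul_zero])
      · exact hy.2 (by simp only [h2, h, mul_zero])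
    calc 2 ^ (k + 1 + 1) = 2 ^ (k + 1) + 2 ^ (k + 1) := by ring
      _ ≤ (univ.filter fun z => τ1 z ≠ 0).card + (univ.filter fun z => τ2 z ≠ 0).card :=
        Nat.add_le_add c1 c2
      _ = ((univ.filter fun z => τ1 z ≠ 0) ∪ (univ.filter fun z => τ2 z ≠ 0)).card :=
        (Finset.card_union_of_disjoint hd).symm
      _ ≤ _ := Finset.card_le_card hsub

end Pool.Agent.RHO
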