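import Pool.Agent.RHO.Stmts3

/-! # MP_ca8ef3_an, stage 2: row NBC (neighbours and the base state satisfy the condition) -/

set_option autoImplicit false

namespace Pool.Agent.RHO

open Finset

theorem nbc (rmc : RMCStmt) (qdf : QDFStmt) : NBCStmt := by
  intro ι _ _ D d s hs
  obtain ⟨q1, q2, -⟩ := qdf ι d
  have z2 : ∀ a : ZMod 2, a + a = 0 := by decide
  have hz : ∀ f ∈ RM ι d, pr (rp (0 : Qd ι d)) f = 0 := by
    intro f hf
    have h := q1 0 0 f hf
    rw [add_zero] at h
    rw [h, z2]
  have hc : ∀ (j : Fin D) (f : Fn ι), f ∈ RM ι d → (fun z => f (s j z)) ∈ RM ι d :=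
    fun j f hf => rmc ι (s j) (hs j) d f hf
  -- the functionals of one edge
  have he : ∀ (e : Pt ι × Fin D) (j : Fin D) (f : Fn ι), f ∈ RM ι d →
      pr (rp (chn d {e} j)) f = if e.2 = j then f e.1 else 0 := by
    intro e j f hf
    by_cases h : e.2 = j
    · have : chn d {e} j = ev d e.1 := by
        unfold chn
        rw [Finset.filter_singleton, if_pos h, Finset.sum_singleton]
      rw [this, if_pos h]
      exact q2 e.1 f hf
    · have : chn d {e} j = 0 := by
        unfold chn
        rw [Finset.filter_singleton, if_neg h, Finset.sum_empty]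
      rw [this, if_neg h]
      exact hz f hf
  have s1 : ∀ (T : Fin D → Qd ι d) (e : Pt ι × Fin D) (f : Fn ι), f ∈ RM ι d →
      ∑ j, pr (rp ((T + chn d {e}) j)) f = ∑ j, pr (rp (T j)) f + f e.1 := by
    intro T e f hf
    have h : ∀ j, pr (rp ((T + chn d {e}) j)) f =
        pr (rp (T j)) f + if e.2 = j then f e.1 else 0 := by
      intro j
      rw [Pi.add_apply, q1 _ _ f hf, he e j f hf]
    rw [Finset.sum_congr rfl fun j _ => h j, Finset.sum_add_distrib, Finset.sum_ite_eq,
      if_pos (Finset.mem_univ _)]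
  have s2 : ∀ (T : Fin D → Qd ι d) (e : Pt ι × Fin D) (f : Fn ι), f ∈ RM ι d →
      ∑ j, pr (rp ((T + chn d {e}) j)) (fun z => f (s j z)) =
        ∑ j, pr (rp (T j)) (fun z => f (s j z)) + f (s e.2 e.1) := by
    intro T e f hf
    have h : ∀ j, pr (rp ((T + chn d {e}) j)) (fun z => f (s j z)) =
        pr (rp (T j)) (fun z => f (s j z)) + if e.2 = j then f (s e.2 e.1) else 0 := by
      intro j
      rw [Pi.add_apply, q1 _ _ _ (hc j f hf), he e j _ (hc j f hf)]
      by_cases h : e.2 = j
      · rw [if_pos h, if_pos h, h]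
      · rw [if_neg h, if_neg h]
    rw [Finset.sum_congr rfl fun j _ => h j, Finset.sum_add_distrib, Finset.sum_ite_eq,
      if_pos (Finset.mem_univ _)]
  refine ⟨?_, ?_⟩
  · intro f hf
    refine ⟨?_, ?_⟩
    · show ∑ j : Fin D, pr (rp (0 : Qd ι d)) f = f 0 + f 0
      rw [z2, hz f hf, Finset.sum_const_zero]
    · show ∑ j : Fin D, pr (rp (0 : Qd ι d)) (fun z => f (s j z)) = 0
      exact Finset.sum_eq_zero fun j _ => hz _ (hc j f hf)
  · rintro ⟨v, T⟩ i hx f hf
    obtain ⟨h1, h2⟩ := hx f hf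
    simp only at h1 h2 ⊢
    rw [s1 T _ f hf, s2 T _ f hf, h1, h2]
    cases v with
    | inl p =>
      refine ⟨?_, ?_⟩
      · show f 0 + f p + f p = f 0 + 0
        rw [add_assoc, z2]
      · show (0 : ZMod 2) + f (s i p) = f (s i p)
        rw [zero_add]
    | inr l =>
      refine ⟨?_, ?_⟩
      · show f 0 + 0 + f ((s i).symm l) = f 0 + f ((s i).symm l)
        rw [add_zero]
      · show f l + f (s i ((s i).symm l)) = 0
        rw [Equiv.apply_symm_apply, z2]

end Pool.Agent.RHO
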