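import Pool.Agent.RHO.Stmts

/-!
# MP_ca8ef3_an: row BAD (few bad toggles)
-/

set_option autoImplicit false

namespace Pool.Agent.RHO.Bad33

open Finset Pool.Agent.RHO

theorem ip_comm {N : ℕ} (x y : Fin N → ℝ) : ip x y = ip y x := by
  simp [ip, mul_comm]

/-- Cauchy-Schwarz. -/
theorem ip_sq_le {N : ℕ} (x y : Fin N → ℝ) : ip x y ^ 2 ≤ ip x x * ip y y := by
  have h := Finset.sum_mul_sq_le_sq_mul_sq (Finset.univ : Finset (Fin N)) x y
  simpa [ip, sq] using h

theorem ip_sum_right {N : ℕ} {E : Type} (S : Finset E) (ψ : Fin N → ℝ) (σ : E → ℝ)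
    (z : E → Fin N → ℝ) :
    ip ψ (fun l => ∑ e ∈ S, σ e * z e l) = ∑ e ∈ S, σ e * ip ψ (z e) := by
  simp only [ip, Finset.mul_sum]
  rw [Finset.sum_comm]
  refine Finset.sum_congr rfl fun e _ => Finset.sum_congr rfl fun l _ => ?_
  ring

theorem ip_sum_sum {N : ℕ} {E : Type} (S : Finset E) (σ : E → ℝ)
    (z : E → Fin N → ℝ) :
    ip (fun l => ∑ e ∈ S, σ e * z e l) (fun l => ∑ e ∈ S, σ e * z e l) =
      ∑ e ∈ S, ∑ e' ∈ S, σ e * σ e' * ip (z e) (z e') := by
  rw [ip_sum_right]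
  refine Finset.sum_congr rfl fun e _ => ?_
  rw [ip_comm, ip_sum_right, Finset.mul_sum]
  refine Finset.sum_congr rfl fun e' _ => ?_
  rw [ip_comm (z e) (z e')]
  ring

theorem rr_nonneg {q : ℕ} (hq : 16 ≤ q) : 0 ≤ rr q := by
  unfold rr
  have : (16:ℝ) ≤ q := by exact_mod_cast hq
  rw [sub_nonneg, div_le_one (by linarith)]
  linarith

theorem rr_le_one {q : ℕ} : rr q ≤ 1 := by
  unfold rr
  have : (0:ℝ) ≤ 2 / q := by positivity
  linarith

theorem dl_pos {q : ℕ} (hq : 16 ≤ q) : 0 < dl q := by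
  unfold dl
  have : (16:ℝ) ≤ q := by exact_mod_cast hq
  positivity

theorem dl_le_one {q : ℕ} (hq : 16 ≤ q) : dl q ≤ 1 := by
  unfold dl
  have : (16:ℝ) ≤ q := by exact_mod_cast hq
  rw [div_le_one (by positivity)]
  linarith

theorem hd_comm {E : Type} [DecidableEq E] (u x : Finset E) : hd u x = hd x u := by
  unfold hd
  rw [symmDiff_comm]

theorem hd_of_disjoint {E : Type} [DecidableEq E] {u x y : Finset E}
    (h : Disjoint (symmDiff u x) (symmDiff u y)) : hd x y = hd u x + hd u y := by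
  unfold hd
  have h1 : symmDiff x y = symmDiff (symmDiff u x) (symmDiff u y) := by
    rw [symmDiff_comm u x, symmDiff_assoc, symmDiff_symmDiff_cancel_left]
  rw [h1, h.symmDiff_eq_sup]
  exact Finset.card_union_of_disjoint h

theorem alg (n a a' g1 g2 g3 g4 t : ℝ) (ha : 0 ≤ a) (ha1 : a ≤ 1) (ha' : 0 ≤ a')
    (ha1' : a' ≤ 1) (h1 : |g1 - n * (a * a')| ≤ t) (h2 : |g2 - n * a| ≤ t)
    (h3 : |g3 - n * a'| ≤ t) (h4 : |g4 - n| ≤ t) :
    |g1 - a' * g2 - a * g3 + a * a' * g4| ≤ 4 * t := by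
  have e : g1 - a' * g2 - a * g3 + a * a' * g4 =
      (g1 - n * (a * a')) - a' * (g2 - n * a) - a * (g3 - n * a') + a * a' * (g4 - n) := by ring
  have ht : 0 ≤ t := le_trans (abs_nonneg _) h4
  have k2 : |a' * (g2 - n * a)| ≤ t := by
    rw [abs_mul, abs_of_nonneg ha']
    calc a' * |g2 - n * a| ≤ 1 * t := by gcongr
      _ = t := one_mul t
  have k3 : |a * (g3 - n * a')| ≤ t := by
    rw [abs_mul, abs_of_nonneg ha]
    calc a * |g3 - n * a'| ≤ 1 * t := by gcongr
      _ = t := one_mul t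
  have k4 : |a * a' * (g4 - n)| ≤ t := by
    rw [abs_mul, abs_of_nonneg (mul_nonneg ha ha')]
    calc a * a' * |g4 - n| ≤ 1 * t := by
          gcongr
          exact mul_le_one₀ ha1 ha' ha1'
      _ = t := one_mul t
  rw [e]
  rw [abs_le] at *
  constructor <;> linarith [h1.1, h1.2, k2.1, k2.2, k3.1, k3.2, k4.1, k4.2]

theorem alg2 (n a g1 g2 g4 t : ℝ) (ha : 0 ≤ a) (ha1 : a ≤ 1) (hn : 0 ≤ n)
    (h1 : |g1 - n| ≤ t) (h2 : |g2 - n * a| ≤ t) (h4 : |g4 - n| ≤ t) :
    g1 - 2 * a * g2 + a * a * g4 ≤ n + 4 * t := by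
  have ht : 0 ≤ t := le_trans (abs_nonneg _) h4
  have k2 : |a * (g2 - n * a)| ≤ t := by
    rw [abs_mul, abs_of_nonneg ha]
    calc a * |g2 - n * a| ≤ 1 * t := by gcongr
      _ = t := one_mul t
  have k4 : |a * a * (g4 - n)| ≤ t := by
    rw [abs_mul, abs_of_nonneg (mul_nonneg ha ha)]
    calc a * a * |g4 - n| ≤ 1 * t := by
          gcongr
          exact mul_le_one₀ ha1 ha ha1
      _ = t := one_mul t
  rw [abs_le] at *
  nlinarith [h1.1, h1.2, k2.1, k2.2, k4.1, k4.2, mul_nonneg hn (mul_nonneg ha ha)]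

section

variable {q N D g M : ℕ} {E J : Type} [DecidableEq E] [DecidableEq J]

theorem ip_gv (C : Cfg q N D g M E J) (j : J × Fin M) (x y : Finset E) (a b : ℝ)
    (u v : Finset E) :
    ip (fun l => C.gv j x l - a * C.gv j u l) (fun l => C.gv j y l - b * C.gv j v l) =
      C.R ^ 2 / N * (ip (C.s j x) (C.s j y) - b * ip (C.s j x) (C.s j v)
        - a * ip (C.s j u) (C.s j y) + a * b * ip (C.s j u) (C.s j v)) := by
  have hN : (0:ℝ) < N := by exact_mod_cast C.hN
  have hs : (√(N:ℝ)) ^ 2 = N := Real.sq_sqrt hN.le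
  have hs0 : √(N:ℝ) ≠ 0 := (Real.sqrt_pos.2 hN).ne'
  have key : C.R ^ 2 / N = (C.R / √N) * (C.R / √N) := by
    rw [div_mul_div_comm, ← sq, ← sq, hs]
  rw [key]
  simp only [ip, Cfg.gv, Finset.mul_sum, ← Finset.sum_sub_distrib, ← Finset.sum_add_distrib]
  refine Finset.sum_congr rfl fun l _ => ?_
  ring

theorem bad : BADStmt := by
  intro q N D g M E J _ _ C j u ψ S hu hS hψ hbad
  classical
  have hq := C.hq
  have hN : (0:ℝ) < N := by exact_mod_cast C.hN
  have hr0 := rr_nonneg hq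
  have hr1 : rr q ≤ 1 := rr_le_one
  have hd0 := dl_pos hq
  have hd1 := dl_le_one hq
  have hR := C.hR
  have hR2 : 1 ≤ C.R ^ 2 := by nlinarith
  have hτ := C.hτ
  choose! xx hxS hxe hxd hxψ using hbad
  set a : E → ℝ := fun e => rr q ^ hd u (xx e) with ha
  set z : E → Fin N → ℝ := fun e l => C.gv j (xx e) l - a e * C.gv j u l with hz
  have ha0 : ∀ e, 0 ≤ a e := fun e => pow_nonneg hr0 _
  have ha1 : ∀ e, a e ≤ 1 := fun e => pow_le_one₀ hr0 hr1
  have hgram : ∀ x y, |ip (C.s j x) (C.s j y) - N * rr q ^ hd x y| ≤ C.τ * N := by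
    intro x y
    simpa using C.gram j j x y
  have hguu : |ip (C.s j u) (C.s j u) - N| ≤ C.τ * N := by
    simpa [hd] using hgram u u
  -- the scalar products of different vectors
  have hoff : ∀ e ∈ S, ∀ e' ∈ S, e ≠ e' → |ip (z e) (z e')| ≤ 4 * C.τ * C.R ^ 2 := by
    intro e he e' he' hne
    have hnot : e ∉ symmDiff u (xx e') := by
      intro hmem
      have h1 := C.T.p1 u (xx e') hu (hxS e' he') (hxd e' he')
      have h2 : ({e, e'} : Finset E) ⊆ C.T.tog u ∩ symmDiff u (xx e') := by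
        intro c hc
        rw [Finset.mem_insert, Finset.mem_singleton] at hc
        rcases hc with rfl | rfl
        · exact Finset.mem_inter.2 ⟨hS he, hmem⟩
        · exact Finset.mem_inter.2 ⟨hS he', hxe _ he'⟩
      have h3 := Finset.card_le_card h2
      rw [Finset.card_pair hne] at h3
      omega
    have hdis := C.T.p2 u (xx e) (xx e') e hu (hxS e he) (hxS e' he') (hS he) (hxe e he) hnot
      (hxd e he) (hxd e' he')
    have hdd := hd_of_disjoint hdis
    rw [hz, ip_gv, abs_mul, abs_of_nonneg (by positivity)]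
    have h1 : |ip (C.s j (xx e)) (C.s j (xx e')) - N * (a e * a e')| ≤ C.τ * N := by
      have := hgram (xx e) (xx e')
      rwa [hdd, pow_add] at this
    have h2 : |ip (C.s j (xx e)) (C.s j u) - N * a e| ≤ C.τ * N := by
      have := hgram (xx e) u
      rwa [hd_comm (xx e) u] at this
    have h3 : |ip (C.s j u) (C.s j (xx e')) - N * a e'| ≤ C.τ * N := hgram u (xx e')
    have h4 := alg N (a e) (a e') _ _ _ _ (C.τ * N) (ha0 e) (ha1 e) (ha0 e') (ha1 e') h1 h2 h3 hguu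
    calc C.R ^ 2 / N * _ ≤ C.R ^ 2 / N * (4 * (C.τ * N)) := by gcongr
      _ = 4 * C.τ * C.R ^ 2 := by field_simp
  have hdiag : ∀ e, ip (z e) (z e) ≤ 2 * C.R ^ 2 := by
    intro e
    rw [hz, ip_gv]
    have h1 : |ip (C.s j (xx e)) (C.s j (xx e)) - N| ≤ C.τ * N := by
      simpa [hd] using hgram (xx e) (xx e)
    have h2 : |ip (C.s j (xx e)) (C.s j u) - N * a e| ≤ C.τ * N := by
      have := hgram (xx e) u
      rwa [hd_comm (xx e) u] at this
    have h4 := alg2 N (a e) _ _ _ (C.τ * N) (ha0 e) (ha1 e) hN.le h1 h2 hguu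
    have e1 : ip (C.s j (xx e)) (C.s j (xx e)) - a e * ip (C.s j (xx e)) (C.s j u)
        - a e * ip (C.s j u) (C.s j (xx e)) + a e * a e * ip (C.s j u) (C.s j u) =
        ip (C.s j (xx e)) (C.s j (xx e)) - 2 * a e * ip (C.s j (xx e)) (C.s j u)
          + a e * a e * ip (C.s j u) (C.s j u) := by
      rw [ip_comm (C.s j u) (C.s j (xx e))]; ring
    rw [e1]
    have h5 : 4 * C.τ * C.R ^ 2 ≤ C.R ^ 2 := by
      have hc2 := C.c2
      have : dl q ^ 2 ≤ 1 := pow_le_one₀ hd0.le hd1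
      nlinarith [mul_nonneg hτ.le (sq_nonneg C.R)]
    calc C.R ^ 2 / N * _ ≤ C.R ^ 2 / N * (N + 4 * (C.τ * N)) := by gcongr
      _ = C.R ^ 2 + 4 * C.τ * C.R ^ 2 := by field_simp
      _ ≤ 2 * C.R ^ 2 := by linarith
  -- signs
  set σ : E → ℝ := fun e => if 0 ≤ ip ψ (z e) then 1 else -1 with hσ
  have hσa : ∀ e, |σ e| = 1 := by
    intro e
    simp only [hσ]
    split_ifs <;> simp
  have hσz : ∀ e, σ e * ip ψ (z e) = |ip ψ (z e)| := by
    intro e
    simp only [hσ]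
    split_ifs with h
    · rw [one_mul, abs_of_nonneg h]
    · rw [abs_of_neg (not_le.1 h)]; ring
  have hzψ : ∀ e ∈ S, dl q ≤ |ip ψ (z e)| := by
    intro e he
    have h1 := hxψ e he
    have h2 : ip ψ (z e) = ip ψ (C.gv j (xx e)) - a e * ip ψ (C.gv j u) := by
      simp only [hz, ip, Finset.mul_sum, ← Finset.sum_sub_distrib]
      refine Finset.sum_congr rfl fun l _ => ?_
      ring
    rw [h2]
    exact h1.le
  set Z : Fin N → ℝ := fun l => ∑ e ∈ S, σ e * z e l with hZ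
  have hlow : (S.card : ℝ) * dl q ≤ ip ψ Z := by
    rw [hZ, ip_sum_right]
    calc (S.card : ℝ) * dl q = ∑ e ∈ S, dl q := by simp
      _ ≤ ∑ e ∈ S, σ e * ip ψ (z e) := by
          refine Finset.sum_le_sum fun e he => ?_
          rw [hσz]
          exact hzψ e he
  have hup : ip Z Z ≤ 2 * C.R ^ 2 * S.card + 4 * C.τ * C.R ^ 2 * S.card ^ 2 := by
    rw [hZ, ip_sum_sum]
    have hterm : ∀ e ∈ S, ∀ e' ∈ S, σ e * σ e' * ip (z e) (z e') ≤
        (if e = e' then 2 * C.R ^ 2 else 0) + 4 * C.τ * C.R ^ 2 := by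
      intro e he e' he'
      by_cases h : e = e'
      · subst h
        have h1 : σ e * σ e = 1 := by
          rw [← abs_mul_abs_self, hσa, one_mul]
        rw [h1, one_mul, if_pos rfl]
        have := hdiag e
        have h2 : 0 ≤ 4 * C.τ * C.R ^ 2 := by positivity
        linarith
      · rw [if_neg h, zero_add]
        refine le_trans (le_abs_self _) ?_
        rw [abs_mul, abs_mul, hσa, hσa, one_mul, one_mul]
        exact hoff e he e' he' h
    calc ∑ e ∈ S, ∑ e' ∈ S, σ e * σ e' * ip (z e) (z e')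
        ≤ ∑ e ∈ S, ∑ e' ∈ S, ((if e = e' then 2 * C.R ^ 2 else 0) + 4 * C.τ * C.R ^ 2) :=
          Finset.sum_le_sum fun e he => Finset.sum_le_sum fun e' he' => hterm e he e' he'
      _ = 2 * C.R ^ 2 * S.card + 4 * C.τ * C.R ^ 2 * S.card ^ 2 := by
          simp only [Finset.sum_add_distrib, Finset.sum_ite_eq, Finset.sum_const, nsmul_eq_mul]
          rw [Finset.sum_ite_mem, Finset.inter_self]
          simp only [Finset.sum_const, nsmul_eq_mul]
          ring
  have hcs := ip_sq_le ψ Z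
  have hZZ : 0 ≤ ip Z Z := by
    unfold ip
    exact Finset.sum_nonneg fun l _ => mul_self_nonneg _
  have h9 : ip ψ Z ^ 2 ≤ 9 * ip Z Z := le_trans hcs (by gcongr)
  have hlow2 : (S.card * dl q) ^ 2 ≤ ip ψ Z ^ 2 := by
    refine pow_le_pow_left₀ (by positivity) hlow 2
  have hc2 := C.c2
  have hmain : (S.card : ℝ) ^ 2 * dl q ^ 2 ≤ 36 * C.R ^ 2 * S.card := by
    have h1 : (S.card : ℝ) ^ 2 * (72 * C.τ * C.R ^ 2) ≤ (S.card : ℝ) ^ 2 * dl q ^ 2 := by
      gcongr
    nlinarith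
  rcases Nat.eq_zero_or_pos S.card with h0 | hpos
  · rw [h0]
    simp only [Nat.cast_zero, zero_mul]
    positivity
  · have hp : (0:ℝ) < S.card := by exact_mod_cast hpos
    have h2 : (S.card : ℝ) * (S.card * dl q ^ 2) ≤ S.card * (36 * C.R ^ 2) := by
      nlinarith
    exact le_of_mul_le_mul_left h2 hp

end

end Pool.Agent.RHO.Bad33
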