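import Pool.Agent.RHO.Stmts

/-!
# Basic lemmas
-/

set_option autoImplicit false

namespace Pool.Agent.RHO

open Finset

section ip

variable {N : ℕ}

lemma ip_comm (x y : Fin N → ℝ) : ip x y = ip y x := by
  unfold ip
  exact Finset.sum_congr rfl fun l _ => mul_comm _ _

lemma ip_add_left (x y z : Fin N → ℝ) : ip (x + y) z = ip x z + ip y z := by
  unfold ip
  rw [← Finset.sum_add_distrib]
  exact Finset.sum_congr rfl fun l _ => by rw [Pi.add_apply]; ring

lemma ip_add_right (x y z : Fin N → ℝ) : ip x (y + z) = ip x y + ip x z := by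
  rw [ip_comm, ip_add_left, ip_comm y, ip_comm z]

lemma ip_sub_left (x y z : Fin N → ℝ) : ip (x - y) z = ip x z - ip y z := by
  unfold ip
  rw [← Finset.sum_sub_distrib]
  exact Finset.sum_congr rfl fun l _ => by rw [Pi.sub_apply]; ring

lemma ip_sub_right (x y z : Fin N → ℝ) : ip x (y - z) = ip x y - ip x z := by
  rw [ip_comm, ip_sub_left, ip_comm y, ip_comm z]

lemma ip_neg_left (x y : Fin N → ℝ) : ip (-x) y = -ip x y := by
  unfold ip
  rw [← Finset.sum_neg_distrib]
  exact Finset.sum_congr rfl fun l _ => by rw [Pi.neg_apply]; ring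

lemma ip_neg_right (x y : Fin N → ℝ) : ip x (-y) = -ip x y := by
  rw [ip_comm, ip_neg_left, ip_comm y]

lemma ip_smul_left (c : ℝ) (x y : Fin N → ℝ) : ip (c • x) y = c * ip x y := by
  unfold ip
  rw [Finset.mul_sum]
  exact Finset.sum_congr rfl fun l _ => by rw [Pi.smul_apply, smul_eq_mul]; ring

lemma ip_smul_right (c : ℝ) (x y : Fin N → ℝ) : ip x (c • y) = c * ip x y := by
  rw [ip_comm, ip_smul_left, ip_comm y]

lemma ip_zero_left (y : Fin N → ℝ) : ip 0 y = 0 := by
  unfold ip; simp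

lemma ip_zero_right (y : Fin N → ℝ) : ip y 0 = 0 := by
  rw [ip_comm, ip_zero_left]

lemma ip_sum_left {ι : Type} (s : Finset ι) (f : ι → Fin N → ℝ) (y : Fin N → ℝ) :
    ip (∑ i ∈ s, f i) y = ∑ i ∈ s, ip (f i) y := by
  classical
  induction s using Finset.induction_on with
  | empty => rw [Finset.sum_empty, Finset.sum_empty, ip_zero_left]
  | insert a s ha ih => rw [Finset.sum_insert ha, Finset.sum_insert ha, ip_add_left, ih]

lemma ip_sum_right {ι : Type} (s : Finset ι) (f : ι → Fin N → ℝ) (y : Fin N → ℝ) :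
    ip y (∑ i ∈ s, f i) = ∑ i ∈ s, ip y (f i) := by
  rw [ip_comm, ip_sum_left]
  exact Finset.sum_congr rfl fun i _ => ip_comm _ _

lemma ip_self_nonneg (x : Fin N → ℝ) : 0 ≤ ip x x :=
  Finset.sum_nonneg fun _ _ => mul_self_nonneg _

/-- Cauchy-Schwarz. -/
lemma abs_ip_le (x y : Fin N → ℝ) : |ip x y| ≤ √(ip x x) * √(ip y y) := by
  have h1 : ∀ z : Fin N → ℝ, ip z z = ∑ l, z l ^ 2 := by
    intro z
    exact Finset.sum_congr rfl fun l _ => by ring
  rw [h1, h1]
  have h2 := Real.sum_mul_le_sqrt_mul_sqrt Finset.univ x y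
  have h3 := Real.sum_mul_le_sqrt_mul_sqrt Finset.univ (fun l => -x l) y
  rw [abs_le]
  constructor
  · have e1 : ∑ l, -x l * y l = -ip x y := by
      unfold ip
      rw [← Finset.sum_neg_distrib]
      exact Finset.sum_congr rfl fun l _ => by ring
    have e2 : ∑ l, (-x l) ^ 2 = ∑ l, x l ^ 2 := Finset.sum_congr rfl fun l _ => by ring
    rw [e1, e2] at h3
    linarith
  · exact h2

lemma abs_ip_le_one {x y : Fin N → ℝ} {A : ℝ} (hx : √(ip x x) ≤ A) (hy : ip y y ≤ 1) :
    |ip x y| ≤ A := by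
  have h1 := abs_ip_le x y
  have h2 : √(ip y y) ≤ 1 := by
    rw [Real.sqrt_le_one]
    exact hy
  calc |ip x y| ≤ √(ip x x) * √(ip y y) := h1
    _ ≤ √(ip x x) * 1 := mul_le_mul_of_nonneg_left h2 (Real.sqrt_nonneg _)
    _ ≤ A := by rw [mul_one]; exact hx

end ip

section numbers

variable {q : ℕ}

lemma rr_lt_one (hq : 16 ≤ q) : rr q < 1 := by
  have : (16:ℝ) ≤ q := by exact_mod_cast hq
  unfold rr
  have : 0 < 2 / (q:ℝ) := by positivity
  linarith

lemma le_rr (hq : 16 ≤ q) : 7 / 8 ≤ rr q := by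
  have h : (16:ℝ) ≤ q := by exact_mod_cast hq
  unfold rr
  have : 2 / (q:ℝ) ≤ 2 / 16 := div_le_div_of_nonneg_left (by norm_num) (by norm_num) h
  linarith

lemma rr_pos (hq : 16 ≤ q) : 0 < rr q := by
  have := le_rr hq
  linarith

lemma rr_pow_pos (hq : 16 ≤ q) (n : ℕ) : 0 < rr q ^ n := pow_pos (rr_pos hq) n

lemma rr_pow_le_one (hq : 16 ≤ q) (n : ℕ) : rr q ^ n ≤ 1 :=
  pow_le_one₀ (rr_pos hq).le (rr_lt_one hq).le

lemma rr_pow_le (hq : 16 ≤ q) {m n : ℕ} (h : m ≤ n) : rr q ^ n ≤ rr q ^ m :=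
  pow_le_pow_of_le_one (rr_pos hq).le (rr_lt_one hq).le h

lemma one_sub_sq_pos (hq : 16 ≤ q) : 0 < 1 - rr q ^ 2 := by
  have h1 := rr_pos hq
  have h2 := rr_lt_one hq
  nlinarith

lemma dl_pos (hq : 16 ≤ q) : 0 < dl q := by
  have h : (16:ℝ) ≤ q := by exact_mod_cast hq
  unfold dl
  positivity

lemma dl_le (hq : 16 ≤ q) : dl q ≤ 1 / 256 := by
  have h : (16:ℝ) ≤ q := by exact_mod_cast hq
  unfold dl
  rw [div_le_div_iff₀ (by positivity) (by norm_num)]
  linarith

end numbers

section sets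

variable {E : Type} [DecidableEq E]

lemma hd_comm (u x : Finset E) : hd u x = hd x u := by
  unfold hd
  rw [symmDiff_comm]

lemma hd_self (u : Finset E) : hd u u = 0 := by
  unfold hd
  rw [symmDiff_self]
  rfl

/-- `symmDiff x y` in terms of `symmDiff u x` and `symmDiff u y`. -/
lemma symmDiff_base (u x y : Finset E) :
    symmDiff (symmDiff u x) (symmDiff u y) = symmDiff x y := by
  ext a
  simp only [Finset.mem_symmDiff]
  tauto

lemma hd_of_disjoint {u x y : Finset E} (h : Disjoint (symmDiff u x) (symmDiff u y)) :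
    hd x y = hd u x + hd u y := by
  unfold hd
  rw [← symmDiff_base u x y, h.symmDiff_eq_sup, Finset.sup_eq_union,
    Finset.card_union_of_disjoint h]

lemma hd_triangle (u x y : Finset E) : hd x y ≤ hd u x + hd u y := by
  unfold hd
  rw [← symmDiff_base u x y]
  refine (Finset.card_le_card (symmDiff_le_sup)).trans ?_
  exact Finset.card_union_le _ _

lemma symmDiff_toggle (u : Finset E) (e : E) : symmDiff u (symmDiff u {e}) = {e} := by
  rw [← symmDiff_assoc, symmDiff_self, bot_symmDiff]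

lemma hd_toggle (u : Finset E) (e : E) : hd u (symmDiff u {e}) = 1 := by
  unfold hd
  rw [symmDiff_toggle, Finset.card_singleton]

lemma hd_toggle_of_mem {u x : Finset E} {e : E} (h : e ∈ symmDiff u x) :
    hd (symmDiff u {e}) x = hd u x - 1 := by
  unfold hd
  have : symmDiff (symmDiff u {e}) x = (symmDiff u x).erase e := by
    ext a
    simp only [Finset.mem_symmDiff, Finset.mem_erase, Finset.mem_singleton] at h ⊢
    by_cases ha : a = e
    · subst ha; tauto
    · tauto
  rw [this, Finset.card_erase_of_mem h]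

lemma hd_toggle_of_notMem {u x : Finset E} {e : E} (h : e ∉ symmDiff u x) :
    hd (symmDiff u {e}) x = hd u x + 1 := by
  unfold hd
  have : symmDiff (symmDiff u {e}) x = insert e (symmDiff u x) := by
    ext a
    simp only [Finset.mem_symmDiff, Finset.mem_insert, Finset.mem_singleton] at h ⊢
    by_cases ha : a = e
    · subst ha; tauto
    · tauto
  rw [this, Finset.card_insert_of_notMem h]

end sets

namespace Cfg

variable {q N D g M : ℕ} {E J : Type} [DecidableEq E] [DecidableEq J]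

lemma av_nonneg (C : Cfg q N D g M E J) (u : Finset E) : 0 ≤ C.av u := by
  unfold av
  have h1 := C.hR'
  have h2 := (rr_pow_pos C.hq (hd C.T.base u)).le
  positivity

lemma av_le (C : Cfg q N D g M E J) (u : Finset E) : C.av u ≤ 2 * C.R' := by
  unfold av
  have h1 := C.hR'
  have h2 := rr_pow_le_one C.hq (hd C.T.base u)
  calc 2 * C.R' * rr q ^ hd C.T.base u ≤ 2 * C.R' * 1 :=
        mul_le_mul_of_nonneg_left h2 (by linarith)
    _ = 2 * C.R' := mul_one _

lemma gam_eq (C : Cfg q N D g M E J) (p : (J × Fin M) × Finset E) :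
    C.gam p = C.av p.2 • C.b p.1.1 + C.gv p.1 p.2 := rfl

lemma ip_gam (C : Cfg q N D g M E J) (ψ : Fin N → ℝ) (p : (J × Fin M) × Finset E) :
    ip ψ (C.gam p) = C.av p.2 * ip ψ (C.b p.1.1) + ip ψ (C.gv p.1 p.2) := by
  rw [gam_eq, ip_add_right, ip_smul_right]

lemma gv_eq (C : Cfg q N D g M E J) (j : J × Fin M) (u : Finset E) :
    C.gv j u = (C.R / √N) • C.s j u := rfl

lemma ip_gv_gv (C : Cfg q N D g M E J) (j j' : J × Fin M) (u u' : Finset E) :
    ip (C.gv j u) (C.gv j' u') = C.R ^ 2 / N * ip (C.s j u) (C.s j' u') := by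
  rw [gv_eq, gv_eq, ip_smul_left, ip_smul_right, ← mul_assoc, div_mul_div_comm,
    Real.mul_self_sqrt (Nat.cast_nonneg N)]
  ring

lemma ip_s_self (C : Cfg q N D g M E J) (j : J × Fin M) (u : Finset E) :
    ip (C.s j u) (C.s j u) = N := by
  unfold ip
  have : ∀ l, C.s j u l * C.s j u l = 1 := by
    intro l
    rw [← abs_mul_abs_self, C.sgn, one_mul]
  rw [Finset.sum_congr rfl fun l _ => this l]
  simp

/-- The Gram matrix of the vectors `gv`. -/
lemma gram_gv (C : Cfg q N D g M E J) (j j' : J × Fin M) (u u' : Finset E) :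
    |ip (C.gv j u) (C.gv j' u') - (if j = j' then C.R ^ 2 * rr q ^ hd u u' else 0)|
      ≤ C.τ * C.R ^ 2 := by
  have hN : (0:ℝ) < N := by exact_mod_cast C.hN
  have h := C.gram j j' u u'
  have e : ip (C.gv j u) (C.gv j' u') - (if j = j' then C.R ^ 2 * rr q ^ hd u u' else 0)
      = C.R ^ 2 / N * (ip (C.s j u) (C.s j' u') -
        (if j = j' then (N:ℝ) * rr q ^ hd u u' else 0)) := by
    rw [ip_gv_gv]
    split_ifs
    · field_simp
    · ring
  rw [e, abs_mul, abs_of_nonneg (by positivity)]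
  calc C.R ^ 2 / N * _ ≤ C.R ^ 2 / N * (C.τ * N) := mul_le_mul_of_nonneg_left h (by positivity)
    _ = C.τ * C.R ^ 2 := by field_simp

lemma orth_gv (C : Cfg q N D g M E J) (j : J × Fin M) (u : Finset E) (j' : J) :
    |ip (C.gv j u) (C.b j')| ≤ C.τ * C.R := by
  have hN : (0:ℝ) < N := by exact_mod_cast C.hN
  have hs : 0 < √(N:ℝ) := Real.sqrt_pos.2 hN
  have hR : 0 < C.R := by linarith [C.hR]
  rw [gv_eq, ip_smul_left, abs_mul, abs_of_nonneg (by positivity)]
  calc C.R / √N * _ ≤ C.R / √N * (C.τ * √N) :=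
        mul_le_mul_of_nonneg_left (C.orth j u j') (by positivity)
    _ = C.τ * C.R := by field_simp

lemma ip_eta (C : Cfg q N D g M E J) (j : J × Fin M) (u : Finset E) (e : E) (z : Fin N → ℝ) :
    ip (C.eta j u e) z =
      (ip (C.gv j (symmDiff u {e})) z - rr q * ip (C.gv j u) z) /
        (C.R ^ 2 * (1 - rr q ^ 2)) := by
  have : C.eta j u e = (C.R ^ 2 * (1 - rr q ^ 2))⁻¹ •
      (C.gv j (symmDiff u {e}) - rr q • C.gv j u) := by
    funext l
    show (C.gv j (symmDiff u {e}) l - rr q * C.gv j u l) / (C.R ^ 2 * (1 - rr q ^ 2)) = _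
    rw [Pi.smul_apply, Pi.sub_apply, Pi.smul_apply, smul_eq_mul, smul_eq_mul, div_eq_inv_mul]
  rw [this, ip_smul_left, ip_sub_left, ip_smul_left, div_eq_inv_mul]

end Cfg

end Pool.Agent.RHO
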