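import Pool.Agent.RHO.Stmts2
import Pool.Agent.RHO.Kit

/-!
# Basic lemmas, stage 2
-/

set_option autoImplicit false

namespace Pool.Agent.RHO

open Finset

namespace Cfg2

variable {q N D g M : ℕ} {X Ω J : Type} [Fintype Ω] [DecidableEq J] {κ : ℝ}

lemma K_eq (C : Cfg2 q N D g M X Ω J κ) (x y : X) :
    C.S.K x y = (∑ ω, C.S.σ ω x * C.S.σ ω y) / Fintype.card Ω := by
  have h : (0:ℝ) < Fintype.card Ω := by exact_mod_cast C.hΩ
  rw [C.S.avg x y, mul_div_cancel_left₀ _ h.ne']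

lemma K_symm (C : Cfg2 q N D g M X Ω J κ) (x y : X) : C.S.K x y = C.S.K y x := by
  rw [K_eq, K_eq]
  congr 1
  exact Finset.sum_congr rfl fun ω _ => mul_comm _ _

lemma K_self (C : Cfg2 q N D g M X Ω J κ) (x : X) : C.S.K x x = 1 := by
  have h : (0:ℝ) < Fintype.card Ω := by exact_mod_cast C.hΩ
  rw [K_eq]
  have : ∀ ω, C.S.σ ω x * C.S.σ ω x = 1 := by
    intro ω
    rw [← abs_mul_abs_self, C.S.abs_σ, one_mul]
  rw [Finset.sum_congr rfl fun ω _ => this ω, Finset.sum_const, Finset.card_univ, nsmul_eq_mul,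
    mul_one, div_self h.ne']

lemma abs_K_le (C : Cfg2 q N D g M X Ω J κ) (x y : X) : |C.S.K x y| ≤ 1 := by
  have h : (0:ℝ) < Fintype.card Ω := by exact_mod_cast C.hΩ
  rw [K_eq, abs_div, abs_of_pos h, div_le_one h]
  calc |∑ ω, C.S.σ ω x * C.S.σ ω y| ≤ ∑ ω, |C.S.σ ω x * C.S.σ ω y| :=
        Finset.abs_sum_le_sum_abs _ _
    _ = ∑ _ω : Ω, (1:ℝ) := by
        refine Finset.sum_congr rfl fun ω _ => ?_
        rw [abs_mul, C.S.abs_σ, C.S.abs_σ, one_mul]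
    _ = Fintype.card Ω := by simp

lemma abs_av_le (C : Cfg2 q N D g M X Ω J κ) (u : X) : |C.av u| ≤ 2 * C.R' := by
  unfold av
  have h1 := C.hR'
  rw [abs_mul, abs_of_nonneg (by linarith : (0:ℝ) ≤ 2 * C.R')]
  calc 2 * C.R' * |C.S.K u C.S.base| ≤ 2 * C.R' * 1 :=
        mul_le_mul_of_nonneg_left (C.abs_K_le _ _) (by linarith)
    _ = 2 * C.R' := mul_one _

lemma av_base (C : Cfg2 q N D g M X Ω J κ) : C.av C.S.base = 2 * C.R' := by
  unfold av
  rw [K_self, mul_one]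

lemma gam_eq (C : Cfg2 q N D g M X Ω J κ) (p : (J × Fin M) × X) :
    C.gam p = C.av p.2 • C.b p.1.1 + C.gv p.1 p.2 := rfl

lemma ip_gam (C : Cfg2 q N D g M X Ω J κ) (ψ : Fin N → ℝ) (p : (J × Fin M) × X) :
    ip ψ (C.gam p) = C.av p.2 * ip ψ (C.b p.1.1) + ip ψ (C.gv p.1 p.2) := by
  rw [gam_eq, ip_add_right, ip_smul_right]

lemma gv_eq (C : Cfg2 q N D g M X Ω J κ) (j : J × Fin M) (u : X) :
    C.gv j u = (C.R / √N) • C.s j u := rfl

lemma ip_gv_gv (C : Cfg2 q N D g M X Ω J κ) (j j' : J × Fin M) (u u' : X) :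
    ip (C.gv j u) (C.gv j' u') = C.R ^ 2 / N * ip (C.s j u) (C.s j' u') := by
  rw [gv_eq, gv_eq, ip_smul_left, ip_smul_right, ← mul_assoc, div_mul_div_comm,
    Real.mul_self_sqrt (Nat.cast_nonneg N)]
  ring

lemma ip_s_self (C : Cfg2 q N D g M X Ω J κ) (j : J × Fin M) (u : X) :
    ip (C.s j u) (C.s j u) = N := by
  unfold ip
  have : ∀ l, C.s j u l * C.s j u l = 1 := by
    intro l
    rw [← abs_mul_abs_self, C.sgn, one_mul]
  rw [Finset.sum_congr rfl fun l _ => this l]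
  simp

/-- The Gram matrix of the vectors `gv`. -/
lemma gram_gv (C : Cfg2 q N D g M X Ω J κ) (j j' : J × Fin M) (u u' : X) :
    |ip (C.gv j u) (C.gv j' u') - (if j = j' then C.R ^ 2 * C.S.K u u' else 0)|
      ≤ C.τ * C.R ^ 2 := by
  have hN : (0:ℝ) < N := by exact_mod_cast C.hN
  have h := C.gram j j' u u'
  have e : ip (C.gv j u) (C.gv j' u') - (if j = j' then C.R ^ 2 * C.S.K u u' else 0)
      = C.R ^ 2 / N * (ip (C.s j u) (C.s j' u') -
        (if j = j' then (N:ℝ) * C.S.K u u' else 0)) := by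
    rw [ip_gv_gv]
    split_ifs
    · field_simp
    · ring
  rw [e, abs_mul, abs_of_nonneg (by positivity)]
  calc C.R ^ 2 / N * _ ≤ C.R ^ 2 / N * (C.τ * N) := mul_le_mul_of_nonneg_left h (by positivity)
    _ = C.τ * C.R ^ 2 := by field_simp

lemma orth_gv (C : Cfg2 q N D g M X Ω J κ) (j : J × Fin M) (u : X) (j' : J) :
    |ip (C.gv j u) (C.b j')| ≤ C.τ * C.R := by
  have hN : (0:ℝ) < N := by exact_mod_cast C.hN
  have hs : 0 < √(N:ℝ) := Real.sqrt_pos.2 hN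
  have hR : 0 < C.R := by linarith [C.hR]
  rw [gv_eq, ip_smul_left, abs_mul, abs_of_nonneg (by positivity)]
  calc C.R / √N * _ ≤ C.R / √N * (C.τ * √N) :=
        mul_le_mul_of_nonneg_left (C.orth j u j') (by positivity)
    _ = C.τ * C.R := by field_simp

lemma ip_eta (C : Cfg2 q N D g M X Ω J κ) (j : J × Fin M) (u : X) (e : Fin D)
    (z : Fin N → ℝ) :
    ip (C.eta j u e) z =
      (ip (C.gv j (C.S.nb u e)) z - rr q * ip (C.gv j u) z) /
        (C.R ^ 2 * (1 - rr q ^ 2)) := by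
  have : C.eta j u e = (C.R ^ 2 * (1 - rr q ^ 2))⁻¹ •
      (C.gv j (C.S.nb u e) - rr q • C.gv j u) := by
    funext l
    show (C.gv j (C.S.nb u e) l - rr q * C.gv j u l) / (C.R ^ 2 * (1 - rr q ^ 2)) = _
    rw [Pi.smul_apply, Pi.sub_apply, Pi.smul_apply, smul_eq_mul, smul_eq_mul, div_eq_inv_mul]
  rw [this, ip_smul_left, ip_sub_left, ip_smul_left, div_eq_inv_mul]

lemma hk_nonneg (C : Cfg2 q N D g M X Ω J κ) (u : X) (e : Fin D) (x : X) : 0 ≤ C.hk u e x := by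
  unfold hk
  split_ifs
  · exact (rr_pow_pos C.hq _).le
  · exact le_rfl

lemma hk_le_one (C : Cfg2 q N D g M X Ω J κ) (u : X) (e : Fin D) (x : X) : C.hk u e x ≤ 1 := by
  unfold hk
  split_ifs
  · exact rr_pow_le_one C.hq _
  · exact zero_le_one

end Cfg2

end Pool.Agent.RHO
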