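import Pool.Agent.RHO.Kit

/-!
# Row AVG: the average of the product of two signs
-/

set_option autoImplicit false

namespace Pool.Agent.RHO

open Finset

/-- Average of a function of one coordinate. -/
lemma avg_coord {J X : Type} [Fintype J] [DecidableEq J] [Fintype X] (j : J) (F : X → ℝ) :
    (Fintype.card X : ℝ) * ∑ ω : J → X, F (ω j) = Fintype.card (J → X) * ∑ x, F x := by
  classical
  have e := Equiv.funSplitAt j X
  have h1 : ∑ ω : J → X, F (ω j) = ∑ p : X × ({i // i ≠ j} → X), F p.1 :=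
    Fintype.sum_equiv (Equiv.funSplitAt j X) _ _ fun ω => rfl
  have h2 : ∑ p : X × ({i // i ≠ j} → X), F p.1 =
      Fintype.card ({i // i ≠ j} → X) * ∑ x, F x := by
    rw [Fintype.sum_prod_type, Finset.mul_sum]
    refine Finset.sum_congr rfl fun x _ => ?_
    simp only
    rw [Finset.sum_const, Finset.card_univ, nsmul_eq_mul]
  have h3 : Fintype.card (J → X) = Fintype.card X * Fintype.card ({i // i ≠ j} → X) := by
    rw [Fintype.card_congr e, Fintype.card_prod]
  rw [h1, h2, h3]
  push_cast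
  ring

/-- The sign of a label. -/
noncomputable def eps {q : ℕ} (y : Fin q) : ℝ := if (y : ℕ) = 0 then -1 else 1

lemma eps_sq {q : ℕ} (y : Fin q) : eps y * eps y = 1 := by
  unfold eps
  split_ifs <;> norm_num

lemma sum_eps {q : ℕ} (hq : 1 ≤ q) : ∑ y : Fin q, eps y = q * rr q := by
  obtain ⟨m, rfl⟩ : ∃ m, q = m + 1 := ⟨q - 1, by omega⟩
  rw [Fin.sum_univ_succ]
  have h1 : eps (0 : Fin (m + 1)) = -1 := by
    unfold eps
    rw [if_pos]
    rfl
  have h2 : ∀ i : Fin m, eps (i.succ) = 1 := by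
    intro i
    unfold eps
    rw [if_neg]
    rw [Fin.val_succ]
    omega
  rw [h1, Finset.sum_congr rfl fun i _ => h2 i]
  unfold rr
  have h3 : ((m + 1 : ℕ) : ℝ) ≠ 0 := by exact_mod_cast Nat.succ_ne_zero m
  rw [Finset.sum_const, Finset.card_univ, Fintype.card_fin, nsmul_eq_mul, mul_sub, mul_div_assoc']
  rw [mul_comm ((m + 1 : ℕ) : ℝ) 2, mul_div_assoc, div_self h3]
  push_cast
  ring

lemma sum_prod_eps {q : ℕ} {E : Type} [Fintype E] [DecidableEq E] (hq : 1 ≤ q) (S : Finset E) :
    ∑ f : E → Fin q, ∏ e ∈ S, eps (f e) = (q : ℝ) ^ Fintype.card E * rr q ^ S.card := by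
  have h1 : ∀ f : E → Fin q, ∏ e ∈ S, eps (f e) = ∏ e : E, (if e ∈ S then eps (f e) else 1) := by
    intro f
    rw [Finset.prod_ite_mem, Finset.univ_inter]
  rw [Finset.sum_congr rfl fun f _ => h1 f]
  have h2 : ∑ f : E → Fin q, ∏ e : E, (if e ∈ S then eps (f e) else 1) =
      ∏ e : E, ∑ y : Fin q, (if e ∈ S then eps y else 1) := by
    rw [Finset.prod_univ_sum, Fintype.piFinset_univ]
  rw [h2]
  have h3 : ∀ e : E, ∑ y : Fin q, (if e ∈ S then eps y else 1) =
      q * (if e ∈ S then rr q else 1) := by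
    intro e
    by_cases he : e ∈ S
    · simp only [if_pos he]
      exact sum_eps hq
    · simp only [if_neg he]
      simp
  rw [Finset.prod_congr rfl fun e _ => h3 e, Finset.prod_mul_distrib, Finset.prod_const,
    Finset.card_univ, Finset.prod_ite_mem, Finset.univ_inter, Finset.prod_const]

/-- The involution changing the free sign of the copy `j`. -/
def flip {q : ℕ} {J E : Type} [DecidableEq J] (j : J) : Om q J E ≃ Om q J E where
  toFun ω := Function.update ω j (!(ω j).1, (ω j).2)
  invFun ω := Function.update ω j (!(ω j).1, (ω j).2)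
  left_inv ω := by
    funext i
    by_cases hi : i = j
    · subst hi
      simp
    · simp [Function.update_of_ne hi]
  right_inv ω := by
    funext i
    by_cases hi : i = j
    · subst hi
      simp
    · simp [Function.update_of_ne hi]

lemma sg_flip {q : ℕ} {J E : Type} [DecidableEq J] (j : J) (ω : Om q J E) (u : Finset E) :
    sg (flip j ω) j u = -sg ω j u := by
  unfold sg flip
  simp only [Equiv.coe_fn_mk, Function.update_self]
  cases (ω j).1 <;> simp

lemma sg_flip_ne {q : ℕ} {J E : Type} [DecidableEq J] {j i : J} (h : i ≠ j) (ω : Om q J E)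
    (u : Finset E) : sg (flip j ω) i u = sg ω i u := by
  unfold sg flip
  simp only [Equiv.coe_fn_mk, Function.update_of_ne h]

lemma sg_mul_self {q : ℕ} {J E : Type} [DecidableEq E] (ω : Om q J E) (j : J) (u u' : Finset E) :
    sg ω j u * sg ω j u' = ∏ e ∈ symmDiff u u', eps ((ω j).2 e) := by
  have h0 : ∀ v : Finset E, sg ω j v = (if (ω j).1 then 1 else -1) * ∏ e ∈ v, eps ((ω j).2 e) :=
    fun v => rfl
  have h1 : ∀ b : Bool, (if b = true then (1:ℝ) else -1) * (if b = true then (1:ℝ) else -1) = 1 := by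
    intro b
    cases b <;> simp
  have h2 : (∏ e ∈ u, eps ((ω j).2 e)) * ∏ e ∈ u', eps ((ω j).2 e) =
      ∏ e ∈ symmDiff u u', eps ((ω j).2 e) := by
    have e1 : ∏ e ∈ u, eps ((ω j).2 e) =
        (∏ e ∈ u \ u', eps ((ω j).2 e)) * ∏ e ∈ u ∩ u', eps ((ω j).2 e) := by
      rw [← Finset.prod_union (Finset.disjoint_sdiff_inter u u'), Finset.sdiff_union_inter]
    have e2 : ∏ e ∈ u', eps ((ω j).2 e) =
        (∏ e ∈ u' \ u, eps ((ω j).2 e)) * ∏ e ∈ u ∩ u', eps ((ω j).2 e) := by
      rw [Finset.inter_comm, ← Finset.prod_union (Finset.disjoint_sdiff_inter u' u),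
        Finset.sdiff_union_inter]
    have e3 : (∏ e ∈ u ∩ u', eps ((ω j).2 e)) * ∏ e ∈ u ∩ u', eps ((ω j).2 e) = 1 := by
      rw [← Finset.prod_mul_distrib]
      exact Finset.prod_eq_one fun e _ => eps_sq _
    have e4 : ∏ e ∈ symmDiff u u', eps ((ω j).2 e) =
        (∏ e ∈ u \ u', eps ((ω j).2 e)) * ∏ e ∈ u' \ u, eps ((ω j).2 e) := by
      rw [← Finset.prod_union]
      · rfl
      · rw [Finset.disjoint_left]
        intro a ha hb
        rw [Finset.mem_sdiff] at ha hb
        exact ha.2 hb.1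
    rw [e1, e2, e4]
    calc _ = (∏ e ∈ u \ u', eps ((ω j).2 e)) * (∏ e ∈ u' \ u, eps ((ω j).2 e)) *
        ((∏ e ∈ u ∩ u', eps ((ω j).2 e)) * ∏ e ∈ u ∩ u', eps ((ω j).2 e)) := by ring
      _ = _ := by rw [e3, mul_one]
  rw [h0, h0]
  calc _ = ((if (ω j).1 = true then (1:ℝ) else -1) * (if (ω j).1 = true then (1:ℝ) else -1)) *
      ((∏ e ∈ u, eps ((ω j).2 e)) * ∏ e ∈ u', eps ((ω j).2 e)) := by ring
    _ = _ := by rw [h1, h2, one_mul]

theorem avg : AVGStmt := by
  intro q J E _ _ _ _ j j' u u' hq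
  have hq0 : (0:ℝ) < q := by exact_mod_cast hq
  constructor
  · by_cases hjj : j = j'
    · subst hjj
      rw [if_pos rfl]
      have h1 : ∑ ω : Om q J E, sg ω j u * sg ω j u' =
          ∑ ω : Om q J E, (fun x : Bool × (E → Fin q) => ∏ e ∈ symmDiff u u', eps (x.2 e)) (ω j) :=
        Finset.sum_congr rfl fun ω _ => sg_mul_self ω j u u'
      have h2 := avg_coord (J := J) j
        (fun x : Bool × (E → Fin q) => ∏ e ∈ symmDiff u u', eps (x.2 e))
      have h3 : ∑ x : Bool × (E → Fin q), (∏ e ∈ symmDiff u u', eps (x.2 e)) =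
          2 * ((q : ℝ) ^ Fintype.card E * rr q ^ hd u u') := by
        rw [Fintype.sum_prod_type]
        simp only
        rw [sum_prod_eps hq, Finset.sum_const, Finset.card_univ, Fintype.card_bool, nsmul_eq_mul]
        rfl
      have h4 : (Fintype.card (Bool × (E → Fin q)) : ℝ) = 2 * (q : ℝ) ^ Fintype.card E := by
        rw [Fintype.card_prod, Fintype.card_bool, Fintype.card_fun, Fintype.card_fin]
        push_cast
        ring
      rw [h3, h4] at h2
      rw [h1]
      have h5 : (2 * (q : ℝ) ^ Fintype.card E) ≠ 0 := by positivity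
      apply mul_left_cancel₀ h5
      rw [h2]
      ring
    · rw [if_neg hjj, mul_zero]
      have h1 : ∑ ω : Om q J E, sg ω j u * sg ω j' u' =
          ∑ ω : Om q J E, -(sg ω j u * sg ω j' u') := by
        rw [← Equiv.sum_comp (flip j) (fun ω : Om q J E => sg ω j u * sg ω j' u')]
        refine Finset.sum_congr rfl fun ω _ => ?_
        rw [sg_flip, sg_flip_ne (fun h => hjj h.symm)]
        ring
      rw [Finset.sum_neg_distrib] at h1
      linarith
  · have h1 : ∑ ω : Om q J E, sg ω j u = ∑ ω : Om q J E, -(sg ω j u) := by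
      rw [← Equiv.sum_comp (flip j) (fun ω : Om q J E => sg ω j u)]
      refine Finset.sum_congr rfl fun ω _ => ?_
      rw [sg_flip]
    rw [Finset.sum_neg_distrib] at h1
    linarith

end Pool.Agent.RHO
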