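import Pool.Agent.RHO.Stmts

/-!
# MP_ca8ef3_an: row GRM (the Gram lemma)
-/

set_option autoImplicit false

namespace Pool.Agent.RHO.Grm33

open Finset Pool.Agent.RHO

theorem sg_cases {q : ℕ} {J E : Type} (ω : Om q J E) (j : J) (u : Finset E) :
    sg ω j u = 1 ∨ sg ω j u = -1 := by
  classical
  unfold sg
  have h : ∀ v : Finset E, (∏ e ∈ v, (if ((ω j).2 e : ℕ) = 0 then (-1 : ℝ) else 1)) = 1 ∨
      (∏ e ∈ v, (if ((ω j).2 e : ℕ) = 0 then (-1 : ℝ) else 1)) = -1 := by
    intro v
    induction v using Finset.induction_on with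
    | empty => left; simp
    | insert a v ha ih =>
      rw [Finset.prod_insert ha]
      split_ifs
      · rcases ih with h | h
        · right; rw [h]; norm_num
        · left; rw [h]; norm_num
      · rw [one_mul]; exact ih
  rcases h u with h | h
  · rw [h]
    split_ifs
    · left; norm_num
    · right; norm_num
  · rw [h]
    split_ifs
    · right; norm_num
    · left; norm_num

theorem abs_of_cases {v : ℝ} (h : v = 1 ∨ v = -1) : |v| = 1 := by
  rcases h with rfl | rfl <;> simp

/-- The exponential of a multiple of a sign minus a constant. -/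
theorem exp_sign {v : ℝ} (h : v = 1 ∨ v = -1) (t μ : ℝ) :
    Real.exp (t * (v - μ)) = (1 + v) / 2 * Real.exp (t * (1 - μ)) +
      (1 - v) / 2 * Real.exp (-(t * (1 + μ))) := by
  rcases h with rfl | rfl
  · norm_num
  · have : t * (-1 - μ) = -(t * (1 + μ)) := by ring
    rw [this]
    norm_num

/-- The moment generating function of a sign. -/
theorem mgf (ho1 : HO1Stmt) (Ω : Type) [Fintype Ω] (v : Ω → ℝ) (μ : ℝ)
    (hv : ∀ x, v x = 1 ∨ v x = -1) (hμ : |μ| ≤ 1) (hsum : ∑ x, v x = Fintype.card Ω * μ) (t : ℝ) :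
    ∑ x, Real.exp (t * (v x - μ)) ≤ Fintype.card Ω * Real.exp (t ^ 2 / 2) := by
  simp only [exp_sign (hv _) t μ]
  rw [Finset.sum_add_distrib, ← Finset.sum_mul, ← Finset.sum_mul]
  have h1 : ∑ x, (1 + v x) / 2 = Fintype.card Ω * ((1 + μ) / 2) := by
    rw [← Finset.sum_div, Finset.sum_add_distrib, hsum]
    simp only [Finset.sum_const, Finset.card_univ, nsmul_eq_mul, mul_one]
    ring
  have h2 : ∑ x, (1 - v x) / 2 = Fintype.card Ω * ((1 - μ) / 2) := by
    rw [← Finset.sum_div, Finset.sum_sub_distrib, hsum]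
    simp only [Finset.sum_const, Finset.card_univ, nsmul_eq_mul, mul_one]
    ring
  rw [h1, h2]
  rw [abs_le] at hμ
  have h3 := ho1 ((1 + μ) / 2) t (by linarith) (by linarith)
  have e1 : 2 * t * (1 - (1 + μ) / 2) = t * (1 - μ) := by ring
  have e2 : 2 * t * ((1 + μ) / 2) = t * (1 + μ) := by ring
  have e3 : 1 - (1 + μ) / 2 = (1 - μ) / 2 := by ring
  rw [e1, e2, e3] at h3
  have h4 : (0:ℝ) ≤ Fintype.card Ω := Nat.cast_nonneg _
  nlinarith [mul_le_mul_of_nonneg_left h3 h4]

/-- The moment generating function of a symmetric sign with a factor. -/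
theorem mgf0 (ho1 : HO1Stmt) (Ω : Type) [Fintype Ω] (v : Ω → ℝ) (b : ℝ)
    (hv : ∀ x, v x = 1 ∨ v x = -1) (hsum : ∑ x, v x = 0) (t : ℝ) :
    ∑ x, Real.exp (t * (v x * b)) ≤ Fintype.card Ω * Real.exp (t ^ 2 * b ^ 2 / 2) := by
  have h := mgf ho1 Ω v 0 hv (by simp) (by rw [hsum, mul_zero]) (t * b)
  have e : ∀ x, t * (v x * b) = t * b * (v x - 0) := fun x => by ring
  simp only [e]
  refine h.trans_eq ?_
  rw [mul_pow]

theorem grm (ho1 : HO1Stmt) (ho2 : HO2Stmt) (avg : AVGStmt) : GRMStmt := by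
  intro q N J E J' _ _ _ _ _ b τ hq hN hτ hb hJ hlt
  classical
  have hN' : (0:ℝ) < N := by exact_mod_cast hN
  have hq1 : 1 ≤ q := by omega
  have hr0 : 0 ≤ rr q := by
    unfold rr
    have : (2:ℝ) ≤ q := by exact_mod_cast hq
    rw [sub_nonneg, div_le_one (by linarith)]
    exact this
  have hr1 : rr q ≤ 1 := by
    unfold rr
    have : (0:ℝ) ≤ 2 / q := by positivity
    linarith
  -- the sample space
  set Ω := Om q J E with hΩ
  set n : ℝ := (Fintype.card Ω : ℝ) with hn
  have : Nonempty (Fin q) := ⟨⟨0, by omega⟩⟩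
  have : Nonempty Ω := ⟨fun _ => (true, fun _ => Classical.arbitrary _)⟩
  have hn0 : 0 < n := by
    rw [hn]
    exact_mod_cast Fintype.card_pos
  -- bad events
  let bad1 : (J × Finset E) × (J × Finset E) → Set (Fin N → Ω) := fun p =>
    {ω | τ * N < |∑ l, (sg (ω l) p.1.1 p.1.2 * sg (ω l) p.2.1 p.2.2 -
      (if p.1.1 = p.2.1 then rr q ^ hd p.1.2 p.2.2 else 0))|}
  let bad2 : (J × Finset E) × J' → Set (Fin N → Ω) := fun p =>
    {ω | τ * √N < |∑ l, sg (ω l) p.1.1 p.1.2 * b p.2 l|}
  have hb1 : ∀ p, ((bad1 p).ncard : ℝ) ≤ 2 * n ^ N * Real.exp (-(τ ^ 2 * N / 2)) := by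
    rintro ⟨⟨j, u⟩, ⟨j', u'⟩⟩
    set μ : ℝ := (if j = j' then rr q ^ hd u u' else 0) with hμ
    have hμ1 : |μ| ≤ 1 := by
      rw [hμ]
      split_ifs
      · rw [abs_of_nonneg (pow_nonneg hr0 _)]
        exact pow_le_one₀ hr0 hr1
      · simp
    have h := ho2 N Ω (fun _ x => sg x j u * sg x j' u' - μ) (fun _ => 1) (τ * N) N
      (by
        intro l t
        have := mgf ho1 Ω (fun x => sg x j u * sg x j' u') μ
          (fun x => by
            rcases sg_cases x j u with h | h <;> rcases sg_cases x j' u' with h' | h' <;>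
              simp [h, h'])
          hμ1 (avg q J E j j' u u' hq1).1 t
        simpa using this)
      (by positivity) hN' (by simp) (by intro l; exact zero_le_one)
    refine h.trans_eq ?_
    congr 2
    field_simp
  have hb2 : ∀ p, ((bad2 p).ncard : ℝ) ≤ 2 * n ^ N * Real.exp (-(τ ^ 2 * N / 2)) := by
    rintro ⟨⟨j, u⟩, j'⟩
    have h := ho2 N Ω (fun l x => sg x j u * b j' l) (fun l => b j' l ^ 2) (τ * √N) 1
      (by
        intro l t
        exact mgf0 ho1 Ω (fun x => sg x j u) (b j' l) (fun x => sg_cases x j u)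
          (avg q J E j j u u hq1).2 t)
      (by have := Real.sqrt_pos.2 hN'; positivity) one_pos
      (by
        have := hb j'
        unfold ip at this
        simpa [sq] using this)
      (by intro l; positivity)
    refine h.trans_eq ?_
    congr 2
    rw [mul_pow, Real.sq_sqrt hN'.le]
    ring
  -- union bound
  have hcount : ∃ ω : Fin N → Ω, (∀ p, ω ∉ bad1 p) ∧ (∀ p, ω ∉ bad2 p) := by
    by_contra hcon
    push Not at hcon
    have hcov : (Set.univ : Set (Fin N → Ω)) ⊆ (⋃ p, bad1 p) ∪ (⋃ p, bad2 p) := by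
      intro ω _
      by_cases h : ∀ p, ω ∉ bad1 p
      · obtain ⟨p, hp⟩ := hcon ω h
        exact Or.inr (Set.mem_iUnion.2 ⟨p, hp⟩)
      · push Not at h
        obtain ⟨p, hp⟩ := h
        exact Or.inl (Set.mem_iUnion.2 ⟨p, hp⟩)
    have h1 : (Set.univ : Set (Fin N → Ω)).ncard ≤
        ∑ p, (bad1 p).ncard + ∑ p, (bad2 p).ncard := by
      calc (Set.univ : Set (Fin N → Ω)).ncard
          ≤ ((⋃ p, bad1 p) ∪ (⋃ p, bad2 p)).ncard := Set.ncard_le_ncard hcov (Set.toFinite _)
        _ ≤ (⋃ p, bad1 p).ncard + (⋃ p, bad2 p).ncard := Set.ncard_union_le _ _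
        _ ≤ _ := add_le_add (Set.ncard_iUnion_le_of_fintype _) (Set.ncard_iUnion_le_of_fintype _)
    have h2 : ((Set.univ : Set (Fin N → Ω)).ncard : ℝ) = n ^ N := by
      rw [Set.ncard_univ, Nat.card_eq_fintype_card, Fintype.card_fun, Fintype.card_fin, hn]
      push_cast
      rfl
    have h3 : n ^ N ≤ ∑ p, ((bad1 p).ncard : ℝ) + ∑ p, ((bad2 p).ncard : ℝ) := by
      rw [← h2]
      exact_mod_cast h1
    set X : ℝ := 2 * n ^ N * Real.exp (-(τ ^ 2 * N / 2)) with hX
    have hX0 : 0 ≤ X := by positivity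
    have h4 : ∑ p, ((bad1 p).ncard : ℝ) ≤
        (Fintype.card J : ℝ) ^ 2 * 4 ^ Fintype.card E * X := by
      calc ∑ p, ((bad1 p).ncard : ℝ) ≤ ∑ _p : (J × Finset E) × (J × Finset E), X :=
            Finset.sum_le_sum fun p _ => hb1 p
        _ = (Fintype.card J : ℝ) ^ 2 * 4 ^ Fintype.card E * X := by
            simp only [Finset.sum_const, Finset.card_univ, nsmul_eq_mul, Fintype.card_prod,
              Fintype.card_finset]
            push_cast
            have : (4:ℝ) ^ Fintype.card E = 2 ^ Fintype.card E * 2 ^ Fintype.card E := by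
              rw [← mul_pow]; norm_num
            rw [this]
            ring
    have h5 : ∑ p, ((bad2 p).ncard : ℝ) ≤
        (Fintype.card J : ℝ) ^ 2 * 4 ^ Fintype.card E * X := by
      calc ∑ p, ((bad2 p).ncard : ℝ) ≤ ∑ _p : (J × Finset E) × J', X :=
            Finset.sum_le_sum fun p _ => hb2 p
        _ = (Fintype.card J : ℝ) * 2 ^ Fintype.card E * Fintype.card J' * X := by
            simp only [Finset.sum_const, Finset.card_univ, nsmul_eq_mul, Fintype.card_prod,
              Fintype.card_finset]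
            push_cast
            ring
        _ ≤ (Fintype.card J : ℝ) * 4 ^ Fintype.card E * Fintype.card J * X := by
            have h6 : (Fintype.card J' : ℝ) ≤ Fintype.card J := by exact_mod_cast hJ
            gcongr
            norm_num
        _ = (Fintype.card J : ℝ) ^ 2 * 4 ^ Fintype.card E * X := by ring
    have h7 : n ^ N ≤ (4 * (Fintype.card J : ℝ) ^ 2 * 4 ^ Fintype.card E *
        Real.exp (-(τ ^ 2 * N / 2))) * n ^ N := by
      calc n ^ N ≤ (Fintype.card J : ℝ) ^ 2 * 4 ^ Fintype.card E * X +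
            (Fintype.card J : ℝ) ^ 2 * 4 ^ Fintype.card E * X := by linarith
        _ = _ := by rw [hX]; ring
    have h8 : 0 < n ^ N := pow_pos hn0 _
    nlinarith
  obtain ⟨ω, hω1, hω2⟩ := hcount
  refine ⟨fun j u l => sg (ω l) j u, fun j u l => abs_of_cases (sg_cases _ _ _), ?_, ?_⟩
  · intro j j' u u'
    have h := hω1 ((j, u), (j', u'))
    simp only [bad1, Set.mem_ofPred_eq, not_lt] at h
    refine le_trans (le_of_eq ?_) h
    congr 1
    rw [Finset.sum_sub_distrib]
    simp only [ip, Finset.sum_const, Finset.card_univ, Fintype.card_fin, nsmul_eq_mul]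
    split_ifs <;> ring
  · intro j u j'
    have h := hω2 ((j, u), j')
    simp only [bad2, Set.mem_ofPred_eq, not_lt] at h
    exact h

end Pool.Agent.RHO.Grm33
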