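import Pool.Agent.RHO.Kit

/-!
# MP_ca8ef3_an, row CFG (helper82): existence of the data
-/

set_option autoImplicit false

namespace Pool.Agent.RHO

open Finset

namespace CFGH

theorem num1 {x : ℝ} (hx : 16 ≤ x) :
    2 * (1 / (2 ^ 33 * x ^ 10)) * (2 ^ 9 * x ^ 4) ^ 2 ≤ 1 := by
  have hx0 : 0 < x := by linarith
  have e : 2 * (1 / (2 ^ 33 * x ^ 10)) * (2 ^ 9 * x ^ 4) ^ 2 = 1 / (2 ^ 14 * x ^ 2) := by
    field_simp
  rw [e, div_le_one (by positivity)]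
  nlinarith

theorem num2 {x : ℝ} (hx : 16 ≤ x) :
    72 * (1 / (2 ^ 33 * x ^ 10)) * (2 ^ 9 * x ^ 4) ^ 2 ≤ (1 / (16 * x)) ^ 2 := by
  have hx0 : 0 < x := by linarith
  have e : 72 * (1 / (2 ^ 33 * x ^ 10)) * (2 ^ 9 * x ^ 4) ^ 2 = 9 / 16 * (1 / (16 * x)) ^ 2 := by
    field_simp
    ring
  rw [e]
  have : 0 ≤ (1 / (16 * x)) ^ 2 := sq_nonneg _
  linarith

theorem num3 {x : ℝ} (hx : 16 ≤ x) :
    2 * (1 / (2 ^ 33 * x ^ 10)) + 4 * (2 ^ 36 * x ^ 12) * (1 / (2 ^ 33 * x ^ 10)) / (2 ^ 9 * x ^ 4)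
      ≤ 1 / (16 * x) * (1 - (1 - 2 / x) ^ 2) := by
  have hx0 : 0 < x := by linarith
  have e1 : 4 * (2 ^ 36 * x ^ 12) * (1 / (2 ^ 33 * x ^ 10)) / (2 ^ 9 * x ^ 4) =
      1 / (16 * x ^ 2) := by
    field_simp
    ring
  have e2 : 1 / (16 * x) * (1 - (1 - 2 / x) ^ 2) = 1 / (16 * x ^ 2) * (4 - 4 / x) := by
    field_simp
    ring
  have e3 : 2 * (1 / (2 ^ 33 * x ^ 10)) ≤ 1 / (16 * x ^ 2) := by
    have e4 : 2 * (1 / (2 ^ 33 * x ^ 10)) = 1 / (16 * x ^ 2) * (1 / (2 ^ 28 * x ^ 8)) := by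
      field_simp
      ring
    rw [e4]
    apply mul_le_of_le_one_right (by positivity)
    rw [div_le_one (by positivity)]
    have : 1 ≤ x ^ 8 := one_le_pow₀ (by linarith)
    linarith
  have e5 : 4 / x ≤ 1 / 4 := by
    rw [div_le_div_iff₀ hx0 (by norm_num)]
    linarith
  rw [e1, e2]
  have h0 : 0 < 1 / (16 * x ^ 2) := by positivity
  nlinarith

theorem num6 {x : ℝ} (hx : 16 ≤ x) :
    100 * (2 ^ 9 * x ^ 4) ^ 2 ≤ 2 ^ 33 * x ^ 10 * (1 / (16 * x)) ^ 2 := by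
  have hx0 : 0 < x := by linarith
  have e : 2 ^ 33 * x ^ 10 * (1 / (16 * x)) ^ 2 = 128 * (2 ^ 9 * x ^ 4) ^ 2 := by
    field_simp
    ring
  rw [e]
  have : 0 ≤ (2 ^ 9 * x ^ 4) ^ 2 := sq_nonneg _
  linarith

end CFGH

/-- row CFG -/
theorem cfg (hT : TOGStmt) (hNet : NETStmt) (hG : GRMStmt) (h1 : NU1Stmt) (h2 : NU2Stmt) :
    CFGStmt := by
  intro q k N hq hqk hN hlog
  have hqpos : 0 < q := by omega
  have hx : (16 : ℝ) ≤ q := by exact_mod_cast hq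
  have hx0 : (0 : ℝ) < q := by linarith
  have hNpos : 0 < N := lt_of_lt_of_le (by positivity) hN
  have hg : 0 < q * (7 * k + 21) := Nat.mul_pos hqpos (by omega)
  have hD : 1 ≤ 2 ^ 33 * q ^ 10 := Nat.mul_pos (by positivity) (by positivity)
  obtain ⟨E, iE1, iE2, T, hE⟩ := hT (2 ^ 33 * q ^ 10) (2 * (q * (7 * k + 21))) hD (by omega)
  obtain ⟨J, iJ1, iJ2, iJ3, b, hJ, hb, hnet⟩ := hNet N (2 ^ 70 * q ^ 24)
    (Nat.mul_pos (by positivity) (by positivity)) hNpos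
  have hM0 : 0 < 2 ^ 19 * q ^ 8 := Nat.mul_pos (by positivity) (by positivity)
  have hcard : Fintype.card (J × Fin (2 ^ 19 * q ^ 8)) = Fintype.card J * (2 ^ 19 * q ^ 8) := by
    rw [Fintype.card_prod, Fintype.card_fin]
  have hτ : (0 : ℝ) < 1 / (2 ^ 33 * (q : ℝ) ^ 10) := by positivity
  have hnum := h2 q k N (Fintype.card (J × Fin (2 ^ 19 * q ^ 8))) (Fintype.card E) hq hqk hN hlog
    (by rw [hcard]; exact Nat.mul_le_mul_right _ hJ) hE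
  obtain ⟨s, hs1, hs2, hs3⟩ := hG q N (J × Fin (2 ^ 19 * q ^ 8)) E J b
    (1 / (2 ^ 33 * (q : ℝ) ^ 10)) (by omega) hNpos hτ hb
    (by rw [hcard]; exact Nat.le_mul_of_pos_right _ hM0) hnum
  have hnu := h1 q k hq hqk
  have hr0 := rr_pow_pos hq (q * (7 * k + 21))
  have hsqrt : 2 * √((2 ^ 70 * q ^ 24 : ℕ) : ℝ) = 2 ^ 36 * (q : ℝ) ^ 12 := by
    have e : ((2 ^ 70 * q ^ 24 : ℕ) : ℝ) = (2 ^ 35 * (q : ℝ) ^ 12) ^ 2 := by
      push_cast
      ring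
    rw [e, Real.sqrt_sq (by positivity)]
    ring
  have hDc : ((2 ^ 33 * q ^ 10 : ℕ) : ℝ) = 2 ^ 33 * (q : ℝ) ^ 10 := by
    rw [Nat.cast_mul, Nat.cast_pow, Nat.cast_pow, Nat.cast_ofNat]
  refine ⟨2 ^ 33 * q ^ 10, q * (7 * k + 21), 2 ^ 19 * q ^ 8, E, J, iE1, iJ2, iE2, iJ1, ⟨?_⟩⟩
  exact
    { T := T
      b := b
      s := s
      R := 2 ^ 9 * (q : ℝ) ^ 4
      R' := 2 ^ 36 * (q : ℝ) ^ 12
      τ := 1 / (2 ^ 33 * (q : ℝ) ^ 10)
      hq := hq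
      hN := hNpos
      hg := hg
      hM0 := hM0
      hM := by
        push_cast
        apply le_of_eq
        ring
      hR := by
        have : (1 : ℝ) ≤ (q : ℝ) ^ 4 := one_le_pow₀ (by linarith)
        linarith
      hR' := by
        have : (1 : ℝ) ≤ (q : ℝ) ^ 12 := one_le_pow₀ (by linarith)
        linarith
      hτ := hτ
      hb := hb
      net := fun ψ => by
        obtain ⟨j, hj⟩ := hnet ψ
        rw [hsqrt] at hj
        exact ⟨j, hj⟩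
      sgn := hs1
      gram := hs2
      orth := hs3
      c1 := CFGH.num1 hx
      c2 := CFGH.num2 hx
      c3 := CFGH.num3 hx
      c4 := by
        unfold dl
        rw [le_div_iff₀ (by positivity)]
        calc 2 * (2 ^ 36 * (q : ℝ) ^ 12) * rr q ^ (q * (7 * k + 21)) * (16 * q)
            = 2 ^ 42 * (q : ℝ) ^ 13 * rr q ^ (q * (7 * k + 21)) / 2 := by ring
          _ ≤ 1 := by linarith
      c5 := by
        have h3 : rr q ^ (2 * (q * (7 * k + 21))) ≤ rr q ^ (q * (7 * k + 21)) :=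
          rr_pow_le hq (by omega)
        have h4 : (2 ^ 33 * (q : ℝ) ^ 10) ≤ 2 ^ 42 * (q : ℝ) ^ 13 := by
          have h5 : (1 : ℝ) ≤ (q : ℝ) ^ 3 := one_le_pow₀ (by linarith)
          have h6 : (0 : ℝ) < (q : ℝ) ^ 10 := by positivity
          have h7 : (q : ℝ) ^ 13 = (q : ℝ) ^ 10 * (q : ℝ) ^ 3 := by ring
          rw [h7]
          nlinarith
        rw [hDc]
        calc 2 ^ 33 * (q : ℝ) ^ 10 * rr q ^ (2 * (q * (7 * k + 21)))
            ≤ 2 ^ 42 * (q : ℝ) ^ 13 * rr q ^ (q * (7 * k + 21)) :=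
              mul_le_mul h4 h3 (rr_pow_pos hq _).le (by positivity)
          _ ≤ 1 := hnu
      c6 := by
        rw [hDc]
        exact CFGH.num6 hx }

end Pool.Agent.RHO
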