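import Pool.Agent.RHO.Stmts2

/-!
# MP_ca8ef3_an, row CFG2 (helper3): existence of the data for a kernel system
-/

set_option autoImplicit false

namespace Pool.Agent.RHO

open Finset

namespace H3CFG2

theorem num1 {x : ℝ} (hx : 16 ≤ x) :
    2 * (1 / (2 ^ 34 * x ^ 10)) * (2 ^ 9 * x ^ 4) ^ 2 ≤ 1 := by
  have hx0 : 0 < x := by linarith
  have e : 2 * (1 / (2 ^ 34 * x ^ 10)) * (2 ^ 9 * x ^ 4) ^ 2 = 1 / (2 ^ 15 * x ^ 2) := by
    field_simp
  rw [e, div_le_one (by positivity)]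
  nlinarith

theorem num2 {x : ℝ} (hx : 16 ≤ x) :
    18 * (4 * (1 / (2 ^ 34 * x ^ 10)) + 1 / (2 ^ 42 * x ^ 13)) * (2 ^ 9 * x ^ 4) ^ 2
      ≤ (1 / (16 * x)) ^ 2 := by
  have hx0 : 0 < x := by linarith
  have e : 18 * (4 * (1 / (2 ^ 34 * x ^ 10)) + 1 / (2 ^ 42 * x ^ 13)) * (2 ^ 9 * x ^ 4) ^ 2 =
      9 / 32 * (1 / (16 * x)) ^ 2 + 9 / 32768 * (1 / x ^ 3) * (1 / (16 * x)) ^ 2 := by
    field_simp
    ring
  have h1 : 1 / x ^ 3 ≤ 1 := by
    rw [div_le_one (by positivity)]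
    exact one_le_pow₀ (by linarith)
  have h0 : 0 ≤ (1 / (16 * x)) ^ 2 := sq_nonneg _
  have h2 : 1 / x ^ 3 * (1 / (16 * x)) ^ 2 ≤ 1 * (1 / (16 * x)) ^ 2 :=
    mul_le_mul_of_nonneg_right h1 h0
  rw [e]
  nlinarith

theorem num3 {x : ℝ} (hx : 16 ≤ x) :
    2 * (1 / (2 ^ 34 * x ^ 10)) + 4 * (2 ^ 37 * x ^ 12) * (1 / (2 ^ 34 * x ^ 10)) / (2 ^ 9 * x ^ 4)
      + 1 / (2 ^ 42 * x ^ 13) ≤ 1 / (16 * x) * (1 - (1 - 2 / x) ^ 2) := by
  have hx0 : 0 < x := by linarith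
  have e1 : 4 * (2 ^ 37 * x ^ 12) * (1 / (2 ^ 34 * x ^ 10)) / (2 ^ 9 * x ^ 4) =
      1 / (16 * x ^ 2) := by
    field_simp
    ring
  have e2 : 1 / (16 * x) * (1 - (1 - 2 / x) ^ 2) = 1 / (16 * x ^ 2) * (4 - 4 / x) := by
    field_simp
    ring
  have e3 : 2 * (1 / (2 ^ 34 * x ^ 10)) ≤ 1 / (16 * x ^ 2) := by
    have e4 : 2 * (1 / (2 ^ 34 * x ^ 10)) = 1 / (16 * x ^ 2) * (1 / (2 ^ 29 * x ^ 8)) := by
      field_simp
      ring
    rw [e4]
    apply mul_le_of_le_one_right (by positivity)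
    rw [div_le_one (by positivity)]
    have : 1 ≤ x ^ 8 := one_le_pow₀ (by linarith)
    linarith
  have e6 : 1 / (2 ^ 42 * x ^ 13) ≤ 1 / (16 * x ^ 2) := by
    have e4 : 1 / (2 ^ 42 * x ^ 13) = 1 / (16 * x ^ 2) * (1 / (2 ^ 38 * x ^ 11)) := by
      field_simp
      ring
    rw [e4]
    apply mul_le_of_le_one_right (by positivity)
    rw [div_le_one (by positivity)]
    have : 1 ≤ x ^ 11 := one_le_pow₀ (by linarith)
    linarith
  have e5 : 4 / x ≤ 1 / 4 := by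
    rw [div_le_div_iff₀ hx0 (by norm_num)]
    linarith
  rw [e1, e2]
  have h0 : 0 < 1 / (16 * x ^ 2) := by positivity
  nlinarith

theorem num4 {x : ℝ} (hx : 16 ≤ x) :
    2 * (2 ^ 37 * x ^ 12) * (1 / (2 ^ 42 * x ^ 13)) ≤ 1 / (16 * x) := by
  have hx0 : 0 < x := by linarith
  have e : 2 * (2 ^ 37 * x ^ 12) * (1 / (2 ^ 42 * x ^ 13)) = 1 / (16 * x) := by
    field_simp
    ring
  rw [e]

theorem num6 {x : ℝ} (hx : 16 ≤ x) :
    100 * (2 ^ 9 * x ^ 4) ^ 2 ≤ 2 ^ 33 * x ^ 10 * (1 / (16 * x)) ^ 2 := by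
  have hx0 : 0 < x := by linarith
  have e : 2 ^ 33 * x ^ 10 * (1 / (16 * x)) ^ 2 = 128 * (2 ^ 9 * x ^ 4) ^ 2 := by
    field_simp
    ring
  rw [e]
  have : 0 ≤ (2 ^ 9 * x ^ 4) ^ 2 := sq_nonneg _
  linarith

lemma two_pow_ge {a : ℕ} (ha : 4 ≤ a) : (16:ℝ) ≤ 2 ^ a := by
  calc (16:ℝ) = 2 ^ 4 := by norm_num
    _ ≤ 2 ^ a := pow_le_pow_right₀ (by norm_num) ha

/-- powers of two with exponent linear in `a` -/
lemma pw (c d a : ℕ) : (2:ℝ) ^ (c + d * a) = 2 ^ c * ((2:ℝ) ^ a) ^ d := by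
  rw [pow_add, ← pow_mul, mul_comm d a]

lemma c5 {a : ℕ} (ha : 4 ≤ a) : 2 * rr (2 ^ a) ^ (2 ^ a * (a + 5)) ≤ dl (2 ^ a) := by
  have h16 : (16:ℝ) ≤ ((2 ^ a : ℕ) : ℝ) := by
    push_cast
    exact two_pow_ge ha
  have hr0 : 0 ≤ rr (2 ^ a) := by
    unfold rr
    have : 2 / ((2 ^ a : ℕ) : ℝ) ≤ 2 / 16 :=
      div_le_div_of_nonneg_left (by norm_num) (by norm_num) h16
    linarith
  have h1 : rr (2 ^ a) ^ (2 ^ a) ≤ 1 / 4 := by
    have h2 : rr (2 ^ a) ^ (2 ^ a) ≤ Real.exp (-2) := by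
      unfold rr
      exact Real.one_sub_div_pow_le_exp_neg (by linarith)
    have h3 : Real.exp (-2) ≤ 1 / 4 := by
      rw [Real.exp_neg, inv_eq_one_div]
      apply one_div_le_one_div_of_le (by norm_num)
      have h4 : (2.7182818283 : ℝ) < Real.exp 1 := Real.exp_one_gt_d9
      have h5 : Real.exp 2 = Real.exp 1 * Real.exp 1 := by
        rw [← Real.exp_add]
        norm_num
      rw [h5]
      nlinarith
    linarith
  have h2 : rr (2 ^ a) ^ (2 ^ a * (a + 5)) ≤ (1 / 4) ^ (a + 5) := by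
    rw [pow_mul]
    exact pow_le_pow_left₀ (pow_nonneg hr0 _) h1 _
  have h3 : (2:ℝ) * (1 / 4) ^ (a + 5) ≤ dl (2 ^ a) := by
    unfold dl
    push_cast
    rw [le_div_iff₀ (by positivity)]
    have e1 : (1 / 4 : ℝ) ^ (a + 5) = 1 / (1024 * (2 ^ a * 2 ^ a)) := by
      rw [pow_add, one_div_pow, one_div_pow]
      have : (4:ℝ) ^ a = 2 ^ a * 2 ^ a := by
        rw [← mul_pow]
        norm_num
      rw [this]
      field_simp
      norm_num
    rw [e1]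
    have hx0 : (0:ℝ) < 2 ^ a := by positivity
    have hx := two_pow_ge ha
    have e2 : 2 * (1 / (1024 * ((2:ℝ) ^ a * 2 ^ a))) * (16 * 2 ^ a) = 1 / (32 * 2 ^ a) := by
      field_simp
      norm_num
    rw [e2, div_le_one (by positivity)]
    linarith
  linarith

lemma two_le : (2:ℝ) ≤ Real.exp 0.7 := by
  have h2 := Real.log_two_lt_d9
  have h3 : Real.log 2 ≤ 0.7 := by
    norm_num at h2 ⊢
    linarith
  calc (2:ℝ) = Real.exp (Real.log 2) := (Real.exp_log (by norm_num)).symm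
    _ ≤ Real.exp 0.7 := Real.exp_le_exp.mpr h3

lemma two_pow_le (n : ℕ) : (2:ℝ) ^ n ≤ Real.exp (0.7 * n) := by
  calc (2:ℝ) ^ n ≤ (Real.exp 0.7) ^ n := pow_le_pow_left₀ (by norm_num) two_le _
    _ = Real.exp (n * 0.7) := (Real.exp_nat_mul _ _).symm
    _ = _ := by rw [mul_comm]

/-- the numerical condition for the signs -/
theorem nu {a B N cJ cX : ℕ} (ha : 4 ≤ a) (hN : 2 ^ (72 + 20 * a) * (B + 2 ^ (4 * a)) ≤ N)
    (hlog : Real.log (21 * N) ≤ ((2:ℝ) ^ a) ^ 4)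
    (hJ : cJ ≤ (2 ^ (72 + 24 * a) * (21 * N) ^ (N / 2 ^ (72 + 24 * a) + 1)) * 2 ^ (19 + 8 * a))
    (hX : cX ≤ 2 ^ B) :
    4 * (cJ : ℝ) ^ 2 * (cX : ℝ) ^ 2 *
      Real.exp (-((1 / (2 ^ 34 * ((2:ℝ) ^ a) ^ 10)) ^ 2 * N / 2)) < 1 := by
  have hx := two_pow_ge ha
  set x : ℝ := (2:ℝ) ^ a with hxd
  have hx0 : (0:ℝ) < x := by linarith
  have hNpos : 0 < N := lt_of_lt_of_le (by positivity) hN
  have hN0 : (0:ℝ) < N := by exact_mod_cast hNpos
  set m : ℕ := N / 2 ^ (72 + 24 * a) with hm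
  set W : ℝ := N / (2 ^ 69 * x ^ 20) with hW
  have hN' : 2 ^ 72 * x ^ 20 * (B + x ^ 4) ≤ (N:ℝ) := by
    have h1 : ((2 ^ (72 + 20 * a) * (B + 2 ^ (4 * a)) : ℕ) : ℝ) ≤ (N:ℝ) := by exact_mod_cast hN
    push_cast at h1
    rw [pw 72 20 a] at h1
    have h2 : (2:ℝ) ^ (4 * a) = x ^ 4 := by
      rw [hxd, ← pow_mul, mul_comm]
    rw [h2] at h1
    exact h1
  have hWT : 8 * (B + x ^ 4) ≤ W := by
    rw [hW, le_div_iff₀ (by positivity)]
    have h1 : 8 * (B + x ^ 4) * (2 ^ 69 * x ^ 20) = 2 ^ 72 * x ^ 20 * (B + x ^ 4) := by ring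
    rw [h1]
    exact hN'
  -- the bound for `cJ`
  set A : ℝ := 0.7 * (91 + 32 * a) + (m + 1) * x ^ 4 with hA
  have hJ' : (cJ : ℝ) ≤ Real.exp A := by
    have h1 : (cJ : ℝ) ≤ (2 ^ (72 + 24 * a) * (21 * (N:ℝ)) ^ (m + 1)) * 2 ^ (19 + 8 * a) := by
      exact_mod_cast hJ
    have h2 : (21 * (N:ℝ)) ^ (m + 1) ≤ Real.exp ((m + 1) * x ^ 4) := by
      have h3 : 21 * (N:ℝ) ≤ Real.exp (x ^ 4) := by
        calc 21 * (N:ℝ) = Real.exp (Real.log (21 * N)) := (Real.exp_log (by positivity)).symm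
          _ ≤ _ := Real.exp_le_exp.mpr hlog
      calc (21 * (N:ℝ)) ^ (m + 1) ≤ (Real.exp (x ^ 4)) ^ (m + 1) :=
            pow_le_pow_left₀ (by positivity) h3 _
        _ = Real.exp (((m + 1 : ℕ) : ℝ) * x ^ 4) := (Real.exp_nat_mul _ _).symm
        _ = _ := by push_cast; rfl
    have h4 : (2:ℝ) ^ (91 + 32 * a) ≤ Real.exp (0.7 * (91 + 32 * a)) := by
      have := two_pow_le (91 + 32 * a)
      push_cast at this
      exact this
    calc (cJ : ℝ) ≤ (2 ^ (72 + 24 * a) * (21 * (N:ℝ)) ^ (m + 1)) * 2 ^ (19 + 8 * a) := h1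
      _ = 2 ^ (91 + 32 * a) * (21 * (N:ℝ)) ^ (m + 1) := by
          have e : (2:ℝ) ^ (91 + 32 * a) = 2 ^ (72 + 24 * a) * 2 ^ (19 + 8 * a) := by
            rw [← pow_add]
            congr 1
            ring
          rw [e]
          ring
      _ ≤ Real.exp (0.7 * (91 + 32 * a)) * Real.exp ((m + 1) * x ^ 4) :=
          mul_le_mul h4 h2 (by positivity) (by positivity)
      _ = Real.exp A := by rw [hA, Real.exp_add]
  have hX' : (cX : ℝ) ≤ Real.exp (0.7 * B) := by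
    have h1 : (cX : ℝ) ≤ 2 ^ B := by exact_mod_cast hX
    exact h1.trans (two_pow_le B)
  have hWe : (1 / (2 ^ 34 * x ^ 10)) ^ 2 * N / 2 = W := by
    rw [hW]
    field_simp
    try ring
  rw [hWe]
  have hcJ2 : (cJ : ℝ) ^ 2 ≤ Real.exp (2 * A) := by
    calc (cJ : ℝ) ^ 2 ≤ (Real.exp A) ^ 2 := pow_le_pow_left₀ (by positivity) hJ' _
      _ = Real.exp (2 * A) := by
          rw [← Real.exp_nat_mul]
          push_cast
          rfl
  have hcX2 : (cX : ℝ) ^ 2 ≤ Real.exp (2 * (0.7 * B)) := by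
    calc (cX : ℝ) ^ 2 ≤ (Real.exp (0.7 * B)) ^ 2 := pow_le_pow_left₀ (by positivity) hX' _
      _ = Real.exp (2 * (0.7 * B)) := by
          rw [← Real.exp_nat_mul]
          push_cast
          rfl
  have h4 : (4:ℝ) ≤ Real.exp 1.4 := by
    have := two_pow_le 2
    have e : (0.7:ℝ) * ((2:ℕ):ℝ) = 1.4 := by
      push_cast
      norm_num
    rw [e] at this
    norm_num at this ⊢
    exact this
  have hmW : 2 * ((m:ℝ) * x ^ 4) ≤ W / 4 := by
    have h1 : (m:ℝ) ≤ N / (2 ^ 72 * x ^ 24) := by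
      have := @Nat.cast_div_le ℝ _ _ _ N (2 ^ (72 + 24 * a))
      rw [hm]
      refine this.trans (le_of_eq ?_)
      push_cast
      rw [pw 72 24 a]
    calc 2 * ((m:ℝ) * x ^ 4) ≤ 2 * (N / (2 ^ 72 * x ^ 24) * x ^ 4) := by
          apply mul_le_mul_of_nonneg_left _ (by norm_num)
          exact mul_le_mul_of_nonneg_right h1 (by positivity)
      _ = W / 4 := by
          rw [hW]
          field_simp
          try ring
  have hax : (a:ℝ) ≤ x := by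
    have h1 : a ≤ 2 ^ a := Nat.lt_two_pow_self.le
    have h2 : (a:ℝ) ≤ ((2 ^ a : ℕ) : ℝ) := by exact_mod_cast h1
    rw [hxd]
    push_cast at h2
    exact h2
  have hx4 : 4096 * x ≤ x ^ 4 := by
    have h1 : (16:ℝ) ^ 3 ≤ x ^ 3 := pow_le_pow_left₀ (by norm_num) hx 3
    have h2 : x ^ 4 = x ^ 3 * x := by ring
    rw [h2]
    nlinarith
  have hlt : 1.4 + 2 * A + 2 * (0.7 * B) - W < 0 := by
    have h5 : 2 * A = 1.4 * (91 + 32 * a) + 2 * ((m:ℝ) * x ^ 4) + 2 * x ^ 4 := by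
      rw [hA]
      ring
    have hB0 : (0:ℝ) ≤ B := Nat.cast_nonneg B
    rw [h5]
    norm_num at hWT hx4 hax hmW ⊢
    linarith
  calc 4 * (cJ : ℝ) ^ 2 * (cX : ℝ) ^ 2 * Real.exp (-W) ≤
      Real.exp 1.4 * Real.exp (2 * A) * Real.exp (2 * (0.7 * B)) * Real.exp (-W) := by
        apply mul_le_mul_of_nonneg_right _ (Real.exp_pos _).le
        apply mul_le_mul _ hcX2 (by positivity) (by positivity)
        exact mul_le_mul h4 hcJ2 (by positivity) (by positivity)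
    _ = Real.exp (1.4 + 2 * A + 2 * (0.7 * B) - W) := by
        rw [← Real.exp_add, ← Real.exp_add, ← Real.exp_add]
        rfl
    _ < 1 := by
        rw [Real.exp_lt_one_iff]
        exact hlt

end H3CFG2

/-- row CFG2 -/
theorem cfg2 (hNet : NETStmt) (hG : GRM2Stmt) : CFG2Stmt := by
  intro a B N ha hK hN hlog
  obtain ⟨X, Ω, iX, iΩ, S, hΩ, hX⟩ := hK
  have hx := H3CFG2.two_pow_ge ha
  have hx0 : (0:ℝ) < 2 ^ a := by positivity
  have hNpos : 0 < N := lt_of_lt_of_le (by positivity) hN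
  obtain ⟨J, iJ1, iJ2, iJ3, b, hJ, hb, hnet⟩ := hNet N (2 ^ (72 + 24 * a))
    Nat.one_le_two_pow hNpos
  have hM0 : 0 < 2 ^ (19 + 8 * a) := by positivity
  have hcard : Fintype.card (J × Fin (2 ^ (19 + 8 * a))) = Fintype.card J * 2 ^ (19 + 8 * a) := by
    rw [Fintype.card_prod, Fintype.card_fin]
  have hτ : (0 : ℝ) < 1 / (2 ^ 34 * ((2:ℝ) ^ a) ^ 10) := by positivity
  have hnum := H3CFG2.nu (cJ := Fintype.card (J × Fin (2 ^ (19 + 8 * a))))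
    (cX := Fintype.card X) ha hN hlog (by rw [hcard]; exact Nat.mul_le_mul_right _ hJ) hX
  obtain ⟨s, hs1, hs2, hs3⟩ := hG N (J × Fin (2 ^ (19 + 8 * a))) X Ω J S.σ S.K b
    (1 / (2 ^ 34 * ((2:ℝ) ^ a) ^ 10)) hNpos hτ hΩ S.abs_σ S.avg hb
    (by rw [hcard]; exact Nat.le_mul_of_pos_right _ hM0) hnum
  have hsqrt : 2 * √((2 ^ (72 + 24 * a) : ℕ) : ℝ) = 2 ^ 37 * ((2:ℝ) ^ a) ^ 12 := by
    have e : ((2 ^ (72 + 24 * a) : ℕ) : ℝ) = (2 ^ 36 * ((2:ℝ) ^ a) ^ 12) ^ 2 := by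
      push_cast
      rw [H3CFG2.pw 72 24 a]
      ring
    rw [e, Real.sqrt_sq (by positivity)]
    ring
  have hκ : (1:ℝ) / 2 ^ (42 + 13 * a) = 1 / (2 ^ 42 * ((2:ℝ) ^ a) ^ 13) := by
    rw [H3CFG2.pw 42 13 a]
  have hq16 : 16 ≤ 2 ^ a := by
    calc 16 = 2 ^ 4 := by norm_num
      _ ≤ 2 ^ a := Nat.pow_le_pow_right (by norm_num) ha
  refine ⟨2 ^ (33 + 10 * a), 2 ^ a * (a + 5), 2 ^ (19 + 8 * a), X, Ω, J, iΩ, iJ2, iX, iJ1,
    1 / 2 ^ (42 + 13 * a), ⟨?_⟩⟩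
  exact
    { S := S
      b := b
      s := s
      R := 2 ^ 9 * ((2:ℝ) ^ a) ^ 4
      R' := 2 ^ 37 * ((2:ℝ) ^ a) ^ 12
      τ := 1 / (2 ^ 34 * ((2:ℝ) ^ a) ^ 10)
      hΩ := hΩ
      hq := hq16
      hN := hNpos
      hg := by positivity
      hM0 := hM0
      hM := by
        push_cast
        rw [H3CFG2.pw 19 8 a]
        apply le_of_eq
        ring
      hR := by
        have : (1 : ℝ) ≤ ((2:ℝ) ^ a) ^ 4 := one_le_pow₀ (by linarith)
        linarith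
      hR' := by
        have : (1 : ℝ) ≤ ((2:ℝ) ^ a) ^ 12 := one_le_pow₀ (by linarith)
        linarith
      hτ := hτ
      hκ := by positivity
      hb := hb
      net := fun ψ => by
        obtain ⟨j, hj⟩ := hnet ψ
        rw [hsqrt] at hj
        exact ⟨j, hj⟩
      sgn := hs1
      gram := hs2
      orth := hs3
      c1 := H3CFG2.num1 hx
      c2 := by
        unfold dl
        rw [hκ]
        push_cast
        exact H3CFG2.num2 hx
      c3 := by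
        unfold dl rr
        rw [hκ]
        push_cast
        exact H3CFG2.num3 hx
      c4 := by
        unfold dl
        rw [hκ]
        push_cast
        exact H3CFG2.num4 hx
      c5 := H3CFG2.c5 ha
      c6 := by
        unfold dl
        push_cast
        rw [H3CFG2.pw 33 10 a]
        exact H3CFG2.num6 hx }

end Pool.Agent.RHO
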