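import Pool.Agent.RHO.Kit

/-! # Row CNT -/

set_option autoImplicit false

namespace Pool.Agent.RHO

open Finset

lemma hh_nonneg {E : Type} [DecidableEq E] {r : ℝ} (hr : 0 ≤ r) (u : Finset E) (e : E)
    (x : Finset E) : 0 ≤ hh r u e x := by
  unfold hh
  split_ifs
  · exact pow_nonneg hr _
  · exact le_rfl

lemma sum_hh_le {q N D g M : ℕ} {E J : Type} [DecidableEq E] [DecidableEq J]
    (C : Cfg q N D g M E J) (u x : Finset E) (hu : C.T.St u) (hx : C.T.St x) :
    ∑ e ∈ C.T.tog u, hh (rr q) u e x ≤ 1 := by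
  have hq := C.hq
  have hr0 := rr_pos hq
  by_cases hd1 : hd u x ≤ 2 * g
  · have h1 : ∑ e ∈ C.T.tog u, hh (rr q) u e x =
        ∑ e ∈ C.T.tog u ∩ symmDiff u x, hh (rr q) u e x := by
      symm
      apply Finset.sum_subset Finset.inter_subset_left
      intro e _ he2
      unfold hh
      rw [if_neg]
      intro h
      exact he2 (Finset.mem_inter.2 ⟨by assumption, h⟩)
    rw [h1]
    calc ∑ e ∈ C.T.tog u ∩ symmDiff u x, hh (rr q) u e x
        ≤ ∑ _e ∈ C.T.tog u ∩ symmDiff u x, (1:ℝ) := by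
          refine Finset.sum_le_sum fun e _ => ?_
          unfold hh
          split_ifs
          · exact rr_pow_le_one hq _
          · exact zero_le_one
      _ = ((C.T.tog u ∩ symmDiff u x).card : ℝ) := by simp
      _ ≤ 1 := by exact_mod_cast C.T.p1 u x hu hx hd1
  · push Not at hd1
    calc ∑ e ∈ C.T.tog u, hh (rr q) u e x ≤ ∑ _e ∈ C.T.tog u, rr q ^ (2 * g) := by
          refine Finset.sum_le_sum fun e _ => ?_
          unfold hh
          split_ifs
          · exact rr_pow_le hq (by omega)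
          · exact (rr_pow_pos hq _).le
      _ = D * rr q ^ (2 * g) := by
          rw [Finset.sum_const, C.T.card_tog u hu, nsmul_eq_mul]
      _ ≤ 1 := C.c5

theorem cnt (h : ETAStmt) : CNTStmt := by
  intro q N D g M E J Γ _ _ _ C idx c j u hidx hu hc
  have hq := C.hq
  have hr0 := rr_pos hq
  have h0 := dl_pos hq
  have h1 : ∀ i, ∑ e ∈ C.T.tog u, |ip (C.eta j u e) (C.gam (idx i))| ≤ 1 + D * dl q := by
    intro i
    calc ∑ e ∈ C.T.tog u, |ip (C.eta j u e) (C.gam (idx i))|
        ≤ ∑ e ∈ C.T.tog u, (hh (rr q) u e (idx i).2 + dl q) := by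
          refine Finset.sum_le_sum fun e _ => ?_
          have h2 := h q N D g M E J C j (idx i).1 u (idx i).2 e
          have h3 := hh_nonneg hr0.le u e (idx i).2
          rw [show ((idx i).1, (idx i).2) = idx i from rfl] at h2
          rw [abs_le] at h2 ⊢
          split_ifs at h2
          · constructor <;> linarith
          · constructor <;> linarith
      _ = ∑ e ∈ C.T.tog u, hh (rr q) u e (idx i).2 + D * dl q := by
          rw [Finset.sum_add_distrib, Finset.sum_const, C.T.card_tog u hu, nsmul_eq_mul]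
      _ ≤ 1 + D * dl q := by
          have := sum_hh_le C u (idx i).2 hu (hidx i)
          linarith
  have hpos : 0 ≤ 1 + (D:ℝ) * dl q := by positivity
  calc ∑ e ∈ C.T.tog u, |∑ i, c i * ip (C.eta j u e) (C.gam (idx i))|
      ≤ ∑ e ∈ C.T.tog u, ∑ i, |c i| * |ip (C.eta j u e) (C.gam (idx i))| := by
        refine Finset.sum_le_sum fun e _ => ?_
        refine (Finset.abs_sum_le_sum_abs _ _).trans_eq ?_
        exact Finset.sum_congr rfl fun i _ => abs_mul _ _
    _ = ∑ i, |c i| * ∑ e ∈ C.T.tog u, |ip (C.eta j u e) (C.gam (idx i))| := by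
        rw [Finset.sum_comm]
        exact Finset.sum_congr rfl fun i _ => (Finset.mul_sum _ _ _).symm
    _ ≤ ∑ i, |c i| * (1 + D * dl q) :=
        Finset.sum_le_sum fun i _ => mul_le_mul_of_nonneg_left (h1 i) (abs_nonneg _)
    _ = (∑ i, |c i|) * (1 + D * dl q) := (Finset.sum_mul _ _ _).symm
    _ ≤ 1 * (1 + D * dl q) := mul_le_mul_of_nonneg_right hc hpos
    _ = 1 + D * dl q := one_mul _

end Pool.Agent.RHO
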