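import Pool.Agent.RHO.Kit2

/-! # Row CNT2 -/

set_option autoImplicit false

namespace Pool.Agent.RHO

open Finset

lemma sum_hk_le {q N D g M : ℕ} {X Ω J : Type} [Fintype Ω] [DecidableEq J] {κ : ℝ}
    (C : Cfg2 q N D g M X Ω J κ) (u x : X) : ∑ e : Fin D, C.hk u e x ≤ 1 := by
  classical
  by_cases h : ∃ e, C.S.side u e x
  · obtain ⟨e, he⟩ := h
    rw [Finset.sum_eq_single e]
    · exact C.hk_le_one u e x
    · intro e' _ hne
      unfold Cfg2.hk
      rw [if_neg]
      intro h'
      exact hne (C.S.side_unique u x e' e h' he)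
    · intro h; exact absurd (Finset.mem_univ _) h
  · push Not at h
    have : ∀ e : Fin D, C.hk u e x = 0 := by
      intro e
      unfold Cfg2.hk
      rw [if_neg (h e)]
    rw [Finset.sum_congr rfl fun e _ => this e, Finset.sum_const_zero]
    exact zero_le_one

theorem cnt2 (h : ETA2Stmt) : CNT2Stmt := by
  intro q N D g M X Ω J Γ _ _ _ κ C idx c j u hc
  have hq := C.hq
  have h0 := dl_pos hq
  have h1 : ∀ i, ∑ e : Fin D, |ip (C.eta j u e) (C.gam (idx i))| ≤ 1 + D * dl q := by
    intro i
    calc ∑ e : Fin D, |ip (C.eta j u e) (C.gam (idx i))|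
        ≤ ∑ e : Fin D, (C.hk u e (idx i).2 + dl q) := by
          refine Finset.sum_le_sum fun e _ => ?_
          have h2 := h q N D g M X Ω J κ C j (idx i).1 u (idx i).2 e
          have h3 := C.hk_nonneg u e (idx i).2
          rw [show ((idx i).1, (idx i).2) = idx i from rfl] at h2
          rw [abs_le] at h2 ⊢
          split_ifs at h2
          · constructor <;> linarith
          · constructor <;> linarith
      _ = ∑ e : Fin D, C.hk u e (idx i).2 + D * dl q := by
          rw [Finset.sum_add_distrib, Finset.sum_const, Finset.card_univ, Fintype.card_fin,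
            nsmul_eq_mul]
      _ ≤ 1 + D * dl q := by
          have := sum_hk_le C u (idx i).2
          linarith
  have hpos : 0 ≤ 1 + (D:ℝ) * dl q := by positivity
  calc ∑ e : Fin D, |∑ i, c i * ip (C.eta j u e) (C.gam (idx i))|
      ≤ ∑ e : Fin D, ∑ i, |c i| * |ip (C.eta j u e) (C.gam (idx i))| := by
        refine Finset.sum_le_sum fun e _ => ?_
        refine (Finset.abs_sum_le_sum_abs _ _).trans_eq ?_
        exact Finset.sum_congr rfl fun i _ => abs_mul _ _
    _ = ∑ i, |c i| * ∑ e : Fin D, |ip (C.eta j u e) (C.gam (idx i))| := by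
        rw [Finset.sum_comm]
        exact Finset.sum_congr rfl fun i _ => (Finset.mul_sum _ _ _).symm
    _ ≤ ∑ i, |c i| * (1 + D * dl q) :=
        Finset.sum_le_sum fun i _ => mul_le_mul_of_nonneg_left (h1 i) (abs_nonneg _)
    _ = (∑ i, |c i|) * (1 + D * dl q) := (Finset.sum_mul _ _ _).symm
    _ ≤ 1 * (1 + D * dl q) := mul_le_mul_of_nonneg_right hc hpos
    _ = 1 + D * dl q := one_mul _

end Pool.Agent.RHO
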