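import Pool.Agent.RHO.Stmts

/-!
# MP_ca8ef3_an, row CO1: a good toggle exists
-/

set_option autoImplicit false

namespace Pool.Agent.RHO

open Finset

theorem co1 (hBAD : BADStmt) (hCNT : CNTStmt) : CO1Stmt := by
  intro q N D g M E J Γ _ _ _ C idx c ψ ξ j u hSt hu hc hψ hξ
  classical
  set δ := dl q with hδdef
  have hq : (16 : ℝ) ≤ q := by exact_mod_cast C.hq
  have hδ0 : 0 < δ := by
    rw [hδdef]; unfold dl
    have : (0 : ℝ) < 16 * q := by linarith
    positivity
  have hδ1 : δ ≤ 1 / 256 := by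
    rw [hδdef]; unfold dl
    apply one_div_le_one_div_of_le (by norm_num)
    linarith
  by_contra hcon
  -- the four kinds of bad toggles
  set P1 : E → Prop := fun e => e ∈ symmDiff u C.T.base ∧ hd u C.T.base ≤ 2 * g with hP1
  set P2 : (Fin N → ℝ) → E → Prop := fun φ e => ∃ x, C.T.St x ∧ e ∈ symmDiff u x ∧
    hd u x ≤ 2 * g ∧ dl q < |ip φ (C.gv j x) - rr q ^ hd u x * ip φ (C.gv j u)| with hP2
  set P4 : E → Prop := fun e =>
    4 * δ < |∑ i, c i * ip (C.eta j u e) (C.gam (idx i))| with hP4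
  have hall : ∀ e ∈ C.T.tog u, P1 e ∨ P2 ψ e ∨ P2 ξ e ∨ P4 e := by
    intro e he
    by_contra hne
    have h1 : ¬ P1 e := fun h => hne (Or.inl h)
    have h2 : ¬ P2 ψ e := fun h => hne (Or.inr (Or.inl h))
    have h3 : ¬ P2 ξ e := fun h => hne (Or.inr (Or.inr (Or.inl h)))
    have h4 : ¬ P4 e := fun h => hne (Or.inr (Or.inr (Or.inr h)))
    refine hcon ⟨e, he, h1, ?_, ?_, not_lt.mp h4⟩
    · intro x hx hex hdx
      by_contra hlt
      exact h2 ⟨x, hx, hex, hdx, not_le.mp hlt⟩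
    · intro x hx hex hdx
      by_contra hlt
      exact h3 ⟨x, hx, hex, hdx, not_le.mp hlt⟩
  have hcard : (C.T.tog u).card = D := C.T.card_tog u hu
  have hsub : C.T.tog u ⊆ (C.T.tog u).filter P1 ∪ ((C.T.tog u).filter (P2 ψ) ∪
      ((C.T.tog u).filter (P2 ξ) ∪ (C.T.tog u).filter P4)) := by
    intro e he
    rcases hall e he with h | h | h | h
    · exact mem_union_left _ (mem_filter.mpr ⟨he, h⟩)
    · exact mem_union_right _ (mem_union_left _ (mem_filter.mpr ⟨he, h⟩))
    · exact mem_union_right _ (mem_union_right _ (mem_union_left _ (mem_filter.mpr ⟨he, h⟩)))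
    · exact mem_union_right _ (mem_union_right _ (mem_union_right _ (mem_filter.mpr ⟨he, h⟩)))
  have hle : D ≤ ((C.T.tog u).filter P1).card + (((C.T.tog u).filter (P2 ψ)).card +
      (((C.T.tog u).filter (P2 ξ)).card + ((C.T.tog u).filter P4).card)) := by
    calc D = (C.T.tog u).card := hcard.symm
      _ ≤ _ := card_le_card hsub
      _ ≤ _ := (card_union_le _ _).trans (Nat.add_le_add_left
          ((card_union_le _ _).trans (Nat.add_le_add_left (card_union_le _ _) _)) _)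
  have hleR : (D : ℝ) ≤ (((C.T.tog u).filter P1).card : ℝ) +
      ((((C.T.tog u).filter (P2 ψ)).card : ℝ) +
      ((((C.T.tog u).filter (P2 ξ)).card : ℝ) + (((C.T.tog u).filter P4).card : ℝ))) := by
    exact_mod_cast hle
  -- the bounds
  have hb1 : (((C.T.tog u).filter P1).card : ℝ) ≤ 1 := by
    have : ((C.T.tog u).filter P1).card ≤ 1 := by
      by_cases hd0 : hd u C.T.base ≤ 2 * g
      · refine le_trans (card_le_card ?_) (C.T.p1 u C.T.base hu C.T.base_st hd0)
        intro e he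
        rw [mem_filter] at he
        exact mem_inter.mpr ⟨he.1, he.2.1⟩
      · have : (C.T.tog u).filter P1 = ∅ := by
          apply filter_eq_empty_iff.mpr
          intro e _ h
          exact hd0 h.2
        rw [this]; simp
    exact_mod_cast this
  have hb2 : ∀ φ : Fin N → ℝ, ip φ φ ≤ 9 →
      (((C.T.tog u).filter (P2 φ)).card : ℝ) * δ ^ 2 ≤ 36 * C.R ^ 2 := by
    intro φ hφ
    refine hBAD q N D g M E J C j u φ _ hu (filter_subset _ _) hφ ?_
    intro e he
    exact (mem_filter.mp he).2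
  have hb4 : (((C.T.tog u).filter P4).card : ℝ) * (4 * δ) ≤ 1 + D * δ := by
    calc (((C.T.tog u).filter P4).card : ℝ) * (4 * δ)
        = ∑ e ∈ (C.T.tog u).filter P4, 4 * δ := by
          rw [sum_const, nsmul_eq_mul]
      _ ≤ ∑ e ∈ (C.T.tog u).filter P4,
            |∑ i, c i * ip (C.eta j u e) (C.gam (idx i))| :=
          sum_le_sum fun e he => le_of_lt (mem_filter.mp he).2
      _ ≤ ∑ e ∈ C.T.tog u, |∑ i, c i * ip (C.eta j u e) (C.gam (idx i))| :=
          sum_le_sum_of_subset_of_nonneg (filter_subset _ _) fun e _ _ => abs_nonneg _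
      _ ≤ 1 + D * δ := hCNT q N D g M E J Γ C idx c j u hSt hu hc
  have h2ψ := hb2 ψ hψ
  have h2ξ := hb2 ξ hξ
  have hc6 := C.c6
  have hR := C.hR
  set a1 := (((C.T.tog u).filter P1).card : ℝ)
  set a2 := (((C.T.tog u).filter (P2 ψ)).card : ℝ)
  set a3 := (((C.T.tog u).filter (P2 ξ)).card : ℝ)
  set a4 := (((C.T.tog u).filter P4).card : ℝ)
  have hδ2 : 0 < δ ^ 2 := by positivity
  have hR2 : 1 ≤ C.R ^ 2 := by nlinarith
  -- multiply the inequality by `δ ^ 2`
  have hm : (D : ℝ) * δ ^ 2 ≤ (a1 + (a2 + (a3 + a4))) * δ ^ 2 :=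
    mul_le_mul_of_nonneg_right hleR hδ2.le
  have h1' : a1 * δ ^ 2 ≤ δ ^ 2 := by nlinarith
  have h4' : 4 * (a4 * δ ^ 2) ≤ δ + D * δ ^ 2 := by nlinarith
  have hδ3 : δ ^ 2 ≤ 1 := by nlinarith
  nlinarith

end Pool.Agent.RHO
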