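import Pool.Agent.RHO.Kit

/-! # Row COR: the core -/

set_option autoImplicit false

namespace Pool.Agent.RHO

open Finset

namespace COR

/-- Step (1): signs. -/
lemma choose_o {Γ : Type} [Fintype Γ] (c a b : Γ → ℝ) (hc : ∑ i, |c i| = 1)
    (ha : ∀ i, |a i| ≤ 1) (hca : ∑ i, c i * a i = 1) (hcb : ∑ i, c i * b i = 1) :
    ∃ (o : Γ) (σ : ℝ), (σ = 1 ∨ σ = -1) ∧ a o = σ ∧ 1 ≤ σ * b o := by
  have h1 : ∀ i, c i * a i ≤ |c i| := by
    intro i
    calc c i * a i ≤ |c i * a i| := le_abs_self _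
      _ = |c i| * |a i| := abs_mul _ _
      _ ≤ |c i| * 1 := mul_le_mul_of_nonneg_left (ha i) (abs_nonneg _)
      _ = |c i| := mul_one _
  have h2 : ∀ i, c i * a i = |c i| := by
    have := (Finset.sum_eq_sum_iff_of_le (s := Finset.univ) (f := fun i => c i * a i)
      (g := fun i => |c i|) (fun i _ => h1 i)).1 (by rw [hca, hc])
    exact fun i => this i (Finset.mem_univ i)
  have h3 : ∃ i, c i ≠ 0 := by
    by_contra hno
    push Not at hno
    rw [Finset.sum_eq_zero (fun i _ => by rw [hno i, abs_zero])] at hc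
    exact zero_ne_one hc
  have h4 : ∃ o, c o ≠ 0 ∧ |c o| ≤ c o * b o := by
    by_contra hno
    push Not at hno
    obtain ⟨i0, hi0⟩ := h3
    have : ∑ i, c i * b i < ∑ i, |c i| := by
      apply Finset.sum_lt_sum
      · intro i _
        by_cases hi : c i = 0
        · rw [hi, zero_mul, abs_zero]
        · exact (hno i hi).le
      · exact ⟨i0, Finset.mem_univ _, hno i0 hi0⟩
    rw [hcb, hc] at this
    exact lt_irrefl _ this
  obtain ⟨o, ho, hb⟩ := h4
  have h5 := h2 o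
  rcases lt_or_gt_of_ne ho with hneg | hpos
  · refine ⟨o, -1, Or.inr rfl, ?_, ?_⟩
    · rw [abs_of_neg hneg] at h5
      have : c o * (a o + 1) = 0 := by linarith
      rcases mul_eq_zero.1 this with h | h
      · exact absurd h ho
      · linarith
    · rw [abs_of_neg hneg] at hb
      by_contra hlt
      push Not at hlt
      nlinarith
  · refine ⟨o, 1, Or.inl rfl, ?_, ?_⟩
    · rw [abs_of_pos hpos] at h5
      have : c o * (a o - 1) = 0 := by linarith
      rcases mul_eq_zero.1 this with h | h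
      · exact absurd h ho
      · linarith
    · rw [abs_of_pos hpos] at hb
      by_contra hlt
      push Not at hlt
      nlinarith

/-- Step (3). -/
lemma transfer {q N D g M : ℕ} {E J : Type} [DecidableEq E] [DecidableEq J]
    (hDET : DETStmt) (C : Cfg q N D g M E J) (φ : Fin N → ℝ) (A : ℝ) (hA : √(ip φ φ) ≤ A)
    (j : J × Fin M) (u x : Finset E) (e : E) (hu : C.T.St u) (hx : C.T.St x)
    (he : e ∈ C.T.tog u) (hex : e ∈ symmDiff u x) (hd1 : hd u x ≤ g)
    (hne : ¬ (e ∈ symmDiff u C.T.base ∧ hd u C.T.base ≤ 2 * g))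
    (hgood : ∀ x, C.T.St x → e ∈ symmDiff u x → hd u x ≤ 2 * g →
      |ip φ (C.gv j x) - rr q ^ hd u x * ip φ (C.gv j u)| ≤ dl q) :
    |ip φ (C.gam (j, x)) - rr q ^ hd u x * ip φ (C.gam (j, u))| ≤ dl q + A * dl q := by
  have h1 := hDET q N D g M E J C u x e hu hx he hex hd1 hne
  have h2 := hgood x hx hex (by omega)
  have h3 : |ip φ (C.b j.1)| ≤ A := abs_ip_le_one hA (C.hb j.1)
  have e1 : ip φ (C.gam (j, x)) - rr q ^ hd u x * ip φ (C.gam (j, u)) =
      (ip φ (C.gv j x) - rr q ^ hd u x * ip φ (C.gv j u)) +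
        ip φ (C.b j.1) * (C.av x - rr q ^ hd u x * C.av u) := by
    rw [Cfg.ip_gam, Cfg.ip_gam]
    ring
  rw [e1]
  refine (abs_add_le _ _).trans (add_le_add h2 ?_)
  rw [abs_mul]
  exact mul_le_mul h3 h1 (abs_nonneg _) ((abs_nonneg _).trans h3)

/-- The arithmetic of case (5B). -/
lemma arith5 {σ P θ H r a d : ℝ} (hσ : |σ| = 1) (hP : |P - a * r * σ| ≤ 2 * d)
    (hH : |H - a| ≤ d) (hθ : |θ - (1 + r)| ≤ 2 * d) (hθ0 : 0 ≤ θ) (hθ2 : θ ≤ 2)
    (ha0 : 0 ≤ a) (ha1 : a ≤ 1) :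
    |(-P + σ * θ * H) - σ * a| ≤ 6 * d := by
  have e1 : (-P + σ * θ * H) - σ * a =
      -(P - a * r * σ) + (σ * θ * (H - a) + σ * a * (θ - (1 + r))) := by ring
  rw [e1]
  have t1 : |-(P - a * r * σ)| ≤ 2 * d := by rw [abs_neg]; exact hP
  have hd : 0 ≤ d := (abs_nonneg _).trans hH
  have t2 : |σ * θ * (H - a)| ≤ 2 * d := by
    rw [abs_mul, abs_mul, hσ, one_mul, abs_of_nonneg hθ0]
    exact mul_le_mul hθ2 hH (abs_nonneg _) (by norm_num)
  have t3 : |σ * a * (θ - (1 + r))| ≤ 2 * d := by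
    rw [abs_mul, abs_mul, hσ, one_mul, abs_of_nonneg ha0]
    calc a * |θ - (1 + r)| ≤ 1 * (2 * d) :=
          mul_le_mul ha1 hθ (abs_nonneg _) (by norm_num)
      _ = 2 * d := one_mul _
  calc _ ≤ |-(P - a * r * σ)| + |σ * θ * (H - a) + σ * a * (θ - (1 + r))| := abs_add_le _ _
    _ ≤ |-(P - a * r * σ)| + (|σ * θ * (H - a)| + |σ * a * (θ - (1 + r))|) :=
        add_le_add le_rfl (abs_add_le _ _)
    _ ≤ 6 * d := by linarith

/-- The arithmetic of case (5A). -/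
lemma arith5a {σ P θ H d : ℝ} (hσ : |σ| = 1) (hP : |P| ≤ 1)
    (hH : |H| ≤ 3 / 2 * d) (hθ0 : 0 ≤ θ) (hθ2 : θ ≤ 2) (hd : 0 ≤ d) :
    |-P + σ * θ * H| ≤ 1 + 6 * d := by
  have t2 : |σ * θ * H| ≤ 2 * (3 / 2 * d) := by
    rw [abs_mul, abs_mul, hσ, one_mul, abs_of_nonneg hθ0]
    exact mul_le_mul hθ2 hH (abs_nonneg _) (by norm_num)
  calc _ ≤ |-P| + |σ * θ * H| := abs_add_le _ _
    _ ≤ 1 + 2 * (3 / 2 * d) := by rw [abs_neg]; exact add_le_add hP t2
    _ ≤ 1 + 6 * d := by linarith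

/-- The arithmetic of step (8). -/
lemma arith8 {σ V F X r d : ℝ} (hσ : σ = 1 ∨ σ = -1) (hV : 1 - 6 * d ≤ σ * V)
    (hF : |F + 1| ≤ 8 * d) (hX : r - 4 * d ≤ σ * X) (hr : 7 / 8 ≤ r) (hr1 : r ≤ 1)
    (hd : 0 ≤ d) (hd1 : d ≤ 1 / 256) :
    1 + r - 18 * d ≤ |V - F * X| := by
  have h1 : σ * (V - F * X) ≤ |V - F * X| := by
    rcases hσ with h | h
    · rw [h, one_mul]; exact le_abs_self _
    · rw [h]
      have := neg_le_abs (V - F * X)
      linarith
  refine le_trans ?_ h1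
  have e1 : σ * (V - F * X) = σ * V + (-F) * (σ * X) := by ring
  rw [e1]
  have h2 : 1 - 8 * d ≤ -F := by
    have := (abs_le.1 hF).2
    linarith
  have h3 : (1 - 8 * d) * (r - 4 * d) ≤ (-F) * (σ * X) := by
    apply mul_le_mul h2 hX
    · linarith
    · linarith
  nlinarith

end COR

open COR in
theorem cor (hNRM : NRMStmt) (hDET : DETStmt) (hETA : ETAStmt) (hCO1 : CO1Stmt) : CORStmt := by
  intro q N D g M E J Γ _ _ _ C idx c ψ ξ hst hsurj hc hψ hcψ hcξ hξ
  have hq := C.hq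
  have hr0 := rr_pos hq
  have hr1 := rr_lt_one hq
  have hr78 := le_rr hq
  have hd0 := dl_pos hq
  have hd1 := dl_le hq
  -- step (0)
  have hψn : √(ip ψ ψ) ≤ 1 := by
    apply hNRM q N D g M E J C ψ 1
    intro j
    obtain ⟨i, hi⟩ := hsurj j C.T.base C.T.base_st
    rw [← hi]
    exact hψ i
  have hξn : √(ip ξ ξ) ≤ 3 := by
    apply hNRM q N D g M E J C ξ 3
    intro j
    obtain ⟨i, hi⟩ := hsurj j C.T.base C.T.base_st
    rw [← hi]
    exact hξ i
  have hψ9 : ip ψ ψ ≤ 9 := by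
    have := (Real.sqrt_le_iff.1 hψn).2
    linarith
  have hξ9 : ip ξ ξ ≤ 9 := by
    have := (Real.sqrt_le_iff.1 hξn).2
    linarith
  -- step (1)
  obtain ⟨o, σ, hσ, hoψ, hoξ⟩ := choose_o c (fun i => ip ψ (C.gam (idx i)))
    (fun i => ip ξ (C.gam (idx i))) hc hψ hcψ hcξ
  have hσa : |σ| = 1 := by
    rcases hσ with h | h
    · rw [h, abs_one]
    · rw [h, abs_neg, abs_one]
  have hσσ : σ * σ = 1 := by
    rcases hσ with h | h
    · rw [h]; norm_num
    · rw [h]; norm_num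
  obtain ⟨j, hj⟩ : ∃ j, (idx o).1 = j := ⟨_, rfl⟩
  obtain ⟨u, hu'⟩ : ∃ u, (idx o).2 = u := ⟨_, rfl⟩
  have hidx : idx o = (j, u) := by rw [← hj, ← hu']
  have hu : C.T.St u := by rw [← hu']; exact hst o
  simp only [hidx] at hoψ hoξ
  -- step (2)
  obtain ⟨e, he, hne, hgψ, hgξ, hS⟩ := hCO1 q N D g M E J Γ C idx c ψ ξ j u hst hu hc.le hψ9 hξ9
  obtain ⟨t, ht⟩ : ∃ t, t = symmDiff u {e} := ⟨_, rfl⟩
  have htst : C.T.St t := by rw [ht]; exact C.T.closed u e hu he
  have htd : hd u t = 1 := by rw [ht]; exact hd_toggle u e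
  have hte : e ∈ symmDiff u t := by
    rw [ht, symmDiff_toggle]; exact Finset.mem_singleton_self e
  have hg := C.hg
  -- step (3)
  have s3 : ∀ x, C.T.St x → e ∈ symmDiff u x → hd u x ≤ g →
      |ip ψ (C.gam (j, x)) - rr q ^ hd u x * σ| ≤ 2 * dl q := by
    intro x hx hex hxg
    have := transfer hDET C ψ 1 hψn j u x e hu hx he hex hxg hne hgψ
    rw [hoψ] at this
    linarith
  have s3t : |ip ψ (C.gam (j, t)) - rr q * σ| ≤ 2 * dl q := by
    have := s3 t htst hte (by omega)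
    rw [htd, pow_one] at this
    exact this
  have s3ξ : rr q - 4 * dl q ≤ σ * ip ξ (C.gam (j, t)) := by
    have h1 := transfer hDET C ξ 3 hξn j u t e hu htst he hte (by omega) hne hgξ
    rw [htd, pow_one] at h1
    have h2 := abs_le.1 h1
    have h3 : rr q ≤ rr q * (σ * ip ξ (C.gam (j, u))) := by
      have := mul_le_mul_of_nonneg_left hoξ hr0.le
      linarith
    rcases hσ with h | h
    · rw [h] at h3 ⊢
      linarith [h2.1]
    · rw [h] at h3 ⊢
      linarith [h2.2]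
  -- step (4)
  obtain ⟨i1, hi1⟩ := hsurj j t htst
  have hψt : |ip ψ (C.gam (j, t))| ≤ 1 := by rw [← hi1]; exact hψ i1
  obtain ⟨θ, hθ⟩ : ∃ θ, θ = 1 + σ * ip ψ (C.gam (j, t)) := ⟨_, rfl⟩
  have hσψ : |σ * ip ψ (C.gam (j, t))| ≤ 1 := by rw [abs_mul, hσa, one_mul]; exact hψt
  have hθ0 : 0 ≤ θ := by
    have := (abs_le.1 hσψ).1
    linarith
  have hθ2 : θ ≤ 2 := by
    have := (abs_le.1 hσψ).2
    linarith
  have hθr : |θ - (1 + rr q)| ≤ 2 * dl q := by
    have e1 : θ - (1 + rr q) = σ * (ip ψ (C.gam (j, t)) - rr q * σ) := by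
      rw [hθ]
      have : σ * (ip ψ (C.gam (j, t)) - rr q * σ) =
        σ * ip ψ (C.gam (j, t)) - rr q * (σ * σ) := by ring
      rw [this, hσσ]
      ring
    rw [e1, abs_mul, hσa, one_mul]
    exact s3t
  -- the vector
  obtain ⟨v, hv⟩ : ∃ v, v = -ψ + (σ * θ) • C.eta j u e := ⟨_, rfl⟩
  have hipv : ∀ z, ip v z = -ip ψ z + σ * θ * ip (C.eta j u e) z := by
    intro z
    rw [hv, ip_add_left, ip_neg_left, ip_smul_left]
  have hrg : rr q ^ g ≤ dl q / 2 := by
    have h1 := C.c4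
    have h2 := C.hR'
    have h3 := (rr_pow_pos hq g).le
    have h4 : 2 * 1 * rr q ^ g ≤ 2 * C.R' * rr q ^ g :=
      mul_le_mul_of_nonneg_right (by linarith) h3
    linarith
  -- step (5B)
  have s5 : ∀ x, C.T.St x → e ∈ symmDiff u x → hd u x ≤ g →
      |ip v (C.gam (j, x)) - σ * rr q ^ (hd u x - 1)| ≤ 6 * dl q := by
    intro x hx hex hxg
    have hpos : 1 ≤ hd u x := Finset.card_pos.2 ⟨e, hex⟩
    obtain ⟨d, hdd⟩ : ∃ d, hd u x = d + 1 := ⟨hd u x - 1, by omega⟩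
    have h1 := s3 x hx hex hxg
    have h2 := hETA q N D g M E J C j j u x e
    rw [if_pos rfl] at h2
    unfold hh at h2
    rw [if_pos hex] at h2
    rw [hdd, Nat.add_sub_cancel] at h2 ⊢
    rw [hdd, pow_succ] at h1
    rw [hipv]
    exact arith5 hσa h1 h2 hθr hθ0 hθ2 (rr_pow_pos hq d).le (rr_pow_le_one hq d)
  have s5all : ∀ i', |ip v (C.gam (idx i'))| ≤ 1 + 6 * dl q := by
    intro i'
    obtain ⟨j', hj'⟩ : ∃ j', (idx i').1 = j' := ⟨_, rfl⟩
    obtain ⟨x, hx'⟩ : ∃ x, (idx i').2 = x := ⟨_, rfl⟩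
    have hidx' : idx i' = (j', x) := by rw [← hj', ← hx']
    have hx : C.T.St x := by rw [← hx']; exact hst i'
    have hψi := hψ i'
    rw [hidx'] at hψi ⊢
    by_cases hB : j = j' ∧ e ∈ symmDiff u x ∧ hd u x ≤ g
    · obtain ⟨hjj, hex, hxg⟩ := hB
      subst hjj
      have h1 := s5 x hx hex hxg
      have h2 : |σ * rr q ^ (hd u x - 1)| ≤ 1 := by
        rw [abs_mul, hσa, one_mul, abs_of_pos (rr_pow_pos hq _)]
        exact rr_pow_le_one hq _
      rw [abs_le] at h1 h2 ⊢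
      constructor <;> linarith [h1.1, h1.2, h2.1, h2.2]
    · have h1 := hETA q N D g M E J C j j' u x e
      have h2 : 0 ≤ (if j = j' then hh (rr q) u e x else 0) ∧
          (if j = j' then hh (rr q) u e x else 0) ≤ dl q / 2 := by
        by_cases hjj : j = j'
        · rw [if_pos hjj]
          unfold hh
          by_cases hex : e ∈ symmDiff u x
          · rw [if_pos hex]
            have hgt : ¬ hd u x ≤ g := fun h => hB ⟨hjj, hex, h⟩
            exact ⟨(rr_pow_pos hq _).le, (rr_pow_le hq (by omega)).trans hrg⟩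
          · rw [if_neg hex]
            exact ⟨le_rfl, by linarith⟩
        · rw [if_neg hjj]
          exact ⟨le_rfl, by linarith⟩
      have h3 : |ip (C.eta j u e) (C.gam (j', x))| ≤ 3 / 2 * dl q := by
        rw [abs_le] at h1 ⊢
        constructor <;> linarith [h1.1, h1.2, h2.1, h2.2]
      rw [hipv]
      exact arith5a hσa hψi h3 hθ0 hθ2 hd0.le
  -- step (6)
  have s6 : 1 - 6 * dl q ≤ σ * ip v (C.gam (j, t)) := by
    have h1 := s5 t htst hte (by omega)
    rw [htd, Nat.sub_self, pow_zero, mul_one] at h1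
    have h2 := abs_le.1 h1
    rcases hσ with h | h
    · rw [h] at h2 ⊢
      linarith [h2.1]
    · rw [h] at h2 ⊢
      linarith [h2.2]
  -- step (7)
  have s7 : |(∑ i', c i' * ip v (C.gam (idx i'))) + 1| ≤ 8 * dl q := by
    have e1 : ∑ i', c i' * ip v (C.gam (idx i')) =
        -(∑ i', c i' * ip ψ (C.gam (idx i'))) +
          σ * θ * ∑ i', c i' * ip (C.eta j u e) (C.gam (idx i')) := by
      rw [Finset.mul_sum, ← Finset.sum_neg_distrib, ← Finset.sum_add_distrib]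
      refine Finset.sum_congr rfl fun i _ => ?_
      rw [hipv]
      ring
    rw [e1, hcψ]
    have e2 : -1 + σ * θ * ∑ i', c i' * ip (C.eta j u e) (C.gam (idx i')) + 1 =
        σ * θ * ∑ i', c i' * ip (C.eta j u e) (C.gam (idx i')) := by ring
    rw [e2, abs_mul, abs_mul, hσa, one_mul, abs_of_nonneg hθ0]
    calc θ * _ ≤ 2 * (4 * dl q) := mul_le_mul hθ2 hS (abs_nonneg _) (by norm_num)
      _ = 8 * dl q := by ring
  -- step (8)
  refine ⟨v, i1, s5all, ?_⟩
  rw [hi1]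
  have h8 := arith8 hσ s6 s7 s3ξ hr78 hr1.le hd0.le hd1
  refine le_trans (le_of_eq ?_) h8
  unfold rr
  ring

end Pool.Agent.RHO
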