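import Pool.Agent.RHO.Defs2

/-!
# MP_ca8ef3_an, stage 2: the main argument over a kernel system — statements

`r = rr q = 1 - 2/q`, `δ = dl q = 1/(16 q)`. Most rows are adaptations of the finished stage 1 rows
(same letters): replace `hd`, `symmDiff`, `tog` by the fields of `KSys`.
-/

set_option autoImplicit false

namespace Pool.Agent.RHO

open Finset

/-- ROW GR2M (Gram lemma for a kernel; adapt `GRM`, `AVG`). PROOF. Sample space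
`Fin N → (J → Bool × Ω)`, `s j x l = (±1 by the Boolean of j at l) * σ (ω l j).2 x`. For one
coordinate the sum over `J → Bool × Ω` of `sg j x * sg j' y` is `card * K x y` if `j = j'` (`avg`)
and `0` otherwise (flip the Boolean of `j`). Then `HO1`, `HO2` and the union bound over
`|J|² |X|²` pairs and `|J| |X| |J'| ≤ |J|² |X|²` triples, exactly as in `GRM`. -/
def GRM2Stmt : Prop := ∀ (N : ℕ) (J X Ω J' : Type) [Fintype J] [DecidableEq J] [Fintype X]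
  [Fintype Ω] [Fintype J'] (σ : Ω → X → ℝ) (K : X → X → ℝ) (b : J' → Fin N → ℝ) (τ : ℝ),
  0 < N → 0 < τ → 0 < Fintype.card Ω → (∀ ω x, |σ ω x| = 1) →
  (∀ x y, ∑ ω, σ ω x * σ ω y = Fintype.card Ω * K x y) →
  (∀ j, ip (b j) (b j) ≤ 1) → Fintype.card J' ≤ Fintype.card J →
  4 * (Fintype.card J : ℝ) ^ 2 * (Fintype.card X : ℝ) ^ 2 * Real.exp (-(τ ^ 2 * N / 2)) < 1 →
  ∃ s : J → X → Fin N → ℝ, (∀ j x l, |s j x l| = 1) ∧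
    (∀ j j' x y, |ip (s j x) (s j' y) - (if j = j' then (N:ℝ) * K x y else 0)| ≤ τ * N) ∧
    (∀ j x j', |ip (s j x) (b j')| ≤ τ * √N)

/-- ROW NRM2 (adapt `NRM`; `K base base = 1` by `avg`, `abs_σ`, `hΩ`). -/
def NRM2Stmt : Prop := ∀ (q N D g M : ℕ) (X Ω J : Type) [Fintype Ω] [DecidableEq J] (κ : ℝ)
  (C : Cfg2 q N D g M X Ω J κ) (ψ : Fin N → ℝ) (A : ℝ),
  (∀ j, |ip ψ (C.gam (j, C.S.base))| ≤ A) → √(ip ψ ψ) ≤ A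

/-- ROW BAD2 (adapt `BAD`). PROOF. `z_e = gv j x_e - r^(d_e) gv j u` with `K u x_e = r^(d_e)`
(`K_side`). For `e ≠ e'` in `S`: `x_{e'}` is not on the side of `e` (`side_unique`), so by `prod`
`|K x_e x_{e'} - r^(d_e) r^(d_e')| ≤ κ`, and `|ip z_e z_e'| ≤ (4 τ + κ) R²`; `ip z_e z_e ≤ 2 R²`.
`|S|² δ² ≤ 9 (2 R² |S| + (4 τ + κ) R² |S|²) ≤ 18 R² |S| + |S|² δ²/2` (`c2`). (`K` is symmetric by
`avg`.) -/
def BAD2Stmt : Prop := ∀ (q N D g M : ℕ) (X Ω J : Type) [Fintype Ω] [DecidableEq J] (κ : ℝ)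
  (C : Cfg2 q N D g M X Ω J κ) (j : J × Fin M) (u : X) (ψ : Fin N → ℝ) (S : Finset (Fin D)),
  ip ψ ψ ≤ 9 →
  (∀ e ∈ S, ∃ x, C.S.side u e x ∧ C.S.dd u x ≤ g ∧
    dl q < |ip ψ (C.gv j x) - rr q ^ C.S.dd u x * ip ψ (C.gv j u)|) →
  (S.card : ℝ) * dl q ^ 2 ≤ 36 * C.R ^ 2

/-- ROW DET2. PROOF. `prod` with `y = base`, multiplied by `2 R'`, and `c4`. -/
def DET2Stmt : Prop := ∀ (q N D g M : ℕ) (X Ω J : Type) [Fintype Ω] [DecidableEq J] (κ : ℝ)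
  (C : Cfg2 q N D g M X Ω J κ) (u x : X) (e : Fin D),
  C.S.side u e x → C.S.dd u x ≤ g → ¬ C.S.side u e C.S.base →
  |C.av x - rr q ^ C.S.dd u x * C.av u| ≤ dl q

/-- ROW ETA2 (adapt `ETA`). PROOF. On the side: `K (nb u e) x - r K u x = r^(d-1) - r^(d+1) =
(1 - r²) r^(d-1)`; off the side it is at most `κ` in absolute value. Total error
`(2 τ + 4 R' τ/R + κ)/(1 - r²) ≤ δ` (`c3`). (`|av x| ≤ 2 R'` since `|K| ≤ 1`.) -/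
def ETA2Stmt : Prop := ∀ (q N D g M : ℕ) (X Ω J : Type) [Fintype Ω] [DecidableEq J] (κ : ℝ)
  (C : Cfg2 q N D g M X Ω J κ) (j j' : J × Fin M) (u x : X) (e : Fin D),
  |ip (C.eta j u e) (C.gam (j', x)) - (if j = j' then C.hk u e x else 0)| ≤ dl q

/-- ROW CNT2 (adapt `CNT`). PROOF. `Σ_e hk u e x ≤ 1`: at most one `e` has `side u e x`
(`side_unique`), and `0 ≤ hk ≤ 1`. -/
def CNT2Stmt : Prop := ∀ (q N D g M : ℕ) (X Ω J Γ : Type) [Fintype Ω] [DecidableEq J] [Fintype Γ]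
  (κ : ℝ) (C : Cfg2 q N D g M X Ω J κ) (idx : Γ → (J × Fin M) × X) (c : Γ → ℝ) (j : J × Fin M)
  (u : X), ∑ i, |c i| ≤ 1 →
  ∑ e : Fin D, |∑ i, c i * ip (C.eta j u e) (C.gam (idx i))| ≤ 1 + D * dl q

/-- ROW CO12 (adapt `CO1`). -/
def CO12Stmt : Prop := ∀ (q N D g M : ℕ) (X Ω J Γ : Type) [Fintype Ω] [DecidableEq J] [Fintype Γ]
  (κ : ℝ) (C : Cfg2 q N D g M X Ω J κ) (idx : Γ → (J × Fin M) × X) (c : Γ → ℝ)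
  (ψ ξ : Fin N → ℝ) (j : J × Fin M) (u : X), ∑ i, |c i| ≤ 1 → ip ψ ψ ≤ 9 → ip ξ ξ ≤ 9 →
  ∃ e : Fin D, ¬ C.S.side u e C.S.base ∧
    (∀ x, C.S.side u e x → C.S.dd u x ≤ g →
      |ip ψ (C.gv j x) - rr q ^ C.S.dd u x * ip ψ (C.gv j u)| ≤ dl q) ∧
    (∀ x, C.S.side u e x → C.S.dd u x ≤ g →
      |ip ξ (C.gv j x) - rr q ^ C.S.dd u x * ip ξ (C.gv j u)| ≤ dl q) ∧
    |∑ i, c i * ip (C.eta j u e) (C.gam (idx i))| ≤ 4 * dl q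

/-- ROW COR2 (adapt `COR`; `idx` is onto). -/
def COR2Stmt : Prop := ∀ (q N D g M : ℕ) (X Ω J Γ : Type) [Fintype Ω] [DecidableEq J] [Fintype Γ]
  (κ : ℝ) (C : Cfg2 q N D g M X Ω J κ) (idx : Γ → (J × Fin M) × X) (c : Γ → ℝ)
  (ψ ξ : Fin N → ℝ), Function.Surjective idx →
  ∑ i, |c i| = 1 → (∀ i, |ip ψ (C.gam (idx i))| ≤ 1) → ∑ i, c i * ip ψ (C.gam (idx i)) = 1 →
  ∑ i, c i * ip ξ (C.gam (idx i)) = 1 → (∀ i, |ip ξ (C.gam (idx i))| ≤ 3) →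
  ∃ (v : Fin N → ℝ) (i : Γ), (∀ i', |ip v (C.gam (idx i'))| ≤ 1 + 6 * dl q) ∧
    2 - 2 / q - 18 * dl q ≤
      |ip v (C.gam (idx i)) - (∑ i', c i' * ip v (C.gam (idx i'))) * ip ξ (C.gam (idx i))|

/-- ROW MAI2 (adapt `MAI`; `Γ = (J × Fin M) × X`, `idx = id`). -/
def MAI2Stmt : Prop := ∀ (q N D g M : ℕ) (X Ω J : Type) [Fintype Ω] [DecidableEq J] [Fintype X]
  [Fintype J] (κ : ℝ) (_ : Cfg2 q N D g M X Ω J κ),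
  ENNReal.ofReal (2 - 4 / q) ≤ Helper18_Proj.rho N

/-- Existence of a kernel system with at most `2^B` states for the parameters of scale `q = 2^a`. -/
def HasK (a B : ℕ) : Prop := ∃ (X Ω : Type) (_ : Fintype X) (_ : Fintype Ω)
  (_ : KSys X Ω (2 ^ (33 + 10 * a)) (2 ^ a * (a + 5)) (rr (2 ^ a)) (1 / 2 ^ (42 + 13 * a))),
  0 < Fintype.card Ω ∧ Fintype.card X ≤ 2 ^ B

/-- ROW CFG2 (existence of the data; adapt `CFG`, `NU1`, `NU2`). PROOF. `q = 2^a`, `a ≥ 4`,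
`D = 2^(33 + 10 a)`, `g = 2^a (a + 5)`, `κ = 2^-(42 + 13 a)`, `M = 2^(19 + 8 a)`,
`R = 2^(9 + 4 a)`, `τ = 2^-(34 + 10 a)`, `B₀ = 2^(72 + 24 a)`, `R' = 2 √B₀ = 2^(37 + 12 a)`.
Conditions: `hM`: `2 R² = 2^(19+8a)`. `c1` clear. `c2`: `72 τ R² = 72 · 2^(-16-2a) ≤ 2^(-9-2a)`,
`18 κ R² ≤ 2^(-9-2a)`, sum `≤ 2^(-8-2a) = δ²`. `c3`: `1 - r² = (2/q)(2 - 2/q) ≥ 2/q`, right side
`≥ 1/(8 q²)`; `2 τ ≤ 1/(32 q²)`, `κ ≤ 1/(32 q²)`, `4 R' τ/R = 4 · 2^(3+2a)/2^(9+4a) = 1/(16 q²)`.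
`c4`: `2 R' κ = 2^(38+12a-42-13a) = 2^(-4-a) = δ`. `c5`: `r^g = ((1-2/q)^q)^(a+5) ≤ 4^-(a+5)
≤ 2^-(a+5) = δ/2`. `c6`: `100 R² = 100 · 2^(18+8a) ≤ 2^(25+8a) = D δ²`. Net: `NET` with `B₀`; signs:
`GRM2` with `J × Fin M`; condition, with `cJ ≤ B₀ (21 N)^(N/B₀+1) M`, `log (21 N) ≤ q^4`:
`log 4 + 2 log cJ + 2 B log 2 < τ² N/2`: `2 (N/B₀) q^4 ≤ 2 N 2^(4a)/2^(72+24a) = N/2^(71+20a) =
τ² N/8`, and the rest `log 4 + 2 log B₀ + 2 log M + 2 q^4 + 2 B log 2 ≤ 2 + 2 (91 + 32 a) + 2 ·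
2^(4a) + 1.4 B` is at most `(3/8) N/2^(68+20a)` since `N ≥ 2^(72+20a) (B + 2^(4 a))`
(`2 + 182 + 64 a ≤ 2^(4a)·...` for `a ≥ 4`: `184 + 64 a ≤ 440 ≤ 2^(4a)`, growing). -/
def CFG2Stmt : Prop := ∀ (a B N : ℕ), 4 ≤ a → HasK a B →
  2 ^ (72 + 20 * a) * (B + 2 ^ (4 * a)) ≤ N → Real.log (21 * N) ≤ ((2:ℝ) ^ a) ^ 4 →
  ∃ (D g M : ℕ) (X Ω J : Type) (_ : Fintype Ω) (_ : DecidableEq J) (_ : Fintype X)
    (_ : Fintype J) (κ : ℝ), Nonempty (Cfg2 (2 ^ a) N D g M X Ω J κ)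

/-- The bound at scale `a`: consequence of `CFG2` and `MAI2`. -/
def Q2Stmt : Prop := ∀ (a B N : ℕ), 4 ≤ a → HasK a B →
  2 ^ (72 + 20 * a) * (B + 2 ^ (4 * a)) ≤ N → Real.log (21 * N) ≤ ((2:ℝ) ^ a) ^ 4 →
  ENNReal.ofReal (2 - 4 / 2 ^ a) ≤ Helper18_Proj.rho N

/-- ROW EXP2 (hypotheses: `Q2Stmt` and the existence `hk : ∀ a ≥ 4, HasK a (2^(c a^3))`). PROOF. Let
`C` be large in terms of `c`. For `N ≥ 2^(C a^3)` let `a'` be the largest integer with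
`2^((c + 100) (a')^3) ≤ N`; `a' ≥ a + 2` and `a' ≥ a₀(c)` if `C` is large (`a ≥ 1`). Then
`2^(72 + 20 a') (2^(c a'^3) + 2^(4 a')) ≤ 2^((c+100) a'^3) ≤ N` and
`log (21 N) ≤ 4 + (c + 100)(a' + 1)^3 ≤ 2^(4 a')` as `a'` is large. So
`ρ_N ≥ 2 - 4/2^a' ≥ 2 - 1/2^a`. -/
def EXP2Stmt : Prop := ∀ c : ℕ, (∀ a, 4 ≤ a → HasK a (2 ^ (c * a ^ 3))) →
  ∃ C : ℕ, ∀ a N : ℕ, 1 ≤ a → 2 ^ (C * a ^ 3) ≤ N →
    ENNReal.ofReal (2 - 1 / 2 ^ a) ≤ Helper18_Proj.rho N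

/-- ROW RAT2. PROOF. Given `C ≥ 1` as in `EXP2`. For `n ≥ 1` let `a = ⌊(log n/(C log 2))^(1/3)⌋`. If
`a ≥ 1` then `2^(C a^3) ≤ n` and `2^-a ≤ 2 · 2^-((log n/(C log 2))^(1/3)) ≤
2 exp(-c (log n)^(1/3))` with `c = log 2/(C log 2)^(1/3)`; if `a = 0` then
`(log n)^(1/3) < (C log 2)^(1/3)`, so `C' exp(-c (log n)^(1/3)) ≥ 2` for `C' ≥ 4`
(`c (C log 2)^(1/3) = log 2`). -/
def RAT2Stmt : Prop := ∀ C : ℕ,
  (∀ a N : ℕ, 1 ≤ a → 2 ^ (C * a ^ 3) ≤ N →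
    ENNReal.ofReal (2 - 1 / 2 ^ a) ≤ Helper18_Proj.rho N) →
  ∃ c C' : ℝ, 0 < c ∧ ∀ n : ℕ, 1 ≤ n →
    ENNReal.ofReal (2 - C' * Real.exp (-(c * Real.log n ^ ((1:ℝ) / 3)))) ≤ Helper18_Proj.rho n

end Pool.Agent.RHO
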