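import Pool.Agent.RHO.COR
import Pool.Agent.RHO.Stmts2

/-! # Row COR2: the core over a kernel system (adapted from COR.lean of helper20) -/

set_option autoImplicit false

namespace Pool.Agent.RHO

open Finset

namespace COR

lemma ip_gam2 {q N D g M : ℕ} {X Ω J : Type} [Fintype Ω] [DecidableEq J] {κ : ℝ}
    (C : Cfg2 q N D g M X Ω J κ) (φ : Fin N → ℝ) (j : J × Fin M) (x : X) :
    ip φ (C.gam (j, x)) = C.av x * ip φ (C.b j.1) + ip φ (C.gv j x) := by
  unfold ip Cfg2.gam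
  rw [Finset.mul_sum, ← Finset.sum_add_distrib]
  refine Finset.sum_congr rfl fun l _ => ?_
  ring

/-- Step (3). -/
lemma transfer2 {q N D g M : ℕ} {X Ω J : Type} [Fintype Ω] [DecidableEq J] {κ : ℝ}
    (hDET : DET2Stmt) (C : Cfg2 q N D g M X Ω J κ) (φ : Fin N → ℝ) (A : ℝ) (hA : √(ip φ φ) ≤ A)
    (j : J × Fin M) (u x : X) (e : Fin D)
    (hex : C.S.side u e x) (hd1 : C.S.dd u x ≤ g)
    (hne : ¬ C.S.side u e C.S.base)
    (hgood : ∀ x, C.S.side u e x → C.S.dd u x ≤ g →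
      |ip φ (C.gv j x) - rr q ^ C.S.dd u x * ip φ (C.gv j u)| ≤ dl q) :
    |ip φ (C.gam (j, x)) - rr q ^ C.S.dd u x * ip φ (C.gam (j, u))| ≤ dl q + A * dl q := by
  have h1 := hDET q N D g M X Ω J κ C u x e hex hd1 hne
  have h2 := hgood x hex hd1
  have h3 : |ip φ (C.b j.1)| ≤ A := abs_ip_le_one hA (C.hb j.1)
  have e1 : ip φ (C.gam (j, x)) - rr q ^ C.S.dd u x * ip φ (C.gam (j, u)) =
      (ip φ (C.gv j x) - rr q ^ C.S.dd u x * ip φ (C.gv j u)) +
        ip φ (C.b j.1) * (C.av x - rr q ^ C.S.dd u x * C.av u) := by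
    rw [ip_gam2, ip_gam2]
    ring
  rw [e1]
  refine (abs_add_le _ _).trans (add_le_add h2 ?_)
  rw [abs_mul]
  exact mul_le_mul h3 h1 (abs_nonneg _) ((abs_nonneg _).trans h3)

end COR

open COR in
theorem cor2 (hNRM : NRM2Stmt) (hDET : DET2Stmt) (hETA : ETA2Stmt) (hCO1 : CO12Stmt) :
    COR2Stmt := by
  intro q N D g M X Ω J Γ _ _ _ κ C idx c ψ ξ hsurj hc hψ hcψ hcξ hξ
  have hq := C.hq
  have hr0 := rr_pos hq
  have hr1 := rr_lt_one hq
  have hr78 := le_rr hq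
  have hd0 := dl_pos hq
  have hd1 := dl_le hq
  -- step (0)
  have hψn : √(ip ψ ψ) ≤ 1 := by
    apply hNRM q N D g M X Ω J κ C ψ 1
    intro j
    obtain ⟨i, hi⟩ := hsurj (j, C.S.base)
    rw [← hi]
    exact hψ i
  have hξn : √(ip ξ ξ) ≤ 3 := by
    apply hNRM q N D g M X Ω J κ C ξ 3
    intro j
    obtain ⟨i, hi⟩ := hsurj (j, C.S.base)
    rw [← hi]
    exact hξ i
  have hψ9 : ip ψ ψ ≤ 9 := by
    have := (Real.sqrt_le_iff.1 hψn).2
    linarith
  have hξ9 : ip ξ ξ ≤ 9 := by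
    have := (Real.sqrt_le_iff.1 hξn).2
    linarith
  -- step (1)
  obtain ⟨o, σ, hσ, hoψ, hoξ⟩ := choose_o c (fun i => ip ψ (C.gam (idx i)))
    (fun i => ip ξ (C.gam (idx i))) hc hψ hcψ hcξ
  have hσa : |σ| = 1 := by
    rcases hσ with h | h
    · rw [h, abs_one]
    · rw [h, abs_neg, abs_one]
  have hσσ : σ * σ = 1 := by
    rcases hσ with h | h
    · rw [h]; norm_num
    · rw [h]; norm_num
  obtain ⟨j, hj⟩ : ∃ j, (idx o).1 = j := ⟨_, rfl⟩
  obtain ⟨u, hu'⟩ : ∃ u, (idx o).2 = u := ⟨_, rfl⟩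
  have hidx : idx o = (j, u) := by rw [← hj, ← hu']
  simp only [hidx] at hoψ hoξ
  -- step (2)
  obtain ⟨e, hne, hgψ, hgξ, hS⟩ := hCO1 q N D g M X Ω J Γ κ C idx c ψ ξ j u hc.le hψ9 hξ9
  obtain ⟨t, ht⟩ : ∃ t, t = C.S.nb u e := ⟨_, rfl⟩
  have htd : C.S.dd u t = 1 := by rw [ht]; exact C.S.dd_nb u e
  have hte : C.S.side u e t := by rw [ht]; exact C.S.side_nb u e
  have hg := C.hg
  -- step (3)
  have s3 : ∀ x, C.S.side u e x → C.S.dd u x ≤ g →
      |ip ψ (C.gam (j, x)) - rr q ^ C.S.dd u x * σ| ≤ 2 * dl q := by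
    intro x hex hxg
    have := transfer2 hDET C ψ 1 hψn j u x e hex hxg hne hgψ
    rw [hoψ] at this
    linarith
  have s3t : |ip ψ (C.gam (j, t)) - rr q * σ| ≤ 2 * dl q := by
    have := s3 t hte (by omega)
    rw [htd, pow_one] at this
    exact this
  have s3ξ : rr q - 4 * dl q ≤ σ * ip ξ (C.gam (j, t)) := by
    have h1 := transfer2 hDET C ξ 3 hξn j u t e hte (by omega) hne hgξ
    rw [htd, pow_one] at h1
    have h2 := abs_le.1 h1
    have h3 : rr q ≤ rr q * (σ * ip ξ (C.gam (j, u))) := by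
      have := mul_le_mul_of_nonneg_left hoξ hr0.le
      linarith
    rcases hσ with h | h
    · rw [h] at h3 ⊢
      linarith [h2.1]
    · rw [h] at h3 ⊢
      linarith [h2.2]
  -- step (4)
  obtain ⟨i1, hi1⟩ := hsurj (j, t)
  have hψt : |ip ψ (C.gam (j, t))| ≤ 1 := by rw [← hi1]; exact hψ i1
  obtain ⟨θ, hθ⟩ : ∃ θ, θ = 1 + σ * ip ψ (C.gam (j, t)) := ⟨_, rfl⟩
  have hσψ : |σ * ip ψ (C.gam (j, t))| ≤ 1 := by rw [abs_mul, hσa, one_mul]; exact hψt
  have hθ0 : 0 ≤ θ := by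
    have := (abs_le.1 hσψ).1
    linarith
  have hθ2 : θ ≤ 2 := by
    have := (abs_le.1 hσψ).2
    linarith
  have hθr : |θ - (1 + rr q)| ≤ 2 * dl q := by
    have e1 : θ - (1 + rr q) = σ * (ip ψ (C.gam (j, t)) - rr q * σ) := by
      rw [hθ]
      have : σ * (ip ψ (C.gam (j, t)) - rr q * σ) =
        σ * ip ψ (C.gam (j, t)) - rr q * (σ * σ) := by ring
      rw [this, hσσ]
      ring
    rw [e1, abs_mul, hσa, one_mul]
    exact s3t
  -- the vector
  obtain ⟨v, hv⟩ : ∃ v, v = -ψ + (σ * θ) • C.eta j u e := ⟨_, rfl⟩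
  have hipv : ∀ z, ip v z = -ip ψ z + σ * θ * ip (C.eta j u e) z := by
    intro z
    rw [hv, ip_add_left, ip_neg_left, ip_smul_left]
  have hrg : rr q ^ g ≤ dl q / 2 := by
    have h1 := C.c5
    linarith
  -- step (5B)
  have s5 : ∀ x, C.S.side u e x → C.S.dd u x ≤ g →
      |ip v (C.gam (j, x)) - σ * rr q ^ (C.S.dd u x - 1)| ≤ 6 * dl q := by
    intro x hex hxg
    have hpos : 1 ≤ C.S.dd u x := C.S.dd_pos u e x hex
    obtain ⟨d, hdd⟩ : ∃ d, C.S.dd u x = d + 1 := ⟨C.S.dd u x - 1, by omega⟩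
    have h1 := s3 x hex hxg
    have h2 := hETA q N D g M X Ω J κ C j j u x e
    rw [if_pos rfl] at h2
    unfold Cfg2.hk at h2
    rw [if_pos hex] at h2
    rw [hdd, Nat.add_sub_cancel] at h2 ⊢
    rw [hdd, pow_succ] at h1
    rw [hipv]
    exact arith5 hσa h1 h2 hθr hθ0 hθ2 (rr_pow_pos hq d).le (rr_pow_le_one hq d)
  have s5all : ∀ i', |ip v (C.gam (idx i'))| ≤ 1 + 6 * dl q := by
    intro i'
    obtain ⟨j', hj'⟩ : ∃ j', (idx i').1 = j' := ⟨_, rfl⟩
    obtain ⟨x, hx'⟩ : ∃ x, (idx i').2 = x := ⟨_, rfl⟩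
    have hidx' : idx i' = (j', x) := by rw [← hj', ← hx']
    have hψi := hψ i'
    rw [hidx'] at hψi ⊢
    by_cases hB : j = j' ∧ C.S.side u e x ∧ C.S.dd u x ≤ g
    · obtain ⟨hjj, hex, hxg⟩ := hB
      subst hjj
      have h1 := s5 x hex hxg
      have h2 : |σ * rr q ^ (C.S.dd u x - 1)| ≤ 1 := by
        rw [abs_mul, hσa, one_mul, abs_of_pos (rr_pow_pos hq _)]
        exact rr_pow_le_one hq _
      rw [abs_le] at h1 h2 ⊢
      constructor <;> linarith [h1.1, h1.2, h2.1, h2.2]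
    · have h1 := hETA q N D g M X Ω J κ C j j' u x e
      have h2 : 0 ≤ (if j = j' then C.hk u e x else 0) ∧
          (if j = j' then C.hk u e x else 0) ≤ dl q / 2 := by
        by_cases hjj : j = j'
        · rw [if_pos hjj]
          unfold Cfg2.hk
          by_cases hex : C.S.side u e x
          · rw [if_pos hex]
            have hgt : ¬ C.S.dd u x ≤ g := fun h => hB ⟨hjj, hex, h⟩
            exact ⟨(rr_pow_pos hq _).le, (rr_pow_le hq (by omega)).trans hrg⟩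
          · rw [if_neg hex]
            exact ⟨le_rfl, by linarith⟩
        · rw [if_neg hjj]
          exact ⟨le_rfl, by linarith⟩
      have h3 : |ip (C.eta j u e) (C.gam (j', x))| ≤ 3 / 2 * dl q := by
        rw [abs_le] at h1 ⊢
        constructor <;> linarith [h1.1, h1.2, h2.1, h2.2]
      rw [hipv]
      exact arith5a hσa hψi h3 hθ0 hθ2 hd0.le
  -- step (6)
  have s6 : 1 - 6 * dl q ≤ σ * ip v (C.gam (j, t)) := by
    have h1 := s5 t hte (by omega)
    rw [htd, Nat.sub_self, pow_zero, mul_one] at h1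
    have h2 := abs_le.1 h1
    rcases hσ with h | h
    · rw [h] at h2 ⊢
      linarith [h2.1]
    · rw [h] at h2 ⊢
      linarith [h2.2]
  -- step (7)
  have s7 : |(∑ i', c i' * ip v (C.gam (idx i'))) + 1| ≤ 8 * dl q := by
    have e1 : ∑ i', c i' * ip v (C.gam (idx i')) =
        -(∑ i', c i' * ip ψ (C.gam (idx i'))) +
          σ * θ * ∑ i', c i' * ip (C.eta j u e) (C.gam (idx i')) := by
      rw [Finset.mul_sum, ← Finset.sum_neg_distrib, ← Finset.sum_add_distrib]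
      refine Finset.sum_congr rfl fun i _ => ?_
      rw [hipv]
      ring
    rw [e1, hcψ]
    have e2 : -1 + σ * θ * ∑ i', c i' * ip (C.eta j u e) (C.gam (idx i')) + 1 =
        σ * θ * ∑ i', c i' * ip (C.eta j u e) (C.gam (idx i')) := by ring
    rw [e2, abs_mul, abs_mul, hσa, one_mul, abs_of_nonneg hθ0]
    calc θ * _ ≤ 2 * (4 * dl q) := mul_le_mul hθ2 hS (abs_nonneg _) (by norm_num)
      _ = 8 * dl q := by ring
  -- step (8)
  refine ⟨v, i1, s5all, ?_⟩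
  rw [hi1]
  have h8 := arith8 hσ s6 s7 s3ξ hr78 hr1.le hd0.le hd1
  refine le_trans (le_of_eq ?_) h8
  unfold rr
  ring

end Pool.Agent.RHO
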