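import Pool.Agent.RHO.Kit

/-! # Row DET -/

set_option autoImplicit false

namespace Pool.Agent.RHO

open Finset

theorem det : DETStmt := by
  intro q N D g M E J _ _ C u x e hu hx he hex hd1 hne
  have hq := C.hq
  by_cases hb : hd u C.T.base ≤ 2 * g
  · have he2 : e ∉ symmDiff u C.T.base := fun h => hne ⟨h, hb⟩
    have hdis := C.T.p2 u x C.T.base e hu hx C.T.base_st he hex he2 (by omega) hb
    have h1 := hd_of_disjoint hdis
    have h2 : C.av x = rr q ^ hd u x * C.av u := by
      unfold Cfg.av
      rw [hd_comm C.T.base x, h1, pow_add, hd_comm C.T.base u]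
      ring
    rw [h2, sub_self, abs_zero]
    exact (dl_pos hq).le
  · push Not at hb
    have h1 : g ≤ hd C.T.base x := by
      have := hd_triangle x u C.T.base
      rw [hd_comm x u, hd_comm x C.T.base] at this
      omega
    have h2 : g ≤ hd C.T.base u := by
      rw [hd_comm]; omega
    have h3 : C.av x ≤ 2 * C.R' * rr q ^ g := by
      unfold Cfg.av
      exact mul_le_mul_of_nonneg_left (rr_pow_le hq h1) (by linarith [C.hR'])
    have h4 : C.av u ≤ 2 * C.R' * rr q ^ g := by
      unfold Cfg.av
      exact mul_le_mul_of_nonneg_left (rr_pow_le hq h2) (by linarith [C.hR'])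
    have h5 : rr q ^ hd u x * C.av u ≤ C.av u := by
      have := mul_le_mul_of_nonneg_right (rr_pow_le_one hq (hd u x)) (C.av_nonneg u)
      linarith
    have h6 : 0 ≤ rr q ^ hd u x * C.av u := mul_nonneg (rr_pow_pos hq _).le (C.av_nonneg u)
    have h7 := C.av_nonneg x
    have h8 := C.c4
    rw [abs_le]
    constructor <;> linarith

end Pool.Agent.RHO
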