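import Pool.Agent.RHO.Kit2

/-! # Row DET2 -/

set_option autoImplicit false

namespace Pool.Agent.RHO

theorem det2 : DET2Stmt := by
  intro q N D g M X Ω J _ _ κ C u x e hs hd1 hb
  have h1 := C.S.prod u e x C.S.base hs hd1 hb
  have h2 := C.S.K_side u e x hs
  have hR := C.hR'
  have e1 : C.av x - rr q ^ C.S.dd u x * C.av u =
      2 * C.R' * (C.S.K x C.S.base - C.S.K u x * C.S.K u C.S.base) := by
    unfold Cfg2.av
    rw [h2]; ring
  rw [e1, abs_mul, abs_of_nonneg (by linarith : (0:ℝ) ≤ 2 * C.R')]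
  exact (mul_le_mul_of_nonneg_left h1 (by linarith)).trans C.c4

end Pool.Agent.RHO
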