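import Mathlib
import Pool.Agent.Helper18_Proj.Defs

/-!
# MP_ca8ef3_an: a rate for `ρ_n → 2` — definitions
-/

set_option autoImplicit false

namespace Pool.Agent.RHO

open Finset

/-- The standard inner product of `ℝ^N`. -/
def ip {N : ℕ} (x y : Fin N → ℝ) : ℝ := ∑ l, x l * y l

/-- The number of elements in which two finite sets differ. -/
def hd {E : Type} [DecidableEq E] (u x : Finset E) : ℕ := (symmDiff u x).card

open Classical in
/-- The number of elements of `F` (a set of edges) at the vertex `w`. -/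
noncomputable def degF {V : Type} (F : Finset (Sym2 V)) (w : V) : ℕ :=
  (F.filter (fun e => w ∈ e)).card

open Classical in
/-- The boundary `a + b` at the vertex `w`. -/
noncomputable def bd {V : Type} (a b w : V) : ℕ :=
  (if w = a then 1 else 0) + (if w = b then 1 else 0)

/-- A toggle system of radius `L` with `D` toggles at every state: states are finite subsets of
`E`, every state `u` has a set `tog u` of `D` elements which may be toggled (added or removed), and
up to distance `L` the states form a tree. -/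
structure Tog (E : Type) [DecidableEq E] (D L : ℕ) where
  St : Finset E → Prop
  tog : Finset E → Finset E
  base : Finset E
  base_st : St base
  closed : ∀ u e, St u → e ∈ tog u → St (symmDiff u {e})
  card_tog : ∀ u, St u → (tog u).card = D
  p1 : ∀ u x, St u → St x → hd u x ≤ L → (tog u ∩ symmDiff u x).card ≤ 1
  p2 : ∀ u x y e, St u → St x → St y → e ∈ tog u → e ∈ symmDiff u x → e ∉ symmDiff u y →
    hd u x ≤ L → hd u y ≤ L → Disjoint (symmDiff u x) (symmDiff u y)

/-- The correlation `1 - 2/q` of neighbouring states. -/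
noncomputable def rr (q : ℕ) : ℝ := 1 - 2 / q

/-- The accuracy `1/(16 q)`. -/
noncomputable def dl (q : ℕ) : ℝ := 1 / (16 * q)

/-- All the data of the construction. -/
structure Cfg (q N D g M : ℕ) (E J : Type) [DecidableEq E] [DecidableEq J] where
  T : Tog E D (2 * g)
  b : J → Fin N → ℝ
  s : J × Fin M → Finset E → Fin N → ℝ
  R : ℝ
  R' : ℝ
  τ : ℝ
  hq : 16 ≤ q
  hN : 0 < N
  hg : 0 < g
  hM0 : 0 < M
  hM : 2 * R ^ 2 ≤ M
  hR : 1 ≤ R
  hR' : 1 ≤ R'
  hτ : 0 < τ
  hb : ∀ j, ip (b j) (b j) ≤ 1
  net : ∀ ψ : Fin N → ℝ, ∃ j, √(ip ψ ψ) ≤ R' * ip ψ (b j)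
  sgn : ∀ j u l, |s j u l| = 1
  gram : ∀ j j' u u', |ip (s j u) (s j' u') - (if j = j' then (N:ℝ) * rr q ^ hd u u' else 0)|
    ≤ τ * N
  orth : ∀ j u j', |ip (s j u) (b j')| ≤ τ * √N
  c1 : 2 * τ * R ^ 2 ≤ 1
  c2 : 72 * τ * R ^ 2 ≤ dl q ^ 2
  c3 : 2 * τ + 4 * R' * τ / R ≤ dl q * (1 - rr q ^ 2)
  c4 : 2 * R' * rr q ^ g ≤ dl q
  c5 : D * rr q ^ (2 * g) ≤ 1
  c6 : 100 * R ^ 2 ≤ D * dl q ^ 2

namespace Cfg

variable {q N D g M : ℕ} {E J : Type} [DecidableEq E] [DecidableEq J]

/-- The random part of the vectors. -/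
noncomputable def gv (C : Cfg q N D g M E J) (j : J × Fin M) (u : Finset E) : Fin N → ℝ :=
  fun l => C.R / √N * C.s j u l

/-- The coefficient of the deterministic part of the vectors. -/
noncomputable def av (C : Cfg q N D g M E J) (u : Finset E) : ℝ :=
  2 * C.R' * rr q ^ hd C.T.base u

/-- The vectors whose convex hull (with their negatives) is the unit ball of the predual. -/
noncomputable def gam (C : Cfg q N D g M E J) (p : (J × Fin M) × Finset E) : Fin N → ℝ :=
  fun l => C.av p.2 * C.b p.1.1 l + C.gv p.1 p.2 l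

/-- The elementary vectors `η`. -/
noncomputable def eta (C : Cfg q N D g M E J) (j : J × Fin M) (u : Finset E) (e : E) :
    Fin N → ℝ :=
  fun l => (C.gv j (symmDiff u {e}) l - rr q * C.gv j u l) / (C.R ^ 2 * (1 - rr q ^ 2))

end Cfg

/-- The value at `x` of the indicator of the side of `e` seen from `u`, with weights. -/
noncomputable def hh {E : Type} [DecidableEq E] (r : ℝ) (u : Finset E) (e : E) (x : Finset E) : ℝ :=
  if e ∈ symmDiff u x then r ^ (hd u x - 1) else 0

end Pool.Agent.RHO
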