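import Pool.Agent.RHO.Stmts

/-!
# MP_ca8ef3_an, stage 2: abstract kernel systems

The main argument for an arbitrary finite set `X` of states with a kernel `K` realised by signs.
-/

set_option autoImplicit false

namespace Pool.Agent.RHO

open Finset

/-- A kernel system: a finite set of states with a kernel `K`, the average of the products of signs
`σ`; every state `u` has `D` neighbours `nb u e`; `side u e x` says that `x` is near `u` on the side
of `e`, at distance `dd u x`. `g` is the radius, `κ` the accuracy. -/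
structure KSys (X Ω : Type) [Fintype Ω] (D g : ℕ) (r κ : ℝ) where
  σ : Ω → X → ℝ
  K : X → X → ℝ
  nb : X → Fin D → X
  side : X → Fin D → X → Prop
  dd : X → X → ℕ
  base : X
  abs_σ : ∀ ω x, |σ ω x| = 1
  avg : ∀ x y, ∑ ω, σ ω x * σ ω y = Fintype.card Ω * K x y
  dd_pos : ∀ u e x, side u e x → 1 ≤ dd u x
  K_side : ∀ u e x, side u e x → K u x = r ^ dd u x
  K_nb : ∀ u e x, side u e x → K (nb u e) x = r ^ (dd u x - 1)
  K_nb' : ∀ u e x, ¬ side u e x → |K (nb u e) x - r * K u x| ≤ κ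
  side_unique : ∀ u x e e', side u e x → side u e' x → e = e'
  side_nb : ∀ u e, side u e (nb u e)
  dd_nb : ∀ u e, dd u (nb u e) = 1
  prod : ∀ u e x y, side u e x → dd u x ≤ g → ¬ side u e y → |K x y - K u x * K u y| ≤ κ

/-- All the data of the construction over a kernel system. -/
structure Cfg2 (q N D g M : ℕ) (X Ω J : Type) [Fintype Ω] [DecidableEq J] (κ : ℝ) where
  S : KSys X Ω D g (rr q) κ
  b : J → Fin N → ℝ
  s : J × Fin M → X → Fin N → ℝ
  R : ℝ
  R' : ℝ
  τ : ℝ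
  hΩ : 0 < Fintype.card Ω
  hq : 16 ≤ q
  hN : 0 < N
  hg : 0 < g
  hM0 : 0 < M
  hM : 2 * R ^ 2 ≤ M
  hR : 1 ≤ R
  hR' : 1 ≤ R'
  hτ : 0 < τ
  hκ : 0 ≤ κ
  hb : ∀ j, ip (b j) (b j) ≤ 1
  net : ∀ ψ : Fin N → ℝ, ∃ j, √(ip ψ ψ) ≤ R' * ip ψ (b j)
  sgn : ∀ j u l, |s j u l| = 1
  gram : ∀ j j' u u', |ip (s j u) (s j' u') - (if j = j' then (N:ℝ) * S.K u u' else 0)|
    ≤ τ * N
  orth : ∀ j u j', |ip (s j u) (b j')| ≤ τ * √N
  c1 : 2 * τ * R ^ 2 ≤ 1
  c2 : 18 * (4 * τ + κ) * R ^ 2 ≤ dl q ^ 2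
  c3 : 2 * τ + 4 * R' * τ / R + κ ≤ dl q * (1 - rr q ^ 2)
  c4 : 2 * R' * κ ≤ dl q
  c5 : 2 * rr q ^ g ≤ dl q
  c6 : 100 * R ^ 2 ≤ D * dl q ^ 2

namespace Cfg2

variable {q N D g M : ℕ} {X Ω J : Type} [Fintype Ω] [DecidableEq J] {κ : ℝ}

/-- The random part of the vectors. -/
noncomputable def gv (C : Cfg2 q N D g M X Ω J κ) (j : J × Fin M) (u : X) : Fin N → ℝ :=
  fun l => C.R / √N * C.s j u l

/-- The coefficient of the deterministic part of the vectors. -/
noncomputable def av (C : Cfg2 q N D g M X Ω J κ) (u : X) : ℝ := 2 * C.R' * C.S.K u C.S.base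

/-- The vectors whose convex hull (with their negatives) is the unit ball of the predual. -/
noncomputable def gam (C : Cfg2 q N D g M X Ω J κ) (p : (J × Fin M) × X) : Fin N → ℝ :=
  fun l => C.av p.2 * C.b p.1.1 l + C.gv p.1 p.2 l

/-- The elementary vectors `η`. -/
noncomputable def eta (C : Cfg2 q N D g M X Ω J κ) (j : J × Fin M) (u : X) (e : Fin D) :
    Fin N → ℝ :=
  fun l => (C.gv j (C.S.nb u e) l - rr q * C.gv j u l) / (C.R ^ 2 * (1 - rr q ^ 2))

open Classical in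
/-- The main part of the value of `η` at `x`. -/
noncomputable def hk (C : Cfg2 q N D g M X Ω J κ) (u : X) (e : Fin D) (x : X) : ℝ :=
  if C.S.side u e x then rr q ^ (C.S.dd u x - 1) else 0

end Cfg2

end Pool.Agent.RHO
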