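import Pool.Agent.RHO.Stmts2

/-!
# MP_ca8ef3_an, stage 2: the polynomial kernel system

States: a vertex of a bipartite graph whose two sides are both `Pt ι` (vectors of bits), together
with `D` functionals on the polynomials of degree at most `d` in the bits.
-/

set_option autoImplicit false

namespace Pool.Agent.RHO

open Finset

/-! ## Polynomials over `ZMod 2` and functionals -/

/-- Points: vectors of bits. -/
abbrev Pt (ι : Type) : Type := ι → ZMod 2

/-- Functions of the points with values in `ZMod 2`. -/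
abbrev Fn (ι : Type) : Type := Pt ι → ZMod 2

/-- Monomials. -/
def mon {ι : Type} (A : Finset ι) : Fn ι := fun z => ∏ i ∈ A, z i

/-- Polynomials of degree at most `d`. -/
def RM (ι : Type) (d : ℕ) : Submodule (ZMod 2) (Fn ι) :=
  Submodule.span (ZMod 2) {f | ∃ A : Finset ι, A.card ≤ d ∧ f = mon A}

section

variable {ι : Type} [Fintype ι] [DecidableEq ι]

noncomputable instance instFintypeRM (d : ℕ) : Fintype (RM ι d) := Fintype.ofFinite _

/-- The pairing of functions: `τ` is considered as the functional `f ↦ ∑ z, τ z * f z`. -/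
def pr (τ f : Fn ι) : ZMod 2 := ∑ z, τ z * f z

/-- The functional `τ` vanishes on the polynomials of degree at most `d`. -/
def Van (τ : Fn ι) (d : ℕ) : Prop := ∀ f ∈ RM ι d, pr τ f = 0

/-- The product of `m` polynomials. -/
def wp {m k : ℕ} (q : Fin m → RM ι k) : Fn ι := fun z => ∏ j, (q j : Fn ι) z

open Classical in
/-- The probability that `τ * q₁ * ⋯ * q_m` vanishes on the polynomials of degree `≤ k₁`, for
independent uniform polynomials `q_j` of degree `≤ k`. -/
noncomputable def pv (m k k1 : ℕ) (τ : Fn ι) : ℝ :=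
  ((Finset.univ.filter fun q : Fin m → RM ι k => Van (τ * wp q) k1).card : ℝ) /
    (Fintype.card (Fin m → RM ι k) : ℝ)

/-- The indicator function of a finite set of points. -/
def ind (Z : Finset (Pt ι)) : Fn ι := fun z => if z ∈ Z then 1 else 0

/-- The indicator function of the cell `π = v` of a linear map `π`. -/
def cel {h : ℕ} (π : Pt ι →ₗ[ZMod 2] Pt (Fin h)) (v : Pt (Fin h)) : Fn ι :=
  fun z => if π z = v then 1 else 0

/-- The indicator function of the cell `z = u` on `B` (`B` a set of coordinates). -/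
def cub (B : Finset ι) (u : Pt ι) : Fn ι := fun z => ∏ i ∈ B, (z i + u i + 1)

/-- The hypothesis on `τ` after the high order analysis. `t` bounds the number of the nonzero
cells; a product with a polynomial of degree `h ≤ k` which vanishes on the polynomials of degree
`≤ k - 1` vanishes on those of degree `≤ d - h`. -/
structure Low (k d t : ℕ) (τ : Fn ι) : Prop where
  few : ∀ h ≤ k, ∀ (π : Pt ι →ₗ[ZMod 2] Pt (Fin h)) (S : Finset (Pt (Fin h))),
    (∀ v ∈ S, ¬ Van (τ * cel π v) (k - 1)) → S.card ≤ t
  gap : ∀ h ≤ k, ∀ a ∈ RM ι h, Van (τ * a) (k - 1) → Van (τ * a) (d - h)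

/-- The functions which vanish as functionals on the polynomials of degree at most `d`. -/
def Vs (ι : Type) [Fintype ι] [DecidableEq ι] (d : ℕ) : Submodule (ZMod 2) (Fn ι) where
  carrier := {τ | Van τ d}
  zero_mem' := by
    intro f _
    simp [pr]
  add_mem' := by
    intro a b ha hb f hf
    have h : pr (a + b) f = pr a f + pr b f := by
      simp only [pr, Pi.add_apply, add_mul, Finset.sum_add_distrib]
    rw [h, ha f hf, hb f hf, add_zero]
  smul_mem' := by
    intro c a ha f hf
    have h : pr (c • a) f = c * pr a f := by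
      simp only [pr, Pi.smul_apply, smul_eq_mul, mul_assoc, Finset.mul_sum]
    rw [h, ha f hf, mul_zero]

/-- The functionals on the polynomials of degree at most `d` (every functional on them is given by
a function of the points). -/
abbrev Qd (ι : Type) [Fintype ι] [DecidableEq ι] (d : ℕ) : Type := Fn ι ⧸ Vs ι d

noncomputable instance instFintypeQd (d : ℕ) : Fintype (Qd ι d) := Fintype.ofFinite _

/-- A function which represents a functional. -/
noncomputable def rp {d : ℕ} (T : Qd ι d) : Fn ι := Quotient.out T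

/-- The evaluation at a point, as a functional. -/
def ev (d : ℕ) (p : Pt ι) : Qd ι d := Submodule.Quotient.mk (Pi.single p 1)

end

/-- The real sign of a bit. -/
def sg2 (c : ZMod 2) : ℝ := if c = 0 then 1 else -1

/-! ## Graphs -/

/-- The boundary modulo 2 of a set `Z` of edges, the edge `e` has the ends `α e` and `β e`. -/
def bdr {V E : Type} [DecidableEq V] (α β : E → V) (Z : Finset E) (v : V) : ZMod 2 :=
  ∑ e ∈ Z, ((if α e = v then 1 else 0) + (if β e = v then 1 else 0))

/-- The first end of the edge `(p, i)`. -/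
def ea {P : Type} {D : ℕ} (e : P × Fin D) : P ⊕ P := Sum.inl e.1

/-- The second end of the edge `(p, i)`. -/
def eb {P : Type} {D : ℕ} (s : Fin D → Equiv.Perm P) (e : P × Fin D) : P ⊕ P :=
  Sum.inr (s e.2 e.1)

/-- The edge with the label `i` at the vertex `v`. -/
def lb {P : Type} {D : ℕ} (s : Fin D → Equiv.Perm P) : P ⊕ P → Fin D → P × Fin D
  | Sum.inl p, i => (p, i)
  | Sum.inr l, i => ((s i).symm l, i)

/-- The other end of the edge with the label `i` at the vertex `v`. -/
def ot {P : Type} {D : ℕ} (s : Fin D → Equiv.Perm P) : P ⊕ P → Fin D → P ⊕ P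
  | Sum.inl p, i => Sum.inr (s i p)
  | Sum.inr l, i => Sum.inl ((s i).symm l)

/-- Walks in the bipartite graph, with the lists of the labels of their edges. -/
inductive Wk {P : Type} {D : ℕ} (s : Fin D → Equiv.Perm P) : P ⊕ P → P ⊕ P → List (Fin D) → Prop
  | nil (v : P ⊕ P) : Wk s v v []
  | cons (v w : P ⊕ P) (i : Fin D) (L : List (Fin D)) : Wk s (ot s v i) w L → Wk s v w (i :: L)

/-- A bipartite graph on two copies of `Pt ι`, with `D` edges at each vertex, given by affine
permutations, without even subgraphs of at most `t` edges. -/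
structure LG (ι : Type) (D t : ℕ) [Fintype ι] [DecidableEq ι] where
  s : Fin D → Equiv.Perm (Pt ι)
  aff : ∀ i j, (fun z => s i z j) ∈ RM ι 1
  gir : ∀ Z : Finset (Pt ι × Fin D), Z.card ≤ t → (∀ v, bdr ea (eb s) Z v = 0) → Z = ∅

/-! ## Magnus coefficients -/

/-- Multiplication by `1 + y_i` from the left. -/
def mgP {D : ℕ} (i : Fin D) (m : List (Fin D) → ZMod 2) : List (Fin D) → ZMod 2
  | [] => m []
  | j :: y => m (j :: y) + (if j = i then m y else 0)

/-- Multiplication by `(1 + y_i)⁻¹` from the left. -/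
def mgL {D : ℕ} (i : Fin D) (m : List (Fin D) → ZMod 2) : List (Fin D) → ZMod 2
  | [] => m []
  | j :: y => m (j :: y) + (if j = i then mgL i m y else 0)

/-- The Magnus coefficients of the word `(1 + y_{i₁})^{±1} (1 + y_{i₂})^{∓1} ⋯`, the first exponent
is `1` if the Boolean is true. -/
def mg {D : ℕ} : Bool → List (Fin D) → List (Fin D) → ZMod 2
  | _, [] => fun y => if y = [] then 1 else 0
  | true, i :: W => mgP i (mg false W)
  | false, i :: W => mgL i (mg true W)

/-- Matrices for all levels and labels. -/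
abbrev Mt (A D : ℕ) : Type := ℕ → Fin D → Matrix (Fin A) (Fin A) (ZMod 2)

/-- The part of degree `l` of the series `m`, applied to the vector `u` of level `r`. -/
def evl {A D : ℕ} (M : Mt A D) : (List (Fin D) → ZMod 2) → ℕ → ℕ → (Fin A → ZMod 2) →
    (Fin A → ZMod 2)
  | m, _, 0, u => m [] • u
  | m, r, l + 1, u => ∑ i, evl M (fun y => m (i :: y)) (r + 1) l ((M r i).mulVec u)

/-- The matrices of finitely many levels, extended by zero. -/
def xM {A D t : ℕ} (M : Fin t → Fin D → Matrix (Fin A) (Fin A) (ZMod 2)) : Mt A D :=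
  fun r i => if h : r < t then M ⟨r, h⟩ i else 0

/-- One step `z' = z (1 + y_i)` of the action on sequences of vectors. -/
def Stp {A D : ℕ} (M : Mt A D) (i : Fin D) (z z' : ℕ → Fin A → ZMod 2) : Prop :=
  z' 0 = z 0 ∧ ∀ r, z' (r + 1) = z (r + 1) + (M r i).mulVec (z r)

/-- Walks of sequences. -/
inductive Wq {A D : ℕ} (M : Mt A D) :
    Bool → (ℕ → Fin A → ZMod 2) → (ℕ → Fin A → ZMod 2) → List (Fin D) → Prop
  | nil (b : Bool) (z : ℕ → Fin A → ZMod 2) : Wq M b z z []
  | up (z z' z'' : ℕ → Fin A → ZMod 2) (i : Fin D) (L : List (Fin D)) :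
      Stp M i z z' → Wq M false z' z'' L → Wq M true z z'' (i :: L)
  | dn (z z' z'' : ℕ → Fin A → ZMod 2) (i : Fin D) (L : List (Fin D)) :
      Stp M i z' z → Wq M true z' z'' L → Wq M false z z'' (i :: L)

/-- The sequence of vectors of a point of the graph: the first one is the constant vector `1`. -/
def sq {A t : ℕ} (z : Pt (Fin t × Fin A)) : ℕ → Fin A → ZMod 2
  | 0 => fun _ => 1
  | r + 1 => fun x => if h : r < t then z (⟨r, h⟩, x) else 0

/-- The map of the graph: `s i` adds `M r i` applied to the vector of level `r` to the one of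
level `r + 1`. -/
def sM {A D t : ℕ} (M : Fin t → Fin D → Matrix (Fin A) (Fin A) (ZMod 2)) (i : Fin D)
    (z : Pt (Fin t × Fin A)) : Pt (Fin t × Fin A) :=
  fun x => z x + (M x.1 i).mulVec (sq z x.1) x.2

/-! ## States -/

/-- Data from which a kernel system is built. States `X` with vertices `vx`; `rep x y Z`: the
functionals of `x` and `y` differ by the set `Z` of edges. -/
structure PSys (X Ω V E : Type) [Fintype Ω] [DecidableEq V] [DecidableEq E] (D t T : ℕ) (r : ℝ)
    where
  σ : Ω → X → ℝ
  K : X → X → ℝ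
  abs_σ : ∀ ω x, |σ ω x| = 1
  avg : ∀ x y, ∑ ω, σ ω x * σ ω y = Fintype.card Ω * K x y
  K_nonneg : ∀ x y, 0 ≤ K x y
  α : E → V
  β : E → V
  hαβ : ∀ e, α e ≠ β e
  gir : ∀ Z : Finset E, Z.card ≤ T → (∀ v, bdr α β Z v = 0) → Z = ∅
  vx : X → V
  lab : V → Fin D → E
  lab_inc : ∀ v i, α (lab v i) = v ∨ β (lab v i) = v
  lab_inj : ∀ v i j, lab v i = lab v j → i = j
  nb : X → Fin D → X
  rep : X → X → Finset E → Prop
  rep_nb : ∀ u i, rep u (nb u i) {lab (vx u) i}
  rep_symm : ∀ x y Z, rep x y Z → rep y x Z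
  rep_trans : ∀ x y z Z Z', rep x y Z → rep y z Z' → rep x z (symmDiff Z Z')
  rep_uniq : ∀ x y Z Z', rep x y Z → rep x y Z' → Z.card + Z'.card ≤ T → Z = Z'
  rep_K : ∀ x y Z, rep x y Z → Z.card ≤ T → K x y = r ^ Z.card
  K_rep : ∀ x y, r ^ t ≤ K x y → ∃ Z, Z.card ≤ t ∧ rep x y Z
  rep_bd : ∀ x y Z, rep x y Z → Z.card ≤ T →
    ∀ v, bdr α β Z v = (if v = vx x then 1 else 0) + (if v = vx y then 1 else 0)
  base : X

section

variable {ι : Type} [Fintype ι] [DecidableEq ι] {D : ℕ}

/-- The functionals of a set of edges: the sum of the evaluations, for each label. -/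
def chn (d : ℕ) (Z : Finset (Pt ι × Fin D)) : Fin D → Qd ι d :=
  fun i => ∑ e ∈ Z.filter (fun e => e.2 = i), ev d e.1

/-- The value of a function at a vertex of the first side (`0` on the second side). -/
def vP (v : Pt ι ⊕ Pt ι) (f : Fn ι) : ZMod 2 := Sum.elim f (fun _ => 0) v

/-- The value of a function at a vertex of the second side (`0` on the first side). -/
def vL (v : Pt ι ⊕ Pt ι) (f : Fn ι) : ZMod 2 := Sum.elim (fun _ => 0) f v

/-- The condition on the states: the boundary of the functionals is the difference of the vertex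
and of the base vertex. -/
def Con (s : Fin D → Equiv.Perm (Pt ι)) (d : ℕ) (x : (Pt ι ⊕ Pt ι) × (Fin D → Qd ι d)) : Prop :=
  ∀ f ∈ RM ι d, ∑ i, pr (rp (x.2 i)) f = f 0 + vP x.1 f ∧
    ∑ i, pr (rp (x.2 i)) (fun z => f (s i z)) = vL x.1 f

/-- The states. -/
def Stt (s : Fin D → Equiv.Perm (Pt ι)) (d : ℕ) : Type :=
  {x : (Pt ι ⊕ Pt ι) × (Fin D → Qd ι d) // Con s d x}

/-- The samples: for each label a polynomial of degree `≤ k₁` and `m` polynomials of degree
`≤ k`. -/
abbrev Smp (ι : Type) [Fintype ι] [DecidableEq ι] (D m k k1 : ℕ) : Type :=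
  Fin D → RM ι k1 × (Fin m → RM ι k)

/-- The sign of the functionals `T` for a sample. -/
noncomputable def sgT {m k k1 d : ℕ} (ω : Smp ι D m k k1) (T : Fin D → Qd ι d) : ℝ :=
  ∏ i, sg2 (pr (rp (T i)) ((ω i).1 * wp (ω i).2))

/-- The kernel, as a function of the difference of the functionals. -/
noncomputable def KT (m k k1 : ℕ) {d : ℕ} (T : Fin D → Qd ι d) : ℝ :=
  ∏ i, pv m k k1 (rp (T i))

end

/-! ## Parameters (`q = 2 ^ a`) -/

/-- The degree of the factors. -/
def pk (a : ℕ) : ℕ := 20 * a + 60

/-- The number of the factors other than the first one. -/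
def pm (a : ℕ) : ℕ := a - 1

/-- The degree of the functionals. -/
def pd (a : ℕ) : ℕ := 4 * pk a + pk a * pm a

/-- The largest distance of near states. -/
def pt (a : ℕ) : ℕ := 2 ^ a * (8 * a + 26)

/-- The bound for the sizes of sets of edges. -/
def pT (a : ℕ) : ℕ := 2 * pt a + 2

/-- The number of labels. -/
def pD (a : ℕ) : ℕ := 2 ^ (33 + 10 * a)

/-- The dimension of the vectors of each level. -/
def pA (a : ℕ) : ℕ := (35 + 10 * a) * pT a

end Pool.Agent.RHO
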