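import Pool.Agent.RHO.Kit

/-! # Row ETA -/

set_option autoImplicit false

namespace Pool.Agent.RHO

open Finset

theorem etaRow : ETAStmt := by
  intro q N D g M E J _ _ C j j' u x e
  have hq := C.hq
  have hR := C.hR
  have hR' := C.hR'
  have hr0 := rr_pos hq
  have hr1 := rr_lt_one hq
  have hden : 0 < C.R ^ 2 * (1 - rr q ^ 2) := mul_pos (by positivity) (one_sub_sq_pos hq)
  rw [Cfg.ip_eta, Cfg.ip_gam, Cfg.ip_gam]
  have g1 := C.gram_gv j j' (symmDiff u {e}) x
  have g2 := C.gram_gv j j' u x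
  have o1 := C.orth_gv j (symmDiff u {e}) j'.1
  have o2 := C.orth_gv j u j'.1
  have a1 := C.av_nonneg x
  have a2 := C.av_le x
  -- the exact part
  have key : (if j = j' then C.R ^ 2 * rr q ^ hd (symmDiff u {e}) x else 0) -
      rr q * (if j = j' then C.R ^ 2 * rr q ^ hd u x else 0) =
      (if j = j' then hh (rr q) u e x else 0) * (C.R ^ 2 * (1 - rr q ^ 2)) := by
    by_cases hj : j = j'
    · rw [if_pos hj, if_pos hj, if_pos hj]
      unfold hh
      by_cases he : e ∈ symmDiff u x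
      · rw [if_pos he, hd_toggle_of_mem he]
        have hpos : 1 ≤ hd u x := Finset.card_pos.2 ⟨e, he⟩
        obtain ⟨d, hd1⟩ : ∃ d, hd u x = d + 1 := ⟨hd u x - 1, by omega⟩
        rw [hd1, Nat.add_sub_cancel, pow_succ]
        ring
      · rw [if_neg he, hd_toggle_of_notMem he, pow_succ]
        ring
    · rw [if_neg hj, if_neg hj, if_neg hj]; ring
  simp only at *
  set A1 := ip (C.gv j (symmDiff u {e})) (C.gv j' x)
  set A2 := ip (C.gv j u) (C.gv j' x)
  set B1 := ip (C.gv j (symmDiff u {e})) (C.b j'.1)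
  set B2 := ip (C.gv j u) (C.b j'.1)
  set H := (if j = j' then hh (rr q) u e x else 0)
  set K1 := (if j = j' then C.R ^ 2 * rr q ^ hd (symmDiff u {e}) x else 0)
  set K2 := (if j = j' then C.R ^ 2 * rr q ^ hd u x else 0)
  set W := C.R ^ 2 * (1 - rr q ^ 2)
  set a := C.av x
  have e1 : (a * B1 + A1 - rr q * (a * B2 + A2)) / W - H =
      ((A1 - K1) - rr q * (A2 - K2) + a * B1 - a * (rr q * B2)) / W := by
    rw [eq_div_iff hden.ne', sub_mul, div_mul_cancel₀ _ hden.ne', ← key]
    ring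
  rw [e1, abs_div, abs_of_pos hden, div_le_iff₀ hden]
  have t1 : |rr q * (A2 - K2)| ≤ C.τ * C.R ^ 2 := by
    rw [abs_mul, abs_of_pos hr0]
    have := mul_le_mul_of_nonneg_right hr1.le (abs_nonneg (A2 - K2))
    linarith
  have t2 : |a * B1| ≤ 2 * C.R' * (C.τ * C.R) := by
    rw [abs_mul, abs_of_nonneg a1]
    exact mul_le_mul a2 o1 (abs_nonneg _) (by linarith)
  have t3 : |a * (rr q * B2)| ≤ 2 * C.R' * (C.τ * C.R) := by
    rw [abs_mul, abs_of_nonneg a1, abs_mul, abs_of_pos hr0]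
    refine mul_le_mul a2 ?_ (by positivity) (by linarith)
    have := mul_le_mul_of_nonneg_right hr1.le (abs_nonneg B2)
    linarith
  have t4 : 2 * C.τ * C.R ^ 2 + 4 * C.R' * C.τ * C.R ≤ dl q * W := by
    have c3 := C.c3
    have hR2 : 0 < C.R ^ 2 := by positivity
    have := mul_le_mul_of_nonneg_right c3 hR2.le
    have e2 : (2 * C.τ + 4 * C.R' * C.τ / C.R) * C.R ^ 2 =
        2 * C.τ * C.R ^ 2 + 4 * C.R' * C.τ * C.R := by
      have : C.R ≠ 0 := by positivity
      field_simp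
    rw [e2] at this
    calc _ ≤ _ := this
      _ = dl q * W := by ring
  calc |A1 - K1 - rr q * (A2 - K2) + a * B1 - a * (rr q * B2)|
      ≤ |A1 - K1| + |rr q * (A2 - K2)| + |a * B1| + |a * (rr q * B2)| := by
        have s1 := abs_sub (A1 - K1 - rr q * (A2 - K2) + a * B1) (a * (rr q * B2))
        have s2 := abs_add_le (A1 - K1 - rr q * (A2 - K2)) (a * B1)
        have s3 := abs_sub (A1 - K1) (rr q * (A2 - K2))
        linarith
    _ ≤ dl q * W := by linarith

end Pool.Agent.RHO
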