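import Pool.Agent.RHO.Kit2

/-! # Row ETA2 -/

set_option autoImplicit false

namespace Pool.Agent.RHO

open Finset

theorem eta2 : ETA2Stmt := by
  intro q N D g M X Ω J _ _ κ C j j' u x e
  have hq := C.hq
  have hR := C.hR
  have hR' := C.hR'
  have hκ := C.hκ
  have hr0 := rr_pos hq
  have hr1 := rr_lt_one hq
  have hden : 0 < C.R ^ 2 * (1 - rr q ^ 2) := mul_pos (by positivity) (one_sub_sq_pos hq)
  rw [Cfg2.ip_eta, Cfg2.ip_gam, Cfg2.ip_gam]
  have g1 := C.gram_gv j j' (C.S.nb u e) x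
  have g2 := C.gram_gv j j' u x
  have o1 := C.orth_gv j (C.S.nb u e) j'.1
  have o2 := C.orth_gv j u j'.1
  have a2 := C.abs_av_le x
  -- the main part
  have key : |(if j = j' then C.R ^ 2 * C.S.K (C.S.nb u e) x else 0) -
      rr q * (if j = j' then C.R ^ 2 * C.S.K u x else 0) -
      (if j = j' then C.hk u e x else 0) * (C.R ^ 2 * (1 - rr q ^ 2))| ≤ κ * C.R ^ 2 := by
    by_cases hj : j = j'
    · rw [if_pos hj, if_pos hj, if_pos hj]
      unfold Cfg2.hk
      by_cases he : C.S.side u e x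
      · rw [if_pos he, C.S.K_nb u e x he, C.S.K_side u e x he]
        have hpos := C.S.dd_pos u e x he
        obtain ⟨d, hd1⟩ : ∃ d, C.S.dd u x = d + 1 := ⟨C.S.dd u x - 1, by omega⟩
        have e0 : C.R ^ 2 * rr q ^ (C.S.dd u x - 1) - rr q * (C.R ^ 2 * rr q ^ C.S.dd u x) -
            rr q ^ (C.S.dd u x - 1) * (C.R ^ 2 * (1 - rr q ^ 2)) = 0 := by
          rw [hd1, Nat.add_sub_cancel, pow_succ]
          ring
        rw [e0, abs_zero]
        positivity
      · rw [if_neg he]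
        have h1 := C.S.K_nb' u e x he
        have e0 : C.R ^ 2 * C.S.K (C.S.nb u e) x - rr q * (C.R ^ 2 * C.S.K u x) -
            0 * (C.R ^ 2 * (1 - rr q ^ 2)) =
            C.R ^ 2 * (C.S.K (C.S.nb u e) x - rr q * C.S.K u x) := by ring
        rw [e0, abs_mul, abs_of_nonneg (by positivity : (0:ℝ) ≤ C.R ^ 2), mul_comm κ]
        exact mul_le_mul_of_nonneg_left h1 (by positivity)
    · rw [if_neg hj, if_neg hj, if_neg hj]
      have e0 : (0:ℝ) - rr q * 0 - 0 * (C.R ^ 2 * (1 - rr q ^ 2)) = 0 := by ring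
      rw [e0, abs_zero]
      positivity
  simp only at *
  set A1 := ip (C.gv j (C.S.nb u e)) (C.gv j' x)
  set A2 := ip (C.gv j u) (C.gv j' x)
  set B1 := ip (C.gv j (C.S.nb u e)) (C.b j'.1)
  set B2 := ip (C.gv j u) (C.b j'.1)
  set H := (if j = j' then C.hk u e x else 0)
  set K1 := (if j = j' then C.R ^ 2 * C.S.K (C.S.nb u e) x else 0)
  set K2 := (if j = j' then C.R ^ 2 * C.S.K u x else 0)
  set W := C.R ^ 2 * (1 - rr q ^ 2)
  set a := C.av x
  have e1 : (a * B1 + A1 - rr q * (a * B2 + A2)) / W - H =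
      ((A1 - K1) - rr q * (A2 - K2) + (K1 - rr q * K2 - H * W) + a * B1 - a * (rr q * B2)) / W := by
    rw [eq_div_iff hden.ne', sub_mul, div_mul_cancel₀ _ hden.ne']
    ring
  rw [e1, abs_div, abs_of_pos hden, div_le_iff₀ hden]
  have t1 : |rr q * (A2 - K2)| ≤ C.τ * C.R ^ 2 := by
    rw [abs_mul, abs_of_pos hr0]
    have := mul_le_mul_of_nonneg_right hr1.le (abs_nonneg (A2 - K2))
    linarith
  have t2 : |a * B1| ≤ 2 * C.R' * (C.τ * C.R) := by
    rw [abs_mul]
    exact mul_le_mul a2 o1 (abs_nonneg _) (by linarith)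
  have t3 : |a * (rr q * B2)| ≤ 2 * C.R' * (C.τ * C.R) := by
    rw [abs_mul, abs_mul, abs_of_pos hr0]
    refine mul_le_mul a2 ?_ (by positivity) (by linarith)
    have := mul_le_mul_of_nonneg_right hr1.le (abs_nonneg B2)
    linarith
  have t4 : 2 * C.τ * C.R ^ 2 + 4 * C.R' * C.τ * C.R + κ * C.R ^ 2 ≤ dl q * W := by
    have c3 := C.c3
    have hR2 : 0 < C.R ^ 2 := by positivity
    have := mul_le_mul_of_nonneg_right c3 hR2.le
    have e2 : (2 * C.τ + 4 * C.R' * C.τ / C.R + κ) * C.R ^ 2 =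
        2 * C.τ * C.R ^ 2 + 4 * C.R' * C.τ * C.R + κ * C.R ^ 2 := by
      have : C.R ≠ 0 := by positivity
      field_simp
    rw [e2] at this
    calc _ ≤ _ := this
      _ = dl q * W := by ring
  calc |A1 - K1 - rr q * (A2 - K2) + (K1 - rr q * K2 - H * W) + a * B1 - a * (rr q * B2)|
      ≤ |A1 - K1| + |rr q * (A2 - K2)| + |K1 - rr q * K2 - H * W| + |a * B1| +
        |a * (rr q * B2)| := by
        have s1 := abs_sub (A1 - K1 - rr q * (A2 - K2) + (K1 - rr q * K2 - H * W) + a * B1)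
          (a * (rr q * B2))
        have s2 := abs_add_le (A1 - K1 - rr q * (A2 - K2) + (K1 - rr q * K2 - H * W)) (a * B1)
        have s3 := abs_add_le (A1 - K1 - rr q * (A2 - K2)) (K1 - rr q * K2 - H * W)
        have s4 := abs_sub (A1 - K1) (rr q * (A2 - K2))
        linarith
    _ ≤ dl q * W := by linarith

end Pool.Agent.RHO
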