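import Pool.Agent.RHO.Stmts

/-!
# MP_ca8ef3_an, row EXP (helper82): the explicit form
-/

set_option autoImplicit false

namespace Pool.Agent.RHO

open Finset

namespace EXPH

theorem pow8_step {a : ℕ} (ha : 51 ≤ a) : (a + 1) ^ 8 ≤ 2 * a ^ 8 := by
  have h1 : 20 * (a + 1) ^ 2 ≤ 21 * a ^ 2 := by nlinarith
  have h2 : (20 * (a + 1) ^ 2) ^ 4 ≤ (21 * a ^ 2) ^ 4 := Nat.pow_le_pow_left h1 4
  have e1 : (20 * (a + 1) ^ 2) ^ 4 = 160000 * (a + 1) ^ 8 := by ring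
  have e2 : (21 * a ^ 2) ^ 4 = 194481 * a ^ 8 := by ring
  rw [e1, e2] at h2
  omega

theorem pow8_le {j : ℕ} (hj : 50 ≤ j) : (j + 1) ^ 8 ≤ 2 ^ j := by
  induction j, hj using Nat.le_induction with
  | base => norm_num
  | succ j hj ih =>
    have h1 := pow8_step (a := j + 1) (by omega)
    rw [pow_succ 2 j]
    omega

end EXPH

/-- row EXP -/
theorem exp (h : QStmt) : EXPStmt := by
  intro m k n hm hk hmk hn
  have hnpos : 0 < n := lt_of_lt_of_le (by positivity) hn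
  obtain ⟨Λ, hΛ⟩ : ∃ Λ, Λ = Nat.log 2 n := ⟨_, rfl⟩
  have hΛ1 : 2 ^ 50 * m * k ^ 2 ≤ Λ := by
    rw [hΛ]
    exact (Nat.le_log_iff_pow_le (by norm_num) hnpos.ne').2 hn
  have hΛn : 2 ^ Λ ≤ n := by
    rw [hΛ]
    exact Nat.pow_log_le_self 2 hnpos.ne'
  have hnΛ : n < 2 ^ (Λ + 1) := by
    rw [hΛ]
    exact Nat.lt_pow_succ_log_self (by norm_num) n
  have hmk2 : 1 ≤ m * k ^ 2 := Nat.mul_pos hm (by positivity)
  have hΛ50 : 2 ^ 50 ≤ Λ := by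
    calc 2 ^ 50 = 2 ^ 50 * 1 := by norm_num
      _ ≤ 2 ^ 50 * (m * k ^ 2) := Nat.mul_le_mul_left _ hmk2
      _ = 2 ^ 50 * m * k ^ 2 := by ring
      _ ≤ Λ := hΛ1
  have hΛpos : 0 < Λ := lt_of_lt_of_le (by positivity) hΛ50
  obtain ⟨j, hj⟩ : ∃ j, j = Nat.log 2 Λ := ⟨_, rfl⟩
  have hj1 : 2 ^ j ≤ Λ := by
    rw [hj]
    exact Nat.pow_log_le_self 2 hΛpos.ne'
  have hj2 : Λ < 2 ^ (j + 1) := by
    rw [hj]
    exact Nat.lt_pow_succ_log_self (by norm_num) Λ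
  have hj50 : 50 ≤ j := by
    rw [hj]
    exact (Nat.le_log_iff_pow_le (by norm_num) hΛpos.ne').2 hΛ50
  have h8 : (j + 1) ^ 8 ≤ 2 ^ j := EXPH.pow8_le hj50
  have h8Λ : (j + 1) ^ 8 ≤ Λ := h8.trans hj1
  obtain ⟨q, hq⟩ : ∃ q, q = Λ / (2000 * (j + 1) ^ 2) := ⟨_, rfl⟩
  have hden : 0 < 2000 * (j + 1) ^ 2 := by positivity
  have hqle : q * (2000 * (j + 1) ^ 2) ≤ Λ := by
    rw [hq]
    exact Nat.div_mul_le_self _ _
  have hqlt : Λ < (q + 1) * (2000 * (j + 1) ^ 2) := by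
    rw [hq, mul_comm]
    exact Nat.lt_mul_div_succ Λ hden
  -- `q` is large
  have hq4 : Λ + 6 ≤ q ^ 4 := by
    have a1 : Λ ^ 4 < ((q + 1) * (2000 * (j + 1) ^ 2)) ^ 4 :=
      Nat.pow_lt_pow_left hqlt (by norm_num)
    have e1 : ((q + 1) * (2000 * (j + 1) ^ 2)) ^ 4 =
        (q + 1) ^ 4 * (2000 ^ 4 * (j + 1) ^ 8) := by ring
    have a2 : (q + 1) ^ 4 * (2000 ^ 4 * (j + 1) ^ 8) ≤ (q + 1) ^ 4 * (2000 ^ 4 * Λ) :=
      Nat.mul_le_mul_left _ (Nat.mul_le_mul_left _ h8Λ)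
    have a3 : Λ * Λ ^ 3 < Λ * ((q + 1) ^ 4 * 2000 ^ 4) := by
      calc Λ * Λ ^ 3 = Λ ^ 4 := by ring
        _ < (q + 1) ^ 4 * (2000 ^ 4 * (j + 1) ^ 8) := by rw [← e1]; exact a1
        _ ≤ (q + 1) ^ 4 * (2000 ^ 4 * Λ) := a2
        _ = Λ * ((q + 1) ^ 4 * 2000 ^ 4) := by ring
    have a4 : Λ ^ 3 < (q + 1) ^ 4 * 2000 ^ 4 := lt_of_mul_lt_mul_left a3 (Nat.zero_le _)
    have a5 : (2 ^ 50) ^ 2 * Λ ≤ Λ ^ 3 := by
      calc (2 ^ 50) ^ 2 * Λ ≤ Λ ^ 2 * Λ :=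
            Nat.mul_le_mul_right _ (Nat.pow_le_pow_left hΛ50 2)
        _ = Λ ^ 3 := by ring
    have a6 : 1 ≤ q := by
      rcases Nat.eq_zero_or_pos q with h0 | h0
      · exfalso
        rw [h0] at a4
        norm_num at a4 a5
        omega
      · exact h0
    have a7 : (q + 1) ^ 4 ≤ 16 * q ^ 4 := by
      calc (q + 1) ^ 4 ≤ (2 * q) ^ 4 := Nat.pow_le_pow_left (by omega) 4
        _ = 16 * q ^ 4 := by ring
    have a8 : (q + 1) ^ 4 * 2000 ^ 4 ≤ 16 * q ^ 4 * 2000 ^ 4 := Nat.mul_le_mul_right _ a7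
    norm_num at a4 a5 a8
    omega
  have hq16 : 16 ≤ q := by
    by_contra hc
    have b1 : q ^ 4 ≤ 15 ^ 4 := Nat.pow_le_pow_left (by omega) 4
    norm_num at b1 hΛ50
    omega
  have hqle2 : q ≤ 2 ^ (j + 1) := by
    have : q ≤ Λ := by
      rw [hq]
      exact Nat.div_le_self _ _
    omega
  have hpow : 2 ^ (2000 * q * (j + 1) ^ 2) ≤ n := by
    refine le_trans (Nat.pow_le_pow_right (by norm_num) ?_) hΛn
    calc 2000 * q * (j + 1) ^ 2 = q * (2000 * (j + 1) ^ 2) := by ring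
      _ ≤ Λ := hqle
  have hlog : Real.log (21 * n) ≤ (q : ℝ) ^ 4 := by
    have c1 : (21 * n : ℝ) ≤ 2 ^ (Λ + 6) := by
      have c2 : 21 * n ≤ 2 ^ (Λ + 6) := by
        calc 21 * n ≤ 32 * 2 ^ (Λ + 1) := Nat.mul_le_mul (by norm_num) hnΛ.le
          _ = 2 ^ (Λ + 6) := by ring
      exact_mod_cast c2
    have hn0 : (0 : ℝ) < 21 * n := by
      have : (0 : ℝ) < n := by exact_mod_cast hnpos
      positivity
    have c3 := Real.log_le_log hn0 c1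
    rw [Real.log_pow] at c3
    have c4 : Real.log 2 ≤ 1 := by
      have := Real.log_two_lt_d9
      linarith
    have c5 : ((Λ + 6 : ℕ) : ℝ) * Real.log 2 ≤ ((Λ + 6 : ℕ) : ℝ) * 1 :=
      mul_le_mul_of_nonneg_left c4 (Nat.cast_nonneg _)
    have c6 : ((Λ + 6 : ℕ) : ℝ) ≤ ((q ^ 4 : ℕ) : ℝ) := by exact_mod_cast hq4
    rw [Nat.cast_pow] at c6
    linarith
  have h4m : 4 * m ≤ q := by
    rw [hq, Nat.le_div_iff_mul_le hden]
    rcases le_or_gt (j + 1) (200 * k) with hc | hc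
    · have d1 : (j + 1) ^ 2 ≤ (200 * k) ^ 2 := Nat.pow_le_pow_left hc 2
      calc 4 * m * (2000 * (j + 1) ^ 2) ≤ 4 * m * (2000 * (200 * k) ^ 2) :=
            Nat.mul_le_mul_left _ (Nat.mul_le_mul_left _ d1)
        _ = 320000000 * (m * k ^ 2) := by ring
        _ ≤ 2 ^ 50 * (m * k ^ 2) := Nat.mul_le_mul_right _ (by norm_num)
        _ = 2 ^ 50 * m * k ^ 2 := by ring
        _ ≤ Λ := hΛ1
    · refine le_trans ?_ hj1
      have d1 : (4 * m * (2000 * (j + 1) ^ 2)) ^ 4 ≤ (2 ^ j) ^ 4 := by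
        calc (4 * m * (2000 * (j + 1) ^ 2)) ^ 4 = 8000 ^ 4 * m ^ 4 * (j + 1) ^ 8 := by ring
          _ ≤ (2 ^ 13) ^ 4 * (2 ^ k) ^ 4 * 2 ^ j :=
              Nat.mul_le_mul (Nat.mul_le_mul (by norm_num) (Nat.pow_le_pow_left hmk 4)) h8
          _ = 2 ^ (52 + 4 * k + j) := by
              rw [← pow_mul, ← pow_mul, ← pow_add, ← pow_add]
              congr 1
              ring
          _ ≤ 2 ^ (j * 4) := Nat.pow_le_pow_right (by norm_num) (by omega)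
          _ = (2 ^ j) ^ 4 := by rw [pow_mul]
      exact (Nat.pow_le_pow_iff_left (by norm_num)).1 d1
  have hfin := h q (j + 1) n hq16 hqle2 hpow hlog
  refine le_trans (ENNReal.ofReal_le_ofReal ?_) hfin
  have hm0 : (0 : ℝ) < m := by exact_mod_cast hm
  have hq0 : (0 : ℝ) < q := by exact_mod_cast (show 0 < q by omega)
  have : (4 : ℝ) / q ≤ 1 / m := by
    rw [div_le_div_iff₀ hq0 hm0, one_mul]
    exact_mod_cast h4m
  linarith

end Pool.Agent.RHO
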