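import Pool.Agent.RHO.Stmts2

/-!
# MP_ca8ef3_an, stage 2, row EXP2: the explicit form
-/

set_option autoImplicit false

namespace Pool.Agent.RHO

/-- row EXP2 -/
theorem exp2 (q2 : Q2Stmt) : EXP2Stmt := by
  intro c hK
  obtain ⟨d, hd⟩ : ∃ d, d = c + 100 := ⟨_, rfl⟩
  refine ⟨d * (d + 3) ^ 3, fun a N ha hN => ?_⟩
  obtain ⟨b, hb⟩ : ∃ b, b = a * (d + 3) := ⟨_, rfl⟩
  have hbN : 2 ^ (d * b ^ 3) ≤ N := by
    refine le_trans (le_of_eq ?_) hN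
    rw [hb]
    congr 1
    ring
  have hb1 : a + 2 ≤ b := by rw [hb]; nlinarith
  have hb2 : d ≤ b := by rw [hb]; nlinarith
  have hN0 : 0 < N := lt_of_lt_of_le (by positivity) hbN
  have hex : ∃ m, N < 2 ^ (d * m ^ 3) := by
    refine ⟨N, lt_of_lt_of_le (Nat.lt_two_pow_self (n := N)) ?_⟩
    apply Nat.pow_le_pow_right (by norm_num)
    have h1 : N ≤ N ^ 3 := Nat.le_self_pow (by norm_num) N
    have h2 : 1 * N ^ 3 ≤ d * N ^ 3 := Nat.mul_le_mul_right _ (by omega)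
    omega
  obtain ⟨m, hm⟩ : ∃ m, m = Nat.find hex := ⟨_, rfl⟩
  have hm1 : N < 2 ^ (d * m ^ 3) := by rw [hm]; exact Nat.find_spec hex
  have hbm : b < m := by
    by_contra hcon
    have h1 : 2 ^ (d * m ^ 3) ≤ 2 ^ (d * b ^ 3) :=
      Nat.pow_le_pow_right (by norm_num)
        (Nat.mul_le_mul_left _ (Nat.pow_le_pow_left (by omega) 3))
    omega
  obtain ⟨e, rfl⟩ : ∃ e, m = e + 1 := ⟨m - 1, by omega⟩
  have he1 : 2 ^ (d * e ^ 3) ≤ N := by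
    have := Nat.find_min hex (m := e) (by omega)
    omega
  have heb : b ≤ e := by omega
  have hpow : d * (e + 1) ^ 3 + 5 ≤ 2 ^ (4 * e) := by
    have h1 : e + 1 ≤ 2 ^ e := Nat.lt_two_pow_self
    have h2 : (e + 1) * (e + 1) ^ 3 ≤ 2 ^ e * (2 ^ e) ^ 3 :=
      Nat.mul_le_mul h1 (Nat.pow_le_pow_left h1 3)
    have h3 : 2 ^ e * (2 ^ e) ^ 3 = 2 ^ (4 * e) := by
      rw [← pow_mul, ← pow_add]
      congr 1
      ring
    have h4 : (d + 1) * (e + 1) ^ 3 ≤ (e + 1) * (e + 1) ^ 3 :=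
      Nat.mul_le_mul_right _ (by omega)
    have h5 : (d + 1) * (e + 1) ^ 3 = d * (e + 1) ^ 3 + (e + 1) ^ 3 := by ring
    have h6 : 2 ^ 3 ≤ (e + 1) ^ 3 := Nat.pow_le_pow_left (by omega) 3
    omega
  have hlog : Real.log (21 * N) ≤ ((2:ℝ) ^ e) ^ 4 := by
    have c1 : (21 * N : ℝ) ≤ 2 ^ (d * (e + 1) ^ 3 + 5) := by
      have c2 : 21 * N ≤ 2 ^ (d * (e + 1) ^ 3 + 5) := by
        rw [pow_add]
        omega
      exact_mod_cast c2
    have hn0 : (0 : ℝ) < 21 * N := by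
      have : (0 : ℝ) < N := by exact_mod_cast hN0
      positivity
    have c3 := Real.log_le_log hn0 c1
    rw [Real.log_pow] at c3
    have c4 : Real.log 2 ≤ 1 := by
      have := Real.log_two_lt_d9
      linarith
    have c5 : ((d * (e + 1) ^ 3 + 5 : ℕ) : ℝ) * Real.log 2 ≤
        ((d * (e + 1) ^ 3 + 5 : ℕ) : ℝ) * 1 :=
      mul_le_mul_of_nonneg_left c4 (Nat.cast_nonneg _)
    have c6 : ((d * (e + 1) ^ 3 + 5 : ℕ) : ℝ) ≤ ((2 ^ (4 * e) : ℕ) : ℝ) := by exact_mod_cast hpow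
    have c7 : ((2 ^ (4 * e) : ℕ) : ℝ) = ((2:ℝ) ^ e) ^ 4 := by
      push_cast
      rw [← pow_mul]
      congr 1
      ring
    linarith
  have hbig : 2 ^ (72 + 20 * e) * (2 ^ (c * e ^ 3) + 2 ^ (4 * e)) ≤ N := by
    refine le_trans ?_ he1
    have h1 : 2 ^ (c * e ^ 3) + 2 ^ (4 * e) ≤ 2 ^ (c * e ^ 3 + 4 * e + 1) := by
      have h2 : 2 ^ (c * e ^ 3) ≤ 2 ^ (c * e ^ 3 + 4 * e) :=
        Nat.pow_le_pow_right (by norm_num) (by omega)
      have h3 : 2 ^ (4 * e) ≤ 2 ^ (c * e ^ 3 + 4 * e) :=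
        Nat.pow_le_pow_right (by norm_num) (by omega)
      rw [pow_succ 2 (c * e ^ 3 + 4 * e)]
      omega
    refine le_trans (Nat.mul_le_mul_left _ h1) ?_
    rw [← pow_add]
    apply Nat.pow_le_pow_right (by norm_num)
    have h4 : e ≤ e ^ 3 := Nat.le_self_pow (by norm_num) e
    have h5 : d * e ^ 3 = c * e ^ 3 + 100 * e ^ 3 := by rw [hd]; ring
    omega
  have hfin := q2 e (2 ^ (c * e ^ 3)) N (by omega) (hK e (by omega)) hbig hlog
  refine le_trans (ENNReal.ofReal_le_ofReal ?_) hfin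
  have h1 : (4 : ℝ) / 2 ^ e ≤ 1 / 2 ^ a := by
    rw [div_le_div_iff₀ (by positivity) (by positivity), one_mul]
    have h2 : (4:ℝ) * 2 ^ a = 2 ^ (a + 2) := by ring
    rw [h2]
    exact pow_le_pow_right₀ (by norm_num) (by omega)
  linarith

end Pool.Agent.RHO
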