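import Pool.Agent.RHO.Stmts

/-!
# MP_ca8ef3_an, row GR1 (helper56): a greedy graph with long cycles and many edges
-/

set_option autoImplicit false

namespace Pool.Agent.RHO

open Finset

namespace H56

/-- a trail is cut at one of its edges -/
theorem split {V : Type} {G : SimpleGraph V} {x y : V} (p : G.Walk x y) :
    p.edges.Nodup → ∀ e ∈ p.edges, ∃ (a b : V) (p1 : G.Walk x a) (p2 : G.Walk b y),
      e = s(a, b) ∧ p1.length + 1 + p2.length = p.length ∧ e ∉ p1.edges ∧ e ∉ p2.edges := by
  induction p with
  | nil =>
    intro _ e he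
    simp at he
  | @cons u v w h q ih =>
    intro hp e he
    rw [SimpleGraph.Walk.edges_cons, List.nodup_cons] at hp
    rw [SimpleGraph.Walk.edges_cons, List.mem_cons] at he
    rcases he with he | he
    · refine ⟨u, v, SimpleGraph.Walk.nil, q, he, ?_, ?_, ?_⟩
      · rw [SimpleGraph.Walk.length_nil, SimpleGraph.Walk.length_cons]
        omega
      · simp
      · rw [he]
        exact hp.1
    · obtain ⟨a, b, p1, p2, h1, h2, h3, h4⟩ := ih hp.2 e he
      refine ⟨a, b, SimpleGraph.Walk.cons h p1, p2, h1, ?_, ?_, h4⟩
      · rw [SimpleGraph.Walk.length_cons, SimpleGraph.Walk.length_cons]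
        omega
      · rw [SimpleGraph.Walk.edges_cons, List.mem_cons]
        rintro (h5 | h5)
        · rw [h5] at he
          exact hp.1 he
        · exact h3 h5

open Classical in
/-- the vertices which are joined to `u` by a walk of length `i` -/
noncomputable def sph {n : ℕ} (H : SimpleGraph (Fin n)) (u : Fin n) : ℕ → Finset (Fin n)
  | 0 => {u}
  | i + 1 => (sph H u i).biUnion fun w => univ.filter fun x => H.Adj w x

theorem mem_sph {n : ℕ} {H : SimpleGraph (Fin n)} {x u : Fin n} (p : H.Walk x u) :
    x ∈ sph H u p.length := by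
  classical
  induction p with
  | nil =>
    rw [SimpleGraph.Walk.length_nil, sph]
    exact mem_singleton_self _
  | cons h q ih =>
    rw [SimpleGraph.Walk.length_cons, sph, mem_biUnion]
    exact ⟨_, ih, mem_filter.2 ⟨mem_univ _, h.symm⟩⟩

theorem card_sph {n : ℕ} {H : SimpleGraph (Fin n)} {a : ℕ}
    (hH : ∀ v, (H.neighborSet v).ncard ≤ a) (u : Fin n) (i : ℕ) : (sph H u i).card ≤ a ^ i := by
  induction i with
  | zero =>
    rw [sph, card_singleton, pow_zero]
  | succ i ih =>
    rw [sph, pow_succ]
    refine (card_biUnion_le_card_mul _ _ a fun w _ => ?_).trans (Nat.mul_le_mul_right _ ih)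
    refine le_trans (le_of_eq ?_) (hH w)
    rw [← Set.ncard_coe_finset]
    congr 1
    ext x
    simp

theorem geom {a : ℕ} (ha : 2 ≤ a) (l : ℕ) : ∑ i ∈ range (l + 1), a ^ i ≤ a ^ (l + 1) := by
  induction l with
  | zero =>
    simp
    omega
  | succ l ih =>
    rw [sum_range_succ, pow_succ a (l + 1)]
    have h1 : a ^ (l + 1) * 2 ≤ a ^ (l + 1) * a := Nat.mul_le_mul_left _ ha
    omega

open Classical in
theorem card_ball {n : ℕ} {H : SimpleGraph (Fin n)} {a : ℕ} (ha : 2 ≤ a)
    (hH : ∀ v, (H.neighborSet v).ncard ≤ a) (u : Fin n) (l : ℕ) :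
    ((range (l + 1)).biUnion (sph H u)).card ≤ a ^ (l + 1) :=
  card_biUnion_le.trans ((sum_le_sum fun i _ => card_sph hH u i).trans (geom ha l))

/-- the number of vertices of small degree -/
theorem many_small {n : ℕ} {H : SimpleGraph (Fin n)} {D : ℕ} {k : ℕ} (hn : n = 2 * k)
    (hE : H.edgeSet.ncard < D * n) :
    ∃ S : Finset (Fin n), k < S.card ∧ ∀ v ∈ S, (H.neighborSet v).ncard < 4 * D := by
  classical
  have h1 := H.sum_degrees_eq_twice_card_edges
  have h2 : H.edgeFinset.card = H.edgeSet.ncard := by
    rw [← SimpleGraph.coe_edgeFinset, Set.ncard_coe_finset]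
  have h3 : ∀ v, H.degree v = (H.neighborSet v).ncard := by
    intro v
    rw [← SimpleGraph.card_neighborFinset_eq_degree, ← Set.ncard_coe_finset,
      SimpleGraph.coe_neighborFinset]
  refine ⟨univ.filter fun v => H.degree v < 4 * D, ?_, fun v hv => ?_⟩
  · by_contra hcon
    rw [not_lt] at hcon
    have h4 := card_filter_add_card_filter_not (s := (univ : Finset (Fin n)))
      (fun v => H.degree v < 4 * D)
    rw [card_univ, Fintype.card_fin] at h4
    have h5 : (univ.filter fun v => ¬ H.degree v < 4 * D).card * (4 * D) ≤
        ∑ v, H.degree v := by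
      rw [← smul_eq_mul, ← sum_const]
      refine (sum_le_sum fun v hv => ?_).trans (sum_le_sum_of_subset (subset_univ _))
      have := (mem_filter.1 hv).2
      omega
    have h6 : k * (4 * D) ≤ (univ.filter fun v => ¬ H.degree v < 4 * D).card * (4 * D) := by
      apply Nat.mul_le_mul_right
      omega
    have h7 : k * (4 * D) = 2 * (D * n) := by
      rw [hn]
      ring
    omega
  · rw [← h3]
    exact (mem_filter.1 hv).2

end H56

open H56

/-- GR1 -/
theorem gr1 : GR1Stmt := by
  classical
  intro D ℓ hD hℓ
  obtain ⟨n, hn⟩ : ∃ n, n = 2 * (4 * D) ^ (ℓ + 1) := ⟨_, rfl⟩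
  rw [← hn]
  obtain ⟨H, hH, hmax⟩ := Set.exists_max_image
    {H : SimpleGraph (Fin n) | (∀ v (p : H.Walk v v), p.IsCycle → ℓ < p.length) ∧
      ∀ v, (H.neighborSet v).ncard ≤ 4 * D} (fun H => H.edgeSet.ncard) (Set.toFinite _)
    ⟨⊥, fun v p hp => absurd hp (SimpleGraph.isAcyclic_bot p), fun v => by simp⟩
  obtain ⟨hcyc, hdeg⟩ := hH
  refine ⟨H, hcyc, ?_⟩
  by_contra hcon
  rw [not_le] at hcon
  obtain ⟨S, hS, hSd⟩ := many_small hn hcon
  have hS0 : S.Nonempty := card_pos.1 (by omega)
  obtain ⟨u, hu⟩ := hS0
  have hb := card_ball (a := 4 * D) (by omega) hdeg u ℓ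
  obtain ⟨w, hw, hwb⟩ := exists_mem_notMem_of_card_lt_card (lt_of_le_of_lt hb hS)
  have hno : ∀ p : H.Walk w u, ℓ < p.length := by
    intro p
    by_contra hp
    exact hwb (mem_biUnion.2 ⟨p.length, mem_range.2 (by omega), mem_sph p⟩)
  have hwu : w ≠ u := by
    intro h
    subst h
    have := hno SimpleGraph.Walk.nil
    rw [SimpleGraph.Walk.length_nil] at this
    omega
  have hadj : ¬ H.Adj w u := by
    intro h
    have := hno h.toWalk
    rw [SimpleGraph.Walk.length_cons, SimpleGraph.Walk.length_nil] at this
    omega
  obtain ⟨H', hH'⟩ : ∃ H' : SimpleGraph (Fin n), H' = H ⊔ SimpleGraph.edge w u := ⟨_, rfl⟩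
  have hadj' : ∀ x y, H'.Adj x y ↔ H.Adj x y ∨ (x = w ∧ y = u ∨ x = u ∧ y = w) := by
    intro x y
    rw [hH', SimpleGraph.sup_adj, SimpleGraph.edge_adj]
    constructor
    · rintro (h | h)
      · exact Or.inl h
      · exact Or.inr h.1
    · rintro (h | h)
      · exact Or.inl h
      · refine Or.inr ⟨h, ?_⟩
        rcases h with ⟨rfl, rfl⟩ | ⟨rfl, rfl⟩
        · exact hwu
        · exact hwu.symm
  have hedge : ∀ e ∈ H'.edgeSet, e ≠ s(w, u) → e ∈ H.edgeSet := by
    intro e
    induction e with
    | h x y =>
      intro he hne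
      rw [SimpleGraph.mem_edgeSet, hadj'] at he
      rw [SimpleGraph.mem_edgeSet]
      rcases he with he | he | he
      · exact he
      · exact absurd (by rw [he.1, he.2]) hne
      · exact absurd (by rw [he.1, he.2, Sym2.eq_swap]) hne
  have hsub : insert s(w, u) H.edgeSet ⊆ H'.edgeSet := by
    intro e he
    rcases Set.mem_insert_iff.1 he with he | he
    · rw [he, SimpleGraph.mem_edgeSet, hadj']
      exact Or.inr (Or.inl ⟨rfl, rfl⟩)
    · exact SimpleGraph.edgeSet_mono (by rw [hH']; exact le_sup_left) he
  have hcard : H.edgeSet.ncard + 1 ≤ H'.edgeSet.ncard := by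
    rw [← Set.ncard_insert_of_notMem (a := s(w, u)) (by rwa [SimpleGraph.mem_edgeSet])
      (Set.toFinite _)]
    exact Set.ncard_le_ncard hsub (Set.toFinite _)
  have hP : H' ∈ {H : SimpleGraph (Fin n) | (∀ v (p : H.Walk v v), p.IsCycle → ℓ < p.length) ∧
      ∀ v, (H.neighborSet v).ncard ≤ 4 * D} := by
    constructor
    · intro v p hp
      by_cases hin : s(w, u) ∈ p.edges
      · obtain ⟨a, b, p1, p2, h1, h2, h3, h4⟩ := split p hp.1.1.edges_nodup _ hin
        have h5 : ∀ e ∈ (p2.append p1).edges, e ∈ H.edgeSet := by
          intro e he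
          have hmem := SimpleGraph.Walk.edges_subset_edgeSet _ he
          refine hedge e hmem ?_
          rintro rfl
          rw [SimpleGraph.Walk.edges_append, List.mem_append] at he
          rcases he with he | he
          · exact h4 he
          · exact h3 he
        have h6 : ((p2.append p1).transfer H h5).length = p2.length + p1.length := by
          rw [SimpleGraph.Walk.length_transfer, SimpleGraph.Walk.length_append]
        rw [Sym2.eq_iff] at h1
        rcases h1 with ⟨h7, h8⟩ | ⟨h7, h8⟩
        · subst h7
          subst h8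
          have h9 := hno ((p2.append p1).transfer H h5).reverse
          rw [SimpleGraph.Walk.length_reverse, h6] at h9
          omega
        · subst h7
          subst h8
          have h9 := hno ((p2.append p1).transfer H h5)
          rw [h6] at h9
          omega
      · have h5 : ∀ e ∈ p.edges, e ∈ H.edgeSet := by
          intro e he
          have hmem := SimpleGraph.Walk.edges_subset_edgeSet _ he
          refine hedge e hmem ?_
          rintro rfl
          exact hin he
        have h6 := hcyc v (p.transfer H h5) (hp.transfer h5)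
        rwa [SimpleGraph.Walk.length_transfer] at h6
    · intro v
      by_cases hv : v = w ∨ v = u
      · have h1 : (H.neighborSet v).ncard < 4 * D := by
          rcases hv with rfl | rfl
          · exact hSd _ hw
          · exact hSd _ hu
        obtain ⟨x, hx⟩ : ∃ x, H'.neighborSet v ⊆ insert x (H.neighborSet v) := by
          rcases hv with rfl | rfl
          · refine ⟨u, fun y hy => ?_⟩
            rw [SimpleGraph.mem_neighborSet, hadj'] at hy
            rcases hy with hy | hy | hy
            · exact Set.mem_insert_of_mem _ hy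
            · rw [hy.2]
              exact Set.mem_insert _ _
            · exact absurd hy.1 hwu
          · refine ⟨w, fun y hy => ?_⟩
            rw [SimpleGraph.mem_neighborSet, hadj'] at hy
            rcases hy with hy | hy | hy
            · exact Set.mem_insert_of_mem _ hy
            · exact absurd hy.1.symm hwu
            · rw [hy.2]
              exact Set.mem_insert _ _
        have h2 := Set.ncard_le_ncard hx (Set.toFinite _)
        have h3 := Set.ncard_insert_le x (H.neighborSet v)
        omega
      · rw [not_or] at hv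
        have h1 : H'.neighborSet v = H.neighborSet v := by
          ext y
          rw [SimpleGraph.mem_neighborSet, hadj', SimpleGraph.mem_neighborSet]
          constructor
          · rintro (h | h | h)
            · exact h
            · exact absurd h.1 hv.1
            · exact absurd h.1 hv.2
          · exact Or.inl
        rw [h1]
        exact hdeg v
  have := hmax H' hP
  omega

end Pool.Agent.RHO
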