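import Pool.Agent.RHO.Stmts

/-!
# MP_ca8ef3_an, row GR2 (helper17): a subgraph of large minimal degree
-/

set_option autoImplicit false

namespace Pool.Agent.RHO

open Finset

namespace H17

open Classical in
/-- the edges with both ends in `W` -/
noncomputable def ew {N : ℕ} (H : SimpleGraph (Fin N)) (W : Finset (Fin N)) :
    Finset (Sym2 (Fin N)) :=
  H.edgeFinset.filter fun e => ∀ v ∈ e, v ∈ W

open Classical in
/-- the neighbours in `W` -/
noncomputable def nw {N : ℕ} (H : SimpleGraph (Fin N)) (W : Finset (Fin N)) (v : Fin N) :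
    Finset (Fin N) :=
  W.filter fun w => H.Adj v w

theorem ew_erase {N : ℕ} (H : SimpleGraph (Fin N)) (W : Finset (Fin N)) (v : Fin N) :
    (ew H W).card ≤ (ew H (W.erase v)).card + (nw H W v).card := by
  classical
  have h1 : ew H W ⊆ ew H (W.erase v) ∪ (nw H W v).image (fun w => s(v, w)) := by
    intro e he
    unfold ew at he
    rw [mem_filter, SimpleGraph.mem_edgeFinset] at he
    rw [mem_union]
    by_cases hv : v ∈ e
    · right
      rw [mem_image]
      obtain ⟨w, rfl⟩ := Sym2.mem_iff_exists.1 hv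
      refine ⟨w, ?_, rfl⟩
      unfold nw
      rw [mem_filter]
      exact ⟨he.2 w (Sym2.mem_mk_right v w), he.1⟩
    · left
      unfold ew
      rw [mem_filter, SimpleGraph.mem_edgeFinset]
      refine ⟨he.1, fun w hw => mem_erase.2 ⟨fun h => hv (h ▸ hw), he.2 w hw⟩⟩
  refine (card_le_card h1).trans ((card_union_le _ _).trans ?_)
  exact Nat.add_le_add_left card_image_le _

theorem ew_single {N : ℕ} (H : SimpleGraph (Fin N)) (v : Fin N) : ew H {v} = ∅ := by
  classical
  rw [eq_empty_iff_forall_notMem]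
  intro e he
  unfold ew at he
  rw [mem_filter, SimpleGraph.mem_edgeFinset] at he
  induction e with
  | h a b =>
    have h1 := mem_singleton.1 (he.2 a (Sym2.mem_mk_left a b))
    have h2 := mem_singleton.1 (he.2 b (Sym2.mem_mk_right a b))
    subst h1
    subst h2
    exact H.loopless.irrefl _ he.1

end H17

open H17

/-- GR2 -/
theorem gr2 (gr1 : GR1Stmt) : GR2Stmt := by
  classical
  intro D ℓ hD hℓ
  have hgr := gr1 D ℓ hD hℓ
  have hpos : 0 < (4 * D) ^ (ℓ + 1) := pow_pos (by omega) _
  have hN1 : 1 ≤ 2 * (4 * D) ^ (ℓ + 1) := by omega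
  revert hgr hN1
  generalize 2 * (4 * D) ^ (ℓ + 1) = N
  rintro ⟨H, hcyc, hE⟩ hN1
  have huniv : (univ : Finset (Fin N)) ∈ (univ : Finset (Finset (Fin N))).filter
      (fun W => W.Nonempty ∧ D * W.card ≤ (ew H W).card) := by
    rw [mem_filter]
    refine ⟨mem_univ _, ⟨⟨0, by omega⟩, mem_univ _⟩, ?_⟩
    have h1 : ew H univ = H.edgeFinset := by
      unfold ew
      rw [filter_eq_self]
      intro e _ v _
      exact mem_univ _
    rw [h1, card_univ, Fintype.card_fin]
    refine hE.trans (le_of_eq ?_)
    rw [← SimpleGraph.coe_edgeFinset, Set.ncard_coe_finset]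
  obtain ⟨W, hW, hmin⟩ := exists_min_image _ (fun W : Finset (Fin N) => W.card) ⟨_, huniv⟩
  rw [mem_filter] at hW
  obtain ⟨_, hWne, hWe⟩ := hW
  have hdeg : ∀ v ∈ W, D ≤ (nw H W v).card := by
    intro v hv
    by_contra hcon
    rw [not_le] at hcon
    have h1 := ew_erase H W v
    have h2 := card_erase_of_mem hv
    have hc : 1 ≤ W.card := card_pos.2 hWne
    rcases (W.erase v).eq_empty_or_nonempty with h3 | h3
    · have h4 : W = {v} := by
        rcases (erase_eq_empty_iff W v).1 h3 with h | h
        · rw [h] at hv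
          exact absurd hv (notMem_empty v)
        · exact h
      rw [h4, ew_single, card_empty, card_singleton] at hWe
      omega
    · have h5 : D * (W.erase v).card ≤ (ew H (W.erase v)).card := by
        rw [h2]
        have h6 : D * (W.card - 1) = D * W.card - D := by
          rw [Nat.mul_sub, mul_one]
        rw [h6]
        have h7 : D ≤ D * W.card := Nat.le_mul_of_pos_right D hc
        omega
      have h8 := hmin (W.erase v) (mem_filter.2 ⟨mem_univ _, h3, h5⟩)
      rw [h2] at h8
      omega
  obtain ⟨v₀, hv₀⟩ := hWne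
  refine ⟨{x // x ∈ W}, inferInstance, ⟨⟨v₀, hv₀⟩⟩, H.comap Subtype.val, ?_, ?_, ?_⟩
  · intro v p hp
    obtain ⟨f, hf⟩ : ∃ f : H.comap (Subtype.val : {x // x ∈ W} → Fin N) →g H,
        ∀ x, f x = x.val := ⟨⟨Subtype.val, fun h => h⟩, fun _ => rfl⟩
    have hinj : Function.Injective f := by
      intro x y hxy
      rw [hf, hf] at hxy
      exact Subtype.ext hxy
    have h1 := hcyc (f v) (p.map f) ((SimpleGraph.Walk.isCycle_map_iff_of_injective hinj).2 hp)
    rwa [SimpleGraph.Walk.length_map] at h1
  · intro v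
    refine (hdeg v.1 v.2).trans (le_of_eq ?_)
    have h1 : Subtype.val '' ((H.comap Subtype.val).neighborSet v) = (nw H W v.1 : Set (Fin N)) := by
      ext w
      unfold nw
      rw [Set.mem_image, coe_filter, Set.mem_ofPred_eq]
      constructor
      · rintro ⟨x, hx, rfl⟩
        exact ⟨x.2, hx⟩
      · rintro ⟨h2, h3⟩
        exact ⟨⟨w, h2⟩, h3, rfl⟩
    rw [← Set.ncard_image_of_injective _ Subtype.val_injective, h1, Set.ncard_coe_finset]
  · rw [Fintype.card_coe]
    exact (card_le_univ W).trans (le_of_eq (Fintype.card_fin N))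

end Pool.Agent.RHO
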