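import Pool.Agent.RHO.Stmts
import Pool.Agent.Helper68_Proj2.Sum

/-!
# MP_ca8ef3_an, row HB
-/

set_option autoImplicit false

namespace Pool.Agent.RHO

open Finset Module

namespace HBH

variable {N : ℕ} {Γ : Type} [Fintype Γ]

/-- the values of the functionals -/
def T (γ : Γ → Fin N → ℝ) : (Fin N → ℝ) →ₗ[ℝ] (Γ → ℝ) where
  toFun ψ i := ip ψ (γ i)
  map_add' := by
    intro x y
    funext i
    simp only [ip, Pi.add_apply, add_mul, Finset.sum_add_distrib]
  map_smul' := by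
    intro c x
    funext i
    simp only [ip, Pi.smul_apply, smul_eq_mul, RingHom.id_apply, Finset.mul_sum, mul_assoc]

theorem T_apply (γ : Γ → Fin N → ℝ) (ψ : Fin N → ℝ) (i : Γ) : T γ ψ i = ip ψ (γ i) := rfl

theorem T_inj {γ : Γ → Fin N → ℝ} (h : ∀ ψ : Fin N → ℝ, (∀ i, |ip ψ (γ i)| ≤ 0) → ψ = 0) :
    Function.Injective (T γ) := by
  rw [injective_iff_map_eq_zero]
  intro ψ hψ
  apply h
  intro i
  have := congrFun hψ i
  rw [T_apply] at this
  rw [this]
  simp

/-- a functional on `Γ → ℝ` -/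
theorem functional (g : (Γ → ℝ) →L[ℝ] ℝ) : ∃ a : Γ → ℝ, (∀ y, g y = ∑ i, a i * y i) ∧
    ∑ i, |a i| = ‖g‖ := by
  classical
  refine ⟨fun i => g (Pi.single i 1), ?_, ?_⟩
  · intro y
    have h1 : y = ∑ i, y i • (Pi.single i (1 : ℝ) : Γ → ℝ) := by
      funext j
      rw [Finset.sum_apply]
      simp [Pi.single_apply]
    conv_lhs => rw [h1]
    rw [map_sum]
    refine Finset.sum_congr rfl fun i _ => ?_
    rw [map_smul, smul_eq_mul, mul_comm]
  · have hg : ∀ y : Γ → ℝ, g y = ∑ i, g (Pi.single i 1) * y i := by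
      intro y
      have h1 : y = ∑ i, y i • (Pi.single i (1 : ℝ) : Γ → ℝ) := by
        funext j
        rw [Finset.sum_apply]
        simp [Pi.single_apply]
      conv_lhs => rw [h1]
      rw [map_sum]
      refine Finset.sum_congr rfl fun i _ => ?_
      rw [map_smul, smul_eq_mul, mul_comm]
    apply le_antisymm
    · obtain ⟨y, hy⟩ : ∃ y : Γ → ℝ, y = fun i => (SignType.sign (g (Pi.single i 1)) : ℝ) :=
        ⟨_, rfl⟩
      have h1 : g y = ∑ i, |g (Pi.single i 1)| := by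
        rw [hg y]
        refine Finset.sum_congr rfl fun i _ => ?_
        rw [hy]
        exact self_mul_sign _
      have h2 : ‖y‖ ≤ 1 := by
        rw [pi_norm_le_iff_of_nonneg zero_le_one]
        intro i
        rw [hy]
        rcases lt_trichotomy (g (Pi.single i 1)) 0 with h | h | h
        · simp [sign_neg h]
        · simp [h]
        · simp [sign_pos h]
      rw [← h1]
      calc g y ≤ ‖g y‖ := Real.le_norm_self _
        _ ≤ ‖g‖ * ‖y‖ := g.le_opNorm y
        _ ≤ ‖g‖ * 1 := mul_le_mul_of_nonneg_left h2 (norm_nonneg _)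
        _ = ‖g‖ := mul_one _
    · refine g.opNorm_le_bound (Finset.sum_nonneg fun i _ => abs_nonneg _) fun y => ?_
      rw [hg y, Finset.sum_mul]
      refine (norm_sum_le _ _).trans (Finset.sum_le_sum fun i _ => ?_)
      rw [norm_mul]
      exact mul_le_mul_of_nonneg_left (norm_le_pi_norm y i) (abs_nonneg _)

/-- a functional on a finite dimensional space attains its norm -/
theorem attains {Z : Type} [NormedAddCommGroup Z] [NormedSpace ℝ Z] [FiniteDimensional ℝ Z]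
    (f : Z →L[ℝ] ℝ) : ∃ z : Z, ‖z‖ ≤ 1 ∧ f z = ‖f‖ := by
  have : ProperSpace Z := FiniteDimensional.proper ℝ Z
  have hne : (Metric.closedBall (0 : Z) 1).Nonempty := ⟨0, by simp⟩
  obtain ⟨z0, hz0, hmax⟩ := (isCompact_closedBall (0 : Z) 1).exists_isMaxOn hne
    (f := fun z => |f z|) (by fun_prop)
  have hz1 : ‖z0‖ ≤ 1 := by simpa using hz0
  have h1 : ‖f‖ ≤ |f z0| := by
    refine f.opNorm_le_bound (abs_nonneg _) fun z => ?_
    by_cases hz : z = 0
    · rw [hz, map_zero, norm_zero, norm_zero, mul_zero]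
    · have hzp : 0 < ‖z‖ := norm_pos_iff.2 hz
      have h2 : ‖z‖⁻¹ • z ∈ Metric.closedBall (0 : Z) 1 := by
        rw [Metric.mem_closedBall, dist_zero_right, norm_smul, norm_inv, norm_norm,
          inv_mul_cancel₀ hzp.ne']
      have h3 : |f (‖z‖⁻¹ • z)| ≤ |f z0| := hmax h2
      rw [map_smul, smul_eq_mul, abs_mul, abs_of_pos (inv_pos.2 hzp), inv_mul_le_iff₀ hzp] at h3
      rw [Real.norm_eq_abs, mul_comm]
      exact h3
  have h2 : |f z0| ≤ ‖f‖ := by
    have := f.le_opNorm z0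
    rw [Real.norm_eq_abs] at this
    exact this.trans (mul_le_of_le_one_right (norm_nonneg _) hz1)
  have h3 : |f z0| = ‖f‖ := le_antisymm h2 h1
  rcases abs_cases (f z0) with ⟨h4, _⟩ | ⟨h4, _⟩
  · exact ⟨z0, hz1, by rw [← h3, h4]⟩
  · exact ⟨-z0, by rw [norm_neg]; exact hz1, by rw [map_neg, ← h3, h4]⟩

end HBH

open HBH in
/-- row HB -/
theorem hb : HBStmt := by
  intro N Γ _ γ κ β hN hκ hβ hinj hcore
  have hT := T_inj hinj
  have hfr : finrank ℝ (LinearMap.range (T γ)) = N := by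
    rw [LinearMap.finrank_range_of_inj hT]
    simp
  have key : ENNReal.ofReal β ≤ Helper18_Proj.minHyperplane (LinearMap.range (T γ)) := by
    unfold Helper18_Proj.minHyperplane Helper18_Proj.relProjConst
    refine le_iInf fun Y => le_iInf fun hY => le_iInf fun P => le_iInf fun hP => ?_
    apply ENNReal.ofReal_le_ofReal
    obtain ⟨x, f, hfx, hPx⟩ := Helper68_Proj2.rank_one Y hY P hP.1 hP.2
    obtain ⟨f', hf'⟩ : ∃ f' : (LinearMap.range (T γ)) →L[ℝ] ℝ, f' = LinearMap.toContinuousLinearMap f :=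
      ⟨_, rfl⟩
    have hff : ∀ z, f' z = f z := fun z => by rw [hf']; rfl
    obtain ⟨g, hg1, hg2⟩ := exists_extension_norm_eq (LinearMap.range (T γ)) f'
    obtain ⟨a, ha1, ha2⟩ := functional g
    obtain ⟨z0, hz0, hz0f⟩ := attains f'
    have hν : 0 < ‖f'‖ := by
      by_contra hneg
      push Not at hneg
      have h1 := f'.le_opNorm x
      rw [hff, hfx, norm_one] at h1
      have h2 := mul_nonpos_of_nonpos_of_nonneg hneg (norm_nonneg x)
      linarith
    obtain ⟨ν, hνe⟩ : ∃ ν, ν = ‖f'‖ := ⟨_, rfl⟩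
    rw [← hνe] at hν hz0f hg2
    obtain ⟨ξ0, hξ0⟩ := x.2
    obtain ⟨ψ, hψ⟩ := z0.2
    obtain ⟨c, hc⟩ : ∃ c : Γ → ℝ, c = fun i => a i / ν := ⟨_, rfl⟩
    obtain ⟨ξ, hξ⟩ : ∃ ξ : Fin N → ℝ, ξ = ν • ξ0 := ⟨_, rfl⟩
    have hfv : ∀ v : Fin N → ℝ, ∀ z : LinearMap.range (T γ), T γ v = z →
        f z = ν * ∑ i, c i * ip v (γ i) := by
      intro v z hz
      rw [← hff, ← hg1, ha1, Finset.mul_sum]
      refine Finset.sum_congr rfl fun i _ => ?_
      rw [hc, ← hz, T_apply]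
      field_simp
    have hTξ : ∀ i, ip ξ (γ i) = ν * (x : Γ → ℝ) i := by
      intro i
      rw [← T_apply, hξ, map_smul, Pi.smul_apply, smul_eq_mul, hξ0]
    have hPv : ∀ v : Fin N → ℝ, ∀ z : LinearMap.range (T γ), T γ v = z → ∀ i,
        (P z : Γ → ℝ) i = ip v (γ i) - (∑ i', c i' * ip v (γ i')) * ip ξ (γ i) := by
      intro v z hz i
      rw [hPx z, hfv v z hz]
      change (z : Γ → ℝ) i - (ν * ∑ i', c i' * ip v (γ i')) * (x : Γ → ℝ) i = _
      rw [hTξ, ← hz, T_apply]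
      ring
    have hPn : ∀ z : LinearMap.range (T γ), ∀ i, |(P z : Γ → ℝ) i| ≤ ‖P‖ * ‖z‖ := by
      intro z i
      have h1 : ‖(P z : Γ → ℝ) i‖ ≤ ‖(P z : Γ → ℝ)‖ := norm_le_pi_norm _ i
      exact h1.trans (P.le_opNorm z)
    have hc1 : ∑ i, |c i| = 1 := by
      have h1 : ∀ i, |c i| = |a i| / ν := by
        intro i
        rw [hc, abs_div, abs_of_pos hν]
      simp only [h1]
      rw [← Finset.sum_div, ha2, hg2, div_self hν.ne']
    have hψ1 : ∀ i, |ip ψ (γ i)| ≤ 1 := by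
      intro i
      rw [← T_apply, hψ]
      have h1 : ‖(z0 : Γ → ℝ) i‖ ≤ ‖(z0 : Γ → ℝ)‖ := norm_le_pi_norm _ i
      exact h1.trans hz0
    have hcψ : ∑ i, c i * ip ψ (γ i) = 1 := by
      have h1 := hfv ψ z0 hψ
      rw [← hff, hz0f] at h1
      have h2 : ν * (∑ i, c i * ip ψ (γ i)) = ν * 1 := by rw [← h1, mul_one]
      exact mul_left_cancel₀ hν.ne' h2
    have hcξ : ∑ i, c i * ip ξ (γ i) = 1 := by
      have h1 := hfv ξ0 x hξ0
      rw [hfx] at h1
      rw [h1, Finset.mul_sum]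
      refine Finset.sum_congr rfl fun i _ => ?_
      rw [hTξ, ← hξ0, T_apply]
      ring
    by_cases hξ3 : ∀ i, |ip ξ (γ i)| ≤ 3
    · obtain ⟨v, i, hv1, hv2⟩ := hcore c ψ ξ hc1 hψ1 hcψ hcξ hξ3
      obtain ⟨z, hz⟩ : ∃ z : LinearMap.range (T γ), T γ v = z := ⟨⟨T γ v, ⟨v, rfl⟩⟩, rfl⟩
      have h1 := hPn z i
      rw [hPv v z hz i] at h1
      have h2 : ‖z‖ ≤ κ := by
        have h3 : ‖(z : Γ → ℝ)‖ ≤ κ := by
          rw [pi_norm_le_iff_of_nonneg hκ.le]
          intro i'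
          rw [← hz, T_apply]
          exact hv1 i'
        exact h3
      have h3 : β * κ ≤ ‖P‖ * κ :=
        hv2.trans (h1.trans (mul_le_mul_of_nonneg_left h2 (norm_nonneg _)))
      exact le_of_mul_le_mul_right h3 hκ
    · push Not at hξ3
      obtain ⟨i, hi⟩ := hξ3
      have h1 := hPn z0 i
      rw [hPv ψ z0 hψ i, hcψ, one_mul] at h1
      have h2 : ‖P‖ * ‖z0‖ ≤ ‖P‖ := mul_le_of_le_one_right (norm_nonneg _) hz0
      have h3 := hψ1 i
      have h4 : |ip ξ (γ i)| - |ip ψ (γ i)| ≤ |ip ψ (γ i) - ip ξ (γ i)| := by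
        rw [abs_sub_comm]
        exact abs_sub_abs_le_abs_sub _ _
      linarith
  refine key.trans ?_
  unfold Helper18_Proj.rho
  exact le_iSup_of_le (LinearMap.range (T γ)) (le_iSup_of_le inferInstance
    (le_iSup_of_le inferInstance (le_iSup_of_le inferInstance (le_iSup_of_le hfr le_rfl))))

end Pool.Agent.RHO
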