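import Pool.Agent.RHO.Stmts

/-!
# Row HO1: Hoeffding's lemma for two values
-/

set_option autoImplicit false

namespace Pool.Agent.RHO

open MeasureTheory

theorem ho1 : HO1Stmt := by
  intro p t h0 h1
  set μ : Measure Bool := ENNReal.ofReal p • Measure.dirac true +
    ENNReal.ofReal (1 - p) • Measure.dirac false with hμ
  have hP : IsProbabilityMeasure μ := by
    refine ⟨?_⟩
    rw [hμ]
    simp only [Measure.coe_add, Measure.coe_smul, Pi.add_apply, Pi.smul_apply, measure_univ,
      smul_eq_mul, mul_one]
    rw [← ENNReal.ofReal_add h0 (by linarith)]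
    simp
  set X : Bool → ℝ := fun b => if b = true then 2 * (1 - p) else -(2 * p) with hX
  have hint : ∀ f : Bool → ℝ, ∫ b, f b ∂μ = p * f true + (1 - p) * f false := by
    intro f
    rw [hμ, integral_add_measure, integral_smul_measure, integral_smul_measure, integral_dirac,
      integral_dirac, ENNReal.toReal_ofReal h0, ENNReal.toReal_ofReal (by linarith), smul_eq_mul,
      smul_eq_mul]
    · exact (Integrable.of_finite (μ := Measure.dirac true)).smul_measure ENNReal.ofReal_ne_top
    · exact (Integrable.of_finite (μ := Measure.dirac false)).smul_measure ENNReal.ofReal_ne_top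
  have hm : AEMeasurable X μ := (measurable_of_finite X).aemeasurable
  have hb : ∀ᵐ b ∂μ, X b ∈ Set.Icc (-(2 * p)) (2 * (1 - p)) := by
    refine Filter.Eventually.of_forall fun b => ?_
    rw [hX]
    cases b
    · simp only [Bool.false_eq_true, if_false]
      exact ⟨le_refl _, by linarith⟩
    · simp only [if_true]
      exact ⟨by linarith, le_refl _⟩
  have hc : ∫ b, X b ∂μ = 0 := by
    rw [hint, hX]
    simp only [if_true, Bool.false_eq_true, if_false]
    ring
  have h := (ProbabilityTheory.hasSubgaussianMGF_of_mem_Icc_of_integral_eq_zero hm hb hc).mgf_le t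
  unfold ProbabilityTheory.mgf at h
  rw [hint] at h
  have e1 : ((‖2 * (1 - p) - -(2 * p)‖₊ / 2) ^ 2 : NNReal) = 1 := by
    have : 2 * (1 - p) - -(2 * p) = 2 := by ring
    rw [this]
    have h2 : ‖(2:ℝ)‖₊ = 2 := by
      ext
      simp
    rw [h2]
    norm_num
  rw [e1] at h
  rw [hX] at h
  simp only [if_true, Bool.false_eq_true, if_false, NNReal.coe_one, one_mul] at h
  have e2 : 2 * t * (1 - p) = t * (2 * (1 - p)) := by ring
  have e3 : -(2 * t * p) = t * -(2 * p) := by ring
  rw [e2, e3]
  exact h

end Pool.Agent.RHO
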