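import Pool.Agent.RHO.Stmts

/-!
# Row HO2: the Chernoff bound in counting form
-/

set_option autoImplicit false

namespace Pool.Agent.RHO

open Finset

theorem ho2 : HO2Stmt := by
  classical
  intro N Ω _ Y c r C hY hr hC hcC hc
  -- exponential moments of the sum
  have hmom : ∀ t : ℝ, ∑ ω : Fin N → Ω, Real.exp (t * ∑ l, Y l (ω l)) ≤
      (Fintype.card Ω : ℝ) ^ N * Real.exp (t ^ 2 * C / 2) := by
    intro t
    have e1 : ∀ ω : Fin N → Ω, Real.exp (t * ∑ l, Y l (ω l)) = ∏ l, Real.exp (t * Y l (ω l)) := by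
      intro ω
      rw [Finset.mul_sum, Real.exp_sum]
    have e2 : ∑ ω : Fin N → Ω, ∏ l, Real.exp (t * Y l (ω l)) =
        ∏ l, ∑ x : Ω, Real.exp (t * Y l x) := by
      rw [Finset.prod_univ_sum, Fintype.piFinset_univ]
    rw [Finset.sum_congr rfl fun ω _ => e1 ω, e2]
    calc ∏ l, ∑ x : Ω, Real.exp (t * Y l x) ≤
        ∏ l : Fin N, (Fintype.card Ω * Real.exp (t ^ 2 * c l / 2)) :=
          Finset.prod_le_prod (fun l _ => Finset.sum_nonneg fun x _ => (Real.exp_pos _).le)
            fun l _ => hY l t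
      _ = (Fintype.card Ω : ℝ) ^ N * Real.exp (∑ l, t ^ 2 * c l / 2) := by
          rw [Finset.prod_mul_distrib, Finset.prod_const, Finset.card_univ, Fintype.card_fin,
            Real.exp_sum]
      _ ≤ (Fintype.card Ω : ℝ) ^ N * Real.exp (t ^ 2 * C / 2) := by
          apply mul_le_mul_of_nonneg_left _ (by positivity)
          apply Real.exp_le_exp.mpr
          rw [← Finset.sum_div, ← Finset.mul_sum]
          have := mul_le_mul_of_nonneg_left hcC (sq_nonneg t)
          linarith
  set S : Set (Fin N → Ω) := {ω | r < |∑ l, Y l (ω l)|} with hS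
  have hSf : S.Finite := Set.toFinite S
  set t : ℝ := r / C with ht
  have ht0 : 0 < t := div_pos hr hC
  have h1 : (S.ncard : ℝ) * Real.exp (t * r) ≤
      ∑ ω : Fin N → Ω, (Real.exp (t * ∑ l, Y l (ω l)) + Real.exp (-t * ∑ l, Y l (ω l))) := by
    rw [Set.ncard_eq_toFinset_card' S, ← nsmul_eq_mul, ← Finset.sum_const]
    calc ∑ _ω ∈ S.toFinset, Real.exp (t * r) ≤ ∑ ω ∈ S.toFinset,
        (Real.exp (t * ∑ l, Y l (ω l)) + Real.exp (-t * ∑ l, Y l (ω l))) := by
          apply Finset.sum_le_sum
          intro ω hω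
          have h2 : r < |∑ l, Y l (ω l)| := by simpa [hS] using hω
          rcases lt_abs.mp h2 with h3 | h3
          · have h4 := Real.exp_le_exp.mpr (mul_le_mul_of_nonneg_left h3.le ht0.le)
            have h5 := (Real.exp_pos (-t * ∑ l, Y l (ω l))).le
            linarith
          · have h4 := Real.exp_le_exp.mpr (mul_le_mul_of_nonneg_left h3.le ht0.le)
            have h5 := (Real.exp_pos (t * ∑ l, Y l (ω l))).le
            have e : t * -∑ l, Y l (ω l) = -t * ∑ l, Y l (ω l) := by ring
            rw [e] at h4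
            linarith
      _ ≤ _ := by
          apply Finset.sum_le_sum_of_subset_of_nonneg (Finset.subset_univ _)
          intro ω _ _
          have h5 := (Real.exp_pos (t * ∑ l, Y l (ω l))).le
          have h6 := (Real.exp_pos (-t * ∑ l, Y l (ω l))).le
          linarith
  rw [Finset.sum_add_distrib] at h1
  have h2 := hmom t
  have h3 := hmom (-t)
  rw [neg_sq] at h3
  have h4 : (S.ncard : ℝ) * Real.exp (t * r) ≤
      2 * ((Fintype.card Ω : ℝ) ^ N * Real.exp (t ^ 2 * C / 2)) := by linarith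
  have h5 : (S.ncard : ℝ) = (S.ncard : ℝ) * Real.exp (t * r) * Real.exp (-(t * r)) := by
    rw [mul_assoc, ← Real.exp_add, add_neg_cancel, Real.exp_zero, mul_one]
  rw [h5]
  calc (S.ncard : ℝ) * Real.exp (t * r) * Real.exp (-(t * r)) ≤
      2 * ((Fintype.card Ω : ℝ) ^ N * Real.exp (t ^ 2 * C / 2)) * Real.exp (-(t * r)) :=
        mul_le_mul_of_nonneg_right h4 (Real.exp_pos _).le
    _ = 2 * (Fintype.card Ω : ℝ) ^ N * Real.exp (t ^ 2 * C / 2 + -(t * r)) := by
        rw [Real.exp_add]
        ring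
    _ = _ := by
        congr 2
        rw [ht]
        field_simp
        ring

end Pool.Agent.RHO
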