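import Pool.Agent.RHO.Defs

/-!
# MP_ca8ef3_an: `2 - ρ_n ≤ C (log log n)^2 / log n` — statements of the rows

Everything is elementary. The proof of each row is its docstring. Notation: `r = rr q = 1 - 2/q`,
`δ = dl q = 1/(16 q)`.
-/

set_option autoImplicit false

namespace Pool.Agent.RHO

open Finset

/-! ## Graphs -/

/-- ROW GR1 (greedy graph). PROOF. Let `n = 2 * (4 * D) ^ (ℓ + 1)`. Among the (finitely many) graphs
on `Fin n` with all cycles longer than `ℓ` and all degrees at most `4 * D` (the empty graph is one)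
take `H` with the largest number of edges. Suppose `H` has fewer than `D * n` edges. The sum of the
degrees is less than `2 * D * n`, so fewer than `n / 2` vertices have degree `≥ 4 * D`, so MORE than
`n / 2 = (4 * D) ^ (ℓ + 1)` vertices have degree `< 4 * D`. Let `u` be one of them. At most
`1 + 4D + ... + (4D)^ℓ ≤ (4D)^(ℓ+1)` vertices are joined to `u` by a walk of length `≤ ℓ`
(induction: the set of the vertices joined to `u` by a walk of length `i + 1` is contained in the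
union of the neighbourhoods of those joined by a walk of length `i`, so it has at most `(4D)^(i+1)`
elements), so there is a vertex `w` of degree `< 4 * D` which is not joined to `u` by a walk of
length `≤ ℓ`; so `w ≠ u` and (as `ℓ ≥ 1`) `w` is not adjacent to `u`. Add the edge `uw` to `H`: the
degrees stay `≤ 4 * D`, and a cycle using the new edge contains a path of `H` from `u` to `w`, hence
is longer than `ℓ + 1` (a cycle not using it is a cycle of `H`). This contradicts the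
maximality. -/
def GR1Stmt : Prop := ∀ D ℓ : ℕ, 1 ≤ D → 1 ≤ ℓ →
  ∃ H : SimpleGraph (Fin (2 * (4 * D) ^ (ℓ + 1))),
    (∀ v (p : H.Walk v v), p.IsCycle → ℓ < p.length) ∧
    D * (2 * (4 * D) ^ (ℓ + 1)) ≤ H.edgeSet.ncard

/-- ROW GR2 (subgraph of large minimal degree). PROOF. Let `H` be as in `GR1`, `n` its number of
vertices. Consider the nonempty sets `W` of vertices such that at least `D * |W|` edges of `H` have
both ends in `W` (all vertices: such a set). Take `W` of least cardinality. A vertex `v ∈ W` has at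
least `D` neighbours in `W`: otherwise `W \ {v}` spans at least `D * |W| - (D - 1) ≥ D * (|W| - 1)`
edges, so by minimality `W \ {v}` is empty, `W = {v}`, and `W` spans no edge, but `D * 1 ≥ 1`.
Take `V = ↥W` and the induced graph `H.induce W` (or `SimpleGraph.comap`): its cycles are cycles
of `H` (`SimpleGraph.Walk.map` and `map_isCycle_iff_of_injective`), `|V| ≤ n`. -/
def GR2Stmt : Prop := ∀ D ℓ : ℕ, 1 ≤ D → 1 ≤ ℓ →
  ∃ (V : Type) (_ : Fintype V) (_ : Nonempty V) (H : SimpleGraph V),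
    (∀ v (p : H.Walk v v), p.IsCycle → ℓ < p.length) ∧
    (∀ v, D ≤ (H.neighborSet v).ncard) ∧ Fintype.card V ≤ 2 * (4 * D) ^ (ℓ + 1)

/-- ROW PTH (a small set of edges with boundary `a + b` is a path from `a` to `b`). PROOF by
induction on `F.card` (for all `a b`). If `F = ∅` then all `degF F w = 0`, so by parity `a = b`: the
nil path. Let `F` be nonempty. CASE 1: some edge `e = s(a,c) ∈ F` contains `a` (`a ≠ c`, as `e` is
an edge of `H`). `F' = F.erase e` has boundary `c + b`, so there is a path `p'` from `c` to `b` with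
edge set `F'`. If `a` is in the support of `p'` then the part of `p'` from `c` to `a` and `e` form
a cycle of `H` of length at most `F.card ≤ L` (its edges are distinct elements of `F`; `e ∉ F'`),
impossible. So `cons e p'` is a path with edge set `F`. CASE 2: no edge of `F` contains `a`: then
`degF F a = 0` and parity at `a` gives `a = b`, so all `degF F w` are even. Take any edge
`e = s(x,y) ∈ F`: `F' = F.erase e` has boundary `x + y`, so there is a path `p'` from `y` to `x`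
with edge set `F'`, and `cons e p'` is a cycle (from `x`) of length `F.card ≤ L`: contradiction
(`SimpleGraph.Walk.cons_isCycle_iff` or `IsPath.cons_isCycle`). -/
def PTHStmt : Prop := ∀ (V : Type) (H : SimpleGraph V) (L : ℕ),
  (∀ v (p : H.Walk v v), p.IsCycle → L < p.length) →
  ∀ (F : Finset (Sym2 V)) (a b : V), (F : Set (Sym2 V)) ⊆ H.edgeSet → F.card ≤ L →
  (∀ w, Even (degF F w + bd a b w)) →
  ∃ p : H.Walk a b, p.IsPath ∧ ∀ e, e ∈ p.edges ↔ e ∈ F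

/-- ROW PP1. PROOF. By `PTH` the set `F` is the set of edges of a path from `a` to `b`; a path
starting at `a` has at most one edge containing `a` (its first edge: `IsPath` of `cons` means that
`a` is not in the support of the tail, and an edge of the tail containing `a` would put `a` in its
support). -/
def PP1Stmt : Prop := ∀ (V : Type) (H : SimpleGraph V) (L : ℕ),
  (∀ v (p : H.Walk v v), p.IsCycle → L < p.length) →
  ∀ (F : Finset (Sym2 V)) (a b : V), (F : Set (Sym2 V)) ⊆ H.edgeSet → F.card ≤ L →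
  (∀ w, Even (degF F w + bd a b w)) →
  ∀ e ∈ F, ∀ e' ∈ F, a ∈ e → a ∈ e' → e = e'

/-- ROW PP2. PROOF. `F₁`, `F₂` are the edge sets of paths `p₁`, `p₂` from `a` (`PTH`; they have at
most `L ≤ 2 * L` edges). Suppose `c ∈ F₁ ∩ F₂`, and let `y ≠ a` be an end of `c`: `y` is in the
supports of `p₁` and `p₂`. Let `q₁`, `q₂` be the parts of `p₁`, `p₂` from `a` to `y`
(`SimpleGraph.Walk.takeUntil`). The symmetric difference `F₃` of their edge sets has at most `2 * L`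
elements and all its degrees are even (for a path `q` from `a` to `y` the number of its edges at `w`
plus `[w = a] + [w = y]` is even: `SimpleGraph.Walk.IsTrail.even_countP_edges_iff`); by `PTH` with
equal end points (`2 * L` in place of `L`) `F₃` is the edge set of a path from a vertex to itself,
so it is empty and `q₁`, `q₂` have the same edges. (Alternatively use uniqueness of paths in the
acyclic graph `SimpleGraph.fromEdgeSet (F₁ ∪ F₂)`.) The first edge of `q₁` is an element of `F₁` at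
`a`, so it is `e` (`PP1`), so `e` is an edge of `q₂`, hence in `F₂`: contradiction. -/
def PP2Stmt : Prop := ∀ (V : Type) (H : SimpleGraph V) (L : ℕ),
  (∀ v (p : H.Walk v v), p.IsCycle → 2 * L < p.length) →
  ∀ (F₁ F₂ : Finset (Sym2 V)) (a b₁ b₂ : V),
  (F₁ : Set (Sym2 V)) ⊆ H.edgeSet → (F₂ : Set (Sym2 V)) ⊆ H.edgeSet →
  F₁.card ≤ L → F₂.card ≤ L →
  (∀ w, Even (degF F₁ w + bd a b₁ w)) →
  (∀ w, Even (degF F₂ w + bd a b₂ w)) →
  ∀ e ∈ F₁, a ∈ e → e ∉ F₂ → Disjoint F₁ F₂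

/-- ROW TOG (existence of toggle systems). PROOF. Take `V`, `H` of `GR2` with `ℓ = 2 * L`, a vertex
`v₀`, `E = Sym2 V` (`|E| = n (n + 1) / 2 ≤ n ^ 2`, `n = |V| ≤ 2 * (4 * D) ^ (2 * L + 1)`, `n ≥ 1`).
A finite set `u` of pairs is a state iff it consists of edges of `H` and there is a vertex `v` such
that `degF u w + [w = v₀] + [w = v]` is even for every `w` (i.e. `degF u w + bd v₀ v w`).
The vertex `v` is determined by `u` (two such vertices `v`, `v'`: `[w = v] + [w = v']` is even for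
all `w`). `base = ∅` (with `v = v₀`). For a state `u` with vertex `v` let `tog u` be a set of `D`
edges of `H` at `v` (there are at least `D`); `tog u = ∅` otherwise. Closed: toggling an edge
`s(v,v')` changes the parity of the degrees at `v` and `v'` only, so `v'` is the new vertex. `p1`,
`p2`: for states `u`, `x` with vertices `v`, `v'` the set `symmDiff u x` has boundary `v + v'`
(the degree of a symmetric difference has the parity of the sum of the degrees); apply `PP1` (with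
`L`, cycles longer than `2 * L ≥ L`) and `PP2` with `a` = the vertex of `u`; elements of `tog u` are
edges at `a`. -/
def TOGStmt : Prop := ∀ D L : ℕ, 1 ≤ D → 1 ≤ L →
  ∃ (E : Type) (_ : DecidableEq E) (_ : Fintype E) (_ : Tog E D L),
    Fintype.card E ≤ 4 * (4 * D) ^ (4 * L + 2)

/-! ## Random signs -/

/-- ROW HO1 (Hoeffding's lemma for two values). PROOF. For `Y` with values `2 (1 - p)`
(probability `p`) and `-2 p` (probability `1 - p`): mean zero, in an interval of length `2`.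
Mathlib: `ProbabilityTheory.hasSubgaussianMGF_of_mem_Icc` (Hoeffding's lemma), or directly:
`L(t) = log (p exp(2t) + 1 - p) - 2 p t` has `L(0) = L'(0) = 0`, `L'' ≤ 1`. -/
def HO1Stmt : Prop := ∀ p t : ℝ, 0 ≤ p → p ≤ 1 →
  p * Real.exp (2 * t * (1 - p)) + (1 - p) * Real.exp (-(2 * t * p)) ≤ Real.exp (t ^ 2 / 2)

/-- ROW HO2 (Chernoff bound for a sum over independent coordinates, in counting form). PROOF. For
`t > 0`: `#{ω | r < Σ Y_l(ω_l)} exp(t r) ≤ Σ_ω Π_l exp(t Y_l(ω_l)) = Π_l Σ_x exp(t Y_l(x))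
≤ |Ω|^N Π_l exp(t² c_l / 2) = |Ω|^N exp(t² c / 2)`; take `t = r / c` (if `c = 0` let `t → ∞`; the
row has `0 < c`). The same for `-Y`. (`Finset.prod_univ_sum` or `Fintype.piFinset`.) -/
def HO2Stmt : Prop := ∀ (N : ℕ) (Ω : Type) [Fintype Ω] (Y : Fin N → Ω → ℝ) (c : Fin N → ℝ) (r C : ℝ),
  (∀ l (t : ℝ), ∑ x, Real.exp (t * Y l x) ≤ Fintype.card Ω * Real.exp (t ^ 2 * c l / 2)) →
  0 < r → 0 < C → ∑ l, c l ≤ C → (∀ l, 0 ≤ c l) →
  (Set.ncard {ω : Fin N → Ω | r < |∑ l, Y l (ω l)|} : ℝ) ≤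
    2 * (Fintype.card Ω : ℝ) ^ N * Real.exp (-(r ^ 2 / (2 * C)))

/-- The sample space of one coordinate. -/
abbrev Om (q : ℕ) (J E : Type) : Type := J → Bool × (E → Fin q)

/-- The sign of the state `u` in copy `j` at the sample point `ω`: the number of `e ∈ u` with
label `0` decides. -/
noncomputable def sg {q : ℕ} {J E : Type} (ω : Om q J E) (j : J) (u : Finset E) : ℝ :=
  (if (ω j).1 then 1 else -1) * ∏ e ∈ u, (if ((ω j).2 e : ℕ) = 0 then (-1 : ℝ) else 1)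

/-- ROW AVG (average of the product of two signs). PROOF. `j = j'`: the product of the two signs is
`Π_{e ∈ symmDiff u u'} (±1)` (for `e ∈ u ∩ u'` the factor is squared; `θ² = 1`), and the sum over
the labels factorises: each `e` in the symmetric difference gives `(q - 1) - 1 = q (1 - 2/q)`, every
other coordinate gives `q`. `j ≠ j'`: the involution changing `(ω j).1` changes the sign of the
product. -/
def AVGStmt : Prop := ∀ (q : ℕ) (J E : Type) [Fintype J] [DecidableEq J] [Fintype E]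
  [DecidableEq E] (j j' : J) (u u' : Finset E), 1 ≤ q →
  (∑ ω : Om q J E, sg ω j u * sg ω j' u' =
    Fintype.card (Om q J E) * (if j = j' then rr q ^ hd u u' else 0)) ∧
  ∑ ω : Om q J E, sg ω j u = 0

/-- ROW GRM (the Gram lemma). PROOF. Sample space `Fin N → Om q J E`, `s j u l = sg (ω l) j u`
(so `|s| = 1`). For a pair `(j,u)`, `(j',u')` let `μ = (if j = j' then rr q ^ hd u u' else 0)` and
`Y_l = sg j u * sg j' u' - μ`: by `AVG` the sign `sg * sg'` has mean `μ`, it is `±1`, so its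
moment generating function is that of `HO1` with `2 p - 1 = μ`: average of `exp (t Y_l)` is at most
`exp (t²/2)`; by `HO2` with `c_l = 1`, `C = N`, `r = τ N` the number of bad `ω` is at most
`2 |Ω|^N exp(-τ² N / 2)`. For `(j,u,j')` let `Y_l = sg j u * b j' l`: the average of `exp (t Y_l)`
is `cosh (t b) ≤ exp (t² b²/2)` (sign symmetric by the involution; `Real.cosh_le_exp_half_sq`), so
`HO2` with `c_l = (b j' l)²`, `C = 1`, `r = τ √N` gives the same bound. There are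
`|J|² 4^|E|` pairs and `|J|² 2^|E| ≤ |J|² 4^|E|` triples, so the number of `ω` with a bad event is
`< |Ω|^N`. (If `J` is empty the statement is trivial.) -/
def GRMStmt : Prop := ∀ (q N : ℕ) (J E J' : Type) [Fintype J] [DecidableEq J] [Fintype E]
  [DecidableEq E] [Fintype J'] (b : J' → Fin N → ℝ) (τ : ℝ),
  2 ≤ q → 0 < N → 0 < τ → (∀ j, ip (b j) (b j) ≤ 1) → Fintype.card J' ≤ Fintype.card J →
  4 * (Fintype.card J : ℝ) ^ 2 * 4 ^ Fintype.card E * Real.exp (-(τ ^ 2 * N / 2)) < 1 →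
  ∃ s : J → Finset E → Fin N → ℝ, (∀ j u l, |s j u l| = 1) ∧
    (∀ j j' u u', |ip (s j u) (s j' u') - (if j = j' then (N:ℝ) * rr q ^ hd u u' else 0)|
      ≤ τ * N) ∧
    (∀ j u j', |ip (s j u) (b j')| ≤ τ * √N)

/-- ROW NET (few vectors of length `√B` whose convex hull contains the ball). PROOF. Let
`k = N / B + 1` (so `k ≥ 1`, and `l / B < k` for `l < N`). `J = Fin B × (Fin k → Fin (10 k + 1))`
(`10 k + 1 ≤ 21 N`). For `(β, f)` let `z l = f (l / B) - 5 k` (an integer with `|z l| ≤ 5 k`) if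
`l % B = β`, and `0` otherwise, `b = z / (5 √k)` if `Σ z² ≤ 25 k`, and `b = 0` otherwise. Then
`ip b b ≤ 1`. Let `ψ ≠ 0` (the case `ψ = 0` is trivial, `J` is nonempty). Let `β` maximise
`S = Σ_{l % B = β} ψ_l²`: `B S ≥ ip ψ ψ`, `S > 0`. The block `{l < N : l % B = β}` has at most `k`
elements. Let `y_l = 4 √k ψ_l / √S` on the block (`Σ y² = 16 k`), `z_l = round y_l`
(`|z_l| ≤ 4 √k + 1 ≤ 5 k`), so `Σ (z - y)² ≤ k/4`, `√(Σ z²) ≤ 4 √k + √k/2`, `Σ z² ≤ 25 k`, and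
`Σ y z ≥ 16 k - 4 √k √k / 2 = 14 k` (Cauchy-Schwarz), so
`ip ψ b = (√S / (4 √k)) (Σ y z) / (5 √k) ≥ (14/20) √S ≥ √(ip ψ ψ) / (2 √B)`. -/
def NETStmt : Prop := ∀ N B : ℕ, 1 ≤ B → 1 ≤ N →
  ∃ (J : Type) (_ : Fintype J) (_ : DecidableEq J) (_ : Nonempty J) (b : J → Fin N → ℝ),
    Fintype.card J ≤ B * (21 * N) ^ (N / B + 1) ∧ (∀ j, ip (b j) (b j) ≤ 1) ∧
    ∀ ψ : Fin N → ℝ, ∃ j, √(ip ψ ψ) ≤ 2 * √B * ip ψ (b j)

/-! ## The main argument -/

/-- ROW NRM (the Euclidean norm is at most the norm). PROOF. By `net` choose `j₀` with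
`√(ip ψ ψ) ≤ R' * ip ψ (b j₀)`. For `i : Fin M`: `ip ψ (gam ((j₀,i), base)) =
2 R' ip ψ (b j₀) + ip ψ (gv (j₀,i) base)` (`hd base base = 0`). Average over `i`:
`A ≥ 2 √(ip ψ ψ) + ip ψ G`, `G = (1/M) Σ_i gv (j₀,i) base`, and
`ip G G = R²/(N M²) Σ_{i,i'} ip (s..) (s..) ≤ R²/(N M²) (M N + M² τ N)` (for `i = i'`
the exact value `ip s s = N`, signs, and for `i ≠ i'` the bound `τ N` of `gram`), which is
`R²/M + R² τ ≤ 1/2 + 1/2 = 1` (`hM`, `c1`). By Cauchy-Schwarz `|ip ψ G| ≤ √(ip ψ ψ)`, so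
`A ≥ √(ip ψ ψ)`. -/
def NRMStmt : Prop := ∀ (q N D g M : ℕ) (E J : Type) [DecidableEq E] [DecidableEq J]
  (C : Cfg q N D g M E J) (ψ : Fin N → ℝ) (A : ℝ),
  (∀ j, |ip ψ (C.gam (j, C.T.base))| ≤ A) → √(ip ψ ψ) ≤ A

/-- ROW BAD (few bad toggles). PROOF. Choose `x_e` for `e ∈ S`, `d_e = hd u x_e`,
`z_e = gv j x_e - r^(d_e) gv j u`. For `e ≠ e'` in `S`: by `p1` (both `e'` in `tog u ∩ symmDiff u
x_{e'}`) `e ∉ symmDiff u x_{e'}`, so by `p2` the sets `symmDiff u x_e` and `symmDiff u x_{e'}` are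
disjoint, so `hd x_e x_{e'} = d_e + d_{e'}`; by `gram` (with `j = j`)
`ip z_e z_{e'} = (R²/N) [ip s_{x_e} s_{x_e'} - r^d' ip s_{x_e} s_u - r^d ip s_u s_{x_e'} + r^(d+d')
ip s_u s_u]` differs from `R² [r^(d+d') - r^(d+d') - r^(d+d') + r^(d+d')] = 0` by at most `4 τ R²`
(`0 ≤ r ≤ 1`); and `ip z_e z_e ≤ R² (1 - r^(2d)) + 4 τ R² ≤ 2 R²`. Let `σ_e` be the sign of
`ip ψ z_e` and `Z = Σ σ_e z_e`: `|S| δ ≤ ip ψ Z ≤ 3 √(ip Z Z)`,
`ip Z Z ≤ 2 R² |S| + 4 τ R² |S|²`. So `|S|² δ² ≤ 18 R² |S| + 36 τ R² |S|²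
≤ 18 R² |S| + |S|² δ² / 2` (`c2`), whence `|S| δ² ≤ 36 R²`. -/
def BADStmt : Prop := ∀ (q N D g M : ℕ) (E J : Type) [DecidableEq E] [DecidableEq J]
  (C : Cfg q N D g M E J) (j : J × Fin M) (u : Finset E) (ψ : Fin N → ℝ) (S : Finset E),
  C.T.St u → S ⊆ C.T.tog u → ip ψ ψ ≤ 9 →
  (∀ e ∈ S, ∃ x, C.T.St x ∧ e ∈ symmDiff u x ∧ hd u x ≤ 2 * g ∧
    dl q < |ip ψ (C.gv j x) - rr q ^ hd u x * ip ψ (C.gv j u)|) →
  (S.card : ℝ) * dl q ^ 2 ≤ 36 * C.R ^ 2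

/-- ROW DET (the deterministic part). PROOF. Let `x₀ = base`, `d = hd u x ≤ g`. If
`hd u x₀ ≤ 2 g` then `e ∉ symmDiff u x₀` by `he`, so by `p2` `symmDiff u x` and `symmDiff u x₀` are
disjoint and `hd x₀ x = d + hd x₀ u` (`symmDiff x₀ x = symmDiff (symmDiff u x₀) (symmDiff u x)`):
the difference is `0`. If `hd u x₀ > 2 g` then `hd x₀ x ≥ hd u x₀ - d > g`, so both `av x` and
`r^d av u` are in `[0, 2 R' r^g]` (`0 ≤ r ≤ 1`), and `2 R' r^g ≤ δ` by `c4`. -/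
def DETStmt : Prop := ∀ (q N D g M : ℕ) (E J : Type) [DecidableEq E] [DecidableEq J]
  (C : Cfg q N D g M E J) (u x : Finset E) (e : E),
  C.T.St u → C.T.St x → e ∈ C.T.tog u → e ∈ symmDiff u x → hd u x ≤ g →
  ¬ (e ∈ symmDiff u C.T.base ∧ hd u C.T.base ≤ 2 * g) →
  |C.av x - rr q ^ hd u x * C.av u| ≤ dl q

/-- ROW ETA. PROOF. `ip (eta j u e) (gam (j', x))` is `1/(R² (1 - r²))` times
`ip (gv j (u+e) - r gv j u) (gv j' x) + av x * ip (gv j (u+e) - r gv j u) (b j'.1)`. The first term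
is `(R²/N) (ip s_(u+e) s_x - r ip s_u s_x)`; by `gram` it differs by at most `2 τ R²` from
`R² (r^(hd (u+e) x) - r r^(hd u x))` if `j = j'` and from `0` otherwise; here `symmDiff (u+e) x =
symmDiff (symmDiff u x) {e}`, so if `e ∈ symmDiff u x` then `hd (u+e) x = d - 1` (`d = hd u x ≥ 1`)
and the value is `R² (r^(d-1) - r^(d+1)) = R² (1 - r²) r^(d-1)`, and if not then
`hd (u+e) x = d + 1` and the value is `0`. The second term is at most
`2 R' (R/√N) 2 τ √N = 4 R' R τ` (`orth`; `0 ≤ av x ≤ 2 R'`). Total error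
`(2 τ R² + 4 R' R τ)/(R² (1 - r²)) = (2 τ + 4 R' τ / R)/(1 - r²) ≤ δ` by `c3`. -/
def ETAStmt : Prop := ∀ (q N D g M : ℕ) (E J : Type) [DecidableEq E] [DecidableEq J]
  (C : Cfg q N D g M E J) (j j' : J × Fin M) (u x : Finset E) (e : E),
  |ip (C.eta j u e) (C.gam (j', x)) - (if j = j' then hh (rr q) u e x else 0)| ≤ dl q

/-- ROW CNT (for most toggles the functional is small at `η`). PROOF. The sum is at most
`Σ_i |c i| Σ_e |ip (eta j u e) (gam (idx i))| ≤ max_i Σ_{e ∈ tog u} (hh u e x_i + δ)` (`ETA`), and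
`Σ_{e ∈ tog u} hh u e x ≤ 1`: if `hd u x ≤ 2 g` then by `p1` at most one `e ∈ tog u` has
`hh ≠ 0` and `hh ≤ 1`; if `hd u x > 2 g` every term is at most `r^(2 g)` and
`D r^(2g) ≤ 1` (`c5`). -/
def CNTStmt : Prop := ∀ (q N D g M : ℕ) (E J Γ : Type) [DecidableEq E] [DecidableEq J] [Fintype Γ]
  (C : Cfg q N D g M E J) (idx : Γ → (J × Fin M) × Finset E) (c : Γ → ℝ) (j : J × Fin M)
  (u : Finset E), (∀ i, C.T.St (idx i).2) → C.T.St u → ∑ i, |c i| ≤ 1 →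
  ∑ e ∈ C.T.tog u, |∑ i, c i * ip (C.eta j u e) (C.gam (idx i))| ≤ 1 + D * dl q

/-- ROW CO1 (a good toggle). PROOF. Remove from `tog u` (which has `D` elements): the bad `e` of
`BAD` for `ψ` and for `ξ` (at most `36 R²/δ²` each; `e` is bad for `ψ` if some state `x` has
`e ∈ symmDiff u x`, `hd u x ≤ 2 g`, `|ip ψ (gv j x) - r^(hd u x) ip ψ (gv j u)| > δ`); the elements
of `symmDiff u base` if `hd u base ≤ 2 g` (at most one, by `p1`); the `e` with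
`|Σ c i ip (eta j u e) γ_i| > 4 δ` (at most `(1 + D δ)/(4 δ) = 1/(4δ) + D/4`, by `CNT`). By `c6`
(`D ≥ 100 R²/δ²`, `R ≥ 1`, `δ ≤ 1`) something remains: `72 R²/δ² + 1 + 1/(4δ) + D/4 < D`. -/
def CO1Stmt : Prop := ∀ (q N D g M : ℕ) (E J Γ : Type) [DecidableEq E] [DecidableEq J] [Fintype Γ]
  (C : Cfg q N D g M E J) (idx : Γ → (J × Fin M) × Finset E) (c : Γ → ℝ) (ψ ξ : Fin N → ℝ)
  (j : J × Fin M) (u : Finset E), (∀ i, C.T.St (idx i).2) → C.T.St u → ∑ i, |c i| ≤ 1 →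
  ip ψ ψ ≤ 9 → ip ξ ξ ≤ 9 →
  ∃ e ∈ C.T.tog u, ¬ (e ∈ symmDiff u C.T.base ∧ hd u C.T.base ≤ 2 * g) ∧
    (∀ x, C.T.St x → e ∈ symmDiff u x → hd u x ≤ 2 * g →
      |ip ψ (C.gv j x) - rr q ^ hd u x * ip ψ (C.gv j u)| ≤ dl q) ∧
    (∀ x, C.T.St x → e ∈ symmDiff u x → hd u x ≤ 2 * g →
      |ip ξ (C.gv j x) - rr q ^ hd u x * ip ξ (C.gv j u)| ≤ dl q) ∧
    |∑ i, c i * ip (C.eta j u e) (C.gam (idx i))| ≤ 4 * dl q

/-- ROW COR (the core). PROOF. `γ_i = gam (idx i)`. (0) By `NRM` (all `(j, base)` are of the form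
`idx i`) `√(ip ψ ψ) ≤ 1`, `√(ip ξ ξ) ≤ 3`. (1) Since `Σ |c i| = 1 = Σ c i ip ψ γ_i` and
`|ip ψ γ_i| ≤ 1`: `c i ip ψ γ_i = |c i|` for all `i`. Since `Σ c i ip ξ γ_i = 1 = Σ |c i|` there is
`o` with `c o ≠ 0` and `c o ip ξ γ_o ≥ |c o|`. Put `σ = c o/|c o| = ±1`: `ip ψ γ_o = σ`,
`σ ip ξ γ_o ≥ 1`. Let `idx o = (j, u)`. (2) Take `e` of `CO1`, `t = symmDiff u {e}` (a state,
`closed`; `hd u t = 1`, `symmDiff u t = {e}`). (3) For every
state `x` with `e ∈ symmDiff u x`, `d = hd u x ≤ g`: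
`ip ψ γ_(j,x) - r^d ip ψ γ_(j,u) = (ip ψ gv_x - r^d ip ψ gv_u) + (av x - r^d av u) ip ψ (b j.1)` is
at most `2 δ` in absolute value (`DET`, `|ip ψ b| ≤ 1`), i.e. `|ip ψ γ_(j,x) - σ r^d| ≤ 2 δ`; and
`|ip ξ γ_(j,t) - r ip ξ γ_(j,u)| ≤ δ + 3 δ`, so `σ ip ξ γ_(j,t) ≥ r - 4 δ`.
(4) `θ = 1 + σ ip ψ γ_(j,t)`: `0 ≤ θ ≤ 2`, `|θ - (1 + r)| ≤ 2 δ`. `v = -ψ + σ θ eta j u e`.
(5) Norm: for `(j',x)` with `j' ≠ j`, or `e ∉ symmDiff u x`, or `hd u x > g`: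
`|ip (eta j u e) γ_(j',x)| ≤ r^g + δ ≤ 3δ/2` (`ETA`, `c4`), so `|ip v γ| ≤ 1 + 3 δ`. For `j' = j`,
`e ∈ symmDiff u x`, `d ≤ g`: `ip v γ = -σ r^d ± 2δ + σ θ (r^(d-1) ± δ) = σ (-r^d + (1 + r) r^(d-1))
± (2δ + 2δ + 2δ) = σ r^(d-1) ± 6 δ`, so `|ip v γ| ≤ 1 + 6 δ`. (6) `d = 1`: `σ ip v γ_(j,t) ≥
1 - 6 δ`. (7) `F = Σ c i ip v γ_i = -1 + σ θ Σ c i ip eta γ_i`, so `|F + 1| ≤ 8 δ`. (8)
`σ (ip v γ_t - F ip ξ γ_t) = σ ip v γ_t - F (σ ip ξ γ_t) ≥ 1 - 6δ + (1 - 8δ)(r - 4δ)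
≥ 1 + r - 18 δ = 2 - 2/q - 18 δ`. Take `i` with `idx i = (j,t)`. -/
def CORStmt : Prop := ∀ (q N D g M : ℕ) (E J Γ : Type) [DecidableEq E] [DecidableEq J] [Fintype Γ]
  (C : Cfg q N D g M E J) (idx : Γ → (J × Fin M) × Finset E) (c : Γ → ℝ) (ψ ξ : Fin N → ℝ),
  (∀ i, C.T.St (idx i).2) → (∀ j u, C.T.St u → ∃ i, idx i = (j, u)) →
  ∑ i, |c i| = 1 → (∀ i, |ip ψ (C.gam (idx i))| ≤ 1) → ∑ i, c i * ip ψ (C.gam (idx i)) = 1 →
  ∑ i, c i * ip ξ (C.gam (idx i)) = 1 → (∀ i, |ip ξ (C.gam (idx i))| ≤ 3) →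
  ∃ (v : Fin N → ℝ) (i : Γ), (∀ i', |ip v (C.gam (idx i'))| ≤ 1 + 6 * dl q) ∧
    2 - 2 / q - 18 * dl q ≤
      |ip v (C.gam (idx i)) - (∑ i', c i' * ip v (C.gam (idx i'))) * ip ξ (C.gam (idx i))|

/-- ROW HB (reduction by Hahn-Banach). PROOF. `Z` = a copy of `Fin N → ℝ` with the norm
`‖ψ‖ = max_i |ip ψ (γ i)|`, induced (`NormedAddCommGroup.induced`, `NormedSpace.induced`) by the
linear map `Z → (Γ → ℝ)`, injective by the first hypothesis; `finrank = N`. By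
`Pool.Agent.Helper68_Proj2.rank_one` a projection `P` onto a hyperplane is `z ↦ z - f z • ξ₀`,
`f ξ₀ = 1`. The functional `f` is bounded; by Hahn-Banach (`exists_extension_norm_eq` on the range
submodule of `Γ → ℝ`) `f ψ = Σ a i * ip ψ (γ i)` with `Σ |a i| = ‖f‖ > 0` (`≤` suffices: then
equality). Put `c = a/‖f‖`, `ξ = ‖f‖ ξ₀`: `Σ |c i| = 1`, `Σ c i ip ξ γ_i = 1`. The norm of the
functional `Σ c i ip · γ_i` is `1`, attained at some `ψ` with `‖ψ‖ = 1` (finite dimension, compact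
unit ball), so `Σ c i ip ψ γ_i = 1`, and `P z = z - (Σ c i ip z γ_i) • ξ`. If `|ip ξ γ_i| > 3` for
some `i` then `|ip (P ψ) γ_i| = |ip ψ γ_i - ip ξ γ_i| > 2`, so `‖P‖ ≥ 2 ≥ β`. Otherwise the second
hypothesis gives `v`, `i` with `‖v‖ ≤ κ` and `β κ ≤ |ip (P v) γ_i| ≤ ‖P‖ κ`, so `‖P‖ ≥ β`. Unfold
`rho`, `minHyperplane`, `relProjConst` as in `Pool.Agent.Helper68_Proj2.rho_ge_of_good`. -/
def HBStmt : Prop := ∀ (N : ℕ) (Γ : Type) [Fintype Γ] (γ : Γ → Fin N → ℝ) (κ β : ℝ),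
  0 < N → 0 < κ → β ≤ 2 → (∀ ψ : Fin N → ℝ, (∀ i, |ip ψ (γ i)| ≤ 0) → ψ = 0) →
  (∀ (c : Γ → ℝ) (ψ ξ : Fin N → ℝ), ∑ i, |c i| = 1 → (∀ i, |ip ψ (γ i)| ≤ 1) →
    ∑ i, c i * ip ψ (γ i) = 1 → ∑ i, c i * ip ξ (γ i) = 1 → (∀ i, |ip ξ (γ i)| ≤ 3) →
    ∃ (v : Fin N → ℝ) (i : Γ), (∀ i', |ip v (γ i')| ≤ κ) ∧
      β * κ ≤ |ip v (γ i) - (∑ i', c i' * ip v (γ i')) * ip ξ (γ i)|) →
  ENNReal.ofReal β ≤ Helper18_Proj.rho N

/-- ROW MAI. PROOF. `Γ` = the subtype of `(J × Fin M) × Finset E` of the pairs with a state as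
second component (finite), `idx` = inclusion, `γ i = gam (idx i)`. Injectivity: by `NRM` with
`A = 0`. `HB` with `κ = 1 + 6 δ`, `β = 2 - 4/q`: `β κ ≤ 2 - 2/q - 18 δ` since
`(2 - 4/q)(1 + 6δ) ≤ 2 - 4/q + 12 δ` and `30 δ = 30/(16 q) ≤ 2/q`. -/
def MAIStmt : Prop := ∀ (q N D g M : ℕ) (E J : Type) [DecidableEq E] [DecidableEq J] [Fintype E]
  [Fintype J] (_ : Cfg q N D g M E J), ENNReal.ofReal (2 - 4 / q) ≤ Helper18_Proj.rho N

/-! ## Numbers -/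

/-- ROW NU1. PROOF. `(1 - 2/q)^q ≤ exp(-2) ≤ 1/4`, so `(1 - 2/q)^(q m) ≤ 4^(-m)` with
`m = 7 k + 21`, `4^m = 2^(14 k + 42)` and `q^13 ≤ 2^(13 k)`. -/
def NU1Stmt : Prop := ∀ q k : ℕ, 16 ≤ q → q ≤ 2 ^ k →
  2 ^ 42 * (q:ℝ) ^ 13 * rr q ^ (q * (7 * k + 21)) ≤ 1

/-- ROW NU2. PROOF. Let `T0 = 4 (4 D)^(8 g + 2)`, `D = 2^33 q^10`, `g = q (7 k + 21)`. Taking
logarithms we need `log 4 + 2 log cJ + cE log 4 < N / (2^67 q^20)` (`τ² = 1/(2^66 q^20)`), and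
`2 log cJ ≤ 2 log M + 2 log B + 2 (N/B + 1) log (21 N)` with `log (21 N) ≤ q^4`, and
`2 (N/B) q^4 ≤ 2 N / (2^70 q^20) = N/(2^69 q^20)`. The rest is at most
`log 4 + 2 log (2^19 q^8) + 2 log (2^70 q^24) + 2 q^4 + 1.4 T0 ≤ 2 T0 ≤ (3/8) N / (2^66 q^20)`,
because `2^69 q^20 T0 ≤ 2^(69 + 20 k + 2 + (35 + 10 k)(8 g + 2)) ≤ 2^(2000 q k²) ≤ N` (here
`k ≥ 4`, `35 + 10 k ≤ 19 k`, `7 k + 21 ≤ 13 k`, so `(35 + 10 k)(8 g + 2) ≤ 19 k (104 q k + 2)
≤ 1976 q k² + 38 k`, and `71 + 20 k + 38 k ≤ 76 k ≤ 24 q k²`). -/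
def NU2Stmt : Prop := ∀ (q k N cJ cE : ℕ), 16 ≤ q → q ≤ 2 ^ k → 2 ^ (2000 * q * k ^ 2) ≤ N →
  Real.log (21 * N) ≤ (q:ℝ) ^ 4 →
  cJ ≤ (2 ^ 70 * q ^ 24 * (21 * N) ^ (N / (2 ^ 70 * q ^ 24) + 1)) * (2 ^ 19 * q ^ 8) →
  cE ≤ 4 * (4 * (2 ^ 33 * q ^ 10)) ^ (4 * (2 * (q * (7 * k + 21))) + 2) →
  4 * (cJ : ℝ) ^ 2 * 4 ^ cE * Real.exp (-((1 / (2 ^ 33 * (q:ℝ) ^ 10)) ^ 2 * N / 2)) < 1

/-- ROW CFG (existence of the data). PROOF. `D = 2^33 q^10`, `g = q (7 k + 21)`, `M = 2^19 q^8`,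
`B = 2^70 q^24`, `R = 2^9 q^4`, `R' = 2 √B = 2^36 q^12`, `τ = 1/(2^33 q^10)`. Toggle system: `TOG`
with `L = 2 g`. Net: `NET`. Signs: `GRM` with `J × Fin M` in place of `J`, `J' = J`, the condition
is `NU2`. Conditions: `hM`: `2 R² = 2^19 q^8`. `c1`: `2 τ R² = 2^19 q^8/(2^33 q^10) ≤ 1`. `c2`:
`72 τ R² = 72 · 2^18 q^8 / (2^33 q^10) ≤ 1/(256 q²)` as `72 ≤ 2^7`. `c3`: `1 - r² = (2/q)(2 - 2/q) ≥
2/q`, so the right side is `≥ 1/(8 q²)`; `2 τ ≤ 1/(16 q²)`, and `4 R' τ / R = 4 · 8 q²/(2^9 q^4) =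
1/(16 q²)`. `c4`: `2 R' r^g = 2^37 q^12 r^g ≤ 1/(16 q)` is `2^41 q^13 r^g ≤ 1`: `NU1`. `c5`:
`D r^(2g) ≤ 2^33 q^10 r^g ≤ 1`. `c6`: `100 R² = 100 · 2^18 q^8 ≤ 2^33 q^10/(256 q²) = 2^25 q^8`. -/
def CFGStmt : Prop := ∀ (q k N : ℕ), 16 ≤ q → q ≤ 2 ^ k → 2 ^ (2000 * q * k ^ 2) ≤ N →
  Real.log (21 * N) ≤ (q:ℝ) ^ 4 →
  ∃ (D g M : ℕ) (E J : Type) (_ : DecidableEq E) (_ : DecidableEq J) (_ : Fintype E)
    (_ : Fintype J), Nonempty (Cfg q N D g M E J)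

/-- The bound in terms of `q`: consequence of `CFG` and `MAI`. -/
def QStmt : Prop := ∀ (q k N : ℕ), 16 ≤ q → q ≤ 2 ^ k → 2 ^ (2000 * q * k ^ 2) ≤ N →
  Real.log (21 * N) ≤ (q:ℝ) ^ 4 → ENNReal.ofReal (2 - 4 / q) ≤ Helper18_Proj.rho N

/-- ROW EXP (explicit form; `h : QStmt` as a hypothesis). PROOF. `Λ = Nat.log 2 n ≥ 2^50 m k²`,
`κ = Nat.log 2 Λ + 1` (so `Λ < 2^κ`), `q = Λ / (2000 κ²)` (division of natural numbers). Then
`q ≤ Λ ≤ 2^κ`, `2^(2000 q κ²) ≤ 2^Λ ≤ n`. Elementary: `κ^8 ≤ Λ` for `Λ ≥ 2^50` (indeed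
`κ ≤ 51 + ...`; prove `(j + 1)^8 ≤ 2^j` for `j ≥ 50` by induction and use `2^(κ-1) ≤ Λ`), so `q` is
huge: `q + 1 > Λ/(2000 κ²)`, `κ² ≤ Λ^(1/4)`, `q^4 ≥ Λ + 5 ≥ log (21 n)` (as
`log (21 n) ≤ 4 + (Λ + 1) log 2`). Finally `q ≥ 4 m`, i.e. `8000 m κ² ≤ Λ`: write
`Λ ≥ 2^50 m k²`. If `κ ≤ 200 k` then `8000 m κ² ≤ 8000 · 40000 m k² ≤ 2^50 m k²`; if `κ > 200 k`
then `Λ ≥ 2^(κ-1)` and `m ≤ 2^k ≤ 2^(κ/200)`, so `8000 m κ² ≤ 2^13 2^(κ/200) κ² ≤ 2^(κ - 1)` for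
`κ ≥ 51`. So `2 - 1/m ≤ 2 - 4/q`. -/
def EXPStmt : Prop := ∀ m k n : ℕ, 1 ≤ m → 1 ≤ k → m ≤ 2 ^ k → 2 ^ (2 ^ 50 * m * k ^ 2) ≤ n →
  ENNReal.ofReal (2 - 1 / m) ≤ Helper18_Proj.rho n

/-- ROW RAT (`h : EXPStmt` as a hypothesis). PROOF. For `n ≥ 3` put `ℓ = log n > 1`,
`λ = log ℓ > 0`. There is `n₀` such that for `n ≥ n₀` the choice `k = ⌈2 λ⌉`,
`m = ⌊ℓ / (2^50 k²)⌋` satisfies `1 ≤ m ≤ ℓ ≤ exp λ ≤ 2^k`, `2^50 m k² log 2 ≤ ℓ`, so
`2 - 1/m ≤ ρ_n` and `1/m ≤ 2 · 2^50 k²/ℓ ≤ 2^51 (3 λ)²/ℓ`. For `3 ≤ n < n₀` the number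
`λ²/ℓ` is bounded below by a positive constant (finitely many values), so with `C` large
`2 - C λ²/ℓ ≤ 0`. -/
def RATStmt : Prop := ∃ C : ℝ, ∀ n : ℕ, 3 ≤ n →
  ENNReal.ofReal (2 - C * Real.log (Real.log n) ^ 2 / Real.log n) ≤ Helper18_Proj.rho n

end Pool.Agent.RHO
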