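import Pool.Agent.RHO.LE2
import Pool.Agent.RHO.Stmts

/-!
# The limit from the explicit form
-/

set_option autoImplicit false

namespace Pool.Agent.RHO

open Filter Topology

theorem q_of (h1 : CFGStmt) (h2 : MAIStmt) : QStmt := by
  intro q k N hq hk hN hlog
  obtain ⟨D, g, M, E, J, i1, i2, i3, i4, ⟨C⟩⟩ := h1 q k N hq hk hN hlog
  exact h2 q N D g M E J C

theorem limit_of (h : EXPStmt) : Tendsto Helper18_Proj.rho atTop (𝓝 2) := by
  rw [tendsto_order]
  constructor
  · intro a ha
    have ha' : a ≠ ⊤ := ne_top_of_lt ha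
    have h2 : (2 : ENNReal) = ENNReal.ofReal 2 := by norm_num
    rw [h2, ENNReal.lt_ofReal_iff_toReal_lt ha'] at ha
    obtain ⟨m, hm⟩ := exists_nat_gt (1 / (2 - a.toReal))
    have hpos : 0 < 2 - a.toReal := by linarith
    have hm0 : (0:ℝ) < m := lt_trans (by positivity) hm
    have hm1 : 1 ≤ m := by exact_mod_cast hm0
    have hm2 : 1 / (m:ℝ) < 2 - a.toReal := by
      rw [div_lt_comm₀ hpos hm0] at hm
      exact hm
    filter_upwards [eventually_ge_atTop (2 ^ (2 ^ 50 * m * m ^ 2))] with n hn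
    refine lt_of_lt_of_le ?_ (h m m n hm1 hm1 Nat.lt_two_pow_self.le hn)
    rw [ENNReal.lt_ofReal_iff_toReal_lt ha']
    linarith
  · intro a ha
    filter_upwards [eventually_gt_atTop 0] with n hn
    exact lt_of_le_of_lt (LE2.rho_le_two n hn) ha

end Pool.Agent.RHO
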