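import Pool.Agent.RHO.Kit

/-!
# MP_ca8ef3_an, row MAI: the bound for given data
-/

set_option autoImplicit false

namespace Pool.Agent.RHO

open Finset

theorem mai (nrm : NRMStmt) (cor : CORStmt) (hb : HBStmt) : MAIStmt := by
  intro q N D g M E J _ _ _ _ C
  classical
  have hq : (16:ℝ) ≤ q := by exact_mod_cast C.hq
  have hq0 : (0:ℝ) < q := by linarith
  have hd0 : 0 < dl q := dl_pos C.hq
  have hdq : dl q * (16 * q) = 1 := by
    unfold dl
    field_simp
  have h2q : (2:ℝ) / q = 32 * dl q := by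
    rw [div_eq_iff hq0.ne']
    linarith
  have h4q : (4:ℝ) / q = 64 * dl q := by
    rw [div_eq_iff hq0.ne']
    linarith
  refine hb N {p : (J × Fin M) × Finset E // C.T.St p.2} (fun i => C.gam i.1) (1 + 6 * dl q)
    (2 - 4 / q) C.hN (by linarith) (by rw [h4q]; linarith) ?_ ?_
  · intro ψ hψ
    have h1 : √(ip ψ ψ) ≤ 0 := nrm q N D g M E J C ψ 0 fun j => hψ ⟨(j, C.T.base), C.T.base_st⟩
    have h2 : ip ψ ψ ≤ 0 := Real.sqrt_eq_zero'.1 (le_antisymm h1 (Real.sqrt_nonneg _))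
    have h3 : ip ψ ψ = 0 := le_antisymm h2 (ip_self_nonneg ψ)
    unfold ip at h3
    rw [Finset.sum_eq_zero_iff_of_nonneg fun l _ => mul_self_nonneg _] at h3
    funext l
    exact mul_self_eq_zero.1 (h3 l (Finset.mem_univ l))
  · intro c ψ ξ hc hψ h1 h2 h3
    obtain ⟨v, i, h4, h5⟩ := cor q N D g M E J {p : (J × Fin M) × Finset E // C.T.St p.2} C
      (fun i => i.1) c ψ ξ (fun i => i.2) (fun j u hu => ⟨⟨(j, u), hu⟩, rfl⟩) hc hψ h1 h2 h3
    refine ⟨v, i, h4, le_trans ?_ h5⟩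
    rw [h4q, h2q]
    nlinarith [mul_pos hd0 hd0]

end Pool.Agent.RHO
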