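import Pool.Agent.RHO.Kit

/-!
# MP_ca8ef3_an, row NET (helper82): few vectors whose convex hull contains a ball
-/

set_option autoImplicit false

namespace Pool.Agent.RHO

open Finset

namespace NETH

variable {N : ℕ}

/-- the integer points -/
noncomputable def zv (B k : ℕ) (hk : ∀ l : Fin N, (l : ℕ) / B < k)
    (j : Fin B × (Fin k → Fin (10 * k + 1))) (l : Fin N) : ℝ :=
  if (l : ℕ) % B = (j.1 : ℕ) then ((j.2 ⟨(l : ℕ) / B, hk l⟩ : ℕ) : ℝ) - 5 * (k : ℝ) else 0

open Classical in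
/-- the vectors -/
noncomputable def bv (B k : ℕ) (hk : ∀ l : Fin N, (l : ℕ) / B < k)
    (j : Fin B × (Fin k → Fin (10 * k + 1))) : Fin N → ℝ :=
  if ip (zv B k hk j) (zv B k hk j) ≤ 25 * k then (1 / (5 * √(k : ℝ))) • zv B k hk j else 0

theorem bv_le (B k : ℕ) (hk1 : 1 ≤ k) (hk : ∀ l : Fin N, (l : ℕ) / B < k)
    (j : Fin B × (Fin k → Fin (10 * k + 1))) : ip (bv B k hk j) (bv B k hk j) ≤ 1 := by
  have hk0 : (0 : ℝ) < k := by exact_mod_cast hk1
  unfold bv
  split_ifs with h
  · rw [ip_smul_left, ip_smul_right, ← mul_assoc, div_mul_div_comm]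
    have e : 5 * √(k : ℝ) * (5 * √(k : ℝ)) = 25 * k := by
      have := Real.mul_self_sqrt hk0.le
      linear_combination 25 * this
    rw [e, one_mul, div_mul_eq_mul_div, one_mul, div_le_one (by positivity)]
    exact h
  · rw [ip_zero_left]
    exact zero_le_one

/-- the block -/
def blk (N B : ℕ) (β : ℕ) : Finset (Fin N) := univ.filter fun l : Fin N => (l : ℕ) % B = β

theorem card_blk (B k : ℕ) (hk : ∀ l : Fin N, (l : ℕ) / B < k) (β : ℕ) :
    (blk N B β).card ≤ k := by
  have h : (blk N B β).card ≤ (univ : Finset (Fin k)).card := by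
    refine Finset.card_le_card_of_injOn (fun l => (⟨(l : ℕ) / B, hk l⟩ : Fin k))
      (fun _ _ => Finset.mem_coe.2 (mem_univ _)) ?_
    intro a ha c hc hac
    have h1 : (a : ℕ) / B = (c : ℕ) / B := congrArg Fin.val hac
    have h2 : (a : ℕ) % B = β := (mem_filter.1 (Finset.mem_coe.1 ha)).2
    have h3 : (c : ℕ) % B = β := (mem_filter.1 (Finset.mem_coe.1 hc)).2
    apply Fin.ext
    have e1 := Nat.div_add_mod (a : ℕ) B
    have e2 := Nat.div_add_mod (c : ℕ) B
    rw [h1, h2] at e1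
    rw [h3] at e2
    omega
  simpa using h

/-- the sum of squares over a block -/
noncomputable def S (B : ℕ) (ψ : Fin N → ℝ) (β : ℕ) : ℝ := ∑ l ∈ blk N B β, ψ l ^ 2

theorem S_nonneg (B : ℕ) (ψ : Fin N → ℝ) (β : ℕ) : 0 ≤ S B ψ β :=
  Finset.sum_nonneg fun _ _ => sq_nonneg _

theorem sum_S {B : ℕ} (hB : 1 ≤ B) (ψ : Fin N → ℝ) :
    ∑ β : Fin B, S B ψ (β : ℕ) = ip ψ ψ := by
  have h := Finset.sum_fiberwise_of_maps_to (s := (univ : Finset (Fin N)))
    (t := (univ : Finset (Fin B)))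
    (g := fun l : Fin N => (⟨(l : ℕ) % B, Nat.mod_lt _ hB⟩ : Fin B)) (fun _ _ => mem_univ _)
    (fun l => ψ l * ψ l)
  unfold ip
  rw [← h]
  refine Finset.sum_congr rfl fun β _ => ?_
  unfold S blk
  have e : (univ.filter fun l : Fin N => (l : ℕ) % B = (β : ℕ)) =
      univ.filter fun l : Fin N => (⟨(l : ℕ) % B, Nat.mod_lt _ hB⟩ : Fin B) = β := by
    refine Finset.filter_congr fun l _ => ?_
    constructor
    · intro h; exact Fin.ext h
    · intro h; exact congrArg Fin.val h
  rw [e]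
  exact Finset.sum_congr rfl fun l _ => by ring

/-- a block with a large part of the norm -/
theorem exists_blk {B : ℕ} (hB : 1 ≤ B) (ψ : Fin N → ℝ) :
    ∃ β : Fin B, ip ψ ψ ≤ B * S B ψ (β : ℕ) := by
  have : Nonempty (Fin B) := ⟨⟨0, hB⟩⟩
  obtain ⟨β, _, hβ⟩ := Finset.exists_max_image (univ : Finset (Fin B))
    (fun β => S B ψ (β : ℕ)) univ_nonempty
  refine ⟨β, ?_⟩
  rw [← sum_S hB ψ]
  have := Finset.sum_le_card_nsmul (univ : Finset (Fin B)) (fun β => S B ψ (β : ℕ))
    (S B ψ (β : ℕ)) hβ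
  simpa using this

/-- approximation by an integer vector -/
theorem approx (B k : ℕ) (hk1 : 1 ≤ k) (hk : ∀ l : Fin N, (l : ℕ) / B < k) (y : Fin N → ℝ)
    (β : ℕ) (hy : ∀ l : Fin N, (l : ℕ) % B ≠ β → y l = 0) (hy2 : ip y y = 16 * k) :
    ip (fun l => (round (y l) : ℝ)) (fun l => (round (y l) : ℝ)) ≤ 25 * k ∧
    14 * (k : ℝ) ≤ ip y (fun l => (round (y l) : ℝ)) := by
  have hk0 : (0 : ℝ) < k := by exact_mod_cast hk1
  set z : Fin N → ℝ := fun l => (round (y l) : ℝ) with hz
  have hd : ip (z - y) (z - y) ≤ k / 4 := by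
    have h1 : ip (z - y) (z - y) = ∑ l ∈ blk N B β, (z l - y l) ^ 2 := by
      unfold ip
      have h2 : ∀ l ∈ (univ : Finset (Fin N)), l ∉ blk N B β →
          (z - y) l * (z - y) l = 0 := by
        intro l _ hl
        have h3 : (l : ℕ) % B ≠ β := fun h => hl (mem_filter.2 ⟨mem_univ _, h⟩)
        have h4 : (z - y) l = 0 := by
          show (round (y l) : ℝ) - y l = 0
          rw [hy l h3]
          simp
        rw [h4, mul_zero]
      rw [← Finset.sum_subset (subset_univ (blk N B β)) h2]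
      exact Finset.sum_congr rfl fun l _ => by rw [Pi.sub_apply]; ring
    rw [h1]
    have h5 : ∀ l ∈ blk N B β, (z l - y l) ^ 2 ≤ 1 / 4 := by
      intro l _
      have h6 := abs_sub_round (y l)
      have h7 : |z l - y l| ≤ 1 / 2 := by rw [abs_sub_comm]; exact h6
      rw [← sq_abs]
      nlinarith [abs_nonneg (z l - y l)]
    refine (Finset.sum_le_card_nsmul _ _ _ h5).trans ?_
    rw [nsmul_eq_mul]
    have h8 : ((blk N B β).card : ℝ) ≤ k := by exact_mod_cast card_blk B k hk β
    linarith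
  have hcs := abs_ip_le y (z - y)
  have hsq : √(ip y y) * √(ip (z - y) (z - y)) ≤ 2 * k := by
    rw [← Real.sqrt_mul (ip_self_nonneg y), hy2]
    apply Real.sqrt_le_iff.2
    refine ⟨by positivity, ?_⟩
    nlinarith [ip_self_nonneg (z - y)]
  have habs := abs_le.1 (hcs.trans hsq)
  have e1 : ip y z = ip y y + ip y (z - y) := by
    rw [ip_sub_right]; ring
  have e2 : ip z z = ip y y + 2 * ip y (z - y) + ip (z - y) (z - y) := by
    have g1 := ip_sub_right (z - y) z y
    have g2 := ip_sub_left z y z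
    have g3 := ip_sub_left z y y
    have g4 := ip_comm z y
    linarith
  constructor
  · rw [e2, hy2]; linarith [habs.2]
  · rw [e1, hy2]; linarith [habs.1]

theorem main (B k : ℕ) (hB : 1 ≤ B) (hk1 : 1 ≤ k) (hk : ∀ l : Fin N, (l : ℕ) / B < k)
    (ψ : Fin N → ℝ) : ∃ j, √(ip ψ ψ) ≤ 2 * √(B : ℝ) * ip ψ (bv B k hk j) := by
  classical
  have hk0 : (0 : ℝ) < k := by exact_mod_cast hk1
  have hk1' : (1 : ℝ) ≤ k := by exact_mod_cast hk1
  have hB0 : (0 : ℝ) < B := by exact_mod_cast hB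
  obtain ⟨β, hβ⟩ := exists_blk hB ψ
  set s := S B ψ (β : ℕ) with hs
  rcases (S_nonneg B ψ (β : ℕ)).eq_or_lt with h0 | hpos
  · -- the trivial case
    rw [← hs] at h0
    rw [← h0, mul_zero] at hβ
    have h1 : ip ψ ψ = 0 := le_antisymm hβ (ip_self_nonneg ψ)
    refine ⟨(β, fun _ => 0), ?_⟩
    rw [h1, Real.sqrt_zero]
    have h2 := abs_ip_le ψ (bv B k hk (β, fun _ => 0))
    rw [h1, Real.sqrt_zero, zero_mul] at h2
    have h3 : ip ψ (bv B k hk (β, fun _ => 0)) = 0 := abs_nonpos_iff.1 h2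
    rw [h3, mul_zero]
  · rw [← hs] at hpos
    have hss : 0 < √s := Real.sqrt_pos.2 hpos
    have hsk : 0 < √(k : ℝ) := Real.sqrt_pos.2 hk0
    have hskk : √(k : ℝ) ≤ k := by
      rw [Real.sqrt_le_left hk0.le]
      nlinarith
    have hs2 : √s * √s = s := Real.mul_self_sqrt hpos.le
    have hk2 : √(k : ℝ) * √(k : ℝ) = k := Real.mul_self_sqrt hk0.le
    -- the scaled vector
    set y : Fin N → ℝ := fun l => if (l : ℕ) % B = (β : ℕ) then 4 * √(k : ℝ) * ψ l / √s else 0
      with hy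
    have hyz : ∀ l : Fin N, (l : ℕ) % B ≠ (β : ℕ) → y l = 0 := by
      intro l hl
      rw [hy]
      exact if_neg hl
    have hyb : ∀ l ∈ blk N B (β : ℕ), y l = 4 * √(k : ℝ) * ψ l / √s := by
      intro l hl
      rw [hy]
      exact if_pos (mem_filter.1 hl).2
    have hysum : ∀ w : Fin N → ℝ, ip y w = 4 * √(k : ℝ) / √s * ∑ l ∈ blk N B (β : ℕ), ψ l * w l := by
      intro w
      unfold ip
      have h2 : ∀ l ∈ (univ : Finset (Fin N)), l ∉ blk N B (β : ℕ) → y l * w l = 0 := by
        intro l _ hl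
        rw [hyz l fun h => hl (mem_filter.2 ⟨mem_univ _, h⟩), zero_mul]
      rw [← Finset.sum_subset (subset_univ (blk N B (β : ℕ))) h2, Finset.mul_sum]
      refine Finset.sum_congr rfl fun l hl => ?_
      rw [hyb l hl]
      ring
    have hy2 : ip y y = 16 * k := by
      rw [hysum]
      have hsS : s = ∑ l ∈ blk N B (β : ℕ), ψ l ^ 2 := rfl
      have h3 : ∑ l ∈ blk N B (β : ℕ), ψ l * y l = 4 * √(k : ℝ) / √s * s := by
        have h4 : ∑ l ∈ blk N B (β : ℕ), ψ l * y l =
            4 * √(k : ℝ) / √s * ∑ l ∈ blk N B (β : ℕ), ψ l ^ 2 := by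
          rw [Finset.mul_sum]
          refine Finset.sum_congr rfl fun l hl => ?_
          rw [hyb l hl]
          ring
        rw [h4, ← hsS]
      rw [h3]
      calc 4 * √(k : ℝ) / √s * (4 * √(k : ℝ) / √s * s)
          = 16 * (√(k : ℝ) * √(k : ℝ)) * s / (√s * √s) := by
            field_simp
            ring
        _ = 16 * k := by
            rw [hs2, hk2]
            field_simp
    obtain ⟨a1, a2⟩ := approx B k hk1 hk y (β : ℕ) hyz hy2
    have hya : ∀ l, |y l| ≤ 4 * √(k : ℝ) := by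
      intro l
      have h4 : y l ^ 2 ≤ 16 * k := by
        rw [← hy2]
        unfold ip
        have := Finset.single_le_sum (f := fun l => y l * y l) (fun i _ => mul_self_nonneg (y i))
          (mem_univ l)
        calc y l ^ 2 = y l * y l := by ring
          _ ≤ _ := this
      apply abs_le_of_sq_le_sq (b := 4 * √(k : ℝ))
      · calc y l ^ 2 ≤ 16 * k := h4
          _ = (4 * √(k : ℝ)) ^ 2 := by linear_combination -16 * hk2
      · positivity
    have hrd : ∀ l, 0 ≤ round (y l) + 5 * (k : ℤ) ∧ round (y l) + 5 * (k : ℤ) < 10 * k + 1 := by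
      intro l
      have h5 := abs_sub_round (y l)
      have h6 := hya l
      have h7 : |(round (y l) : ℝ)| ≤ 5 * k := by
        have h8 : |(round (y l) : ℝ)| ≤ |y l| + |y l - round (y l)| := by
          have := abs_sub_abs_le_abs_sub (round (y l) : ℝ) (y l)
          rw [abs_sub_comm] at this
          linarith
        have h9 : (1 : ℝ) / 2 ≤ k := by linarith
        linarith
      have h8 := abs_le.1 h7
      constructor
      · have : (0 : ℝ) ≤ ((round (y l) + 5 * (k : ℤ) : ℤ) : ℝ) := by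
          push_cast
          linarith [h8.1]
        exact_mod_cast this
      · have : ((round (y l) + 5 * (k : ℤ) : ℤ) : ℝ) < ((10 * (k : ℤ) + 1 : ℤ) : ℝ) := by
          push_cast
          linarith [h8.2]
        exact_mod_cast this
    -- the index
    let f : Fin k → Fin (10 * k + 1) := fun i =>
      if h : (i : ℕ) * B + (β : ℕ) < N then
        ⟨(round (y ⟨(i : ℕ) * B + (β : ℕ), h⟩) + 5 * (k : ℤ)).toNat, by
          have := hrd ⟨(i : ℕ) * B + (β : ℕ), h⟩
          omega⟩
      else 0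
    have hzv : zv B k hk (β, f) = fun l => (round (y l) : ℝ) := by
      funext l
      unfold zv
      by_cases hl : (l : ℕ) % B = (β : ℕ)
      · rw [if_pos hl]
        have e0 : (l : ℕ) / B * B + (β : ℕ) = (l : ℕ) := by
          have := Nat.div_add_mod (l : ℕ) B
          rw [hl, mul_comm] at this
          exact this
        have hlt : (l : ℕ) / B * B + (β : ℕ) < N := by rw [e0]; exact l.2
        have e1 : (⟨(l : ℕ) / B * B + (β : ℕ), hlt⟩ : Fin N) = l := Fin.ext e0
        have e2 : ((f ⟨(l : ℕ) / B, hk l⟩ : ℕ)) = (round (y l) + 5 * (k : ℤ)).toNat := by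
          show ((if h : (l : ℕ) / B * B + (β : ℕ) < N then _ else _ : Fin (10 * k + 1)) : ℕ) = _
          rw [dif_pos hlt]
          show (round (y ⟨(l : ℕ) / B * B + (β : ℕ), hlt⟩) + 5 * (k : ℤ)).toNat = _
          rw [e1]
        show ((f ⟨(l : ℕ) / B, hk l⟩ : ℕ) : ℝ) - 5 * (k : ℝ) = _
        rw [e2]
        have e3 : (((round (y l) + 5 * (k : ℤ)).toNat : ℕ) : ℤ) = round (y l) + 5 * (k : ℤ) :=
          Int.toNat_of_nonneg (hrd l).1
        have e4 : (((round (y l) + 5 * (k : ℤ)).toNat : ℕ) : ℝ) =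
            ((round (y l) + 5 * (k : ℤ) : ℤ) : ℝ) := by
          rw [← e3]
          norm_cast
        rw [e4]
        push_cast
        ring
      · rw [if_neg hl, hyz l hl]
        simp
    refine ⟨(β, f), ?_⟩
    have hbv : bv B k hk (β, f) = (1 / (5 * √(k : ℝ))) • fun l => (round (y l) : ℝ) := by
      unfold bv
      rw [hzv, if_pos a1]
    rw [hbv, ip_smul_right]
    -- `ψ` against the integer vector
    have e5 : ip ψ (fun l => (round (y l) : ℝ)) =
        √s / (4 * √(k : ℝ)) * ip y (fun l => (round (y l) : ℝ)) := by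
      rw [hysum]
      have h2 : ∀ l ∈ (univ : Finset (Fin N)), l ∉ blk N B (β : ℕ) →
          ψ l * (fun l => (round (y l) : ℝ)) l = 0 := by
        intro l _ hl
        show ψ l * (round (y l) : ℝ) = 0
        rw [hyz l fun h => hl (mem_filter.2 ⟨mem_univ _, h⟩)]
        simp
      unfold ip
      rw [← Finset.sum_subset (subset_univ (blk N B (β : ℕ))) h2, ← mul_assoc]
      have e6 : √s / (4 * √(k : ℝ)) * (4 * √(k : ℝ) / √s) = 1 := by field_simp
      rw [e6, one_mul]
    rw [e5]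
    have h10 : √(ip ψ ψ) ≤ √(B : ℝ) * √s := by
      rw [← Real.sqrt_mul hB0.le]
      exact Real.sqrt_le_sqrt hβ
    have h11 : 7 / 10 * √s ≤ 1 / (5 * √(k : ℝ)) * (√s / (4 * √(k : ℝ)) *
        ip y (fun l => (round (y l) : ℝ))) := by
      have e7 : 1 / (5 * √(k : ℝ)) * (√s / (4 * √(k : ℝ)) * ip y (fun l => (round (y l) : ℝ))) =
          √s / (20 * k) * ip y (fun l => (round (y l) : ℝ)) := by
        have e9 : 5 * √(k : ℝ) * (4 * √(k : ℝ)) = 20 * k := by linear_combination 20 * hk2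
        rw [← mul_assoc, div_mul_div_comm, one_mul, e9]
      rw [e7]
      have e8 : 7 / 10 * √s = √s / (20 * k) * (14 * k) := by
        field_simp
        ring
      rw [e8]
      exact mul_le_mul_of_nonneg_left a2 (by positivity)
    have h12 : 0 ≤ √(B : ℝ) := Real.sqrt_nonneg _
    calc √(ip ψ ψ) ≤ √(B : ℝ) * √s := h10
      _ ≤ 2 * √(B : ℝ) * (7 / 10 * √s) := by nlinarith [mul_nonneg h12 hss.le]
      _ ≤ _ := mul_le_mul_of_nonneg_left h11 (by positivity)

end NETH

/-- row NET -/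
theorem net : NETStmt := by
  intro N B hB hN
  have hk : ∀ l : Fin N, (l : ℕ) / B < N / B + 1 := fun l =>
    Nat.lt_succ_of_le (Nat.div_le_div_right l.2.le)
  refine ⟨Fin B × (Fin (N / B + 1) → Fin (10 * (N / B + 1) + 1)), inferInstance, inferInstance,
    ⟨(⟨0, hB⟩, fun _ => 0)⟩, NETH.bv B (N / B + 1) hk, ?_, ?_, ?_⟩
  · rw [Fintype.card_prod, Fintype.card_fun, Fintype.card_fin, Fintype.card_fin,
      Fintype.card_fin]
    apply Nat.mul_le_mul_left
    apply Nat.pow_le_pow_left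
    have := Nat.div_le_self N B
    omega
  · exact NETH.bv_le B (N / B + 1) (Nat.le_add_left 1 _) hk
  · exact NETH.main B (N / B + 1) hB (Nat.le_add_left 1 _) hk

end Pool.Agent.RHO
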