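import Pool.Agent.RHO.Stmts

/-!
# MP_ca8ef3_an, row NRM (helper17): the Euclidean norm is at most the norm
-/

set_option autoImplicit false

namespace Pool.Agent.RHO

open Finset

namespace H17

theorem ip_sq {N : ℕ} (x y : Fin N → ℝ) : ip x y ^ 2 ≤ ip x x * ip y y := by
  unfold ip
  have h := Finset.sum_mul_sq_le_sq_mul_sq univ x y
  simpa [sq] using h

theorem ip_self {N : ℕ} (x : Fin N → ℝ) : 0 ≤ ip x x :=
  sum_nonneg fun l _ => mul_self_nonneg (x l)

theorem ip_sum {N M : ℕ} (x : Fin N → ℝ) (v : Fin M → Fin N → ℝ) :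
    ip x (fun l => ∑ i, v i l) = ∑ i, ip x (v i) := by
  unfold ip
  rw [sum_comm]
  refine sum_congr rfl fun l _ => ?_
  rw [mul_sum]

theorem ip_sum2 {N M : ℕ} (v : Fin M → Fin N → ℝ) :
    ip (fun l => ∑ i, v i l) (fun l => ∑ i, v i l) = ∑ i, ∑ i', ip (v i) (v i') := by
  rw [ip_sum, sum_comm]
  refine sum_congr rfl fun i' _ => ?_
  unfold ip
  rw [sum_comm]
  refine sum_congr rfl fun l _ => ?_
  rw [sum_mul]

end H17

open H17

/-- NRM -/
theorem nrm : NRMStmt := by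
  intro q N D g M E J _ _ C ψ A hA
  obtain ⟨j₀, hj₀⟩ := C.net ψ
  obtain ⟨n, hn⟩ : ∃ n, n = √(ip ψ ψ) := ⟨_, rfl⟩
  rw [← hn] at hj₀ ⊢
  have hn0 : 0 ≤ n := by
    rw [hn]
    exact Real.sqrt_nonneg _
  have hn2 : ip ψ ψ = n ^ 2 := by
    rw [hn, Real.sq_sqrt (ip_self ψ)]
  have hN : (0 : ℝ) < N := by exact_mod_cast C.hN
  have hM : (0 : ℝ) < M := by exact_mod_cast C.hM0
  have hd0 : hd C.T.base C.T.base = 0 := by
    unfold hd
    simp
  -- one vector
  have h1 : ∀ i : Fin M, 2 * n + ip ψ (C.gv (j₀, i) C.T.base) ≤ A := by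
    intro i
    refine le_trans ?_ ((le_abs_self _).trans (hA (j₀, i)))
    have h2 : ip ψ (C.gam ((j₀, i), C.T.base)) =
        2 * (C.R' * ip ψ (C.b j₀)) + ip ψ (C.gv (j₀, i) C.T.base) := by
      have h3 : C.av C.T.base = 2 * C.R' := by
        unfold Cfg.av
        rw [hd0, pow_zero, mul_one]
      unfold ip Cfg.gam
      simp only [h3]
      rw [mul_sum, mul_sum, ← sum_add_distrib]
      refine sum_congr rfl fun l _ => ?_
      ring
    rw [h2]
    linarith
  -- the sum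
  obtain ⟨G, hG⟩ : ∃ G : Fin N → ℝ, G = fun l => ∑ i : Fin M, C.gv (j₀, i) C.T.base l := ⟨_, rfl⟩
  have h4 : 2 * n * M + ip ψ G ≤ M * A := by
    have h5 : ∑ i : Fin M, (2 * n + ip ψ (C.gv (j₀, i) C.T.base)) ≤ ∑ _i : Fin M, A :=
      sum_le_sum fun i _ => h1 i
    rw [sum_add_distrib, sum_const, sum_const, card_univ, Fintype.card_fin, nsmul_eq_mul,
      nsmul_eq_mul] at h5
    rw [hG, ip_sum]
    linarith
  -- its Euclidean norm
  have h6 : ip G G ≤ (M : ℝ) ^ 2 := by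
    have h7 : ∀ i i' : Fin M, ip (C.gv (j₀, i) C.T.base) (C.gv (j₀, i') C.T.base) =
        C.R ^ 2 / N * ip (C.s (j₀, i) C.T.base) (C.s (j₀, i') C.T.base) := by
      intro i i'
      unfold ip Cfg.gv
      rw [mul_sum]
      refine sum_congr rfl fun l _ => ?_
      have h8 : C.R / √(N : ℝ) * (C.R / √(N : ℝ)) = C.R ^ 2 / N := by
        rw [div_mul_div_comm, Real.mul_self_sqrt hN.le, sq]
      rw [← h8]
      ring
    have h10 : ∀ i i' : Fin M, ip (C.s (j₀, i) C.T.base) (C.s (j₀, i') C.T.base) ≤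
        (if i = i' then (N : ℝ) else 0) + C.τ * N := by
      intro i i'
      have h11 := (abs_le.1 (C.gram (j₀, i) (j₀, i') C.T.base C.T.base)).2
      rw [hd0, pow_zero, mul_one] at h11
      by_cases hii : i = i'
      · rw [if_pos (by rw [hii])] at h11
        rw [if_pos hii]
        linarith
      · rw [if_neg (fun h => hii (Prod.mk.inj h).2)] at h11
        rw [if_neg hii]
        linarith
    rw [hG, ip_sum2]
    simp_rw [h7]
    have hRN : 0 ≤ C.R ^ 2 / N := by positivity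
    calc ∑ i : Fin M, ∑ i' : Fin M, C.R ^ 2 / N * ip (C.s (j₀, i) C.T.base) (C.s (j₀, i') C.T.base)
        ≤ ∑ i : Fin M, ∑ i' : Fin M, C.R ^ 2 / N * ((if i = i' then (N : ℝ) else 0) + C.τ * N) :=
          sum_le_sum fun i _ => sum_le_sum fun i' _ => mul_le_mul_of_nonneg_left (h10 i i') hRN
      _ = C.R ^ 2 / N * (M * N + M * (M * (C.τ * N))) := by
          simp_rw [← mul_sum, sum_add_distrib]
          simp
      _ = C.R ^ 2 * M + C.τ * C.R ^ 2 * M ^ 2 := by
          field_simp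
      _ ≤ (M : ℝ) ^ 2 := by
          have h12 := mul_le_mul_of_nonneg_right C.hM hM.le
          have h13 := mul_le_mul_of_nonneg_right C.c1 (sq_nonneg (M : ℝ))
          nlinarith
  have h14 : |ip ψ G| ≤ n * M := by
    apply abs_le_of_sq_le_sq _ (by positivity)
    calc ip ψ G ^ 2 ≤ ip ψ ψ * ip G G := ip_sq ψ G
      _ ≤ n ^ 2 * (M : ℝ) ^ 2 := by
          rw [hn2]
          exact mul_le_mul_of_nonneg_left h6 (sq_nonneg n)
      _ = (n * M) ^ 2 := by ring
  have h15 := (abs_le.1 h14).1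
  have h16 : M * n ≤ M * A := by linarith
  exact le_of_mul_le_mul_left h16 hM

end Pool.Agent.RHO
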