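import Pool.Agent.RHO.Stmts

/-!
# Row NU1
-/

set_option autoImplicit false

namespace Pool.Agent.RHO

theorem nu1 : NU1Stmt := by
  intro q k hq hqk
  have h16 : (16:ℝ) ≤ q := by exact_mod_cast hq
  have hr0 : 0 ≤ rr q := by
    unfold rr
    have : 2 / (q:ℝ) ≤ 2 / 16 := div_le_div_of_nonneg_left (by norm_num) (by norm_num) h16
    linarith
  have h1 : rr q ^ q ≤ 1 / 4 := by
    have h2 : rr q ^ q ≤ Real.exp (-2) := by
      unfold rr
      exact Real.one_sub_div_pow_le_exp_neg (by linarith)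
    have h3 : Real.exp (-2) ≤ 1 / 4 := by
      rw [Real.exp_neg, inv_eq_one_div]
      apply one_div_le_one_div_of_le (by norm_num)
      have h4 : (2.7182818283 : ℝ) < Real.exp 1 := Real.exp_one_gt_d9
      have h5 : Real.exp 2 = Real.exp 1 * Real.exp 1 := by
        rw [← Real.exp_add]
        norm_num
      rw [h5]
      nlinarith
    linarith
  have h2 : rr q ^ (q * (7 * k + 21)) ≤ (1 / 4) ^ (7 * k + 21) := by
    rw [pow_mul]
    exact pow_le_pow_left₀ (pow_nonneg hr0 _) h1 _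
  have hqk' : (q:ℝ) ≤ 2 ^ k := by exact_mod_cast hqk
  have h3 : (q:ℝ) ^ 13 ≤ (2 ^ k) ^ 13 := pow_le_pow_left₀ (by linarith) hqk' _
  calc 2 ^ 42 * (q:ℝ) ^ 13 * rr q ^ (q * (7 * k + 21)) ≤
      2 ^ 42 * (2 ^ k) ^ 13 * (1 / 4) ^ (7 * k + 21) := by
        apply mul_le_mul _ h2 (pow_nonneg hr0 _) (by positivity)
        exact mul_le_mul_of_nonneg_left h3 (by norm_num)
    _ = 2 ^ (42 + k * 13) * (1 / 4) ^ (7 * k + 21) := by
        congr 1
        rw [pow_add, pow_mul]
    _ ≤ 4 ^ (7 * k + 21) * (1 / 4) ^ (7 * k + 21) := by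
        apply mul_le_mul_of_nonneg_right _ (by positivity)
        have : (4:ℝ) = 2 ^ 2 := by norm_num
        rw [this, ← pow_mul]
        apply pow_le_pow_right₀ (by norm_num)
        omega
    _ = 1 := by
        rw [← mul_pow]
        norm_num

end Pool.Agent.RHO
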