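import Pool.Agent.RHO.Stmts

/-!
# Row NU2
-/

set_option autoImplicit false

namespace Pool.Agent.RHO

namespace H7

lemma nu2_nat {q k N : ℕ} (hq : 16 ≤ q) (hqk : q ≤ 2 ^ k) (hN : 2 ^ (2000 * q * k ^ 2) ≤ N) :
    2 ^ 69 * q ^ 20 *
      (4 * (4 * (2 ^ 33 * q ^ 10)) ^ (4 * (2 * (q * (7 * k + 21))) + 2)) ≤ N := by
  have hk : 4 ≤ k := by
    by_contra hcon
    push Not at hcon
    have h1 : (2:ℕ) ^ k ≤ 2 ^ 3 := Nat.pow_le_pow_right (by norm_num) (by omega)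
    have h2 : (2:ℕ) ^ 3 = 8 := by norm_num
    omega
  set e1 : ℕ := 4 * (2 * (q * (7 * k + 21))) + 2 with he1
  have h1 : e1 ≤ 104 * (q * k) + 2 := by
    have h2 : q * (7 * k + 21) ≤ q * (13 * k) := Nat.mul_le_mul_left q (by omega)
    have h3 : q * (13 * k) = 13 * (q * k) := by ring
    omega
  have h2 : (35 + 10 * k) * e1 ≤ 19 * k * (104 * (q * k) + 2) :=
    Nat.mul_le_mul (by omega) h1
  have h3 : 71 + 20 * k + (35 + 10 * k) * e1 ≤ 2000 * q * k ^ 2 := by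
    have h4 : 19 * k * (104 * (q * k) + 2) = 1976 * (q * k ^ 2) + 38 * k := by ring
    have h5 : 2000 * q * k ^ 2 = 2000 * (q * k ^ 2) := by ring
    have h6 : 16 * k ^ 2 ≤ q * k ^ 2 := Nat.mul_le_mul_right _ hq
    have h7 : k * 1 ≤ k * k := Nat.mul_le_mul_left k (by omega)
    have h8 : k ^ 2 = k * k := by ring
    rw [h4] at h2
    rw [h5]
    rw [h8] at h6 h2 ⊢
    omega
  have hq20 : q ^ 20 ≤ 2 ^ (20 * k) := by
    calc q ^ 20 ≤ (2 ^ k) ^ 20 := Nat.pow_le_pow_left hqk 20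
      _ = 2 ^ (20 * k) := by rw [← pow_mul, mul_comm]
  have hq10 : q ^ 10 ≤ 2 ^ (10 * k) := by
    calc q ^ 10 ≤ (2 ^ k) ^ 10 := Nat.pow_le_pow_left hqk 10
      _ = 2 ^ (10 * k) := by rw [← pow_mul, mul_comm]
  have hb : 4 * (2 ^ 33 * q ^ 10) ≤ 2 ^ (35 + 10 * k) := by
    calc 4 * (2 ^ 33 * q ^ 10) ≤ 4 * (2 ^ 33 * 2 ^ (10 * k)) :=
          Nat.mul_le_mul_left _ (Nat.mul_le_mul_left _ hq10)
      _ = 2 ^ (35 + 10 * k) := by
          rw [pow_add]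
          ring
  calc 2 ^ 69 * q ^ 20 * (4 * (4 * (2 ^ 33 * q ^ 10)) ^ e1) ≤
      2 ^ 69 * 2 ^ (20 * k) * (4 * (2 ^ (35 + 10 * k)) ^ e1) :=
        Nat.mul_le_mul (Nat.mul_le_mul_left _ hq20)
          (Nat.mul_le_mul_left _ (Nat.pow_le_pow_left hb _))
    _ = 2 ^ (71 + 20 * k + (35 + 10 * k) * e1) := by
        rw [← pow_mul, pow_add, pow_add]
        ring
    _ ≤ 2 ^ (2000 * q * k ^ 2) := Nat.pow_le_pow_right (by norm_num) h3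
    _ ≤ N := hN

lemma four_le : (4:ℝ) ≤ Real.exp (1.4) := by
  have h1 : Real.log 4 = 2 * Real.log 2 := by
    have : (4:ℝ) = 2 ^ 2 := by norm_num
    rw [this, Real.log_pow]
    norm_num
  have h2 := Real.log_two_lt_d9
  have h3 : Real.log 4 ≤ 1.4 := by
    rw [h1]
    norm_num at h2 ⊢
    linarith
  calc (4:ℝ) = Real.exp (Real.log 4) := (Real.exp_log (by norm_num)).symm
    _ ≤ Real.exp 1.4 := Real.exp_le_exp.mpr h3

lemma le_exp' (x : ℝ) : x ≤ Real.exp x := by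
  have := Real.add_one_le_exp x
  linarith

end H7

theorem nu2 : NU2Stmt := by
  intro q k N cJ cE hq hqk hN hlog hcJ hcE
  have hnat := H7.nu2_nat hq hqk hN
  have h16 : (16:ℝ) ≤ q := by exact_mod_cast hq
  have hq0 : (0:ℝ) < q := by linarith
  have hNpos : 0 < N := lt_of_lt_of_le (by positivity) hN
  have hN0 : (0:ℝ) < N := by exact_mod_cast hNpos
  set e1 : ℕ := 4 * (2 * (q * (7 * k + 21))) + 2 with he1
  set T0 : ℝ := 4 * (4 * (2 ^ 33 * (q:ℝ) ^ 10)) ^ e1 with hT0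
  set m : ℕ := N / (2 ^ 70 * q ^ 24) with hm
  set W : ℝ := N / (2 ^ 67 * (q:ℝ) ^ 20) with hW
  -- the numbers
  have hNT : 2 ^ 69 * (q:ℝ) ^ 20 * T0 ≤ N := by
    rw [hT0]
    exact_mod_cast hnat
  have hWT : 4 * T0 ≤ W := by
    rw [hW, le_div_iff₀ (by positivity)]
    have h1 : 4 * T0 * (2 ^ 67 * (q:ℝ) ^ 20) = 2 ^ 69 * (q:ℝ) ^ 20 * T0 := by ring
    rw [h1]
    exact hNT
  have hcE' : (cE : ℝ) ≤ T0 := by
    rw [hT0]
    exact_mod_cast hcE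
  have hq1 : (1:ℝ) ≤ q := by linarith
  have hT1 : 2 ^ 107 * (q:ℝ) ^ 24 ≤ T0 := by
    have h1 : (1:ℝ) ≤ 4 * (2 ^ 33 * (q:ℝ) ^ 10) := by
      have : (1:ℝ) ≤ (q:ℝ) ^ 10 := one_le_pow₀ hq1
      nlinarith
    have h2 : (4 * (2 ^ 33 * (q:ℝ) ^ 10)) ^ 3 ≤ (4 * (2 ^ 33 * (q:ℝ) ^ 10)) ^ e1 := by
      apply pow_le_pow_right₀ h1
      rw [he1]
      have h3 : 16 * 21 ≤ q * (7 * k + 21) := Nat.mul_le_mul hq (by omega)
      omega
    have h3 : (q:ℝ) ^ 24 ≤ (q:ℝ) ^ 30 := pow_le_pow_right₀ hq1 (by norm_num)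
    calc 2 ^ 107 * (q:ℝ) ^ 24 ≤ 2 ^ 107 * (q:ℝ) ^ 30 :=
          mul_le_mul_of_nonneg_left h3 (by positivity)
      _ = 4 * (4 * (2 ^ 33 * (q:ℝ) ^ 10)) ^ 3 := by ring
      _ ≤ T0 := mul_le_mul_of_nonneg_left h2 (by norm_num)
  -- the bound for `cJ`
  set A : ℝ := 2 ^ 70 * (q:ℝ) ^ 24 + (m + 1) * (q:ℝ) ^ 4 + 2 ^ 19 * (q:ℝ) ^ 8 with hA
  have hJ : (cJ : ℝ) ≤ Real.exp A := by
    have h1 : (cJ : ℝ) ≤ (2 ^ 70 * (q:ℝ) ^ 24 * (21 * (N:ℝ)) ^ (m + 1)) * (2 ^ 19 * (q:ℝ) ^ 8) := by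
      exact_mod_cast hcJ
    have h2 : (21 * (N:ℝ)) ^ (m + 1) ≤ Real.exp ((m + 1) * (q:ℝ) ^ 4) := by
      have h3 : 21 * (N:ℝ) ≤ Real.exp ((q:ℝ) ^ 4) := by
        calc 21 * (N:ℝ) = Real.exp (Real.log (21 * N)) := (Real.exp_log (by positivity)).symm
          _ ≤ _ := Real.exp_le_exp.mpr hlog
      calc (21 * (N:ℝ)) ^ (m + 1) ≤ (Real.exp ((q:ℝ) ^ 4)) ^ (m + 1) :=
            pow_le_pow_left₀ (by positivity) h3 _
        _ = Real.exp (((m + 1 : ℕ) : ℝ) * (q:ℝ) ^ 4) := (Real.exp_nat_mul _ _).symm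
        _ = _ := by push_cast; rfl
    calc (cJ : ℝ) ≤ (2 ^ 70 * (q:ℝ) ^ 24 * (21 * (N:ℝ)) ^ (m + 1)) * (2 ^ 19 * (q:ℝ) ^ 8) := h1
      _ ≤ (Real.exp (2 ^ 70 * (q:ℝ) ^ 24) * Real.exp ((m + 1) * (q:ℝ) ^ 4)) *
          Real.exp (2 ^ 19 * (q:ℝ) ^ 8) := by
            apply mul_le_mul _ (H7.le_exp' _) (by positivity) (by positivity)
            exact mul_le_mul (H7.le_exp' _) h2 (by positivity) (by positivity)
      _ = Real.exp A := by rw [hA, Real.exp_add, Real.exp_add]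
  have hE : (4:ℝ) ^ cE ≤ Real.exp (1.4 * cE) := by
    calc (4:ℝ) ^ cE ≤ (Real.exp 1.4) ^ cE := pow_le_pow_left₀ (by norm_num) H7.four_le _
      _ = Real.exp (cE * 1.4) := (Real.exp_nat_mul _ _).symm
      _ = _ := by rw [mul_comm]
  have hWe : (1 / (2 ^ 33 * (q:ℝ) ^ 10)) ^ 2 * N / 2 = W := by
    rw [hW]
    field_simp
  rw [hWe]
  have hcJ2 : (cJ : ℝ) ^ 2 ≤ Real.exp (2 * A) := by
    calc (cJ : ℝ) ^ 2 ≤ (Real.exp A) ^ 2 := pow_le_pow_left₀ (by positivity) hJ _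
      _ = Real.exp (2 * A) := by
          rw [← Real.exp_nat_mul]
          push_cast
          rfl
  have hmW : 2 * ((m:ℝ) * (q:ℝ) ^ 4) ≤ W / 4 := by
    have h1 : (m:ℝ) ≤ N / (2 ^ 70 * (q:ℝ) ^ 24) := by
      have := @Nat.cast_div_le ℝ _ _ _ N (2 ^ 70 * q ^ 24)
      rw [hm]
      refine this.trans (le_of_eq ?_)
      push_cast
      norm_num
    calc 2 * ((m:ℝ) * (q:ℝ) ^ 4) ≤ 2 * (N / (2 ^ 70 * (q:ℝ) ^ 24) * (q:ℝ) ^ 4) := by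
          apply mul_le_mul_of_nonneg_left _ (by norm_num)
          exact mul_le_mul_of_nonneg_right h1 (by positivity)
      _ = W / 4 := by
          rw [hW]
          field_simp
          ring
  have hlt : 1.4 + 2 * A + 1.4 * cE - W < 0 := by
    have h1 : (q:ℝ) ^ 4 ≤ (q:ℝ) ^ 24 := pow_le_pow_right₀ hq1 (by norm_num)
    have h2 : (q:ℝ) ^ 8 ≤ (q:ℝ) ^ 24 := pow_le_pow_right₀ hq1 (by norm_num)
    have h3 : (1:ℝ) ≤ (q:ℝ) ^ 24 := one_le_pow₀ hq1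
    have h4 : 2 * A = 2 ^ 71 * (q:ℝ) ^ 24 + 2 * ((m:ℝ) * (q:ℝ) ^ 4) + 2 * (q:ℝ) ^ 4 +
        2 ^ 20 * (q:ℝ) ^ 8 := by
      rw [hA]
      ring
    rw [h4]
    norm_num at hT1 ⊢
    linarith
  calc 4 * (cJ : ℝ) ^ 2 * 4 ^ cE * Real.exp (-W) ≤
      Real.exp 1.4 * Real.exp (2 * A) * Real.exp (1.4 * cE) * Real.exp (-W) := by
        apply mul_le_mul_of_nonneg_right _ (Real.exp_pos _).le
        apply mul_le_mul _ hE (by positivity) (by positivity)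
        exact mul_le_mul H7.four_le hcJ2 (by positivity) (by positivity)
    _ = Real.exp (1.4 + 2 * A + 1.4 * cE - W) := by
        rw [← Real.exp_add, ← Real.exp_add, ← Real.exp_add]
        rfl
    _ < 1 := by
        rw [Real.exp_lt_one_iff]
        exact hlt

end Pool.Agent.RHO
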