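import Pool.Agent.RHO.Stmts

/-! # MP_ca8ef3_an: row PP1 -/

set_option autoImplicit false

namespace Pool.Agent.RHO

open Finset

/-- A path has at most one edge at its first vertex. -/
theorem path_edge_unique {V : Type} {H : SimpleGraph V} {a b : V} (p : H.Walk a b)
    (hp : p.IsPath) {e e' : Sym2 V} (he : e ∈ p.edges) (he' : e' ∈ p.edges)
    (ha : a ∈ e) (ha' : a ∈ e') : e = e' := by
  cases p with
  | nil => simp at he
  | @cons _ c _ h p' =>
    rw [SimpleGraph.Walk.cons_isPath_iff] at hp
    have key : ∀ f : Sym2 V, f ∈ (SimpleGraph.Walk.cons h p').edges → a ∈ f → f = s(a, c) := by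
      intro f hf haf
      rw [SimpleGraph.Walk.edges_cons, List.mem_cons] at hf
      rcases hf with hf | hf
      · exact hf
      · exact absurd (SimpleGraph.Walk.mem_support_of_mem_edges hf haf) hp.2
    rw [key e he ha, key e' he' ha']

theorem pp1 (pth : PTHStmt) : PP1Stmt := by
  intro V H L hL F a b hF hc hpar e he e' he' ha ha'
  obtain ⟨p, hp, hpe⟩ := pth V H L hL F a b hF hc hpar
  exact path_edge_unique p hp ((hpe e).2 he) ((hpe e').2 he') ha ha'

end Pool.Agent.RHO
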