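import Pool.Agent.RHO.Stmts

/-!
# MP_ca8ef3_an, squad RHO: row PP2
-/

set_option autoImplicit false

namespace Pool.Agent.RHO

open Finset

namespace H32

variable {V : Type}

open Classical in
theorem degF_split (A B : Finset (Sym2 V)) (w : V) :
    degF A w = degF (A ∩ B) w + degF (A \ B) w := by
  unfold degF
  rw [← Finset.card_union_of_disjoint]
  · congr 1
    ext e
    simp only [Finset.mem_filter, Finset.mem_union, Finset.mem_inter, Finset.mem_sdiff]
    tauto
  · rw [Finset.disjoint_left]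
    intro e h1 h2
    rw [Finset.mem_filter] at h1 h2
    exact (Finset.mem_sdiff.1 h2.1).2 (Finset.mem_inter.1 h1.1).2

open Classical in
theorem degF_symmDiff (A B : Finset (Sym2 V)) (w : V) :
    degF (symmDiff A B) w + 2 * degF (A ∩ B) w = degF A w + degF B w := by
  have h1 := degF_split A B w
  have h2 := degF_split B A w
  have h3 : degF (symmDiff A B) w = degF (A \ B) w + degF (B \ A) w := by
    unfold degF
    rw [← Finset.card_union_of_disjoint]
    · congr 1
      ext e
      simp only [Finset.mem_filter, Finset.mem_union, Finset.mem_symmDiff, Finset.mem_sdiff]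
      tauto
    · rw [Finset.disjoint_left]
      intro e h1 h2
      rw [Finset.mem_filter] at h1 h2
      exact (Finset.mem_sdiff.1 h2.1).2 (Finset.mem_sdiff.1 h1.1).1
  rw [Finset.inter_comm] at h2
  omega

open Classical in
theorem degF_walk {H : SimpleGraph V} {a b : V} (p : H.Walk a b) (hp : p.IsPath) (w : V) :
    Even (degF p.edges.toFinset w + bd a b w) := by
  have h1 := hp.isTrail.even_countP_edges_iff w
  have h2 : degF p.edges.toFinset w = p.edges.countP (fun e => w ∈ e) := by
    unfold degF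
    rw [List.countP_eq_length_filter,
      ← List.toFinset_card_of_nodup (hp.isTrail.edges_nodup.filter _)]
    congr 1
    ext e
    simp only [Finset.mem_filter, List.mem_toFinset, List.mem_filter, decide_eq_true_eq]
  rw [h2, Nat.even_add, h1]
  unfold bd
  by_cases ha : w = a
  · by_cases hb : w = b
    · rw [if_pos ha, if_pos hb]
      constructor
      · intro _
        decide
      · intro _ hab
        exact absurd (ha.symm.trans hb) hab
    · rw [if_pos ha, if_neg hb]
      constructor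
      · intro h
        exact absurd ha (h fun hab => hb (ha.trans hab)).1
      · intro h
        exact absurd h (by decide)
  · by_cases hb : w = b
    · rw [if_neg ha, if_pos hb]
      constructor
      · intro h
        exact absurd hb (h fun hab => ha (hb.trans hab.symm)).2
      · intro h
        exact absurd h (by decide)
    · rw [if_neg ha, if_neg hb]
      constructor
      · intro _
        decide
      · intro _ _
        exact ⟨ha, hb⟩

end H32

open H32 in
open Classical in
theorem pp2 (pth : PTHStmt) (pp1 : PP1Stmt) : PP2Stmt := by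
  intro V H L hcyc F₁ F₂ a b₁ b₂ hF₁ hF₂ hc₁ hc₂ he₁ he₂ e heF hae heF₂
  have hcyc' : ∀ v (p : H.Walk v v), p.IsCycle → L < p.length := by
    intro v p hp
    have := hcyc v p hp
    omega
  rw [Finset.disjoint_left]
  intro c h1 h2
  obtain ⟨p₁, hp₁, hpe₁⟩ := pth V H L hcyc' F₁ a b₁ hF₁ hc₁ he₁
  obtain ⟨p₂, hp₂, hpe₂⟩ := pth V H L hcyc' F₂ a b₂ hF₂ hc₂ he₂
  -- an end of `c` different from `a`
  obtain ⟨y, hya, hyc⟩ : ∃ y, y ≠ a ∧ y ∈ c := by
    induction c using Sym2.ind with
    | _ x z =>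
      have hxz : H.Adj x z := hF₁ h1
      by_cases hx : x = a
      · exact ⟨z, fun hz => hxz.ne (hx.trans hz.symm), Sym2.mem_mk_right x z⟩
      · exact ⟨x, hx, Sym2.mem_mk_left x z⟩
  have hy₁ : y ∈ p₁.support := p₁.mem_support_of_mem_edges ((hpe₁ c).2 h1) hyc
  have hy₂ : y ∈ p₂.support := p₂.mem_support_of_mem_edges ((hpe₂ c).2 h2) hyc
  obtain ⟨q₁, hq₁⟩ : ∃ q₁ : H.Walk a y, q₁ = p₁.takeUntil y hy₁ := ⟨_, rfl⟩
  obtain ⟨q₂, hq₂⟩ : ∃ q₂ : H.Walk a y, q₂ = p₂.takeUntil y hy₂ := ⟨_, rfl⟩
  have hqp₁ : q₁.IsPath := by rw [hq₁]; exact hp₁.takeUntil hy₁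
  have hqp₂ : q₂.IsPath := by rw [hq₂]; exact hp₂.takeUntil hy₂
  have hqs₁ : ∀ x ∈ q₁.edges, x ∈ F₁ := by
    intro x hx
    rw [hq₁] at hx
    exact (hpe₁ x).1 (p₁.edges_takeUntil_subset_edges hy₁ hx)
  have hqs₂ : ∀ x ∈ q₂.edges, x ∈ F₂ := by
    intro x hx
    rw [hq₂] at hx
    exact (hpe₂ x).1 (p₂.edges_takeUntil_subset_edges hy₂ hx)
  obtain ⟨A, hA⟩ : ∃ A : Finset (Sym2 V), A = q₁.edges.toFinset := ⟨_, rfl⟩
  obtain ⟨B, hB⟩ : ∃ B : Finset (Sym2 V), B = q₂.edges.toFinset := ⟨_, rfl⟩
  have hAF : A ⊆ F₁ := by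
    intro x hx
    rw [hA, List.mem_toFinset] at hx
    exact hqs₁ x hx
  have hBF : B ⊆ F₂ := by
    intro x hx
    rw [hB, List.mem_toFinset] at hx
    exact hqs₂ x hx
  have hsub : symmDiff A B ⊆ A ∪ B := by
    intro x hx
    rw [Finset.mem_symmDiff] at hx
    rw [Finset.mem_union]
    tauto
  have hF₃ : (symmDiff A B : Set (Sym2 V)) ⊆ H.edgeSet := by
    intro x hx
    rcases hx with hx | hx
    · exact hF₁ (hAF hx.1)
    · exact hF₂ (hBF hx.1)
  have hcard : (symmDiff A B).card ≤ 2 * L := by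
    have h3 := Finset.card_le_card hsub
    have h4 := Finset.card_union_le A B
    have h5 := Finset.card_le_card hAF
    have h6 := Finset.card_le_card hBF
    omega
  have heven : ∀ w, Even (degF (symmDiff A B) w + bd a a w) := by
    intro w
    have h3 := degF_symmDiff A B w
    have h4 := degF_walk q₁ hqp₁ w
    have h5 := degF_walk q₂ hqp₂ w
    rw [← hA] at h4
    rw [← hB] at h5
    have h6 : Even (bd a a w) := by
      unfold bd
      exact ⟨_, rfl⟩
    rw [Nat.even_add] at h4 h5 ⊢
    have h7 : Even (degF A w + degF B w) := by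
      rw [Nat.even_add, h4, h5]
    rw [← h3, Nat.even_add] at h7
    constructor
    · intro _
      exact h6
    · intro _
      exact h7.2 (even_two_mul _)
  have hF₃' : ((symmDiff A B : Finset (Sym2 V)) : Set (Sym2 V)) ⊆ H.edgeSet := by
    rw [Finset.coe_symmDiff]
    exact hF₃
  obtain ⟨p, hp, hpe⟩ := pth V H (2 * L) hcyc (symmDiff A B) a a hF₃' hcard heven
  have hnil : p = SimpleGraph.Walk.nil := SimpleGraph.Walk.isPath_iff_eq_nil.1 hp
  have hempty : symmDiff A B = ∅ := by
    rw [Finset.eq_empty_iff_forall_notMem]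
    intro x hx
    have := (hpe x).2 hx
    rw [hnil] at this
    simp at this
  have hAB : A = B := symmDiff_eq_bot.1 hempty
  -- the first edge of `q₁`
  obtain ⟨e', he', hae'⟩ : ∃ e', e' ∈ q₁.edges ∧ a ∈ e' := by
    cases q₁ with
    | nil => exact absurd rfl hya
    | cons h q => exact ⟨_, List.mem_cons_self, Sym2.mem_mk_left _ _⟩
  have hee : e = e' := pp1 V H L hcyc' F₁ a b₁ hF₁ hc₁ he₁ e heF e' (hqs₁ e' he') hae hae'
  have h8 : e' ∈ A := by
    rw [hA, List.mem_toFinset]
    exact he'
  rw [hAB] at h8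
  exact heF₂ (hee ▸ hBF h8)

end Pool.Agent.RHO
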