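import Pool.Agent.RHO.Stmts

/-!
# MP_ca8ef3_an, row PTH
-/

set_option autoImplicit false

namespace Pool.Agent.RHO

open Finset

namespace PTHH

variable {V : Type}

theorem degF_erase (F : Finset (Sym2 V)) [DecidableEq (Sym2 V)] {x y : V} (hxy : x ≠ y)
    (he : s(x, y) ∈ F) (w : V) : degF F w = degF (F.erase s(x, y)) w + bd x y w := by
  classical
  unfold degF bd
  rw [Finset.filter_erase]
  by_cases hw : w ∈ s(x, y)
  · have h1 : s(x, y) ∈ F.filter (fun e => w ∈ e) := Finset.mem_filter.2 ⟨he, hw⟩
    have h2 := Finset.card_erase_add_one h1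
    have h3 : (if w = x then 1 else 0) + (if w = y then 1 else 0) = 1 := by
      rcases Sym2.mem_iff.1 hw with rfl | rfl
      · rw [if_pos rfl, if_neg hxy]
      · rw [if_pos rfl, if_neg (Ne.symm hxy)]
    rw [h3]
    exact h2.symm
  · have h1 : s(x, y) ∉ F.filter (fun e => w ∈ e) := fun h => hw (Finset.mem_filter.1 h).2
    rw [Finset.erase_eq_of_notMem h1]
    have h4 : w ≠ x := fun h => hw (Sym2.mem_iff.2 (Or.inl h))
    have h5 : w ≠ y := fun h => hw (Sym2.mem_iff.2 (Or.inr h))
    rw [if_neg h4, if_neg h5, add_zero, add_zero]

theorem bd_comm (x y w : V) : bd x y w = bd y x w := by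
  unfold bd
  exact add_comm _ _

theorem bd_add (a c b w : V) (k : ℕ) (h : Even (k + bd a c w + bd a b w)) :
    Even (k + bd c b w) := by
  classical
  unfold bd at *
  rw [Nat.even_iff] at *
  split_ifs at * <;> omega

theorem len_eq {H : SimpleGraph V} {a b : V} {p : H.Walk a b} (hp : p.IsPath)
    {F : Finset (Sym2 V)} (hF : ∀ e, e ∈ p.edges ↔ e ∈ F) : p.length = F.card := by
  classical
  have h1 : p.edges.toFinset = F := by
    ext e
    rw [List.mem_toFinset, hF]
  rw [← p.length_edges, ← h1, List.toFinset_card_of_nodup hp.isTrail.edges_nodup]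

theorem pth_aux (H : SimpleGraph V) (L : ℕ) (hc : ∀ v (p : H.Walk v v), p.IsCycle → L < p.length)
    (n : ℕ) : ∀ (F : Finset (Sym2 V)) (a b : V), F.card = n → (F : Set (Sym2 V)) ⊆ H.edgeSet →
    F.card ≤ L → (∀ w, Even (degF F w + bd a b w)) →
    ∃ p : H.Walk a b, p.IsPath ∧ ∀ e, e ∈ p.edges ↔ e ∈ F := by
  classical
  induction n with
  | zero =>
    intro F a b hn _ _ hE
    have hF : F = ∅ := Finset.card_eq_zero.1 hn
    subst hF
    have h1 := hE a
    have hab : a = b := by
      by_contra hne
      unfold degF bd at h1
      rw [if_pos rfl, if_neg hne] at h1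
      simp at h1
    subst hab
    exact ⟨SimpleGraph.Walk.nil, SimpleGraph.Walk.IsPath.nil, by simp⟩
  | succ n ih =>
    intro F a b hn hF hL hE
    by_cases h1 : ∃ c, s(a, c) ∈ F
    · obtain ⟨c, hac⟩ := h1
      have hadj : H.Adj a c := hF hac
      have hne : a ≠ c := hadj.ne
      have hcard : (F.erase s(a, c)).card = n := by
        rw [Finset.card_erase_of_mem hac, hn]
        rfl
      obtain ⟨p, hp, hpe⟩ := ih (F.erase s(a, c)) c b hcard
        (fun e he => hF (Finset.mem_of_mem_erase he)) (by omega) (by
          intro w
          have h2 := hE w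
          rw [degF_erase F hne hac w] at h2
          exact bd_add a c b w _ h2)
      have hlen : p.length = n := by rw [len_eq hp hpe, hcard]
      by_cases hs : a ∈ p.support
      · exfalso
        have hq : (p.takeUntil a hs).IsPath := hp.takeUntil hs
        have hqe : s(a, c) ∉ (p.takeUntil a hs).edges := by
          intro h
          have h2 := (hpe _).1 (p.edges_takeUntil_subset_edges hs h)
          exact Finset.notMem_erase _ _ h2
        have hcy : (SimpleGraph.Walk.cons hadj (p.takeUntil a hs)).IsCycle :=
          (SimpleGraph.Walk.cons_isCycle_iff _ hadj).2 ⟨hq, hqe⟩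
        have h3 := hc _ _ hcy
        rw [SimpleGraph.Walk.length_cons] at h3
        have h4 := p.length_takeUntil_le_length hs
        omega
      · refine ⟨SimpleGraph.Walk.cons hadj p, hp.cons hs, ?_⟩
        intro e
        rw [SimpleGraph.Walk.edges_cons, List.mem_cons, hpe, Finset.mem_erase]
        constructor
        · rintro (rfl | h)
          · exact hac
          · exact h.2
        · intro h
          by_cases he : e = s(a, c)
          · exact Or.inl he
          · exact Or.inr ⟨he, h⟩
    · exfalso
      have hdeg : degF F a = 0 := by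
        unfold degF
        rw [Finset.card_eq_zero, Finset.filter_eq_empty_iff]
        intro e he hae
        obtain ⟨c, rfl⟩ := Sym2.mem_iff_exists.1 hae
        exact h1 ⟨c, he⟩
      have hab : a = b := by
        by_contra hne
        have h2 := hE a
        rw [hdeg] at h2
        unfold bd at h2
        rw [if_pos rfl, if_neg hne] at h2
        simp at h2
      subst hab
      have hpos : 0 < F.card := by omega
      obtain ⟨e, he⟩ := Finset.card_pos.1 hpos
      induction e using Sym2.ind with
      | _ x y =>
        have hadj : H.Adj x y := hF he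
        have hne : x ≠ y := hadj.ne
        have hcard : (F.erase s(x, y)).card = n := by
          rw [Finset.card_erase_of_mem he, hn]
          rfl
        obtain ⟨p, hp, hpe⟩ := ih (F.erase s(x, y)) y x hcard
          (fun e he => hF (Finset.mem_of_mem_erase he)) (by omega) (by
            intro w
            have h2 := hE w
            rw [degF_erase F hne he w] at h2
            rw [bd_comm]
            unfold bd at *
            rw [Nat.even_iff] at *
            split_ifs at * <;> omega)
        have hlen : p.length = n := by rw [len_eq hp hpe, hcard]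
        have hqe : s(x, y) ∉ p.edges := by
          intro h
          exact Finset.notMem_erase _ _ ((hpe _).1 h)
        have hcy : (SimpleGraph.Walk.cons hadj p).IsCycle :=
          (SimpleGraph.Walk.cons_isCycle_iff _ hadj).2 ⟨hp, hqe⟩
        have h3 := hc _ _ hcy
        rw [SimpleGraph.Walk.length_cons] at h3
        omega

end PTHH

/-- row PTH -/
theorem pth : PTHStmt := fun _ H L hc F a b hF hL hE =>
  PTHH.pth_aux H L hc F.card F a b rfl hF hL hE

end Pool.Agent.RHO
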