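import Pool.Agent.RHO.Stmts

/-! # MP_ca8ef3_an: row RAT (the rate) -/

set_option autoImplicit false

namespace Pool.Agent.RHO

open Finset Filter

namespace H69R

/-- the large `n` -/
theorem large (ex : EXPStmt) (n : ℕ) (hn : 3 ≤ n) (h1 : 1 ≤ Real.log (Real.log n))
    (h2 : 2 ^ 50 * 9 * Real.log (Real.log n) ^ 2 ≤ Real.log n) :
    ENNReal.ofReal (2 - (9 * 2 ^ 51) * Real.log (Real.log n) ^ 2 / Real.log n) ≤
      Helper18_Proj.rho n := by
  have hn0 : (0 : ℝ) < n := by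
    have : 0 < n := by omega
    exact_mod_cast this
  set ℓ : ℝ := Real.log n with hℓ
  set lam : ℝ := Real.log ℓ with hlam
  have hℓ0 : 0 < ℓ := by nlinarith
  set k : ℕ := ⌈2 * lam⌉₊ with hk
  have hk1 : 2 * lam ≤ k := Nat.le_ceil _
  have hk2 : (k : ℝ) ≤ 3 * lam := by
    have := (Nat.ceil_lt_add_one (a := 2 * lam) (by linarith)).le
    linarith
  have hk3 : 1 ≤ k := by
    have : (1 : ℝ) ≤ k := by linarith
    exact_mod_cast this
  have hkpos : (0 : ℝ) < k := by linarith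
  set K : ℝ := 2 ^ 50 * (k : ℝ) ^ 2 with hK
  have hKpos : 0 < K := by positivity
  have hK2 : K ≤ 2 ^ 50 * 9 * lam ^ 2 := by
    have : (k : ℝ) ^ 2 ≤ (3 * lam) ^ 2 := pow_le_pow_left₀ hkpos.le hk2 2
    rw [hK]
    nlinarith
  set m : ℕ := ⌊ℓ / K⌋₊ with hm
  have hm1 : 1 ≤ m := by
    rw [hm]
    apply Nat.le_floor
    rw [Nat.cast_one, le_div_iff₀ hKpos]
    linarith
  have hm2 : (m : ℝ) * K ≤ ℓ := by
    rw [← le_div_iff₀ hKpos]
    exact Nat.floor_le (div_nonneg hℓ0.le hKpos.le)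
  have hm3 : ℓ < ((m : ℝ) + 1) * K := by
    rw [← div_lt_iff₀ hKpos]
    exact Nat.lt_floor_add_one _
  have hmpos : (1 : ℝ) ≤ m := by exact_mod_cast hm1
  have hlog2 : (1 : ℝ) / 2 ≤ Real.log 2 := by
    have := Real.log_two_gt_d9
    linarith
  have hlog2' : Real.log 2 ≤ 1 := by
    have := Real.log_two_lt_d9
    linarith
  have hpow : ∀ j : ℕ, (2 : ℝ) ^ j = Real.exp (j * Real.log 2) := by
    intro j
    rw [mul_comm, Real.exp_mul, Real.exp_log (by norm_num), Real.rpow_natCast]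
  have hm4 : m ≤ 2 ^ k := by
    have h3 : (m : ℝ) ≤ ℓ := by
      have hK1 : 1 ≤ K := by
        have h5 : (1 : ℝ) ≤ (k : ℝ) ^ 2 := one_le_pow₀ (by exact_mod_cast hk3)
        rw [hK]
        nlinarith
      nlinarith
    have h4 : ℓ ≤ (2 : ℝ) ^ k := by
      rw [hpow, ← Real.log_le_iff_le_exp hℓ0]
      nlinarith
    have h5 : (m : ℝ) ≤ ((2 ^ k : ℕ) : ℝ) := by
      rw [Nat.cast_pow, Nat.cast_ofNat]
      exact h3.trans h4
    exact_mod_cast h5
  have hm5 : 2 ^ (2 ^ 50 * m * k ^ 2) ≤ n := by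
    have h5 : ((2 ^ (2 ^ 50 * m * k ^ 2) : ℕ) : ℝ) ≤ (n : ℝ) := by
      rw [Nat.cast_pow, Nat.cast_ofNat, hpow, ← Real.le_log_iff_exp_le hn0]
      have h6 : ((2 ^ 50 * m * k ^ 2 : ℕ) : ℝ) = m * K := by
        rw [hK]
        push_cast
        ring
      rw [h6]
      have h7 : 0 ≤ (m : ℝ) * K := by positivity
      nlinarith
    exact_mod_cast h5
  refine (ENNReal.ofReal_le_ofReal ?_).trans (ex m k n hm1 hk3 hm4 hm5)
  have h8 : 1 / (m : ℝ) ≤ (9 * 2 ^ 51) * lam ^ 2 / ℓ := by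
    rw [div_le_div_iff₀ (by linarith) hℓ0]
    have h9 : ℓ ≤ 2 * m * K := by nlinarith
    have h10 : 2 * (m : ℝ) * K ≤ 2 * m * (2 ^ 50 * 9 * lam ^ 2) :=
      mul_le_mul_of_nonneg_left hK2 (by positivity)
    nlinarith
  linarith

end H69R

theorem rat (ex : EXPStmt) : RATStmt := by
  have hl : Tendsto (fun n : ℕ => Real.log n) atTop atTop :=
    Real.tendsto_log_atTop.comp tendsto_natCast_atTop_atTop
  have hll : Tendsto (fun n : ℕ => Real.log (Real.log n)) atTop atTop :=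
    Real.tendsto_log_atTop.comp hl
  have h1 : ∀ᶠ n : ℕ in atTop, 1 ≤ Real.log (Real.log n) := hll.eventually_ge_atTop 1
  have h2 : ∀ᶠ x : ℝ in atTop, ‖Real.log x ^ 2‖ ≤ (1 / (2 ^ 50 * 9)) * ‖id x‖ :=
    (Real.isLittleO_pow_log_id_atTop (n := 2)).bound (by positivity)
  have h3 : ∀ᶠ n : ℕ in atTop, 2 ^ 50 * 9 * Real.log (Real.log n) ^ 2 ≤ Real.log n := by
    filter_upwards [hl.eventually h2, hl.eventually_ge_atTop 0] with n hn hn0
    rw [Real.norm_eq_abs, Real.norm_eq_abs, abs_of_nonneg (sq_nonneg _), id, abs_of_nonneg hn0] at hn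
    have := mul_le_mul_of_nonneg_left hn (show (0 : ℝ) ≤ 2 ^ 50 * 9 by positivity)
    rw [← mul_assoc, mul_one_div_cancel (by positivity), one_mul] at this
    exact this
  obtain ⟨n₀, hn₀⟩ := eventually_atTop.1 (h1.and h3)
  set S : ℝ := ∑ n ∈ Finset.range n₀, 2 * (|Real.log n| / Real.log (Real.log n) ^ 2) with hS
  refine ⟨max (9 * 2 ^ 51) S, fun n hn => ?_⟩
  have hn3 : (3 : ℝ) ≤ n := by exact_mod_cast hn
  have hl1 : 1 < Real.log n := by
    have h4 : Real.exp 1 < 3 := by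
      have := Real.exp_one_lt_d9
      linarith
    rw [Real.lt_log_iff_exp_lt (by linarith)]
    linarith
  have hll0 : 0 < Real.log (Real.log n) := Real.log_pos hl1
  have hq : 0 ≤ Real.log (Real.log n) ^ 2 / Real.log n := by positivity
  rcases le_or_gt n₀ n with h | h
  · obtain ⟨h4, h5⟩ := hn₀ n h
    refine (ENNReal.ofReal_le_ofReal ?_).trans (H69R.large ex n hn h4 h5)
    have h6 := mul_le_mul_of_nonneg_right (le_max_left (9 * 2 ^ 51) S) hq
    rw [mul_div_assoc, mul_div_assoc]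
    linarith
  · have h4 : 2 * (|Real.log n| / Real.log (Real.log n) ^ 2) ≤ S := by
      rw [hS]
      refine Finset.single_le_sum
        (f := fun n : ℕ => 2 * (|Real.log n| / Real.log (Real.log n) ^ 2)) (fun i _ => ?_)
        (Finset.mem_range.2 h)
      positivity
    rw [abs_of_pos (by linarith)] at h4
    have h5 : 2 ≤ max (9 * 2 ^ 51) S * Real.log (Real.log n) ^ 2 / Real.log n := by
      have h6 := mul_le_mul_of_nonneg_right (h4.trans (le_max_right (9 * 2 ^ 51) S)) hq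
      have h7 : 2 * (Real.log n / Real.log (Real.log n) ^ 2) *
          (Real.log (Real.log n) ^ 2 / Real.log n) = 2 := by
        have : Real.log n ≠ 0 := by linarith
        field_simp
      rw [mul_div_assoc]
      linarith
    rw [ENNReal.ofReal_of_nonpos (by linarith)]
    exact zero_le

end Pool.Agent.RHO
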