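import Pool.Agent.RHO.Stmts

/-! # MP_ca8ef3_an: row TOG (existence of toggle systems) -/

set_option autoImplicit false

namespace Pool.Agent.RHO

open Finset

namespace H69T

/-- parity of the degrees of a symmetric difference -/
theorem degF_symmDiff {V : Type} [DecidableEq (Sym2 V)] (u x : Finset (Sym2 V)) (w : V) :
    Even (degF (symmDiff u x) w + (degF u w + degF x w)) := by
  classical
  have h1 : degF (symmDiff u x) w =
      ((u.filter (fun e => w ∈ e)) \ (x.filter (fun e => w ∈ e))).card +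
      ((x.filter (fun e => w ∈ e)) \ (u.filter (fun e => w ∈ e))).card := by
    unfold degF
    rw [← Finset.card_union_of_disjoint]
    · congr 1
      ext e
      simp only [Finset.mem_filter, Finset.mem_symmDiff, Finset.mem_union, Finset.mem_sdiff]
      tauto
    · rw [Finset.disjoint_left]
      intro e he he'
      rw [Finset.mem_sdiff] at he he'
      exact he.2 he'.1
  have h2 : degF u w = ((u.filter (fun e => w ∈ e)) \ (x.filter (fun e => w ∈ e))).card +
      ((u.filter (fun e => w ∈ e)) ∩ (x.filter (fun e => w ∈ e))).card := by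
    unfold degF
    rw [Finset.card_sdiff_add_card_inter]
  have h3 : degF x w = ((x.filter (fun e => w ∈ e)) \ (u.filter (fun e => w ∈ e))).card +
      ((u.filter (fun e => w ∈ e)) ∩ (x.filter (fun e => w ∈ e))).card := by
    unfold degF
    rw [Finset.inter_comm, Finset.card_sdiff_add_card_inter]
  rw [h1, h2, h3]
  refine (Nat.even_iff).2 ?_
  omega

theorem degF_singleton {V : Type} {a b : V} (hab : a ≠ b) (w : V) :
    degF ({s(a, b)} : Finset (Sym2 V)) w = bd a b w := by
  classical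
  unfold degF bd
  rw [Finset.filter_singleton]
  by_cases h1 : w = a
  · have h2 : w ≠ b := fun h => hab (h1.symm.trans h)
    rw [if_pos (by rw [Sym2.mem_iff]; exact Or.inl h1), if_pos h1, if_neg h2,
      Finset.card_singleton]
  · by_cases h2 : w = b
    · rw [if_pos (by rw [Sym2.mem_iff]; exact Or.inr h2), if_neg h1, if_pos h2,
        Finset.card_singleton]
    · rw [if_neg (by rw [Sym2.mem_iff]; rintro (h | h); exacts [h1 h, h2 h]), if_neg h1, if_neg h2,
        Finset.card_empty]

/-- the state `u` has the vertex `v` -/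
def PV {V : Type} (H : SimpleGraph V) (v₀ : V) (u : Finset (Sym2 V)) (v : V) : Prop :=
  (u : Set (Sym2 V)) ⊆ H.edgeSet ∧ ∀ w, Even (degF u w + bd v₀ v w)

theorem PV_unique {V : Type} {H : SimpleGraph V} {v₀ : V} {u : Finset (Sym2 V)} {v v' : V}
    (h : PV H v₀ u v) (h' : PV H v₀ u v') : v = v' := by
  by_contra hne
  have h1 := (h.2 v).add (h'.2 v)
  unfold bd at h1
  rw [if_pos rfl, if_neg hne] at h1
  obtain ⟨r, hr⟩ := h1
  omega

theorem PV_diff {V : Type} [DecidableEq (Sym2 V)] {H : SimpleGraph V} {v₀ : V}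
    {u x : Finset (Sym2 V)} {v v' : V} (h : PV H v₀ u v) (h' : PV H v₀ x v') :
    ((symmDiff u x : Finset (Sym2 V)) : Set (Sym2 V)) ⊆ H.edgeSet ∧
      ∀ w, Even (degF (symmDiff u x) w + bd v v' w) := by
  constructor
  · intro e he
    rw [Finset.mem_coe, Finset.mem_symmDiff] at he
    rcases he with he | he
    · exact h.1 he.1
    · exact h'.1 he.1
  · intro w
    have h1 := degF_symmDiff u x w
    have h2 := h.2 w
    have h3 := h'.2 w
    obtain ⟨a, ha⟩ := h1
    obtain ⟨b, hb⟩ := h2
    obtain ⟨c, hc⟩ := h3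
    unfold bd at hb hc ⊢
    refine (Nat.even_iff).2 ?_
    omega

theorem PV_toggle {V : Type} [DecidableEq (Sym2 V)] {H : SimpleGraph V} {v₀ : V}
    {u : Finset (Sym2 V)} {v v' : V} (h : PV H v₀ u v) (hadj : H.Adj v v') :
    PV H v₀ (symmDiff u {s(v, v')}) v' := by
  constructor
  · intro e he
    rw [Finset.mem_coe, Finset.mem_symmDiff, Finset.mem_singleton] at he
    rcases he with he | he
    · exact h.1 he.1
    · rw [he.1]
      exact hadj
  · intro w
    have h1 := degF_symmDiff u {s(v, v')} w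
    rw [degF_singleton hadj.ne] at h1
    have h2 := h.2 w
    obtain ⟨a, ha⟩ := h1
    obtain ⟨b, hb⟩ := h2
    unfold bd at ha hb ⊢
    refine (Nat.even_iff).2 ?_
    omega

theorem exists_tg {V : Type} [Fintype V] (H : SimpleGraph V) (D : ℕ)
    (hD : ∀ v, D ≤ (H.neighborSet v).ncard) (v : V) :
    ∃ t : Finset (Sym2 V), t.card = D ∧ ∀ e ∈ t, ∃ v', H.Adj v v' ∧ e = s(v, v') := by
  classical
  have hfin : (H.neighborSet v).Finite := Set.toFinite _
  have h1 : D ≤ hfin.toFinset.card := by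
    rw [← Set.ncard_eq_toFinset_card _ hfin]
    exact hD v
  obtain ⟨t, ht1, ht2⟩ := Finset.exists_subset_card_eq h1
  refine ⟨t.image fun w => s(v, w), ?_, ?_⟩
  · rw [Finset.card_image_of_injOn, ht2]
    intro a _ b _ hab
    have : a = b ∨ v = b ∧ a = v := by simpa using hab
    rcases this with h | ⟨h, h'⟩
    · exact h
    · rw [h', h]
  · intro e he
    obtain ⟨w, hw, rfl⟩ := Finset.mem_image.1 he
    refine ⟨w, ?_, rfl⟩
    have := ht1 hw
    rw [Set.Finite.mem_toFinset] at this
    exact this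

end H69T

open H69T

theorem tog (gr2 : GR2Stmt) (pp1 : PP1Stmt) (pp2 : PP2Stmt) : TOGStmt := by
  classical
  intro D L hD hL
  obtain ⟨V, iF, iN, H, hcyc, hdeg, hcard⟩ := gr2 D (2 * L) hD (by omega)
  obtain ⟨v₀⟩ := iN
  choose tg htg1 htg2 using exists_tg H D hdeg
  have hcyc' : ∀ v (p : H.Walk v v), p.IsCycle → L < p.length := fun v p hp => by
    have := hcyc v p hp
    omega
  let St : Finset (Sym2 V) → Prop := fun u => ∃ v, PV H v₀ u v
  let tg' : Finset (Sym2 V) → Finset (Sym2 V) := fun u => if h : St u then tg h.choose else ∅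
  have key : ∀ u v, PV H v₀ u v → tg' u = tg v := by
    intro u v huv
    have h : St u := ⟨v, huv⟩
    have : h.choose = v := PV_unique h.choose_spec huv
    show (if h : St u then tg h.choose else ∅) = tg v
    rw [dif_pos h, this]
  refine ⟨Sym2 V, inferInstance, inferInstance,
    { St := St
      tog := tg'
      base := ∅
      base_st := ⟨v₀, by simp, fun w => ?_⟩
      closed := ?_
      card_tog := ?_
      p1 := ?_
      p2 := ?_ }, ?_⟩
  · unfold bd degF
    simp
  · rintro u e ⟨v, hv⟩ he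
    rw [key u v hv] at he
    obtain ⟨v', hadj, rfl⟩ := htg2 v e he
    exact ⟨v', PV_toggle hv hadj⟩
  · rintro u ⟨v, hv⟩
    rw [key u v hv, htg1]
  · rintro u x ⟨v, hv⟩ ⟨v', hv'⟩ hux
    rw [key u v hv, Finset.card_le_one]
    intro e he e' he'
    rw [Finset.mem_inter] at he he'
    obtain ⟨h1, h2⟩ := PV_diff hv hv'
    obtain ⟨c, -, hc⟩ := htg2 v e he.1
    obtain ⟨c', -, hc'⟩ := htg2 v e' he'.1
    exact pp1 V H L hcyc' _ v v' h1 hux h2 e he.2 e' he'.2 (by rw [hc]; exact Sym2.mem_mk_left _ _)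
      (by rw [hc']; exact Sym2.mem_mk_left _ _)
  · rintro u x y e ⟨v, hv⟩ ⟨v₁, hv₁⟩ ⟨v₂, hv₂⟩ he hex hey hux huy
    rw [key u v hv] at he
    obtain ⟨c, -, hc⟩ := htg2 v e he
    obtain ⟨h1, h2⟩ := PV_diff hv hv₁
    obtain ⟨h3, h4⟩ := PV_diff hv hv₂
    exact pp2 V H L hcyc _ _ v v₁ v₂ h1 h3 hux huy h2 h4 e hex
      (by rw [hc]; exact Sym2.mem_mk_left _ _) hey
  · have hn : 1 ≤ Fintype.card V := Fintype.card_pos_iff.2 ⟨v₀⟩
    rw [Sym2.card]
    have h1 : (Fintype.card V + 1).choose 2 ≤ Fintype.card V ^ 2 := by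
      rw [Nat.choose_two_right]
      apply Nat.div_le_of_le_mul
      rw [Nat.add_sub_cancel]
      nlinarith
    refine h1.trans ?_
    calc Fintype.card V ^ 2 ≤ (2 * (4 * D) ^ (2 * L + 1)) ^ 2 := Nat.pow_le_pow_left hcard 2
      _ = 4 * (4 * D) ^ (4 * L + 2) := by ring

end Pool.Agent.RHO
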