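import Pool.Agent.RHO.DET
import Pool.Agent.RHO.ETA
import Pool.Agent.RHO.CNT
import Pool.Agent.RHO.GR1
import Pool.Agent.RHO.GR2
import Pool.Agent.RHO.PTH
import Pool.Agent.RHO.PP1
import Pool.Agent.RHO.PP2
import Pool.Agent.RHO.TOG
import Pool.Agent.RHO.HO1
import Pool.Agent.RHO.HO2
import Pool.Agent.RHO.AVG
import Pool.Agent.RHO.GRM
import Pool.Agent.RHO.NET
import Pool.Agent.RHO.NRM
import Pool.Agent.RHO.BAD
import Pool.Agent.RHO.CO1
import Pool.Agent.RHO.COR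
import Pool.Agent.RHO.HB
import Pool.Agent.RHO.MAI
import Pool.Agent.RHO.NU1
import Pool.Agent.RHO.NU2
import Pool.Agent.RHO.CFG
import Pool.Agent.RHO.EXP
import Pool.Agent.RHO.RAT
import Pool.Agent.RHO.LIM

/-!
# A rate for the convergence of `ρ_n` to `2`
-/

set_option autoImplicit false

namespace Pool.Agent.RHO.FIN1

open Filter Topology Pool.Agent.Helper18_Proj Pool.Agent.RHO

theorem tog' : TOGStmt := tog (gr2 gr1) (pp1 pth) (pp2 pth (pp1 pth))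

theorem cfg' : CFGStmt := cfg tog' net (Grm33.grm ho1 ho2 avg) nu1 nu2

theorem cor' : CORStmt := cor nrm det etaRow (co1 Bad33.bad (cnt etaRow))

theorem q' : QStmt := q_of cfg' (mai nrm cor' hb)

/-- There is a constant `C` with `ρ_n ≥ 2 - C (log log n)^2 / log n` for all `n ≥ 3`; explicitly,
`ρ_n ≥ 2 - 1/m` if `n ≥ 2^(2^50 m k^2)`, `m ≤ 2^k`. In particular `ρ_n` tends to `2`. -/
theorem result :
    (∃ C : ℝ, ∀ n : ℕ, 3 ≤ n →
      ENNReal.ofReal (2 - C * Real.log (Real.log n) ^ 2 / Real.log n) ≤ rho n) ∧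
    (∀ m k n : ℕ, 1 ≤ m → 1 ≤ k → m ≤ 2 ^ k → 2 ^ (2 ^ 50 * m * k ^ 2) ≤ n →
      ENNReal.ofReal (2 - 1 / m) ≤ rho n) ∧
    Tendsto rho atTop (𝓝 2) :=
  ⟨rat (RHO.exp q'), RHO.exp q', limit_of (RHO.exp q')⟩

end Pool.Agent.RHO.FIN1
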