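import Pool.Agent.RHO.Stmts2

/-!
# MP_ca8ef3_an: row GRM2 (the Gram lemma for a kernel)
-/

set_option autoImplicit false

namespace Pool.Agent.RHO.Grm81

open Finset Pool.Agent.RHO

theorem cases_of_abs {v : ℝ} (h : |v| = 1) : v = 1 ∨ v = -1 := by
  rcases abs_cases v with h' | h'
  · left; linarith [h'.1]
  · right; linarith [h'.1]

theorem abs_of_cases {v : ℝ} (h : v = 1 ∨ v = -1) : |v| = 1 := by
  rcases h with rfl | rfl <;> simp

/-- The exponential of a multiple of a sign minus a constant. -/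
theorem exp_sign {v : ℝ} (h : v = 1 ∨ v = -1) (t μ : ℝ) :
    Real.exp (t * (v - μ)) = (1 + v) / 2 * Real.exp (t * (1 - μ)) +
      (1 - v) / 2 * Real.exp (-(t * (1 + μ))) := by
  rcases h with rfl | rfl
  · norm_num
  · have : t * (-1 - μ) = -(t * (1 + μ)) := by ring
    rw [this]
    norm_num

/-- The moment generating function of a sign. -/
theorem mgf (ho1 : HO1Stmt) (Ω : Type) [Fintype Ω] (v : Ω → ℝ) (μ : ℝ)
    (hv : ∀ x, v x = 1 ∨ v x = -1) (hμ : |μ| ≤ 1) (hsum : ∑ x, v x = Fintype.card Ω * μ) (t : ℝ) :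
    ∑ x, Real.exp (t * (v x - μ)) ≤ Fintype.card Ω * Real.exp (t ^ 2 / 2) := by
  simp only [exp_sign (hv _) t μ]
  rw [Finset.sum_add_distrib, ← Finset.sum_mul, ← Finset.sum_mul]
  have h1 : ∑ x, (1 + v x) / 2 = Fintype.card Ω * ((1 + μ) / 2) := by
    rw [← Finset.sum_div, Finset.sum_add_distrib, hsum]
    simp only [Finset.sum_const, Finset.card_univ, nsmul_eq_mul, mul_one]
    ring
  have h2 : ∑ x, (1 - v x) / 2 = Fintype.card Ω * ((1 - μ) / 2) := by
    rw [← Finset.sum_div, Finset.sum_sub_distrib, hsum]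
    simp only [Finset.sum_const, Finset.card_univ, nsmul_eq_mul, mul_one]
    ring
  rw [h1, h2]
  rw [abs_le] at hμ
  have h3 := ho1 ((1 + μ) / 2) t (by linarith) (by linarith)
  have e1 : 2 * t * (1 - (1 + μ) / 2) = t * (1 - μ) := by ring
  have e2 : 2 * t * ((1 + μ) / 2) = t * (1 + μ) := by ring
  have e3 : 1 - (1 + μ) / 2 = (1 - μ) / 2 := by ring
  rw [e1, e2, e3] at h3
  have h4 : (0:ℝ) ≤ Fintype.card Ω := Nat.cast_nonneg _
  nlinarith [mul_le_mul_of_nonneg_left h3 h4]

/-- The moment generating function of a symmetric sign with a factor. -/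
theorem mgf0 (ho1 : HO1Stmt) (Ω : Type) [Fintype Ω] (v : Ω → ℝ) (b : ℝ)
    (hv : ∀ x, v x = 1 ∨ v x = -1) (hsum : ∑ x, v x = 0) (t : ℝ) :
    ∑ x, Real.exp (t * (v x * b)) ≤ Fintype.card Ω * Real.exp (t ^ 2 * b ^ 2 / 2) := by
  have h := mgf ho1 Ω v 0 hv (by simp) (by rw [hsum, mul_zero]) (t * b)
  have e : ∀ x, t * (v x * b) = t * b * (v x - 0) := fun x => by ring
  simp only [e]
  refine h.trans_eq ?_
  rw [mul_pow]

/-- Average of a function of one coordinate. -/
theorem avg_coord {J X : Type} [Fintype J] [DecidableEq J] [Fintype X] (j : J) (F : X → ℝ) :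
    (Fintype.card X : ℝ) * ∑ ω : J → X, F (ω j) = Fintype.card (J → X) * ∑ x, F x := by
  classical
  have e := Equiv.funSplitAt j X
  have h1 : ∑ ω : J → X, F (ω j) = ∑ p : X × ({i // i ≠ j} → X), F p.1 :=
    Fintype.sum_equiv (Equiv.funSplitAt j X) _ _ fun ω => rfl
  have h2 : ∑ p : X × ({i // i ≠ j} → X), F p.1 =
      Fintype.card ({i // i ≠ j} → X) * ∑ x, F x := by
    rw [Fintype.sum_prod_type, Finset.mul_sum]
    refine Finset.sum_congr rfl fun x _ => ?_
    simp only
    rw [Finset.sum_const, Finset.card_univ, nsmul_eq_mul]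
  have h3 : Fintype.card (J → X) = Fintype.card X * Fintype.card ({i // i ≠ j} → X) := by
    rw [Fintype.card_congr e, Fintype.card_prod]
  rw [h1, h2, h3]
  push_cast
  ring

/-- The sign of the state `x` in copy `j` at the sample point `w`. -/
noncomputable def sk {J Ω X : Type} (σ : Ω → X → ℝ) (w : J → Bool × Ω) (j : J) (x : X) : ℝ :=
  (if (w j).1 then 1 else -1) * σ (w j).2 x

theorem sk_cases {J Ω X : Type} {σ : Ω → X → ℝ} (hσ : ∀ ω x, |σ ω x| = 1) (w : J → Bool × Ω)
    (j : J) (x : X) : sk σ w j x = 1 ∨ sk σ w j x = -1 := by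
  unfold sk
  rcases cases_of_abs (hσ (w j).2 x) with h | h
  · rw [h]
    split_ifs
    · left; norm_num
    · right; norm_num
  · rw [h]
    split_ifs
    · right; norm_num
    · left; norm_num

/-- The involution changing the free sign of the copy `j`. -/
def flp {J Ω : Type} [DecidableEq J] (j : J) : (J → Bool × Ω) ≃ (J → Bool × Ω) where
  toFun ω := Function.update ω j (!(ω j).1, (ω j).2)
  invFun ω := Function.update ω j (!(ω j).1, (ω j).2)
  left_inv ω := by
    funext i
    by_cases hi : i = j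
    · subst hi
      simp
    · simp [Function.update_of_ne hi]
  right_inv ω := by
    funext i
    by_cases hi : i = j
    · subst hi
      simp
    · simp [Function.update_of_ne hi]

theorem sk_flp {J Ω X : Type} [DecidableEq J] (σ : Ω → X → ℝ) (j : J) (w : J → Bool × Ω)
    (x : X) : sk σ (flp j w) j x = -sk σ w j x := by
  unfold sk flp
  simp only [Equiv.coe_fn_mk, Function.update_self]
  cases (w j).1 <;> simp

theorem sk_flp_ne {J Ω X : Type} [DecidableEq J] (σ : Ω → X → ℝ) {j i : J} (h : i ≠ j)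
    (w : J → Bool × Ω) (x : X) : sk σ (flp j w) i x = sk σ w i x := by
  unfold sk flp
  simp only [Equiv.coe_fn_mk, Function.update_of_ne h]

theorem avg1 {J Ω X : Type} [Fintype J] [DecidableEq J] [Fintype Ω] (σ : Ω → X → ℝ) (j : J)
    (x : X) : ∑ w : J → Bool × Ω, sk σ w j x = 0 := by
  have h1 : ∑ w : J → Bool × Ω, sk σ w j x = ∑ w : J → Bool × Ω, -(sk σ w j x) := by
    rw [← Equiv.sum_comp (flp j) (fun w : J → Bool × Ω => sk σ w j x)]
    refine Finset.sum_congr rfl fun w _ => ?_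
    rw [sk_flp]
  rw [Finset.sum_neg_distrib] at h1
  linarith

theorem avg2 {J Ω X : Type} [Fintype J] [DecidableEq J] [Fintype Ω] (σ : Ω → X → ℝ)
    (K : X → X → ℝ) (hΩ : 0 < Fintype.card Ω)
    (hK : ∀ x y, ∑ ω, σ ω x * σ ω y = Fintype.card Ω * K x y) (j j' : J) (x y : X) :
    ∑ w : J → Bool × Ω, sk σ w j x * sk σ w j' y =
      Fintype.card (J → Bool × Ω) * (if j = j' then K x y else 0) := by
  by_cases hjj : j = j'
  · subst hjj
    rw [if_pos rfl]
    have h0 : ∀ b : Bool, (if b = true then (1:ℝ) else -1) * (if b = true then (1:ℝ) else -1)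
        = 1 := by
      intro b
      cases b <;> simp
    have h1 : ∑ w : J → Bool × Ω, sk σ w j x * sk σ w j y =
        ∑ w : J → Bool × Ω, (fun p : Bool × Ω => σ p.2 x * σ p.2 y) (w j) := by
      refine Finset.sum_congr rfl fun w _ => ?_
      unfold sk
      calc _ = ((if (w j).1 = true then (1:ℝ) else -1) * (if (w j).1 = true then (1:ℝ) else -1)) *
          (σ (w j).2 x * σ (w j).2 y) := by ring
        _ = _ := by rw [h0, one_mul]
    have h2 := avg_coord (J := J) j (fun p : Bool × Ω => σ p.2 x * σ p.2 y)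
    have h3 : ∑ p : Bool × Ω, σ p.2 x * σ p.2 y = 2 * (Fintype.card Ω * K x y) := by
      rw [Fintype.sum_prod_type]
      simp only
      rw [hK, Finset.sum_const, Finset.card_univ, Fintype.card_bool, nsmul_eq_mul]
      push_cast
      ring
    have h4 : (Fintype.card (Bool × Ω) : ℝ) = 2 * Fintype.card Ω := by
      rw [Fintype.card_prod, Fintype.card_bool]
      push_cast
      ring
    rw [h3, h4] at h2
    rw [h1]
    have h6 : (0:ℝ) < Fintype.card Ω := by exact_mod_cast hΩ
    have h5 : (2 * (Fintype.card Ω : ℝ)) ≠ 0 := by positivity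
    apply mul_left_cancel₀ h5
    rw [h2]
    ring
  · rw [if_neg hjj, mul_zero]
    have h1 : ∑ w : J → Bool × Ω, sk σ w j x * sk σ w j' y =
        ∑ w : J → Bool × Ω, -(sk σ w j x * sk σ w j' y) := by
      rw [← Equiv.sum_comp (flp j) (fun w : J → Bool × Ω => sk σ w j x * sk σ w j' y)]
      refine Finset.sum_congr rfl fun w _ => ?_
      rw [sk_flp, sk_flp_ne σ (fun h => hjj h.symm)]
      ring
    rw [Finset.sum_neg_distrib] at h1
    linarith

theorem grm2 (ho1 : HO1Stmt) (ho2 : HO2Stmt) : GRM2Stmt := by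
  intro N J X Ω₀ J' _ _ _ _ _ σ K b τ hN hτ hΩ0 hσ hK hb hJ hlt
  classical
  have hN' : (0:ℝ) < N := by exact_mod_cast hN
  have hc0 : (0:ℝ) < Fintype.card Ω₀ := by exact_mod_cast hΩ0
  have hK1 : ∀ x y, |K x y| ≤ 1 := by
    intro x y
    have h1 : |(Fintype.card Ω₀ : ℝ) * K x y| ≤ Fintype.card Ω₀ := by
      rw [← hK]
      refine (Finset.abs_sum_le_sum_abs _ _).trans ?_
      have : ∀ ω ∈ (Finset.univ : Finset Ω₀), |σ ω x * σ ω y| = 1 := by
        intro ω _
        rw [abs_mul, hσ, hσ, one_mul]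
      rw [Finset.sum_congr rfl this]
      simp
    rw [abs_mul, abs_of_pos hc0] at h1
    exact le_of_mul_le_mul_left (by linarith) hc0
  -- the sample space
  set Ω := (J → Bool × Ω₀) with hΩ
  set n : ℝ := (Fintype.card Ω : ℝ) with hn
  have : Nonempty Ω₀ := Fintype.card_pos_iff.1 hΩ0
  have : Nonempty Ω := ⟨fun _ => (true, Classical.arbitrary _)⟩
  have hn0 : 0 < n := by
    rw [hn]
    exact_mod_cast Fintype.card_pos
  -- bad events
  let bad1 : (J × X) × (J × X) → Set (Fin N → Ω) := fun p =>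
    {ω | τ * N < |∑ l, (sk σ (ω l) p.1.1 p.1.2 * sk σ (ω l) p.2.1 p.2.2 -
      (if p.1.1 = p.2.1 then K p.1.2 p.2.2 else 0))|}
  let bad2 : (J × X) × J' → Set (Fin N → Ω) := fun p =>
    {ω | τ * √N < |∑ l, sk σ (ω l) p.1.1 p.1.2 * b p.2 l|}
  have hb1 : ∀ p, ((bad1 p).ncard : ℝ) ≤ 2 * n ^ N * Real.exp (-(τ ^ 2 * N / 2)) := by
    rintro ⟨⟨j, u⟩, ⟨j', u'⟩⟩
    set μ : ℝ := (if j = j' then K u u' else 0) with hμ
    have hμ1 : |μ| ≤ 1 := by
      rw [hμ]
      split_ifs
      · exact hK1 u u'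
      · simp
    have h := ho2 N Ω (fun _ x => sk σ x j u * sk σ x j' u' - μ) (fun _ => 1) (τ * N) N
      (by
        intro l t
        have := mgf ho1 Ω (fun x => sk σ x j u * sk σ x j' u') μ
          (fun x => by
            rcases sk_cases hσ x j u with h | h <;> rcases sk_cases hσ x j' u' with h' | h' <;>
              simp [h, h'])
          hμ1 (avg2 σ K hΩ0 hK j j' u u') t
        simpa using this)
      (by positivity) hN' (by simp) (by intro l; exact zero_le_one)
    refine h.trans_eq ?_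
    congr 2
    field_simp
  have hb2 : ∀ p, ((bad2 p).ncard : ℝ) ≤ 2 * n ^ N * Real.exp (-(τ ^ 2 * N / 2)) := by
    rintro ⟨⟨j, u⟩, j'⟩
    have h := ho2 N Ω (fun l x => sk σ x j u * b j' l) (fun l => b j' l ^ 2) (τ * √N) 1
      (by
        intro l t
        exact mgf0 ho1 Ω (fun x => sk σ x j u) (b j' l) (fun x => sk_cases hσ x j u)
          (avg1 σ j u) t)
      (by have := Real.sqrt_pos.2 hN'; positivity) one_pos
      (by
        have := hb j'
        unfold ip at this
        simpa [sq] using this)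
      (by intro l; positivity)
    refine h.trans_eq ?_
    congr 2
    rw [mul_pow, Real.sq_sqrt hN'.le]
    ring
  -- union bound
  have hcount : ∃ ω : Fin N → Ω, (∀ p, ω ∉ bad1 p) ∧ (∀ p, ω ∉ bad2 p) := by
    by_contra hcon
    push Not at hcon
    have hcov : (Set.univ : Set (Fin N → Ω)) ⊆ (⋃ p, bad1 p) ∪ (⋃ p, bad2 p) := by
      intro ω _
      by_cases h : ∀ p, ω ∉ bad1 p
      · obtain ⟨p, hp⟩ := hcon ω h
        exact Or.inr (Set.mem_iUnion.2 ⟨p, hp⟩)
      · push Not at h
        obtain ⟨p, hp⟩ := h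
        exact Or.inl (Set.mem_iUnion.2 ⟨p, hp⟩)
    have h1 : (Set.univ : Set (Fin N → Ω)).ncard ≤
        ∑ p, (bad1 p).ncard + ∑ p, (bad2 p).ncard := by
      calc (Set.univ : Set (Fin N → Ω)).ncard
          ≤ ((⋃ p, bad1 p) ∪ (⋃ p, bad2 p)).ncard := Set.ncard_le_ncard hcov (Set.toFinite _)
        _ ≤ (⋃ p, bad1 p).ncard + (⋃ p, bad2 p).ncard := Set.ncard_union_le _ _
        _ ≤ _ := add_le_add (Set.ncard_iUnion_le_of_fintype _) (Set.ncard_iUnion_le_of_fintype _)
    have h2 : ((Set.univ : Set (Fin N → Ω)).ncard : ℝ) = n ^ N := by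
      rw [Set.ncard_univ, Nat.card_eq_fintype_card, Fintype.card_fun, Fintype.card_fin, hn]
      push_cast
      rfl
    have h3 : n ^ N ≤ ∑ p, ((bad1 p).ncard : ℝ) + ∑ p, ((bad2 p).ncard : ℝ) := by
      rw [← h2]
      exact_mod_cast h1
    set Y : ℝ := 2 * n ^ N * Real.exp (-(τ ^ 2 * N / 2)) with hY
    have hY0 : 0 ≤ Y := by positivity
    have h4 : ∑ p, ((bad1 p).ncard : ℝ) ≤
        (Fintype.card J : ℝ) ^ 2 * (Fintype.card X : ℝ) ^ 2 * Y := by
      calc ∑ p, ((bad1 p).ncard : ℝ) ≤ ∑ _p : (J × X) × (J × X), Y :=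
            Finset.sum_le_sum fun p _ => hb1 p
        _ = (Fintype.card J : ℝ) ^ 2 * (Fintype.card X : ℝ) ^ 2 * Y := by
            simp only [Finset.sum_const, Finset.card_univ, nsmul_eq_mul, Fintype.card_prod]
            push_cast
            ring
    have h5 : ∑ p, ((bad2 p).ncard : ℝ) ≤
        (Fintype.card J : ℝ) ^ 2 * (Fintype.card X : ℝ) ^ 2 * Y := by
      calc ∑ p, ((bad2 p).ncard : ℝ) ≤ ∑ _p : (J × X) × J', Y :=
            Finset.sum_le_sum fun p _ => hb2 p
        _ = (Fintype.card J : ℝ) * Fintype.card X * Fintype.card J' * Y := by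
            simp only [Finset.sum_const, Finset.card_univ, nsmul_eq_mul, Fintype.card_prod]
            push_cast
            ring
        _ ≤ (Fintype.card J : ℝ) * (Fintype.card X : ℝ) ^ 2 * Fintype.card J * Y := by
            have h6 : (Fintype.card J' : ℝ) ≤ Fintype.card J := by exact_mod_cast hJ
            have h7 : (Fintype.card X : ℝ) ≤ (Fintype.card X : ℝ) ^ 2 := by
              exact_mod_cast Nat.le_self_pow two_ne_zero (Fintype.card X)
            gcongr
        _ = (Fintype.card J : ℝ) ^ 2 * (Fintype.card X : ℝ) ^ 2 * Y := by ring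
    have h7 : n ^ N ≤ (4 * (Fintype.card J : ℝ) ^ 2 * (Fintype.card X : ℝ) ^ 2 *
        Real.exp (-(τ ^ 2 * N / 2))) * n ^ N := by
      calc n ^ N ≤ (Fintype.card J : ℝ) ^ 2 * (Fintype.card X : ℝ) ^ 2 * Y +
            (Fintype.card J : ℝ) ^ 2 * (Fintype.card X : ℝ) ^ 2 * Y := by linarith
        _ = _ := by rw [hY]; ring
    have h8 : 0 < n ^ N := pow_pos hn0 _
    nlinarith
  obtain ⟨ω, hω1, hω2⟩ := hcount
  refine ⟨fun j u l => sk σ (ω l) j u, fun j u l => abs_of_cases (sk_cases hσ _ _ _), ?_, ?_⟩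
  · intro j j' u u'
    have h := hω1 ((j, u), (j', u'))
    simp only [bad1, Set.mem_ofPred_eq, not_lt] at h
    refine le_trans (le_of_eq ?_) h
    congr 1
    rw [Finset.sum_sub_distrib]
    simp only [ip, Finset.sum_const, Finset.card_univ, Fintype.card_fin, nsmul_eq_mul]
    split_ifs <;> ring
  · intro j u j'
    have h := hω2 ((j, u), j')
    simp only [bad2, Set.mem_ofPred_eq, not_lt] at h
    exact h

end Pool.Agent.RHO.Grm81
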