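import Pool.Agent.Helper75_RHO3.AVS
import Pool.Agent.Helper10_RHO3.BDT
import Pool.Agent.Helper10_RHO3.RMC
import Pool.Agent.Helper54_RHO3.CRD
import Pool.Agent.Helper54_RHO3.NM2
import Pool.Agent.Helper33_RHO3.GCO
import Pool.Agent.Helper33_RHO3.KSY
import Pool.Agent.Helper92_RHO3.MG1
import Pool.Agent.Helper92_RHO3.TRL
import Pool.Agent.Helper65_RHO3.MG2
import Pool.Agent.Helper85_RHO3.Mg3
import Pool.Agent.Helper75_RHO3.NM1
import Pool.Agent.Helper2_RHO3.PVB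
import Pool.Agent.Helper56_RHO3.QDF
import Pool.Agent.Helper56_RHO3.RMB
import Pool.Agent.Helper56_RHO3.SMB
import Pool.Agent.RHO.DUA
import Pool.Agent.RHO.NBC
import Pool.Agent.Helper97_RHO4.PTZ
import Pool.Agent.Helper33_RHO4.CHB
import Pool.Agent.Helper33_RHO4.FAR
import Pool.Agent.Helper33_RHO4.GLU
import Pool.Agent.Helper33_RHO4.IV1
import Pool.Agent.Helper48_RHO4.CPL
import Pool.Agent.Helper48_RHO4.SPN
import Pool.Agent.Helper48_RHO4.KIL
import Pool.Agent.Helper15_RHO4.GR3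
import Pool.Agent.Helper2_RHO4.PS1
import Pool.Agent.Helper2_RHO4.HS1
import Pool.Agent.Helper27_RHO4.HSL
import Pool.Agent.Helper56_RHO4.KE1
import Pool.Agent.Helper56_RHO4.PV1
import Pool.Agent.Helper56_RHO4.SU1
import Pool.Agent.Helper59_RHO4.KI1
import Pool.Agent.Helper59_RHO4.ROH
import Pool.Agent.Helper9_RHO4.NM4
import Pool.Agent.Helper28_RHO4.WSQ
import Pool.Agent.Helper85_RHO4.MG5
import Pool.Agent.Helper85_RHO4.MG6
import Pool.Agent.Helper36_RHO4.NM3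

/-!
# MP_ca8ef3_an, stage 3: existence of the kernel system
-/

set_option autoImplicit false

namespace Pool.Agent.RHO.HK4

open Pool.Agent.RHO

theorem rmb' : RMBStmt := H56c.rmb

theorem rmc' : RMCStmt := H10c.rmc rmb'

theorem dua' : DUAStmt := RHO.dua rmb'

theorem pvb' : PVBStmt := H02c.pvb rmb'

theorem qdf' : QDFStmt := H56c.qdf dua'

theorem avs' : AVSStmt := H75c.avs rmb' qdf'

theorem bdt' : BDTStmt := H10c.bdt rmc' dua' qdf'

theorem nbc' : NBCStmt := RHO.nbc rmc' qdf'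

theorem hsl' : HSLStmt :=
  H27d.hsl (H33d.glu rmb' dua' H33d.chb) (H48d.kil rmb' H48d.cpl H33d.far (H48d.spn rmb'))

theorem ki1' : KI1Stmt := H59d.ki1 (H33d.iv1 hsl' pvb') (H59d.roh pvb' rmb') pvb' qdf'

theorem ke1' : KE1Stmt := H56d.ke1 qdf' pvb' H56d.su1 (H56d.pv1 dua')

theorem ps1' : PS1Stmt := H02d.ps1 avs' pvb' qdf' bdt' nbc' (H97d.afz H97d.ptz) ke1' ki1'

theorem gr3' : GR3Stmt :=
  H15d.gr3 H85d.mg5 (H85d.mg6 H85c.mg3) (H28d.wsq H56c.smb) H65c.mg2 H56c.smb H92c.trl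

/-- The kernel systems with `2 ^ 2 ^ (8300 a ^ 2)` states exist. -/
theorem hs1' : HS1Stmt :=
  H02d.hs1 gr3' ps1' (H33c.ksy H33c.gco) (H54c.crd qdf') H75c.nm1 H54c.nm2 H36d.nm3 H9d.nm4

end Pool.Agent.RHO.HK4
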