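import Pool.Agent.Helper18_Proj.Defs

/-!
# The numbers `ρ_n` are at most `2`
-/

set_option autoImplicit false

namespace Pool.Agent.RHO.LE2

open Module Filter Topology Pool.Agent.Helper18_Proj

/-- Every normed space of positive dimension has a hyperplane which is the range of a projection
of norm at most `2`. -/
lemma minHyperplane_le_two (X : Type) [NormedAddCommGroup X] [NormedSpace ℝ X]
    [FiniteDimensional ℝ X] (hn : 0 < finrank ℝ X) : minHyperplane X ≤ 2 := by
  have : Nontrivial X := Module.finrank_pos_iff.1 hn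
  obtain ⟨x, hx⟩ := exists_ne (0 : X)
  obtain ⟨g, hg1, hgx⟩ := exists_dual_vector ℝ x (norm_ne_zero_iff.2 hx)
  have hN : 0 < ‖x‖ := norm_pos_iff.2 hx
  set x' : X := ‖x‖⁻¹ • x with hx'
  have hx'1 : ‖x'‖ = 1 := by
    rw [hx', norm_smul, norm_inv, norm_norm, inv_mul_cancel₀ hN.ne']
  have hgx' : g x' = 1 := by
    rw [hx', map_smul, hgx, smul_eq_mul]
    exact inv_mul_cancel₀ hN.ne'
  set P : X →L[ℝ] X := ContinuousLinearMap.id ℝ X - g.smulRight x' with hP
  have hPz : ∀ z, P z = z - g z • x' := fun z => rfl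
  have hproj : IsProj (LinearMap.ker (g : X →ₗ[ℝ] ℝ)) P := by
    constructor
    · apply le_antisymm
      · rintro _ ⟨z, rfl⟩
        rw [LinearMap.mem_ker]
        show g (P z) = 0
        rw [hPz, map_sub, map_smul, hgx']
        simp
      · intro z hz
        refine ⟨z, ?_⟩
        show P z = z
        have : g z = 0 := hz
        rw [hPz, this, zero_smul, sub_zero]
    · intro z hz
      have : g z = 0 := hz
      rw [hPz, this, zero_smul, sub_zero]
  have hP2 : ‖P‖ ≤ 2 := by
    refine P.opNorm_le_bound (by norm_num) fun z => ?_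
    rw [hPz]
    calc ‖z - g z • x'‖ ≤ ‖z‖ + ‖g z • x'‖ := norm_sub_le _ _
      _ ≤ ‖z‖ + ‖z‖ := by
          rw [norm_smul, hx'1, mul_one]
          have := g.le_opNorm z
          rw [hg1, one_mul] at this
          linarith
      _ = 2 * ‖z‖ := by ring
  have hdim : finrank ℝ (LinearMap.ker (g : X →ₗ[ℝ] ℝ)) + 1 = finrank ℝ X := by
    have h1 := LinearMap.finrank_range_add_finrank_ker (g : X →ₗ[ℝ] ℝ)
    have h2 : LinearMap.range (g : X →ₗ[ℝ] ℝ) = ⊤ := by
      rw [LinearMap.range_eq_top]
      intro r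
      refine ⟨r • x', ?_⟩
      show g (r • x') = r
      rw [map_smul, hgx', smul_eq_mul, mul_one]
    rw [h2, finrank_top, Module.finrank_self] at h1
    omega
  have h3 : minHyperplane X ≤ ENNReal.ofReal ‖P‖ := by
    refine (iInf₂_le (LinearMap.ker (g : X →ₗ[ℝ] ℝ)) hdim).trans ?_
    exact iInf₂_le P hproj
  refine h3.trans ?_
  rw [← ENNReal.ofReal_ofNat]
  exact ENNReal.ofReal_le_ofReal hP2

lemma rho_le_two (n : ℕ) (hn : 0 < n) : rho n ≤ 2 := by
  unfold rho
  refine iSup_le fun X => iSup_le fun _ => iSup_le fun _ => iSup_le fun _ => iSup_le fun h => ?_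
  exact minHyperplane_le_two X (by rw [h]; exact hn)

end Pool.Agent.RHO.LE2
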