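import Pool.Agent.RHO.Stmts2
import Pool.Agent.RHO.Kit

/-!
# MP_ca8ef3_an, stage 2, row MAI2: the bound for given data
-/

set_option autoImplicit false

namespace Pool.Agent.RHO

open Finset

/-- row MAI2 -/
theorem mai2 (nrm2 : NRM2Stmt) (cor2 : COR2Stmt) (hb : HBStmt) : MAI2Stmt := by
  intro q N D g M X Ω J _ _ _ _ κ C
  have hq : (16:ℝ) ≤ q := by exact_mod_cast C.hq
  have hq0 : (0:ℝ) < q := by linarith
  have hd0 : 0 < dl q := dl_pos C.hq
  have hdq : dl q * (16 * q) = 1 := by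
    unfold dl
    field_simp
  have h2q : (2:ℝ) / q = 32 * dl q := by
    rw [div_eq_iff hq0.ne']
    linarith
  have h4q : (4:ℝ) / q = 64 * dl q := by
    rw [div_eq_iff hq0.ne']
    linarith
  refine hb N ((J × Fin M) × X) (fun i => C.gam i) (1 + 6 * dl q)
    (2 - 4 / q) C.hN (by linarith) (by rw [h4q]; linarith) ?_ ?_
  · intro ψ hψ
    have h1 : √(ip ψ ψ) ≤ 0 := nrm2 q N D g M X Ω J κ C ψ 0 fun j => hψ (j, C.S.base)
    have h2 : ip ψ ψ ≤ 0 := Real.sqrt_eq_zero'.1 (le_antisymm h1 (Real.sqrt_nonneg _))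
    have h3 : ip ψ ψ = 0 := le_antisymm h2 (ip_self_nonneg ψ)
    unfold ip at h3
    rw [Finset.sum_eq_zero_iff_of_nonneg fun l _ => mul_self_nonneg _] at h3
    funext l
    exact mul_self_eq_zero.1 (h3 l (Finset.mem_univ l))
  · intro c ψ ξ hc hψ h1 h2 h3
    obtain ⟨v, i, h4, h5⟩ := cor2 q N D g M X Ω J ((J × Fin M) × X) κ C
      (fun i => i) c ψ ξ (fun i => ⟨i, rfl⟩) hc hψ h1 h2 h3
    refine ⟨v, i, h4, le_trans ?_ h5⟩
    rw [h4q, h2q]
    nlinarith [mul_pos hd0 hd0]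

end Pool.Agent.RHO
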