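import Pool.Agent.RHO.Stmts2

/-! # MP_ca8ef3_an, stage 2, row RAT2 (the rate) -/

set_option autoImplicit false

namespace Pool.Agent.RHO

/-- row RAT2 -/
theorem rat2 : RAT2Stmt := by
  intro C H
  obtain ⟨C₁, hC₁⟩ : ∃ C₁, C₁ = max C 1 := ⟨_, rfl⟩
  have hC1 : C ≤ C₁ := by rw [hC₁]; exact le_max_left _ _
  have hC2 : 1 ≤ C₁ := by rw [hC₁]; exact le_max_right _ _
  have hC0 : (0 : ℝ) < C₁ := by exact_mod_cast hC2
  have hL : 0 < Real.log 2 := Real.log_pos (by norm_num)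
  obtain ⟨K, hK⟩ : ∃ K, K = (C₁ * Real.log 2) ^ ((1:ℝ) / 3) := ⟨_, rfl⟩
  have hKpos : 0 < K := by rw [hK]; exact Real.rpow_pos_of_pos (mul_pos hC0 hL) _
  have hK3 : K ^ 3 = C₁ * Real.log 2 := by
    rw [hK, ← Real.rpow_natCast, ← Real.rpow_mul (mul_pos hC0 hL).le]
    norm_num
  refine ⟨Real.log 2 / K, 4, div_pos hL hKpos, fun n hn => ?_⟩
  have hn0 : (0 : ℝ) < n := by exact_mod_cast hn
  have hln : 0 ≤ Real.log n := Real.log_nonneg (by exact_mod_cast hn)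
  obtain ⟨x, hx⟩ : ∃ x, x = Real.log n ^ ((1:ℝ) / 3) / K := ⟨_, rfl⟩
  have hx0 : 0 ≤ x := by
    rw [hx]
    exact div_nonneg (Real.rpow_nonneg hln _) hKpos.le
  have hx3 : x ^ 3 * (C₁ * Real.log 2) = Real.log n := by
    have h1 : (Real.log n ^ ((1:ℝ) / 3)) ^ 3 = Real.log n := by
      rw [← Real.rpow_natCast, ← Real.rpow_mul hln]
      norm_num
    rw [hx, div_pow, h1, ← hK3, div_mul_cancel₀]
    exact (pow_pos hKpos 3).ne'
  have hexp : Real.exp (-(Real.log 2 / K * Real.log n ^ ((1:ℝ) / 3))) =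
      Real.exp (-(Real.log 2 * x)) := by
    rw [hx]
    congr 2
    ring
  rw [hexp]
  have hpow : ∀ j : ℕ, Real.exp (-(Real.log 2 * j)) = 1 / (2:ℝ) ^ j := by
    intro j
    rw [Real.exp_neg, Real.exp_mul, Real.exp_log (by norm_num), Real.rpow_natCast, one_div]
  obtain ⟨a, ha⟩ : ∃ a, a = ⌊x⌋₊ := ⟨_, rfl⟩
  have ha1 : (a : ℝ) ≤ x := by rw [ha]; exact Nat.floor_le hx0
  have ha2 : x < a + 1 := by rw [ha]; exact Nat.lt_floor_add_one x
  have h1 : 1 / (2:ℝ) ^ (a + 1) ≤ Real.exp (-(Real.log 2 * x)) := by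
    rw [← hpow, Real.exp_le_exp]
    push_cast
    nlinarith
  rcases Nat.eq_zero_or_pos a with h0 | h0
  · rw [h0] at h1
    rw [ENNReal.ofReal_of_nonpos (by norm_num at h1 ⊢; linarith)]
    exact zero_le
  · have h2 : 2 ^ (C * a ^ 3) ≤ n := by
      refine le_trans (Nat.pow_le_pow_right (by norm_num)
        (Nat.mul_le_mul_right (a ^ 3) hC1)) ?_
      have h3 : ((C₁ * a ^ 3 : ℕ) : ℝ) * Real.log 2 ≤ Real.log n := by
        push_cast
        rw [← hx3]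
        have h4 : (a : ℝ) ^ 3 ≤ x ^ 3 := pow_le_pow_left₀ (Nat.cast_nonneg a) ha1 3
        have h5 := mul_le_mul_of_nonneg_right h4 (mul_pos hC0 hL).le
        linarith
      have h6 : ((2 ^ (C₁ * a ^ 3) : ℕ) : ℝ) ≤ (n : ℝ) := by
        rw [Nat.cast_pow, Nat.cast_ofNat, ← Real.log_le_log_iff (by positivity) hn0, Real.log_pow]
        exact h3
      exact_mod_cast h6
    refine (ENNReal.ofReal_le_ofReal ?_).trans (H a n h0 h2)
    rw [pow_succ] at h1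
    have h7 : (0:ℝ) < 2 ^ a := by positivity
    have h8 : 1 / (2:ℝ) ^ a = 2 * (1 / (2 ^ a * 2)) := by
      field_simp
    have h9 : 0 < Real.exp (-(Real.log 2 * x)) := Real.exp_pos _
    rw [h8]
    linarith

end Pool.Agent.RHO
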