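import Pool.Agent.RHO.Stmts3

/-!
# MP_ca8ef3_an, stage 3: the kernel system with affine factors (`k = 1`) — `HasK a (2 ^ (c a ^ 2))`

The kernel of one label is `pv m 1 k1` (the factors `q_j` are affine functions, `RM ι 1`), the degree
of the functionals is `k1 + 1 * m`. New: the inverse theorem for affine factors, the exact value for
affinely independent points, and a graph with affinely independent points along all paths. The
proof of each row is its docstring; use other rows (also of `Stmts3`) as hypotheses. All functions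
have values in `ZMod 2`, so `a * a = a` for each function `a`, and `pr (τ * a) f = pr τ (a * f)`.
-/

set_option autoImplicit false

namespace Pool.Agent.RHO

open Finset

/-! ## Definitions -/

/-- The points of `Z` are affinely independent (over the field with two elements). -/
def AfI {ι : Type} (Z : Finset (Pt ι)) : Prop :=
  ∀ J ⊆ Z, J ≠ ∅ → Even J.card → ∑ z ∈ J, z ≠ 0

/-- The indicator function of the cell `c = v` of finitely many functions `c j`. -/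
def acl {ι : Type} {h : ℕ} (c : Fin h → Fn ι) (v : Fin h → ZMod 2) : Fn ι :=
  fun z => ∏ j, (c j z + v j + 1)

/-- The point of a vertex. -/
def ptv {P : Type} : P ⊕ P → P := Sum.elim id id

/-- A graph as in `LG` such that the points of the vertices of each path are affinely independent.
The vertex of the number `j` of the walk with the labels `L` from `v` is
`(L.take j).foldl (ot s) v`. -/
structure LG1 (ι : Type) (D t : ℕ) [Fintype ι] [DecidableEq ι] extends LG ι D t where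
  afi : ∀ (p : Pt ι) (L : List (Fin D)), L.IsChain (· ≠ ·) → L.length ≤ t →
    ∀ J : Finset ℕ, J ≠ ∅ → (∀ j ∈ J, j ≤ L.length) → Even J.card →
    ∑ j ∈ J, ptv ((L.take j).foldl (ot s) (Sum.inl p)) ≠ 0

/-- The degree of the first factor. -/
def qk (a : ℕ) : ℕ := 37 * a + 104

/-- The bound for the sizes of sets of edges. -/
def qT (a : ℕ) : ℕ := 2 ^ (37 * a + 104)

/-- The dimension of the vectors of each level. -/
def qA (a : ℕ) : ℕ := (37 + 10 * a) * qT a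

/-! ## A. The exact value -/

/-- ROW SU1 (the values of affine functions at affinely independent points are arbitrary). PROOF.
Otherwise the image of the linear map `RM ι 1 → (Z → ZMod 2)` (restriction) is a proper subspace, so
there is a nonzero `w : Z → ZMod 2` with `∑_{z ∈ Z} w z * f z = 0` for all `f ∈ RM ι 1`
(`Submodule.exists_le_ker_of_lt_top`; a functional on `Z → ZMod 2` is given by its values on the
`Pi.single z 1`). Let `J = {z ∈ Z : w z ≠ 0}` (there `w z = 1`), `J ≠ ∅`. With `f = 1` (`mon ∅`):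
`J.card` is even; with `f = (z ↦ z i)` (`mon {i}`): `∑_{z ∈ J} z i = 0` for all `i`:
against `AfI`. -/
def SU1Stmt : Prop := ∀ (ι : Type) [Fintype ι] [DecidableEq ι] (Z : Finset (Pt ι)), AfI Z →
  ∀ g : Pt ι → ZMod 2, ∃ f ∈ RM ι 1, ∀ z ∈ Z, f z = g z

/-- ROW PV1 (exact value; the same as `PVE` of `Stmts3` with `SUR` replaced by the hypothesis).
PROOF. `Van (ind Z * wp q) k1` holds iff `wp q` vanishes on `Z` (`DUA` for `ind Z * wp q`, whose
support is in `Z`, `Z.card < 2^(k1+1)`). By hypothesis the linear map `RM ι k → (Z → ZMod 2)` is onto,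
so all its fibres have the same number of elements, and the number of the `q : Fin m → RM ι k` with
values `b : Fin m → Z → ZMod 2` does not depend on `b`. So `pv` is the fraction of the `b` such that
for each `z ∈ Z` not all `b j z` are `1`, which is `((2^m - 1)/2^m)^Z.card`
(`Z → (Fin m → ZMod 2)`). -/
def PV1Stmt : Prop := ∀ (ι : Type) [Fintype ι] [DecidableEq ι] (m k k1 : ℕ) (Z : Finset (Pt ι)),
  (∀ g : Pt ι → ZMod 2, ∃ f ∈ RM ι k, ∀ z ∈ Z, f z = g z) → Z.card < 2 ^ (k1 + 1) →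
  pv m k k1 (ind Z) = (1 - 1 / 2 ^ m) ^ Z.card

/-- ROW KE1 (exact values). PROOF. Let `Z_i` be the set of the points `p` with `(p, i) ∈ Z` (the
image in the statement). `chn d Z i` is the class of `ind Z_i` (`QDF` (3)), so by `PVB` (third part;
`rp T` is a representative of `T`), `SU1`, `PV1` (`Z_i.card ≤ Z.card < 2^(k1+1)`)
`pv m 1 k1 (rp (chn d Z i)) = (1 - 1/2^m)^(Z_i.card)`; multiply, `∑ i, Z_i.card = Z.card`. -/
def KE1Stmt : Prop := ∀ (ι : Type) [Fintype ι] [DecidableEq ι] (D m k1 : ℕ)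
  (Z : Finset (Pt ι × Fin D)), (∀ i, AfI ((Z.filter fun e => e.2 = i).image Prod.fst)) →
  Z.card < 2 ^ (k1 + 1) →
  KT m 1 k1 (chn (k1 + 1 * m) Z) = (1 - 1 / 2 ^ m) ^ Z.card

/-! ## B. The inverse theorem for affine factors -/

/-- ROW CPL (complement). PROOF. `U = Λ.comap (RM ι 1).subtype`, `Q = (RM ι 1) ⧸ U`,
`h = finrank Q`, `c` lifts of a basis (`Module.finBasis`). `Nat.card (RM ι 1) = Nat.card Q *
Nat.card U` (`Submodule.card_eq_card_quotient_mul_card` or the same for additive groups),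
`Nat.card Q = 2^h`, `Nat.card U = Nat.card Λ`. (Signs: `-1 = 1`.) -/
def CPLStmt : Prop := ∀ (ι : Type) [Fintype ι] [DecidableEq ι] (Λ : Submodule (ZMod 2) (Fn ι)),
  Λ ≤ RM ι 1 → ∃ (h : ℕ) (c : Fin h → Fn ι), (∀ j, c j ∈ RM ι 1) ∧
    2 ^ h * Nat.card Λ = Nat.card (RM ι 1) ∧
    ∀ f ∈ RM ι 1, ∃ β : Fin h → ZMod 2, f + ∑ j, β j • c j ∈ Λ

/-- ROW FAR (affine systems without solutions). PROOF. Take a linear functional `φ` on `Fn ι` with
`φ = 0` on `Λ` and `φ 1 ≠ 0`, so `φ 1 = 1` (`Submodule.exists_le_ker_of_notMem`). Let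
`z i = φ (x ↦ x i)`. For `f ∈ RM ι 1` one has `f z = φ f` (true for `mon ∅ = 1` and
`mon {i}`, and linear in `f`: `Submodule.span_induction`). So `f z = 0` for `f ∈ Λ`. -/
def FARStmt : Prop := ∀ (ι : Type) [Fintype ι] [DecidableEq ι] (Λ : Submodule (ZMod 2) (Fn ι)),
  Λ ≤ RM ι 1 → (1 : Fn ι) ∉ Λ → ∃ z : Pt ι, ∀ f ∈ Λ, f z = 0

/-- ROW SPN (spanning). PROOF. Let `M e` be the span of the `l * p`, `l ∈ Λ`, `p ∈ RM ι e`. CLAIM:
for each `A` with `A.card ≤ e + 1` there is `b` with `mon A z = b (c z)` for all `z` in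
`Z' = {z : l z = 0 for all l ∈ Λ}` and `mon A + ∑_v b v • acl c v ∈ M e`. Induction on `A` (for all
`e`). `A = ∅`: `b = 1`, `∑_v acl c v = 1` (`Finset.prod_univ_sum`; `∑_x (c + x + 1) = 1` over
`x : ZMod 2`). Step: `mon (insert i A) = (x ↦ x i) * mon A`; let `β` be such that
`l = (x ↦ x i) + ∑_j β j • c j ∈ Λ`, and `b` for `A` (with `e - 1`, i.e. `A.card ≤ e`; if `e = 0` then
`A = ∅` and `mon A + ∑_v acl c v = 0`), `m' = mon A + ∑_v b v • acl c v`. Since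
`c j * acl c v = v j • acl c v` (pointwise: if `c j z ≠ v j` then `acl c v z = 0`),
`mon (insert i A) = l * mon A + ∑_j β j c j * (m' + ∑_v b v • acl c v)`, so
`b' v = (∑_j β j * v j) * b v` works (`l * mon A ∈ M e`, `c j * m' ∈ M e`; on `Z'`
`z i = ∑_j β j * c j z`). (It is convenient to use for the induction the spans `M e`, and `c j * M
(e-1) ≤ M e`.) The set of the `f` for which the statement of the row holds is a subspace (add the
`b`), and contains the `mon A` with `A.card ≤ D + 1` since `pr σ = 0` on `M D`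
(`pr σ (l * p) = pr (σ * l) p`). -/
def SPNStmt : Prop := ∀ (ι : Type) [Fintype ι] [DecidableEq ι] (D h : ℕ) (σ : Fn ι)
  (Λ : Submodule (ZMod 2) (Fn ι)) (c : Fin h → Fn ι), (∀ j, c j ∈ RM ι 1) →
  (∀ f ∈ RM ι 1, ∃ β : Fin h → ZMod 2, f + ∑ j, β j • c j ∈ Λ) →
  (∀ l ∈ Λ, Van (σ * l) D) →
  ∀ f ∈ RM ι (D + 1), ∃ b : (Fin h → ZMod 2) → ZMod 2,
    (∀ z : Pt ι, (∀ l ∈ Λ, l z = 0) → f z = b (fun j => c j z)) ∧
    pr σ f = ∑ v, b v * pr σ (acl c v)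

/-- ROW KIL (a functional killed by many affine functions). PROOF. `h`, `c` from `CPL`:
`2^h * card Λ = card (RM ι 1) ≤ 2^D * card Λ`, so `h ≤ D`, and `acl c v ∈ RM ι h ≤ RM ι D`. Let
`Z' = {z : l z = 0 for all l ∈ Λ}`. CLAIM: if no `z ∈ Z'` has `c z = v` then `pr σ (acl c v) = 0`.
Let `Λ' = Λ ⊔ span {c j + v j}` (`v j` the constant function `v j • 1`), `Λ' ≤ RM ι 1`. It has no
common zero (such a zero is in `Z'` and has `c j z = v j`), so by `FAR` `1 ∈ Λ'`: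
`1 = l + ∑_j β j • (c j + v j)`, `l ∈ Λ`. As `acl c v * (c j + v j) = 0`, `acl c v = acl c v * l` and
`pr σ (acl c v) = pr (σ * l) (acl c v) = 0`. Let `S = {v : pr σ (acl c v) = 1}`, for `v ∈ S` take
`z_v ∈ Z'` with `c z_v = v` (they are distinct), `F = {z_v}`, `F.card ≤ 2^h`. For `f ∈ RM ι (D + 1)`
`SPN` gives `pr σ f = ∑_{v ∈ S} b v = ∑_{v ∈ S} f z_v = pr (ind F) f`. -/
def KILStmt : Prop := ∀ (ι : Type) [Fintype ι] [DecidableEq ι] (D : ℕ) (σ : Fn ι)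
  (Λ : Submodule (ZMod 2) (Fn ι)), Λ ≤ RM ι 1 → (∀ l ∈ Λ, Van (σ * l) D) →
  Nat.card (RM ι 1) ≤ 2 ^ D * Nat.card Λ →
  ∃ F : Finset (Pt ι), F.card * Nat.card Λ ≤ Nat.card (RM ι 1) ∧ Van (σ + ind F) (D + 1)

/-- ROW CHB (Chebyshev). PROOF. Let `s z q = sg2 (q z) = ±1`. For `z ∈ B`
`∑_{q ∈ Q} s z q = Q.card - 2 * #{q ∈ Q : q z = 1} ≥ Q.card / 2`. So with
`f q = ∑_{z ∈ B} s z q`: `B.card * Q.card / 2 ≤ ∑_{q ∈ Q} f q`, and by Cauchy–Schwarz
`(∑_{q ∈ Q} f q)^2 ≤ Q.card * ∑_{q ∈ Q} (f q)^2 ≤ Q.card * ∑_{all q} (f q)^2 =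
Q.card * card (RM ι 1) * B.card`, because `∑_{all q} s z q * s z' q = 0` for `z ≠ z'` (let
`z i ≠ z' i`; the bijection `q ↦ q + (x ↦ x i)` changes the sign of the product) and
`= card (RM ι 1)` for `z = z'`. Divide by `B.card * Q.card` (if it is `0` the statement is
trivial). -/
def CHBStmt : Prop := ∀ (ι : Type) [Fintype ι] [DecidableEq ι] (Q : Finset (RM ι 1))
  (B : Finset (Pt ι)),
  (∀ z ∈ B, 4 * (Q.filter fun q : RM ι 1 => (q : Fn ι) z = 1).card ≤ Q.card) →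
  B.card * Q.card ≤ 4 * Fintype.card (RM ι 1)

/-- ROW GLU (gluing). PROOF. (i) For `q ∈ Q`, `F q ⊆ {q = 1}`: `(q + 1) * (τ * q) = 0`, so for
`p ∈ RM ι (D - 1)`, with `(q + 1) * p ∈ RM ι D`,
`0 = pr (τ * q + ind (F q)) ((q + 1) * p) = pr (ind (F q) * (q + 1)) p`: `ind (F q) * (q + 1)`
vanishes on `RM ι (D - 1)` and has at most `N < 2^D` points in its support: it is `0` (`DUA`).
(ii) For `q, q' ∈ Q`: `F q ∩ {q' = 1} = F q' ∩ {q = 1}`: `ind (F q) * q' + ind (F q') * q` vanishes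
on `RM ι (D - 1)` (both differ from `τ * q * q'` by functions vanishing there) and has at most
`2 N < 2^D` points in its support: it is `0`. Let `F₁ = ⋃_{q ∈ Q} F q`. For `q ∈ Q`
`F q = F₁ ∩ {q = 1}` (`⊆` is (i); if `z ∈ F q'`, `q z = 1` then `z ∈ F q` by (ii), as
`z ∈ F q' ∩ {q = 1}`). So `ind (F q) = ind F₁ * q` and the first two claims follow. Last claim: let
`B = {z ∈ F₁ : 4 * #{q ∈ Q : q z = 1} ≤ Q.card}`; by `CHB` `B.card * Q.card ≤ 4 card (RM ι 1)`.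
`∑_{z ∈ F₁} #{q ∈ Q : q z = 1} = ∑_{q ∈ Q} (F q).card ≤ N * Q.card`, so
`(F₁ \ B).card * Q.card ≤ 4 * N * Q.card`. -/
def GLUStmt : Prop := ∀ (ι : Type) [Fintype ι] [DecidableEq ι] (D N : ℕ) (τ : Fn ι)
  (Q : Finset (RM ι 1)) (F : RM ι 1 → Finset (Pt ι)), 1 ≤ D → 2 * N < 2 ^ D →
  (∀ q ∈ Q, (F q).card ≤ N ∧ Van (τ * (q : Fn ι) + ind (F q)) D) →
  ∃ F₁ : Finset (Pt ι), (∀ q ∈ Q, Van ((τ + ind F₁) * (q : Fn ι)) D) ∧
    F₁.card * Q.card ≤ 4 * N * Q.card + 4 * Fintype.card (RM ι 1)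

/-- ROW HSL (half-space lemma). PROOF. Choose `F q`; `F₁` from `GLU`:
`F₁.card * Q.card ≤ (4 N + 4 t) * Q.card` and `Q.card > 0` (as `card (RM ι 1) > 0`), so
`F₁.card ≤ 4 N + 4 t`. Let `σ = τ + ind F₁`, `Λ` the span of the functions of `Q`:
`Van (σ * l) D` for all `l ∈ Λ` (linear in `l`), `Nat.card Λ ≥ Q.card`, so
`card (RM ι 1) ≤ t * Nat.card Λ ≤ 2^D * Nat.card Λ` and `KIL` gives `F₂` with
`F₂.card * Nat.card Λ ≤ card (RM ι 1) ≤ t * Nat.card Λ`, `F₂.card ≤ t`. Let `F = symmDiff F₁ F₂`: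
`ind F = ind F₁ + ind F₂`, `τ + ind F = σ + ind F₂`. -/
def HSLStmt : Prop := ∀ (ι : Type) [Fintype ι] [DecidableEq ι] (D N t : ℕ) (τ : Fn ι)
  (Q : Finset (RM ι 1)), 1 ≤ D → 2 * N < 2 ^ D → t ≤ 2 ^ D →
  Fintype.card (RM ι 1) ≤ t * Q.card →
  (∀ q ∈ Q, ∃ F : Finset (Pt ι), F.card ≤ N ∧ Van (τ * (q : Fn ι) + ind F) D) →
  ∃ F : Finset (Pt ι), F.card ≤ 4 * N + 5 * t ∧ Van (τ + ind F) (D + 1)

/-- ROW IV1 (inverse theorem). PROOF. Induction on `m` (for all `K`, `τ`) of the statement with the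
bound `F.card ≤ 2 * 8^m * K - 2 * K`. `m = 0`: `pv 0 1 k1 τ > 0` means `Van τ k1` (`wp q = 1`),
`F = ∅`. Step `m + 1`: by `PVB` the average over `q : RM ι 1` of `pv m 1 k1 (τ * q) ∈ [0, 1]` is
`≥ 1/K`, so the set `Q` of the `q` with `pv m 1 k1 (τ * q) ≥ 1/(2K)` has
`card (RM ι 1) ≤ 2 K * Q.card`. For `q ∈ Q` by induction (with `2 K`;
`4 * 8^m * (2 K) ≤ 4 * 8^(m+1) * K ≤ 2^k1`) there is `F` with `F.card ≤ N = 2 * 8^m * 2 K - 4 K` and
`Van (τ * q + ind F) (k1 + m)`. `HSL` with `D = k1 + m`, `t = 2 K` (`2 N < 8^(m+1) K ≤ 2^k1`,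
`2 K ≤ 2^k1`, `1 ≤ k1` as `4 ≤ 2^k1`): `F` with
`F.card ≤ 4 N + 10 K = 2 * 8^(m+1) * K - 6 K ≤ 2 * 8^(m+1) * K - 2 K`. -/
def IV1Stmt : Prop := ∀ (ι : Type) [Fintype ι] [DecidableEq ι] (m k1 K : ℕ) (τ : Fn ι),
  1 ≤ K → 4 * 8 ^ m * K ≤ 2 ^ k1 → (1 : ℝ) / K ≤ pv m 1 k1 τ →
  ∃ F : Finset (Pt ι), F.card ≤ 2 * 8 ^ m * K ∧ Van (τ + ind F) (k1 + m)

/-- ROW ROH (a nonzero functional has `pv ≤ 1 - 1/2^m`). PROOF. Induction on `m` (for all `τ`).
`m = 0`: `wp q = 1`, `pv 0 1 k1 τ = 0`. Step `m + 1`, `¬ Van τ (k1 + m + 1)`: the set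
`H = {q ∈ RM ι 1 : Van (τ * q) (k1 + m)}` is a subspace of `RM ι 1`, and it is not everything:
otherwise `pr τ (q * p) = 0` for all `q ∈ RM ι 1`, `p ∈ RM ι (k1 + m)`, and each `mon A` with
`A.card ≤ k1 + m + 1` is such a product. So `2 * H.card ≤ card (RM ι 1)`. By `PVB` `pv (m+1) 1 k1 τ`
is the average of `pv m 1 k1 (τ * q)`, which is `≤ 1` for `q ∈ H` and `≤ 1 - 1/2^m` for `q ∉ H`
(induction): at most `1/2 + (1/2) (1 - 1/2^m) = 1 - 1/2^(m+1)`. -/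
def ROHStmt : Prop := ∀ (ι : Type) [Fintype ι] [DecidableEq ι] (m k1 : ℕ) (τ : Fn ι),
  ¬ Van τ (k1 + m) → pv m 1 k1 τ ≤ 1 - 1 / 2 ^ m

/-- ROW KI1 (inverse theorem for the kernel). PROOF. Let `ρ = 1 - 1/2^m ∈ [1/2, 1)`. Each factor
`pv m 1 k1 (rp (T i))` of `KT` is in `[0, 1]` (`PVB`), so it is `≥ KT ≥ ρ^t ≥ 1/K`, and `IV1` gives
`F_i` with `F_i.card ≤ 2 * 8^m * K` and `Van (rp (T i) + ind F_i) (k1 + m)`, so
`T i = ∑_{p ∈ F_i} ev p` (`QDF` (3), `rp (T i)` is a representative of `T i`). If `T i = 0` take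
`F_i = ∅` instead. Let `s` be the number of the `i` with `T i ≠ 0`; for these
`¬ Van (rp (T i)) (k1 + m)`, so by `ROH` the factor is `≤ ρ`, and `ρ^t ≤ KT ≤ ρ^s`, so `s ≤ t`.
`Z = {(p, i) : p ∈ F_i}`, `Z.card = ∑ i, F_i.card ≤ s * (2 * 8^m * K)`. -/
def KI1Stmt : Prop := ∀ (ι : Type) [Fintype ι] [DecidableEq ι] (D m k1 t K : ℕ)
  (T : Fin D → Qd ι (k1 + 1 * m)), 1 ≤ m → 1 ≤ K → 4 * 8 ^ m * K ≤ 2 ^ k1 →
  (1 : ℝ) / K ≤ (1 - 1 / 2 ^ m) ^ t → (1 - 1 / 2 ^ m) ^ t ≤ KT m 1 k1 T →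
  ∃ Z : Finset (Pt ι × Fin D), Z.card ≤ t * (2 * 8 ^ m * K) ∧ T = chn (k1 + 1 * m) Z

/-! ## C. The graph -/

/-- ROW MG5 (sums of prefixes). PROOF. Let `n` be the maximum of `J`, `y = L.take n`
(`y.length = n`, consecutive letters distinct). CLAIM (also the claim in `MG1`): if `y` has distinct
consecutive letters and `W.length < y.length` then `mg b W y = 0`. Induction on `W` (for all `b`,
`y`): `mgP i m (j :: y) = m (j :: y) + [j = i] m y` with `m = mg false W`, both are `0`;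
`mgL i m (j :: y) = m (j :: y) + [j = i] mgL i m y`; if `j = i` then `y = j' :: y'` with `j' ≠ i` (`y`
is not empty), so `mgL i m y = m y = 0` as `W.length < y.length`. So the terms of the sum with
`j < n` are `0`, and the term `j = n` is `mg true y y = 1` (`MG1`). -/
def MG5Stmt : Prop := ∀ (D : ℕ) (L : List (Fin D)) (J : Finset ℕ), L.IsChain (· ≠ ·) →
  J ≠ ∅ → (∀ j ∈ J, j ≤ L.length) →
  ∃ y : List (Fin D), y.length ≤ L.length ∧ ∑ j ∈ J, mg true (L.take j) y = 1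

/-- ROW MG6 (good matrices). PROOF. Union bound over the triples `(L, J, d)`: there are at most
`(D + 1)^t` words of length `≤ t` (inject into `Fin t → Option (Fin D)`), `2^(t+1)` sets
`J ⊆ range (t + 1)`, and `t + 1` values `d`; each bad set has at most `t/2^A` of all `M` (`MG3` with
the function `y ↦ ∑ j ∈ J, mg true (L.take j) y`). -/
def MG6Stmt : Prop := ∀ (A D t : ℕ) (u : Fin A → ZMod 2), u ≠ 0 →
  (t + 1) ^ 2 * 2 ^ (t + 1) * (D + 1) ^ t < 2 ^ A →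
  ∃ M : Fin t → Fin D → Matrix (Fin A) (Fin A) (ZMod 2), ∀ L : List (Fin D), L.length ≤ t →
    ∀ J : Finset ℕ, (∀ j ∈ J, j ≤ L.length) → ∀ d ≤ t,
    (∃ y, y.length = d ∧ ∑ j ∈ J, mg true (L.take j) y ≠ 0) →
    evl (xM M) (fun y => ∑ j ∈ J, mg true (L.take j) y) 0 d u ≠ 0

/-- ROW WSQ (walks in the graph and walks of sequences). PROOF. Induction on `L` (for all `p`).
`Stp (xM M) i (sq p) (sq (s i p))` by `SMB`. From `inl p` the first step is to `inr (s i p)`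
(`Wq.up`), from `inr p` to `inl ((s i).symm p)` (`Wq.dn`). -/
def WSQStmt : Prop := ∀ (A D t : ℕ) (M : Fin t → Fin D → Matrix (Fin A) (Fin A) (ZMod 2))
  (s : Fin D → Equiv.Perm (Pt (Fin t × Fin A))), (∀ i z, s i z = sM M i z) →
  ∀ (L : List (Fin D)) (p : Pt (Fin t × Fin A)),
    Wq (xM M) true (sq p) (sq (ptv (L.foldl (ot s) (Sum.inl p)))) L ∧
    Wq (xM M) false (sq p) (sq (ptv (L.foldl (ot s) (Sum.inr p)))) L

/-- ROW GR3 (the graph). PROOF. `M` as in `MG6` for `u = 1` (`≠ 0` since `A > 0`),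
`s i = Equiv.ofBijective (sM M i)` (`SMB`; `aff` is also in `SMB`). `afi`: let `p`, `L`, `J` be as in
the statement, `z_j = ptv ((L.take j).foldl (ot s) (Sum.inl p))`, `m y = ∑_{j ∈ J} mg true (L.take j)
y`. By `MG5` there is a word of length `≤ L.length ≤ t` with `m y ≠ 0`; let `d` be the least length
of such a word. By `WSQ`, `MG2` and additivity of `evl` in `m` (induction on the length)
`∑_{j ∈ J} sq z_j d = ∑_{r ≤ d} evl (xM M) m r (d - r) (sq p r)`; the terms with `r > 0` are `0`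
(`evl M m r l u = 0` if `m` vanishes on the words of length `l`), the term `r = 0` is not `0` by
`MG6` (`sq p 0 = 1`). If `d = 0` the left side is `J.card • 1 = 0`: contradiction. If `d = d' + 1`
the left side is the part of the level `d'` of `∑_{j ∈ J} z_j`, so this sum is not `0`. `gir`: if `Z`
is not empty, `TRL` gives a closed walk `W` with `1 ≤ W.length ≤ t`, distinct consecutive labels, at
some `inl p`: `W.foldl (ot s) (inl p) = inl p` (induction on `Wk`), and `J = {0, W.length}`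
contradicts `afi` (the sum is `p + p = 0`). -/
def GR3Stmt : Prop := ∀ (A D t : ℕ), 0 < A →
  (t + 1) ^ 2 * 2 ^ (t + 1) * (D + 1) ^ t < 2 ^ A → Nonempty (LG1 (Fin t × Fin A) D t)

/-- ROW PTZ (small sets of edges whose boundary is two vertices are paths). PROOF. The edge with the
label `i` at `v` is `lb s v i`; `lb s (ot s v i) i = lb s v i`. CLAIM: if `Z.card ≤ T`,
`bdr Z = v + w`, `v ≠ w`, then there are `i`, `L` with `i :: L` a chain, `L.length + 1 ≤ Z.card`,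
`lb s v i ∈ Z`, and for each `e ∈ Z` there is `j ≤ L.length + 1` with
`((i :: L).take j).foldl (ot s) v = inl e.1`. Induction on `Z.card`: `bdr Z v = 1`, so there is
`e = lb s v i ∈ Z`; `v₁ = ot s v i`, `Z' = Z.erase e` has boundary `v₁ + w`. If `v₁ = w` then
`Z' = ∅` by the hypothesis on `T`, take `L = []`. Otherwise let `i' :: L'` be the walk for `Z'`, `v₁`:
`lb s v₁ i' ∈ Z'`, so `i' ≠ i` (`lb s v₁ i = e`); take `L = i' :: L'`. The first end of `e` is `v`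
(`j = 0`) if `v = inl _` and `v₁` (`j = 1`) if `v = inr _`; for the other edges add `1` to `j`. Now
the row. If `v = w` then `Z = ∅`. If `v = inl p` take `p`, `i :: L`. If `v = inr l` take
`p = (s i).symm l` and `L` (`j = 0` does not occur, `j = j' + 1`). -/
def PTZStmt : Prop := ∀ (P : Type) [DecidableEq P] (D T : ℕ) (s : Fin D → Equiv.Perm P),
  (∀ Z : Finset (P × Fin D), Z.card ≤ T → (∀ v, bdr ea (eb s) Z v = 0) → Z = ∅) →
  ∀ (Z : Finset (P × Fin D)) (v w : P ⊕ P), Z.card ≤ T →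
  (∀ x, bdr ea (eb s) Z x = (if x = v then 1 else 0) + (if x = w then 1 else 0)) →
  Z = ∅ ∨ ∃ (p : P) (L : List (Fin D)), L.IsChain (· ≠ ·) ∧ L.length ≤ Z.card ∧
    ∀ e ∈ Z, ∃ j ≤ L.length, (L.take j).foldl (ot s) (Sum.inl p) = Sum.inl e.1

/-- ROW AFZ (the points of the edges with a given label are affinely independent). PROOF. `PTZ`
(with `G.gir`). If `Z = ∅` the statement is trivial. Otherwise let `p`, `L` be as in `PTZ`, and `J'`
a nonempty subset of the image with an even number of elements. For `x ∈ J'` we have `(x, i) ∈ Z`, so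
there is `j_x ≤ L.length` with `(L.take j_x).foldl (ot s) (inl p) = inl x`; `x ↦ j_x` is injective.
Let `J = {j_x}`: `J.card = J'.card`, and `∑_{j ∈ J} ptv (...) = ∑_{x ∈ J'} x`; this is not `0` by
`G.afi` (`L.length ≤ Z.card ≤ T`). -/
def AFZStmt : Prop := ∀ (ι : Type) [Fintype ι] [DecidableEq ι] (D T : ℕ) (G : LG1 ι D T)
  (Z : Finset (Pt ι × Fin D)) (v w : Pt ι ⊕ Pt ι), Z.card ≤ T →
  (∀ x, bdr ea (eb G.s) Z x = (if x = v then 1 else 0) + (if x = w then 1 else 0)) →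
  ∀ i, AfI ((Z.filter fun e => e.2 = i).image Prod.fst)

/-! ## D. The kernel system -/

/-- ROW PS1 (the data; compare `PSE`). PROOF. `X = Stt s d`, `d = k1 + 1 * m`,
`Ω = Smp ι D m 1 k1`, `V = Pt ι ⊕ Pt ι`, `E = Pt ι × Fin D`, `σ ω x = sgT ω x.1.2`,
`K x y = KT m 1 k1 (x.1.2 + y.1.2)` (`AVS` with `k = 1`; `0 ≤ KT` by `PVB`), `α = ea`, `β = eb s`,
`lab = lb s`, `vx x = x.1.1`, `nb x i = (ot s v i, T + chn d {lb s v i})` (`NBC`),
`rep x y Z : x.1.2 + y.1.2 = chn d Z` (`rep_trans`, `rep_uniq`: `QDF`, `T < 2^(d+1)`), `rep_bd`: `BDT`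
(`T + 2 < 2^(d+1)`), `gir`: the graph. `rep_K`: by `BDT` and `AFZ` the points of each label are
affinely independent, `KE1` (`T < 2^(k1+1)`). `K_rep`: `KI1` gives `Z` with
`Z.card ≤ t * (2 * 8^m * K) ≤ T` and `rep x y Z`; by `rep_K` `ρ^t ≤ K x y = ρ^Z.card`
(`ρ = 1 - 1/2^m ∈ [1/2, 1)`), so `Z.card ≤ t`. -/
def PS1Stmt : Prop := ∀ (ι : Type) [Fintype ι] [DecidableEq ι] (D m k1 t K T : ℕ)
  (G : LG1 ι D T), 1 ≤ m → 1 ≤ K → 4 * 8 ^ m * K ≤ 2 ^ k1 → T + 2 < 2 ^ (k1 + 1) →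
  t * (2 * 8 ^ m * K) ≤ T → (1 : ℝ) / K ≤ (1 - 1 / 2 ^ m) ^ t →
  Nonempty (PSys (Stt G.s (k1 + 1 * m)) (Smp ι D m 1 k1) (Pt ι ⊕ Pt ι) (Pt ι × Fin D)
    D t T (1 - 1 / 2 ^ m))

/-- ROW NM3 (numbers). PROOF. With `q = 2^a`, `ρ = 1 - 1/2^(a-1) = 1 - 2/q`: `ρ^(q/2) ≥ 1/4`
(`(1 - 1/x)^x ≥ 1/4` for `x = 2^b ≥ 2`, by induction on `b`: `(1 - 1/(2x))^2 ≥ 1 - 1/x`), so
`ρ^(pt a) = (ρ^(q/2))^(2 (8a + 26)) ≥ 4^-(16 a + 52) = 1/2^(32 a + 104)`. -/
def NM3Stmt : Prop := ∀ a : ℕ, 4 ≤ a →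
  (1 : ℝ) / (2 ^ (32 * a + 104) : ℕ) ≤ (1 - 1 / 2 ^ pm a : ℝ) ^ pt a

/-- ROW NM4 (numbers). PROOF. `pm a = a - 1`, `8^(a-1) = 2^(3a-3)`: the third number is
`2^(2 + 3a - 3 + 32a + 104) = 2^(35a+103) ≤ 2^(37a+104)`. `8a + 26 ≤ 2^(a+2)` for `a ≥ 4`
(induction), so `pt a ≤ 2^(2a+2)` and `pt a * 2^(35a+102) ≤ 2^(37a+104)`. With `T = qT a` (`≥ 2^252`),
`D + 1 ≤ 2^(34+10a)`: `(T+1)^2 * 2^(T+1) * (D+1)^T ≤ 2^(T-1) * 2^(T+1) * 2^((34+10a) T) <
2^((37+10a) T)`. Last part: `37 + 10 a ≤ 2^(a+4)`, so `n = T * A = (37 + 10a) T^2 ≤ 2^(75a+212)`,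
`n + 1 ≤ 2^(75a+213) ≤ 2^(129 a)`; `d = qk a + 1 * pm a ≤ 38 a + 103 ≤ 64 a`;
`(n+1)^d ≤ 2^(8256 a^2)`; `D = 2^(33+10a) ≤ 2^(19 a) ≤ 2^(5 a^2)`; total
`≤ 2^(8261 a^2 + 1) ≤ 2^(8300 a^2)`. -/
def NM4Stmt : Prop := ∀ a : ℕ, 4 ≤ a →
  4 * 8 ^ pm a * 2 ^ (32 * a + 104) ≤ 2 ^ qk a ∧ qT a + 2 < 2 ^ (qk a + 1) ∧
  pt a * (2 * 8 ^ pm a * 2 ^ (32 * a + 104)) ≤ qT a ∧ 0 < qA a ∧
  (qT a + 1) ^ 2 * 2 ^ (qT a + 1) * (pD a + 1) ^ qT a < 2 ^ qA a ∧ 2 * pt a + 2 ≤ qT a ∧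
  1 + qT a * qA a + pD a * (qT a * qA a + 1) ^ (qk a + 1 * pm a) ≤ 2 ^ (8300 * a ^ 2)

/-- ROW HS1 (existence of the kernel system). PROOF. `GR3` with `A = qA a`, `D = pD a`, `t = qT a`
gives the graph on `ι = Fin (qT a) × Fin (qA a)`; `PS1` with `m = pm a`, `k1 = qk a`, `t = pt a`,
`K = 2^(32 a + 104)`, `T = qT a` and `KSY` with `g = 2^a (a + 5)`, `κ = 1/2^(42+13a)` give the kernel
system, `CRD` the bound; numbers `NM1`, `NM2` (`1 ≤ pm a`, `g ≤ pt a`), `NM3`, `NM4`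
(`pD a = 2^(33+10a)` and `Fintype.card ι = qT a * qA a`; `Smp` is not empty). -/
def HS1Stmt : Prop := ∀ a : ℕ, 4 ≤ a → HasK a (2 ^ (8300 * a ^ 2))

/-- ROW EX3 (the same as `EXP2` of `Stmts2` with the exponent 2). PROOF. Let `C` be large in terms of
`c`. For `N ≥ 2^(C a^2)` let `a'` be the largest integer with `2^((c + 100) (a')^2) ≤ N`;
`a' ≥ a + 2` and `a' ≥ a₀(c)` if `C` is large (`a ≥ 1`). Then
`2^(72 + 20 a') (2^(c a'^2) + 2^(4 a')) ≤ 2^((c+100) a'^2) ≤ N` and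
`log (21 N) ≤ 4 + (c + 100)(a' + 1)^2 ≤ 2^(4 a')` as `a'` is large. So
`ρ_N ≥ 2 - 4/2^a' ≥ 2 - 1/2^a` (`Q2Stmt`, which is a hypothesis). -/
def EX3Stmt : Prop := ∀ c : ℕ, (∀ a, 4 ≤ a → HasK a (2 ^ (c * a ^ 2))) →
  ∃ C : ℕ, ∀ a N : ℕ, 1 ≤ a → 2 ^ (C * a ^ 2) ≤ N →
    ENNReal.ofReal (2 - 1 / 2 ^ a) ≤ Helper18_Proj.rho N

/-- ROW RT3 (the same as `RAT2` of `Stmts2` with the exponent 2). PROOF. Given `C ≥ 1`. For `n ≥ 1` let
`a = ⌊(log n/(C log 2))^(1/2)⌋`. If `a ≥ 1` then `2^(C a^2) ≤ n` and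
`2^-a ≤ 2 · 2^-((log n/(C log 2))^(1/2)) ≤ 2 exp(-c (log n)^(1/2))` with
`c = log 2/(C log 2)^(1/2)`; if `a = 0` then `(log n)^(1/2) < (C log 2)^(1/2)`, so
`C' exp(-c (log n)^(1/2)) ≥ 2` for `C' ≥ 4` (`c (C log 2)^(1/2) = log 2`). -/
def RT3Stmt : Prop := ∀ C : ℕ,
  (∀ a N : ℕ, 1 ≤ a → 2 ^ (C * a ^ 2) ≤ N →
    ENNReal.ofReal (2 - 1 / 2 ^ a) ≤ Helper18_Proj.rho N) →
  ∃ c C' : ℝ, 0 < c ∧ ∀ n : ℕ, 1 ≤ n →
    ENNReal.ofReal (2 - C' * Real.exp (-(c * √(Real.log n)))) ≤ Helper18_Proj.rho n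

end Pool.Agent.RHO
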